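import Pool.Agent.L0h41.QN.D
import Pool.Agent.R490.LFe

set_option autoImplicit false

/-!
# Families of sequences: the main theorem
-/

namespace Pool.Agent.L0h41.QN

open Finset Filter
open Pool.Agent.W123.RP Pool.Agent.H373R2.T7 Pool.Agent.W123.RU Pool.Agent.TH464.PO Pool.Agent.TH464.PW
open Pool.Agent.Y879.AP
open Pool.Agent.R490.P3l (exists_cst)
open Pool.Agent.R490.Mean (y_ge pow_le)
open Pool.Agent.W23.DC Pool.Agent.Y882 Pool.Agent.Y882.KW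
open Pool.Agent.L0h41.LW

set_option maxHeartbeats 4000000 in
open Classical in
/-- **Families of sequences: almost all `m` have an almost prime value.** -/
theorem mainG (c d g : ℕ) (hc : 1 ≤ c) (θ τ ζ υ lm S : ℝ) (R r0 : ℕ) (hζ : 0 < ζ) (h2 : 2 * ζ < τ)
    (h4 : τ ≤ 4 * ζ) (hζυ : ζ ≤ υ) (hυτ : υ < τ) (hlm : 0 < lm)
    (hJ : ∫ x in ζ..υ, (lm - lm / υ * x) / (τ - x) / x < Real.log (τ / ζ - 1) / τ)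
    (hτθ : 2 * τ < θ) (hθ1 : θ ≤ 1) (hSg : S ≤ g + 1) (hr : 1 / lm + S / υ ≤ R + 1) (ε : ℝ) (hε : 0 < ε)
    (hε1 : ε ≤ 1) :
    ∃ (r : ℕ) (κ0 σ ηM : ℝ), 2 ≤ r ∧ r0 ≤ r ∧ 0 < κ0 ∧ 0 < σ ∧ 0 < ηM ∧ ∀ B : ℕ, ∀ᶠ X : ℕ in atTop, ∀ Z L : ℕ,
      (X : ℝ) ^ θ ≤ L →
      ∀ (F : ℕ → ℕ → ℕ) (α : ℕ → ℝ) (J : Finset ℕ) (bad : ℕ → ℕ → Prop),
        FamG F α J bad c d ⌊(X : ℝ) ^ (1 / (r : ℝ))⌋₊ →
        (∀ j ∈ J, Mer (pr X (1 / (r : ℝ)) υ) (tt X) (gp (F j)) (1 / (r : ℝ)) υ ηM) →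
        (∀ j ∈ J, ∀ n ∈ Ioc Z (Z + L), 1 ≤ F j n ∧ ((F j n : ℕ) : ℝ) ≤ (X : ℝ) ^ S) →
        (∀ j ∈ J, ∀ p : ℕ, p.Prime → ⌊(X : ℝ) ^ (1 / (r : ℝ))⌋₊ < p →
          (((Ioc Z (Z + L)).filter (fun n => p ^ 2 ∣ F j n)).card : ℝ) ≤ c * ((L : ℝ) / (p : ℝ) ^ 2 + 1)) →
        (J.card : ℝ) ≤ Real.log X ^ B →
        0 < V1G F α J ⌊(X : ℝ) ^ (1 / (r : ℝ))⌋₊ →
        ∑ j ∈ J, α j ≤ Real.log X ^ B * V1G F α J ⌊(X : ℝ) ^ (1 / (r : ℝ))⌋₊ →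
        V2G F α J bad ⌊(X : ℝ) ^ (1 / (r : ℝ))⌋₊ ≤
          (1 + ε / 560) * V1G F α J ⌊(X : ℝ) ^ (1 / (r : ℝ))⌋₊ ^ 2 →
        S2G F α J ⌊(X : ℝ) ^ (1 / (r : ℝ))⌋₊ ≤ σ * V1G F α J ⌊(X : ℝ) ^ (1 / (r : ℝ))⌋₊ ^ 2 →
        ((BadG F α J X R Z L ζ (κ0 * (V1G F α J ⌊(X : ℝ) ^ (1 / (r : ℝ))⌋₊ / 4))).card : ℝ) ≤ ε * L := by
  have hτ0 : 0 < τ := by linarith
  have hτ1 : τ ≤ 1 := by linarith
  have hυ0 : 0 < υ := by linarith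
  have hυ1 : υ ≤ 1 := by linarith
  have hθ0 : 0 < θ := by linarith
  have hlmυ : 0 ≤ lm / υ := by positivity
  obtain ⟨f0', F0, hf0', hF0, HL⟩ := lsw4 τ ζ υ lm (lm / υ) hζ h2 h4 hτ1 hζυ hυτ hlm.le hlmυ
    (by rw [div_mul_cancel₀ _ hυ0.ne']) hJ
  obtain ⟨f0, hf0d⟩ : ∃ f0 : ℝ, f0 = min f0' 1 := ⟨_, rfl⟩
  have hf0 : 0 < f0 := by rw [hf0d]; exact lt_min hf0' one_pos
  have hf01 : f0 ≤ 1 := by rw [hf0d]; exact min_le_right _ _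
  have hf0f : f0 ≤ f0' := by rw [hf0d]; exact min_le_left _ _
  obtain ⟨C0a, x0a, hC0a, Hsec⟩ := secondG c hc
  obtain ⟨C0b, x0b, hC0b, Hcnt⟩ := countG c hc
  obtain ⟨C0, hC0⟩ : ∃ C0 : ℕ, C0 = C0a + C0b := ⟨_, rfl⟩
  obtain ⟨η, hη⟩ : ∃ η : ℝ, η = ε / 560 := ⟨_, rfl⟩
  obtain ⟨m, r, G0, hmC, hm1, hr2, hrdef, hG1, hG2, hr0K, -, -, hrζ, hrτ, hm⟩ :=
    exists_cst θ τ ζ υ lm ε f0 1 1 C0 r0 0 0 hζ h2 hζυ hυτ hlm hτθ hθ1 hε hε1 hf0 one_pos one_pos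
  obtain ⟨c1, hc1⟩ : ∃ c1 : ℝ, c1 = 1 + lm := ⟨_, rfl⟩
  obtain ⟨A, hA⟩ : ∃ A : ℝ, A = c1 * (1 + 3 * r) := ⟨_, rfl⟩
  obtain ⟨κ0, hκ0⟩ : ∃ κ0 : ℝ, κ0 = f0 / r := ⟨_, rfl⟩
  obtain ⟨R0, hR0⟩ : ∃ R0 : ℕ, R0 = 2 * (g + 1) * r := ⟨_, rfl⟩
  obtain ⟨x1, hx1⟩ : ∃ x1 : ℝ, x1 = 960 * (A * 2 ^ R0) ^ 2 / (κ0 ^ 2 * ε) + 160 / ε + 4 := ⟨_, rfl⟩
  obtain ⟨γ, hγ⟩ : ∃ γ : ℝ, γ = θ - 2 * τ := ⟨_, rfl⟩
  have hcst : Cst g θ τ ζ υ lm ε f0 c1 A κ0 x1 η γ C0 G0 m r R0 :=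
    ⟨hc1, hA, hκ0, hR0, hx1, hη, hγ, hrdef, hf0, hε, hε1, hlm, hζ, h2, hζυ, hυτ, hτθ, hθ1, hG1,
      by rw [hγ]; exact hG2, hm1, hr2, by rw [hc1]; exact hm, hrζ⟩
  obtain ⟨hA0, hκ00, hx11, hrr0, hc10, hγ0, -, -⟩ := hcst.pos
  have hhalf : (1 / 2 : ℝ) ^ m ≤ η := by
    rw [hη]
    exact Pool.Agent.R490.LFe.half_le c1 G0 f0 ε m hc10 (by exact_mod_cast hG1) hf0 hf01 hm1 hε
      (by rw [hc1]; exact hm)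
  obtain ⟨ηL, hηL, HY⟩ := HL (1 / (r : ℝ)) (by positivity) hrζ hrτ
  obtain ⟨σ, hσ⟩ : ∃ σ : ℝ, σ = min (ε / (160 * (d + 1))) (κ0 ^ 2 * ε / (640 * (A * 2 ^ R0) ^ 2 * (d + 1))) :=
    ⟨_, rfl⟩
  have hd0 : (0 : ℝ) ≤ d := Nat.cast_nonneg _
  have hσ0 : 0 < σ := by rw [hσ]; apply lt_min <;> positivity
  have hσ1 : 8 * (d : ℝ) * σ ≤ ε / 20 := by
    have a1 : σ ≤ ε / (160 * (d + 1)) := by rw [hσ]; exact min_le_left _ _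
    rw [le_div_iff₀ (by positivity)] at a1
    nlinarith
  have hσ2 : 32 * ((A * 2 ^ R0) ^ 2 * (d : ℝ) * σ) ≤ κ0 ^ 2 * (ε / 20) := by
    have a1 : σ ≤ κ0 ^ 2 * ε / (640 * (A * 2 ^ R0) ^ 2 * (d + 1)) := by rw [hσ]; exact min_le_right _ _
    rw [le_div_iff₀ (by positivity)] at a1
    have a2 : 0 < (A * 2 ^ R0) ^ 2 * σ := by positivity
    nlinarith
  obtain ⟨ηM, hηM⟩ : ∃ ηM : ℝ, ηM = min ηL 1 / 2 := ⟨_, rfl⟩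
  have hηm0 : 0 < min ηL 1 := lt_min hηL one_pos
  have hr0r : r0 ≤ r := by
    have a1 : (r0 : ℝ) ≤ r := by
      refine hr0K.trans ?_
      exact mul_le_of_le_one_left hrr0.le hθ1
    exact_mod_cast a1
  refine ⟨r, κ0, σ, ηM, hr2, hr0r, hκ00, hσ0, by rw [hηM]; positivity, ?_⟩
  intro B
  obtain ⟨Yb, hYb⟩ := exists_nat_ge (640 * A ^ 2 * (9 * (r : ℝ) ^ 3) / (κ0 ^ 2 * ε))
  have hc0 : (0 : ℝ) < c := by exact_mod_cast hc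
  have ev1 := merF c r hr2 υ (min ηL 1) hηm0
  have ev2 := Pool.Agent.Y879.GL.level_ok r hr2
  have ev3 := y_ge r hr2 (x0a + x0b + Yb * c + 2)
  have ev4 := logpow_rpow (2 * B) (80 * (3 + d) / ε) (γ / 2) (by positivity) (by positivity)
  have ev5 := logpow_rpow (2 * B) (320 * ((A * 2 ^ R0) ^ 2 * d) / (κ0 ^ 2 * ε) + 1) (γ / 2)
    (by positivity) (by positivity)
  have ev6 := logpow_rpow (2 * B) (320 * (A * (c : ℝ) ^ R0) ^ 2 / (κ0 ^ 2 * ε) + 1) (γ / 2)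
    (by positivity) (by positivity)
  have ev7 := logpow_rpow B (80 * c / ε) ζ (by positivity) hζ
  have ev8 := logpow_rpow 1 4 ζ (by positivity) hζ
  filter_upwards [ev1, ev2, ev3, ev4, ev5, ev6, ev7, ev8, eventually_ge_atTop 2] with
    X hmer hlev hyg hE4 hE5 hE6 hE7 hE8 hX2
  clear ev1 ev2 ev3 ev4 ev5 ev6 ev7 ev8 HL
  obtain ⟨g1, g2, g3, g4, g5⟩ := hlev
  obtain ⟨y, hy⟩ : ∃ y, y = ⌊(X : ℝ) ^ (1 / (r : ℝ))⌋₊ := ⟨_, rfl⟩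
  rw [← hy] at hmer g1 g2 g3 g4 hyg ⊢
  intro Z L hXL F α J bad hF hM hS hsq hJc hV10 hαB hV2 hS2
  have hX1 : (1 : ℝ) ≤ X := by exact_mod_cast (by omega : 1 ≤ X)
  have hX0 : (0 : ℝ) < X := by linarith
  have hy1 : 1 ≤ y := by omega
  have hyr0 : (0 : ℝ) < y := by exact_mod_cast hy1
  have hlX : 0 ≤ Real.log X := Real.log_nonneg hX1
  have hpow1 : y ^ (16 * (C0a * m)) ≤ y ^ (16 * (C0 * m)) := by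
    apply Nat.pow_le_pow_right hy1
    apply Nat.mul_le_mul_left
    apply Nat.mul_le_mul_right
    omega
  have hpow2 : y ^ (16 * (C0b * m)) ≤ y ^ (16 * (C0 * m)) := by
    apply Nat.pow_le_pow_right hy1
    apply Nat.mul_le_mul_left
    apply Nat.mul_le_mul_right
    omega
  have hyR0r : (X : ℝ) ^ (g + 1) ≤ (y : ℝ) ^ R0 := by
    rw [← Real.log_le_log_iff (by positivity) (by positivity), Real.log_pow, Real.log_pow]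
    rw [div_le_iff₀ (by positivity)] at g2
    rw [hR0]
    push_cast
    calc ((g : ℝ) + 1) * Real.log X ≤ ((g : ℝ) + 1) * (Real.log y * (2 * r)) :=
          mul_le_mul_of_nonneg_left g2 (by positivity)
      _ = _ := by ring
  have hyR0 : ∀ j ∈ J, ∀ n ∈ Ioc Z (Z + L), 1 ≤ F j n ∧ F j n ≤ y ^ R0 := by
    intro j hj n hn
    obtain ⟨b1, b2⟩ := hS j hj n hn
    refine ⟨b1, ?_⟩
    have a1 : ((F j n : ℕ) : ℝ) ≤ (X : ℝ) ^ (g + 1) := by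
      refine b2.trans ?_
      rw [← Real.rpow_natCast]
      apply Real.rpow_le_rpow_of_exponent_le hX1
      push_cast
      exact hSg
    exact_mod_cast a1.trans hyR0r
  have hDy : ⌊(X : ℝ) ^ τ⌋₊ ≤ y ^ R0 := by
    have a1 : ((⌊(X : ℝ) ^ τ⌋₊ : ℕ) : ℝ) ≤ (X : ℝ) ^ (g + 1) := by
      refine (Nat.floor_le (by positivity)).trans ?_
      calc (X : ℝ) ^ τ ≤ (X : ℝ) ^ (1 : ℝ) := Real.rpow_le_rpow_of_exponent_le hX1 hτ1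
        _ = (X : ℝ) ^ 1 := by rw [Real.rpow_one, pow_one]
        _ ≤ (X : ℝ) ^ (g + 1) := pow_le_pow_right₀ hX1 (by omega)
    exact_mod_cast a1.trans hyR0r
  obtain ⟨cU, cL, hb1, hb2, hb3, hb4⟩ := HY X hX2
  have hMerL : ∀ j ∈ J, Mer (pr X (1 / (r : ℝ)) υ) (tt X) (gg (F j) y) (1 / (r : ℝ)) υ (min ηL 1) := by
    intro j hj
    apply hmer (F j) (hF.per j hj)
    rw [← hηM]
    exact hM j hj
  have hMer1 : ∀ j ∈ J, Mer (pr X (1 / (r : ℝ)) υ) (tt X) (gg (F j) y) (1 / (r : ℝ)) υ 1 :=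
    fun j hj a b ha hab hb => (hMerL j hj a b ha hab hb).trans (min_le_right _ _)
  have hMer2 : ∀ j ∈ J, Mer (pr X (1 / (r : ℝ)) υ) (tt X) (gg (F j) y) (1 / (r : ℝ)) υ ηL :=
    fun j hj a b ha hab hb => (hMerL j hj a b ha hab hb).trans (min_le_left _ _)
  have h4ζ : 4 ≤ (X : ℝ) ^ ζ := by
    rw [pow_one] at hE8
    linarith
  have hb4' : ∀ j ∈ J, 1 / (r : ℝ) * f0 ≤ VV (pr X (1 / (r : ℝ)) υ) cL (gg (F j) y) := by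
    intro j hj
    refine le_trans ?_ (hb4 (gg (F j) y) (fun p _ => gg_nonneg (F j) y p) (hMer2 j hj)).1
    exact mul_le_mul_of_nonneg_left hf0f (by positivity)
  rw [pow_mul', ] at hE4 hE5 hE6
  refine oneXG hcst F α J bad c d X y hF hc S R hr Z L hX2 hy hy1 hXL cL (fun U => (hb1 U).2)
    (fun U hU hne => hb2 U hU (Or.inr hne)) (fun N => (hb3 N).1) hMer1 hb4' hS hsq
    (V1G F α J y) σ (Real.log X ^ B) hV10 rfl (by positivity) hαB hJc (by rw [hη]; exact hV2) hS2 hσ1 hσ2 hhalf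
    (Hcnt m (by omega) (y ^ (16 * (C0 * m))) y (by omega) hpow2 F J hF.per Z L)
    (fun P a B1 B2 hP ha hD hs h1 h2 => Hsec m (by omega) (y ^ (16 * (C0 * m))) y (by omega) hy1 hpow1 F α J bad d
      hF Z L R0 P a A B1 B2 ⌊(X : ℝ) ^ τ⌋₊ hP ha hA0.le hD hDy hs h1 h2 hyR0) Yb hYb ?_ hE4 hE5 hE6 hE7 h4ζ
  exact_mod_cast (by omega : Yb * c ≤ y)

/-- the parameters: `R` prime factors -/
theorem mainR (c d g : ℕ) (hc : 1 ≤ c) (hg : 1 ≤ g) (θ ε : ℝ) (R r0 : ℕ) (hθ : 0 < θ) (hθ1 : θ ≤ 1)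
    (hR : 1 / 8 + 25 * g / (12 * θ) < R) (hε : 0 < ε) :
    ∃ (r : ℕ) (ζ υ S κ0 σ ηM : ℝ), 2 ≤ r ∧ r0 ≤ r ∧ θ / 9 ≤ ζ ∧ υ ≤ 1 ∧ (g : ℝ) < S ∧
      0 < κ0 ∧ 0 < σ ∧ 0 < ηM ∧
      ∀ B : ℕ, ∀ᶠ X : ℕ in atTop, ∀ Z L : ℕ,
      (X : ℝ) ^ θ ≤ L →
      ∀ (F : ℕ → ℕ → ℕ) (α : ℕ → ℝ) (J : Finset ℕ) (bad : ℕ → ℕ → Prop),
        FamG F α J bad c d ⌊(X : ℝ) ^ (1 / (r : ℝ))⌋₊ →
        (∀ j ∈ J, Mer (pr X (1 / (r : ℝ)) υ) (tt X) (gp (F j)) (1 / (r : ℝ)) υ ηM) →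
        (∀ j ∈ J, ∀ n ∈ Ioc Z (Z + L), 1 ≤ F j n ∧ ((F j n : ℕ) : ℝ) ≤ (X : ℝ) ^ S) →
        (∀ j ∈ J, ∀ p : ℕ, p.Prime → ⌊(X : ℝ) ^ (1 / (r : ℝ))⌋₊ < p →
          (((Ioc Z (Z + L)).filter (fun n => p ^ 2 ∣ F j n)).card : ℝ) ≤ c * ((L : ℝ) / (p : ℝ) ^ 2 + 1)) →
        (J.card : ℝ) ≤ Real.log X ^ B →
        0 < V1G F α J ⌊(X : ℝ) ^ (1 / (r : ℝ))⌋₊ →
        ∑ j ∈ J, α j ≤ Real.log X ^ B * V1G F α J ⌊(X : ℝ) ^ (1 / (r : ℝ))⌋₊ →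
        V2G F α J bad ⌊(X : ℝ) ^ (1 / (r : ℝ))⌋₊ ≤
          (1 + min ε 1 / 560) * V1G F α J ⌊(X : ℝ) ^ (1 / (r : ℝ))⌋₊ ^ 2 →
        S2G F α J ⌊(X : ℝ) ^ (1 / (r : ℝ))⌋₊ ≤ σ * V1G F α J ⌊(X : ℝ) ^ (1 / (r : ℝ))⌋₊ ^ 2 →
        ((BadG F α J X R Z L ζ (κ0 * (V1G F α J ⌊(X : ℝ) ^ (1 / (r : ℝ))⌋₊ / 4))).card : ℝ) ≤ ε * L := by
  obtain ⟨τ, S', h1, h2, h3, h4⟩ := params g hg θ R hθ hR
  have hτ : 0 < τ := by linarith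
  obtain ⟨S, hS⟩ : ∃ S, S = min S' (g + 1) := ⟨_, rfl⟩
  have hSS : S ≤ S' := by rw [hS]; exact min_le_left _ _
  have hSg : S ≤ g + 1 := by rw [hS]; exact min_le_right _ _
  have hgS : (g : ℝ) < S := by rw [hS]; exact lt_min h3 (by linarith)
  obtain ⟨ε', hε'⟩ : ∃ ε' : ℝ, ε' = min ε 1 := ⟨_, rfl⟩
  have hε'0 : 0 < ε' := by rw [hε']; exact lt_min hε one_pos
  have hε'1 : ε' ≤ 1 := by rw [hε']; exact min_le_right _ _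
  have hε'ε : ε' ≤ ε := by rw [hε']; exact min_le_left _ _
  have hJ := Pool.Agent.Y882.KW.cond_A τ (8 / 9) hτ (by norm_num) (by norm_num)
  have h4' : 1 / (8 / 9 : ℝ) + S / (24 / 25 * τ) ≤ R + 1 := by
    have : S / (24 / 25 * τ) ≤ S' / (24 / 25 * τ) := div_le_div_of_nonneg_right hSS (by positivity)
    norm_num at h4 this ⊢
    linarith
  obtain ⟨r, κ0, σ, ηM, hr2, hr0, hκ0, hσ, hηM, hmain⟩ := mainG c d g hc θ τ (τ / 4) (24 / 25 * τ) (8 / 9) S R r0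
    (by positivity) (by linarith) (by linarith) (by linarith) (by linarith) (by norm_num) hJ h2 hθ1 hSg h4'
    ε' hε'0 hε'1
  refine ⟨r, τ / 4, 24 / 25 * τ, S, κ0, σ, ηM, hr2, hr0, by linarith, by linarith, hgS, hκ0, hσ, hηM, ?_⟩
  intro B
  filter_upwards [hmain B] with X hX
  intro Z L hL F α J bad a1 a2 a3 a4 a5 a6 a7 a8 a9
  rw [← hε'] at a8
  exact (hX Z L hL F α J bad a1 a2 a3 a4 a5 a6 a7 a8 a9).trans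
    (mul_le_mul_of_nonneg_right hε'ε (Nat.cast_nonneg _))

end Pool.Agent.L0h41.QN
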