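import Pool.Agent.L0h41.QN.E
import Pool.Agent.R490.GPg

set_option autoImplicit false

/-!
# Families of sequences: the pair densities on average
-/

namespace Pool.Agent.L0h41.QN

open Finset Filter
open Pool.Agent.W123.RP Pool.Agent.H373R2.T7 Pool.Agent.W123.RU Pool.Agent.TH464.PO Pool.Agent.TH464.PW
open Pool.Agent.Y879.AP
open Pool.Agent.L0h41.LW
open Pool.Agent.R490.LGa (one_sub_pos one_le_inv' cube_inv)
open Pool.Agent.R490.GPg (Pw mem_Pw)

open Classical in
/-- the product of `(1 - 1/p)⁻¹` over the primes `w < p ≤ y` with a property -/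
noncomputable def tE (w y : ℕ) (E : ℕ → Prop) : ℝ :=
  ∏ p ∈ pz y, (if w < p ∧ E p then (1 - 1 / (p : ℝ))⁻¹ else 1)

lemma one_le_tE (w y : ℕ) (E : ℕ → Prop) : 1 ≤ tE w y E := by
  classical
  unfold tE
  have h : ∏ p ∈ pz y, (1 : ℝ) ≤ ∏ p ∈ pz y, (if w < p ∧ E p then (1 - 1 / (p : ℝ))⁻¹ else 1) := by
    apply Finset.prod_le_prod (fun _ _ => zero_le_one)
    intro p hp
    split_ifs
    · exact one_le_inv' (mem_pz.1 hp).2
    · exact le_rfl
  rwa [prod_const_one] at h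

lemma nuB_QPP_eq (F F' : ℕ → ℕ) (p : ℕ) (hno : ∀ n, p ∣ F n → p ∣ F' n → False) :
    nuB (QPP F F') p = nuB (DQ F) p + nuB (DQ F') p := by
  classical
  unfold nuB
  rw [← card_union_of_disjoint]
  · congr 1
    ext m
    simp only [mem_filter, mem_union]
    unfold QPP
    tauto
  · rw [disjoint_left]
    intro m h1 h2
    exact hno m (mem_filter.1 h1).2 (mem_filter.1 h2).2

lemma nuB_le_QPP (F F' : ℕ → ℕ) (p : ℕ) : nuB (DQ F) p ≤ nuB (QPP F F') p := by
  classical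
  unfold nuB
  apply card_le_card
  intro m hm
  rw [mem_filter] at hm ⊢
  exact ⟨hm.1, Or.inl hm.2⟩

/-- the density of a pair -/
theorem pair_le (F F' : ℕ → ℕ) (w y : ℕ) (hw : 2 ≤ w)
    (h0 : ∀ p : ℕ, p.Prime → p ≤ w → nuB (DQ F) p = 0) (h0' : ∀ p : ℕ, p.Prime → p ≤ w → nuB (DQ F') p = 0)
    (h2 : ∀ p : ℕ, p.Prime → w < p → nuB (DQ F) p ≤ 2) (h2' : ∀ p : ℕ, p.Prime → w < p → nuB (DQ F') p ≤ 2)
    (E : ℕ → Prop) (hE : ∀ p : ℕ, p.Prime → w < p → ∀ n, p ∣ F n → p ∣ F' n → E p) :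
    Vq (QPP F F') y ≤ Vq (DQ F) y * Vq (DQ F') y * tE w y E ^ 3 := by
  classical
  unfold Vq tE
  rw [← prod_pow, ← prod_mul_distrib, ← prod_mul_distrib]
  apply Finset.prod_le_prod
  · intro p hp
    have hpp := (mem_pz.1 hp).2
    have hp0 : (0 : ℝ) < p := by exact_mod_cast hpp.pos
    have g1 : nuB (QPP F F') p ≤ p := by
      unfold nuB
      exact (card_filter_le _ _).trans (by rw [card_range])
    have g2 : (nuB (QPP F F') p : ℝ) / p ≤ 1 := by
      rw [div_le_one hp0]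
      exact_mod_cast g1
    linarith
  · intro p hp
    have hpp := (mem_pz.1 hp).2
    have hp0 : (0 : ℝ) < p := by exact_mod_cast hpp.pos
    have hν0 : (0 : ℝ) ≤ (nuB (QPP F F') p : ℝ) / p := by positivity
    by_cases hpw : p ≤ w
    · rw [h0 p hpp hpw, h0' p hpp hpw, if_neg (by omega)]
      simp only [Nat.cast_zero, zero_div, sub_zero, one_pow, mul_one]
      linarith
    · have hwp : w < p := by omega
      have hp3 : (3 : ℝ) ≤ p := by exact_mod_cast (by omega : 3 ≤ p)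
      obtain ⟨a, ha⟩ : ∃ a : ℝ, a = (nuB (DQ F) p : ℝ) / p := ⟨_, rfl⟩
      obtain ⟨b, hb⟩ : ∃ b : ℝ, b = (nuB (DQ F') p : ℝ) / p := ⟨_, rfl⟩
      have ha0 : 0 ≤ a := by rw [ha]; positivity
      have hb0 : 0 ≤ b := by rw [hb]; positivity
      have ha2 : a ≤ 2 / p := by
        rw [ha]
        exact div_le_div_of_nonneg_right (by exact_mod_cast h2 p hpp hwp) hp0.le
      have hb2 : b ≤ 2 / p := by
        rw [hb]
        exact div_le_div_of_nonneg_right (by exact_mod_cast h2' p hpp hwp) hp0.le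
      have h23 : 2 / (p : ℝ) ≤ 2 / 3 := by
        rw [div_le_div_iff₀ hp0 (by norm_num)]
        linarith
      rw [← ha, ← hb]
      by_cases hEp : E p
      · rw [if_pos ⟨hwp, hEp⟩]
        have g1 : a ≤ (nuB (QPP F F') p : ℝ) / p := by
          rw [ha]
          exact div_le_div_of_nonneg_right (by exact_mod_cast nuB_le_QPP F F' p) hp0.le
        obtain ⟨x, hx⟩ : ∃ x : ℝ, x = 1 - 1 / (p : ℝ) := ⟨_, rfl⟩
        have hx0 : 0 < x := by rw [hx]; exact (one_sub_pos hpp).1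
        rw [← hx]
        have hx3 : x ^ 3 ≤ 1 - b := by
          refine le_trans ?_ (by linarith : 1 - 2 / (p : ℝ) ≤ 1 - b)
          rw [hx]
          obtain ⟨t, ht⟩ : ∃ t : ℝ, t = 1 / (p : ℝ) := ⟨_, rfl⟩
          have ht0 : 0 < t := by rw [ht]; positivity
          have ht1 : t ≤ 1 / 3 := by
            rw [ht]
            exact one_div_le_one_div_of_le (by norm_num) hp3
          have e : 2 / (p : ℝ) = 2 * t := by rw [ht]; ring
          rw [e, ← ht]
          nlinarith [mul_pos ht0 ht0, mul_nonneg ht0.le (mul_nonneg (by linarith : 0 ≤ 1 - 3 * t) ht0.le)]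
        have h1b : 0 ≤ (1 - a) := by linarith
        have hinv : 1 ≤ (1 - b) * (x⁻¹) ^ 3 := by
          rw [inv_pow, ← div_eq_mul_inv, le_div_iff₀ (by positivity), one_mul]
          exact hx3
        calc 1 - (nuB (QPP F F') p : ℝ) / p ≤ 1 - a := by linarith
          _ = (1 - a) * 1 := by ring
          _ ≤ (1 - a) * ((1 - b) * (x⁻¹) ^ 3) := mul_le_mul_of_nonneg_left hinv h1b
          _ = _ := by ring
      · rw [if_neg (fun h => hEp h.2), one_pow, mul_one]
        have g1 : (nuB (QPP F F') p : ℝ) / p = a + b := by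
          rw [nuB_QPP_eq F F' p (fun n h1 h2 => hEp (hE p hpp hwp n h1 h2)), ha, hb]
          push_cast
          ring
        rw [g1]
        nlinarith [mul_nonneg ha0 hb0]

open Classical in
lemma tE3_le (w y M : ℕ) (E : ℕ → Prop) (hM : ∀ p : ℕ, p.Prime → w < p → E p → p ≤ M) :
    tE w y E ^ 3 ≤ ∏ p ∈ Pw w M, (1 + if E p then (14 : ℝ) / p else 0) := by
  unfold tE
  rw [← prod_pow]
  calc ∏ p ∈ pz y, (if w < p ∧ E p then (1 - 1 / (p : ℝ))⁻¹ else 1) ^ 3
      ≤ ∏ p ∈ pz y, (if w < p ∧ E p then (1 + 14 / (p : ℝ)) else 1) := by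
        apply Finset.prod_le_prod
        · intro p hp
          have := one_le_inv' (mem_pz.1 hp).2
          split_ifs <;> positivity
        · intro p hp
          split_ifs
          · exact cube_inv (mem_pz.1 hp).2
          · norm_num
    _ = ∏ p ∈ (pz y).filter (fun p => w < p ∧ E p), (1 + 14 / (p : ℝ)) := (prod_filter _ _).symm
    _ ≤ ∏ p ∈ (Pw w M).filter (fun p => E p), (1 + 14 / (p : ℝ)) := by
        apply Pool.Agent.R490.GPg.prod_mono
        · intro p hp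
          rw [mem_filter] at hp ⊢
          have hpp := (mem_pz.1 hp.1).2
          exact ⟨mem_Pw.2 ⟨hp.2.1, hM p hpp hp.2.1 hp.2.2, hpp⟩, hp.2.2⟩
        · intro p _
          have : (0 : ℝ) ≤ 14 / (p : ℝ) := by positivity
          linarith
    _ = _ := by
        rw [prod_filter]
        apply prod_congr rfl
        intro p _
        split_ifs <;> simp

open Classical in
lemma expandE (P : Finset ℕ) (c : ℕ → ℝ) (E : ℕ → Prop) :
    ∏ p ∈ P, (1 + if E p then c p else 0) =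
      ∑ T ∈ P.powerset, (∏ p ∈ T, c p) * (if ∀ p ∈ T, E p then 1 else 0) := by
  rw [prod_one_add]
  apply sum_congr rfl
  intro T _
  by_cases hh : ∀ p ∈ T, E p
  · rw [if_pos hh, mul_one]
    exact prod_congr rfl fun p hp => if_pos (hh p hp)
  · rw [if_neg hh, mul_zero]
    push Not at hh
    obtain ⟨p, hp, hp2⟩ := hh
    exact prod_eq_zero hp (if_neg hp2)

open Classical in
/-- the products on average -/
theorem sum_tE (w y M K D : ℕ) (J : Finset ℕ) (E : ℕ → ℕ → Prop)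
    (hM : ∀ j ∈ J, ∀ p : ℕ, p.Prime → w < p → E j p → p ≤ M)
    (hc : ∀ T ⊆ Pw w M, ((J.filter (fun j => ∀ p ∈ T, E j p)).card : ℝ) ≤
      (D : ℝ) ^ T.card * (K / (∏ p ∈ T, (p : ℝ)) + 1)) :
    ∑ j ∈ J, (tE w y (E j) ^ 3 - 1) ≤
      K * (∏ p ∈ Pw w M, (1 + 14 * D / (p : ℝ) ^ 2) - 1) + ∏ p ∈ Pw w M, (1 + 14 * D / (p : ℝ)) := by
  have hE : ∅ ∈ (Pw w M).powerset := empty_mem_powerset _
  have h1 : ∀ j ∈ J, tE w y (E j) ^ 3 - 1 ≤
      ∑ T ∈ (Pw w M).powerset.erase ∅, (∏ p ∈ T, (14 : ℝ) / p) * (if ∀ p ∈ T, E j p then 1 else 0) := by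
    intro j hj
    have a1 := tE3_le w y M (E j) (hM j hj)
    rw [expandE, ← add_sum_erase _ _ hE] at a1
    simp only [prod_empty, notMem_empty, false_imp_iff, implies_true, if_true, mul_one] at a1
    linarith
  refine (sum_le_sum h1).trans ?_
  rw [sum_comm]
  have h2 : ∀ T ∈ (Pw w M).powerset.erase ∅,
      ∑ j ∈ J, (∏ p ∈ T, (14 : ℝ) / p) * (if ∀ p ∈ T, E j p then 1 else 0) ≤
        K * (∏ p ∈ T, (14 * D / (p : ℝ) ^ 2)) + ∏ p ∈ T, (14 * D / (p : ℝ)) := by
    intro T hT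
    rw [mem_erase, mem_powerset] at hT
    rw [← mul_sum]
    have e1 : ∑ j ∈ J, (if ∀ p ∈ T, E j p then (1 : ℝ) else 0) =
        ((J.filter (fun j => ∀ p ∈ T, E j p)).card : ℝ) := by
      rw [card_filter]
      push_cast
      rfl
    rw [e1]
    have a1 := mul_le_mul_of_nonneg_left (hc T hT.2)
      (prod_nonneg (s := T) (f := fun p : ℕ => (14 : ℝ) / p) fun p _ => by positivity)
    refine a1.trans (le_of_eq ?_)
    have e2 : ∏ p ∈ T, (14 * D / (p : ℝ)) = (∏ p ∈ T, (14 : ℝ) / p) * (D : ℝ) ^ T.card := by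
      rw [← prod_const, ← prod_mul_distrib]
      apply prod_congr rfl
      intro p _
      ring
    have e3 : ∏ p ∈ T, (14 * D / (p : ℝ) ^ 2) = (∏ p ∈ T, (14 * D / (p : ℝ))) / ∏ p ∈ T, (p : ℝ) := by
      rw [← prod_div_distrib]
      apply prod_congr rfl
      intro p _
      rw [sq, div_div]
    rw [e3, e2]
    ring
  refine (sum_le_sum h2).trans ?_
  rw [sum_add_distrib, ← mul_sum]
  have e1 : ∑ T ∈ (Pw w M).powerset.erase ∅, ∏ p ∈ T, (14 * D / (p : ℝ) ^ 2) =
      ∏ p ∈ Pw w M, (1 + 14 * D / (p : ℝ) ^ 2) - 1 := by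
    rw [prod_one_add, ← add_sum_erase _ _ hE, prod_empty]
    ring
  have e2 : ∑ T ∈ (Pw w M).powerset.erase ∅, ∏ p ∈ T, (14 * D / (p : ℝ)) =
      ∏ p ∈ Pw w M, (1 + 14 * D / (p : ℝ)) - 1 := by
    rw [prod_one_add, ← add_sum_erase _ _ hE, prod_empty]
    ring
  rw [e1, e2]
  linarith

end Pool.Agent.L0h41.QN
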