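import Pool.Agent.L0h41.QN.M3

set_option autoImplicit false

/-!
# Families of quadratic polynomials: all classes and the main theorem
-/

namespace Pool.Agent.L0h41.QN

open Finset Filter
open Pool.Agent.W123.RP Pool.Agent.H373R2.T7 Pool.Agent.W123.RU Pool.Agent.TH464.PO Pool.Agent.TH464.PW
open Pool.Agent.W23.DC Pool.Agent.Y882 Pool.Agent.Y882.KW Pool.Agent.Y882.SI Pool.Agent.Y882.PX
open Pool.Agent.Y879.AP
open Pool.Agent.L0h41.LW
open Pool.Agent.R490.LGb (Wp Wp_pos dvd_Wp not_dvd_Wp)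

variable {a b c : ℕ → ℤ} {G : ℕ → Prop} {D0 d w0 : ℕ}

open Classical in
/-- the number of the almost primes -/
noncomputable def cntQ3 (a b c : ℕ → ℤ) (G : ℕ → Prop) (R K n : ℕ) (v : ℝ) : ℕ :=
  ((Icc 1 K).filter (fun j => G j ∧ 2 ≤ FQ3 a b c j n ∧ (FQ3 a b c j n).primeFactorsList.length ≤ R ∧
    ∀ p : ℕ, p.Prime → p ∣ FQ3 a b c j n → v ≤ p)).card

/-- large values -/
lemma big3 (h : DatQ3 a b c G D0 d w0) (K j n : ℕ) (hj : j ∈ Icc 1 K) (hG : G j) (hn : (K + 1) ^ D0 + 3 ≤ n) :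
    2 ≤ FQ3 a b c j n := by
  have h1 := h.szb' hj
  have h3 := h.szc' hj
  obtain ⟨M, hM⟩ : ∃ M, M = (K + 1) ^ D0 := ⟨_, rfl⟩
  rw [← hM] at h1 h3 hn
  unfold FQ3 Fq
  have ha : 1 ≤ (a j).natAbs := Int.natAbs_pos.2 (a_ne _ _ _ (h.disc j (mem_Icc.1 hj).1 hG))
  have g1 : (a j * (n : ℤ) ^ 2).natAbs ≤ (a j * (n : ℤ) ^ 2 + b j * n + c j).natAbs + ((b j).natAbs * n + (c j).natAbs) := by
    have e : a j * (n : ℤ) ^ 2 = (a j * (n : ℤ) ^ 2 + b j * n + c j) - (b j * n + c j) := by ring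
    have g2 := Int.natAbs_sub_le (a j * (n : ℤ) ^ 2 + b j * n + c j) (b j * n + c j)
    rw [← e] at g2
    have g3 := Int.natAbs_add_le (b j * n) (c j)
    rw [Int.natAbs_mul, Int.natAbs_natCast] at g3
    omega
  rw [Int.natAbs_mul, Int.natAbs_pow, Int.natAbs_natCast] at g1
  have g4 : n ^ 2 ≤ (a j).natAbs * n ^ 2 := Nat.le_mul_of_pos_left _ ha
  have g5 : (b j).natAbs * n ≤ M * n := Nat.mul_le_mul_right _ h1
  have g6 : M * n + 3 * n ≤ n ^ 2 := by nlinarith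
  omega

open Classical in
/-- the exceptional `n` of a class -/
lemma cls_cardQ3 (h : DatQ3 a b c G D0 d w0) (w K n0 X R Z L : ℕ) (ζ t v l : ℝ) (hl : 0 ≤ l)
    (hv : v ≤ (X : ℝ) ^ ζ) :
    ((Ioc Z (Z + L)).filter (fun n => n % Wp w = n0 ∧ (K + 1) ^ D0 + 3 ≤ n ∧ Wp w ≤ n ∧
      (cntQ3 a b c G R K n v : ℝ) * l < t)).card ≤
      ((Ioc (Z / Wp w - 1) (Z / Wp w - 1 + (L / Wp w + 2))).filter (fun m =>
        ((GC3 a b c G w K n0 X R m ζ).card : ℝ) * l < t)).card := by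
  have hW := Wp_pos w
  apply card_le_card_of_injOn (fun n => n / Wp w)
  · intro n hn
    rw [mem_coe, mem_filter, mem_Ioc] at hn
    obtain ⟨⟨h1, h2⟩, h3, h4, h5, h6⟩ := hn
    have hnm : n = n0 + Wp w * (n / Wp w) := by
      have := Nat.mod_add_div n (Wp w)
      omega
    beta_reduce
    rw [mem_coe, mem_filter, mem_Ioc]
    have hm1 : 1 ≤ n / Wp w := Nat.div_pos h5 hW
    have hm2 : Z / Wp w ≤ n / Wp w := Nat.div_le_div_right h1.le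
    have hm3 : n / Wp w ≤ Z / Wp w + L / Wp w + 1 := by
      have g1 : n / Wp w ≤ (Z + L) / Wp w := Nat.div_le_div_right h2
      have g2 : (Z + L) / Wp w < Z / Wp w + L / Wp w + 1 + 1 := by
        rw [Nat.div_lt_iff_lt_mul hW]
        have h8 : Z = Wp w * (Z / Wp w) + Z % Wp w := (Nat.div_add_mod _ _).symm
        have h9 : L = Wp w * (L / Wp w) + L % Wp w := (Nat.div_add_mod _ _).symm
        have h10 := Nat.mod_lt Z hW
        have h11 := Nat.mod_lt L hW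
        have e : (Z / Wp w + L / Wp w + 1 + 1) * Wp w = Wp w * (Z / Wp w) + Wp w * (L / Wp w) + Wp w + Wp w := by
          ring
        rw [e]
        omega
      omega
    refine ⟨⟨by omega, by omega⟩, ?_⟩
    refine lt_of_le_of_lt ?_ h6
    apply mul_le_mul_of_nonneg_right _ hl
    have h7 : (GC3 a b c G w K n0 X R (n / Wp w) ζ).card ≤ cntQ3 a b c G R K n v := by
      unfold GC3 cntQ3
      apply card_le_card
      intro j hj
      rw [mem_filter] at hj ⊢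
      obtain ⟨g1, g2, g3⟩ := hj
      have g4 := mem_filter.1 g1
      rw [FC3_eq, ← hnm] at g2
      refine ⟨g4.1, g4.2.1, big3 h K j n g4.1 g4.2.1 h4, g2, ?_⟩
      intro p hp hd
      apply hv.trans
      apply g3 p hp
      rw [FC3_eq, ← hnm]
      exact hd
    exact_mod_cast h7
  · intro n hn n' hn' hab
    rw [mem_coe, mem_filter] at hn hn'
    simp only at hab
    have e1 := Nat.mod_add_div n (Wp w)
    have e2 := Nat.mod_add_div n' (Wp w)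
    rw [hn.2.1, hab] at e1
    rw [hn'.2.1] at e2
    omega

open Classical in
/-- the sum over the classes -/
lemma all_classesQ3 (Adm : ℕ → Prop) (w K R Z L n1 : ℕ) (ε t v l : ℝ) (hε : 0 < ε)
    (hn1 : (n1 : ℝ) ≤ ε * L) (hn1K : (K + 1) ^ D0 + 3 ≤ n1) (hn1W : 2 * Wp w ≤ n1) (hε1 : ε ≤ 1)
    (h : ∀ n0 < Wp w, (((Ioc Z (Z + L)).filter (fun n => Adm n ∧ n % Wp w = n0 ∧ (K + 1) ^ D0 + 3 ≤ n ∧ Wp w ≤ n ∧
      (cntQ3 a b c G R K n v : ℝ) * l < t)).card : ℝ) ≤ ε * ((L / Wp w + 2 : ℕ) : ℝ)) :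
    (((Ioc Z (Z + L)).filter (fun n => Adm n ∧ (cntQ3 a b c G R K n v : ℝ) * l < t)).card : ℝ) ≤ 3 * ε * L := by
  have hW := Wp_pos w
  have hsub : (Ioc Z (Z + L)).filter (fun n => Adm n ∧ (cntQ3 a b c G R K n v : ℝ) * l < t) ⊆
      Ioc 0 n1 ∪ (range (Wp w)).biUnion (fun n0 => (Ioc Z (Z + L)).filter (fun n =>
        Adm n ∧ n % Wp w = n0 ∧ (K + 1) ^ D0 + 3 ≤ n ∧ Wp w ≤ n ∧ (cntQ3 a b c G R K n v : ℝ) * l < t)) := by
    intro n hn
    rw [mem_filter, mem_Ioc] at hn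
    obtain ⟨⟨h1, h2⟩, h3, h4⟩ := hn
    rw [mem_union]
    by_cases hc : n ≤ n1
    · left
      rw [mem_Ioc]
      omega
    · right
      rw [mem_biUnion]
      refine ⟨n % Wp w, mem_range.2 (Nat.mod_lt n hW), ?_⟩
      rw [mem_filter, mem_Ioc]
      exact ⟨⟨h1, h2⟩, h3, rfl, by omega, by omega, h4⟩
  have h1 : (((Ioc Z (Z + L)).filter (fun n => Adm n ∧ (cntQ3 a b c G R K n v : ℝ) * l < t)).card : ℝ) ≤
      n1 + ∑ n0 ∈ range (Wp w), ε * ((L / Wp w + 2 : ℕ) : ℝ) := by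
    have a1 := (card_le_card hsub).trans ((card_union_le _ _).trans (Nat.add_le_add_left card_biUnion_le _))
    rw [Nat.card_Ioc, Nat.sub_zero] at a1
    have a2 : (((Ioc Z (Z + L)).filter (fun n => Adm n ∧ (cntQ3 a b c G R K n v : ℝ) * l < t)).card : ℝ) ≤
        n1 + ∑ n0 ∈ range (Wp w), (((Ioc Z (Z + L)).filter (fun n =>
        Adm n ∧ n % Wp w = n0 ∧ (K + 1) ^ D0 + 3 ≤ n ∧ Wp w ≤ n ∧ (cntQ3 a b c G R K n v : ℝ) * l < t)).card : ℝ) := by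
      exact_mod_cast a1
    refine a2.trans ?_
    apply add_le_add le_rfl
    exact sum_le_sum fun a ha => h a (mem_range.1 ha)
  rw [sum_const, card_range, nsmul_eq_mul] at h1
  have h2 : (Wp w : ℝ) * ((L / Wp w + 2 : ℕ) : ℝ) ≤ L + 2 * Wp w := by
    have : Wp w * (L / Wp w + 2) ≤ L + 2 * Wp w := by
      have := Nat.mul_div_le L (Wp w)
      rw [mul_add]
      omega
    exact_mod_cast this
  have h3 : 2 * (Wp w : ℝ) ≤ n1 := by exact_mod_cast hn1W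
  have hL0 : (0 : ℝ) ≤ L := Nat.cast_nonneg _
  have h4 : ε * (L : ℝ) ≤ L := mul_le_of_le_one_left hL0 hε1
  have h5 : (Wp w : ℝ) * (ε * ((L / Wp w + 2 : ℕ) : ℝ)) ≤ ε * (L + L) := by
    have e : (Wp w : ℝ) * (ε * ((L / Wp w + 2 : ℕ) : ℝ)) = ε * ((Wp w : ℝ) * ((L / Wp w + 2 : ℕ) : ℝ)) := by ring
    rw [e]
    apply mul_le_mul_of_nonneg_left _ hε.le
    linarith
  linarith

/-- the sizes of the values -/
lemma FC3_size (h : DatQ3 a b c G D0 d w0) (w K n0 Z L X : ℕ) (hn0 : n0 < Wp w) (hZL : Z + L ≤ X) (hWX : 4 * Wp w ≤ X)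
    (j : ℕ) (hj : j ∈ Icc 1 K) (m : ℕ) (hm : m ∈ Ioc (Z / Wp w - 1) (Z / Wp w - 1 + (L / Wp w + 2))) :
    FC3 a b c (Wp w) n0 j m ≤ 3 * (K + 1) ^ D0 * (3 * X) ^ 2 := by
  have hW := Wp_pos w
  rw [mem_Ioc] at hm
  rw [FC3_eq]
  unfold FQ3
  refine (size_q _ _ _ _).trans ?_
  have h1 := h.szb' hj
  have h3 := h.szc' hj
  have h2 := h.sza' hj
  have h4 : (a j).natAbs + (b j).natAbs + (c j).natAbs ≤ 3 * (K + 1) ^ D0 := by omega
  apply Nat.mul_le_mul h4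
  apply Nat.pow_le_pow_left
  have h5 : Wp w * m ≤ Z + L + 2 * Wp w := by
    have a0 : Z / Wp w - 1 + (L / Wp w + 2) ≤ Z / Wp w + (L / Wp w + 2) := Nat.add_le_add_right (Nat.sub_le _ _) _
    have a1 : Wp w * m ≤ Wp w * (Z / Wp w + (L / Wp w + 2)) := Nat.mul_le_mul_left _ (hm.2.trans a0)
    have a2 : Wp w * (Z / Wp w) ≤ Z := Nat.mul_div_le _ _
    have a3 : Wp w * (L / Wp w) ≤ L := Nat.mul_div_le _ _
    have a4 : Wp w * (Z / Wp w + (L / Wp w + 2)) =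
      Wp w * (Z / Wp w) + Wp w * (L / Wp w) + 2 * Wp w := by ring
    omega
  omega

set_option maxHeartbeats 4000000 in
open Classical in
/-- **Quadratic polynomials: almost all `n` have many members with an almost prime value.** -/
theorem mainQ3 (h : DatQ3 a b c G D0 d w0) (Adm : ℕ → Prop)
    (hAvg : ∀ η : ℝ, 0 < η → ∃ (w K0 : ℕ) (δ : ℝ), 2 ≤ w ∧ w0 ≤ w ∧ 0 < δ ∧ ∀ K : ℕ, K0 ≤ K →
      (∀ y : ℕ, ∑ j ∈ Icc 1 K, ∑ j' ∈ Icc 1 K, exQ3 a b c G w y j j' ≤ η * (δ * K) ^ 2) ∧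
      (∀ n : ℕ, Adm n → δ * K ≤ (JQ3 a b c G w K n).card))
    (θ ε κ : ℝ) (R B : ℕ) (hθ : 0 < θ) (hθ1 : θ ≤ 1) (hR : 1 / 8 + 25 / (6 * θ) < R) (hκ : 0 < κ) (hε : 0 < ε) :
    ∀ᶠ X : ℕ in atTop, ∀ Z L K : ℕ, (X : ℝ) ^ θ ≤ L → Z + L ≤ X → Real.log X ^ (1 + κ) ≤ K →
      (K : ℝ) ≤ Real.log X ^ B →
      (((Ioc Z (Z + L)).filter (fun n => Adm n ∧
        (cntQ3 a b c G R K n ((X : ℝ) ^ (θ / 10)) : ℝ) * Real.log X ^ (1 + κ) < K)).card : ℝ) ≤ ε * L := by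
  obtain ⟨θ', hθ'0, hθ'θ, hθ'9, hR'⟩ := theta' θ R hθ hR
  obtain ⟨ε1, hε1⟩ : ∃ ε1, ε1 = min (ε / 3) 1 := ⟨_, rfl⟩
  have hε10 : 0 < ε1 := by rw [hε1]; exact lt_min (by positivity) one_pos
  have hε11 : ε1 ≤ 1 := by rw [hε1]; exact min_le_right _ _
  have hε13 : 3 * ε1 ≤ ε := by
    have : ε1 ≤ ε / 3 := by rw [hε1]; exact min_le_left _ _
    linarith
  obtain ⟨r, ζ, υ, S, κ0, σ, ηM, hr2, -, hζ, hυ, hS, hκ0, hσ, hηM, hmain⟩ :=
    mainR 2 d 2 (by norm_num) (by norm_num) θ' ε1 R 0 hθ'0 (by linarith) hR' hε10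
  obtain ⟨w, K0, δ, hw2, hwa, hδ, hKK⟩ := hAvg (min ε1 1 / 560) (by
    have : 0 < min ε1 1 := lt_min hε10 one_pos
    positivity)
  obtain ⟨k, hk⟩ : ∃ k, k = κ / 2 := ⟨_, rfl⟩
  have hk0 : 0 < k := by rw [hk]; positivity
  obtain ⟨B1, hB1⟩ : ∃ B1, B1 = B + 2 + ⌈κ⌉₊ := ⟨_, rfl⟩
  obtain ⟨W1, hW1⟩ : ∃ W1, W1 = B * (2 * D0) + 1 := ⟨_, rfl⟩
  have hr0 : (0 : ℝ) < r := by exact_mod_cast (by omega : 0 < r)
  have hW := Wp_pos w
  have hSnum : (2 : ℝ) < S := by exact_mod_cast hS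
  have tl : Tendsto (fun X : ℕ => Real.log (X : ℝ)) atTop atTop :=
    Real.tendsto_log_atTop.comp tendsto_natCast_atTop_atTop
  have tp : ∀ e : ℝ, 0 < e → Tendsto (fun X : ℕ => (X : ℝ) ^ e) atTop atTop := fun e he =>
    (tendsto_rpow_atTop he).comp tendsto_natCast_atTop_atTop
  have tlp : ∀ e : ℝ, 0 < e → Tendsto (fun X : ℕ => Real.log (X : ℝ) ^ e) atTop atTop := fun e he =>
    (tendsto_rpow_atTop he).comp tl
  have e1 := hmain B1
  have e2 := merU W1 (1 / (r : ℝ)) υ ηM (by positivity) hυ hηM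
  have e3 := vq_lowU3 W1 k hk0
  have e4 := tl.eventually_ge_atTop ((w : ℝ) + K0 + 1 +
    Wp w ^ 2 * (5 * 2 ^ (2 * D0)))
  have e5 := logpow_rpow (B * D0) (2 * (2 ^ D0 * Wp w ^ 2) + 1) (1 / (r : ℝ)) (by positivity) (by positivity)
  have e6 := logpow_rpow (B * (4 * D0)) (8 * 2 ^ (4 * D0)) (1 / (r : ℝ)) (by positivity)
    (by positivity)
  have e7 := logpow_rpow (B * (2 * D0)) (2 ^ D0 * Wp w ^ 2 +
    Wp w ^ 2 * (5 * 2 ^ (2 * D0))) (1 / (r : ℝ)) (by positivity) (by positivity)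
  have e8 := logpow_rpow (B * D0) (3 * 2 ^ D0 * 9) (S - 2) (by positivity) (by linarith)
  have e9 := (tlp k hk0).eventually_ge_atTop (1 / (σ * δ) + 4 / (κ0 * δ))
  have e10 := (tp (θ - θ') (by linarith)).eventually_ge_atTop (Wp w : ℝ)
  have e11 := logpow_rpow (B * D0) ((2 ^ D0 + 3 + 2 * Wp w) / ε1) θ (by positivity) hθ
  filter_upwards [e1, e2, e3, e4, e5, e6, e7, e8, e9, e10, e11, eventually_ge_atTop (4 * Wp w + 3)] with
    X f1 f2 f3 f4 f5 f6 f7 f8 f9 f10 f11 f12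
  clear e1 e2 e3 e4 e5 e6 e7 e8 e9 e10 e11
  intro Z L K hXL hZL hK1 hK2
  obtain ⟨y, hy⟩ : ∃ y, y = ⌊(X : ℝ) ^ (1 / (r : ℝ))⌋₊ := ⟨_, rfl⟩
  rw [← hy] at f1
  have hX0 : (0 : ℝ) < X := by exact_mod_cast (by omega : 0 < X)
  have hX1 : (1 : ℝ) ≤ X := by exact_mod_cast (by omega : 1 ≤ X)
  have hw0 : (0 : ℝ) ≤ w := Nat.cast_nonneg _
  have hw2r : (2 : ℝ) ≤ w := by exact_mod_cast hw2
  have hK00 : (0 : ℝ) ≤ K0 := Nat.cast_nonneg _
  have hcc : (0 : ℝ) ≤ Wp w ^ 2 * (5 * 2 ^ (2 * D0)) := by positivity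
  have hlX : 1 ≤ Real.log X := by linarith
  have hlX0 : 0 < Real.log X := by linarith
  have hwX : (w : ℝ) ≤ Real.log X := by linarith
  have hyX : y ≤ X := by
    rw [hy]
    apply Nat.floor_le_of_le
    calc (X : ℝ) ^ (1 / (r : ℝ)) ≤ (X : ℝ) ^ (1 : ℝ) := by
          apply Real.rpow_le_rpow_of_exponent_le hX1
          rw [div_le_one hr0]
          exact_mod_cast (by omega : 1 ≤ r)
      _ = X := Real.rpow_one _
  have hlk : 1 ≤ Real.log X ^ (1 + κ) := Real.one_le_rpow hlX (by linarith)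
  have hlogle : Real.log X ≤ Real.log X ^ (1 + κ) := by
    calc Real.log X = Real.log X ^ (1 : ℝ) := (Real.rpow_one _).symm
      _ ≤ _ := Real.rpow_le_rpow_of_exponent_le hlX (by linarith)
  have hKK0 : K0 ≤ K := by
    have : (K0 : ℝ) ≤ K := by linarith
    exact_mod_cast this
  have hKr1 : (1 : ℝ) ≤ K := hlk.trans hK1
  have hK0 : (0 : ℝ) < K := by linarith
  obtain ⟨g1, g2⟩ := hKK K hKK0
  have hδK : 0 < δ * K := by positivity
  -- the powers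
  have p1 := K_pow K B (2 * D0) (Real.log X) hlX hK2
  have p2 := K_pow K B (4 * D0) (Real.log X) hlX hK2
  have p3 := K_pow K B D0 (Real.log X) hlX hK2
  have hdisc : ((Wp w ^ 2 * (5 * (K + 1) ^ (2 * D0)) : ℕ) : ℝ) ≤ Real.log X ^ W1 := by
    rw [Nat.cast_mul, Nat.cast_mul]
    calc ((Wp w ^ 2 : ℕ) : ℝ) * (((5 : ℕ) : ℝ) * (((K + 1) ^ (2 * D0) : ℕ) : ℝ)) ≤
        ((Wp w ^ 2 : ℕ) : ℝ) * (((5 : ℕ) : ℝ) * (2 ^ (2 * D0) * Real.log X ^ (B * (2 * D0)))) := by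
          gcongr
      _ = (Wp w ^ 2 * (5 * 2 ^ (2 * D0))) * Real.log X ^ (B * (2 * D0)) := by
          push_cast
          ring
      _ ≤ Real.log X * Real.log X ^ (B * (2 * D0)) := by
          apply mul_le_mul_of_nonneg_right _ (by positivity)
          linarith
      _ = _ := by rw [hW1, pow_succ]; ring
  have hA2 : ((2 * ((K + 1) ^ D0 * Wp w ^ 2) : ℕ) : ℝ) + 1 ≤ (X : ℝ) ^ (1 / (r : ℝ)) := by
    refine le_trans ?_ f5
    have q1 : (1 : ℝ) ≤ Real.log X ^ (B * D0) := one_le_pow₀ hlX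
    rw [Nat.cast_mul, Nat.cast_mul, add_mul, one_mul]
    apply add_le_add _ q1
    calc ((2 : ℕ) : ℝ) * ((((K + 1) ^ D0 : ℕ) : ℝ) * ((Wp w ^ 2 : ℕ) : ℝ)) ≤
        ((2 : ℕ) : ℝ) * ((2 ^ D0 * Real.log X ^ (B * D0)) * ((Wp w ^ 2 : ℕ) : ℝ)) := by gcongr
      _ = _ := by
          push_cast
          ring
  have hcol : 8 * (K + 1) ^ (4 * D0) ≤ y := by
    rw [hy]
    apply Nat.le_floor
    rw [Nat.cast_mul]
    refine le_trans ?_ f6
    calc ((8 : ℕ) : ℝ) * (((K + 1) ^ (4 * D0) : ℕ) : ℝ) ≤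
        ((8 : ℕ) : ℝ) * (2 ^ (4 * D0) * Real.log X ^ (B * (4 * D0))) := by gcongr
      _ = _ := by
          push_cast
          ring
  have hsqy : (K + 1) ^ D0 * Wp w ^ 2 + Wp w ^ 2 * (5 * (K + 1) ^ (2 * D0)) ≤ y := by
    rw [hy]
    apply Nat.le_floor
    rw [Nat.cast_add, Nat.cast_mul, Nat.cast_mul, Nat.cast_mul]
    refine le_trans ?_ f7
    have q2 : ((Wp w ^ 2 : ℕ) : ℝ) * (((5 : ℕ) : ℝ) * (((K + 1) ^ (2 * D0) : ℕ) : ℝ)) ≤
        (Wp w ^ 2 * (5 * 2 ^ (2 * D0))) * Real.log X ^ (B * (2 * D0)) := by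
      calc ((Wp w ^ 2 : ℕ) : ℝ) * (((5 : ℕ) : ℝ) * (((K + 1) ^ (2 * D0) : ℕ) : ℝ)) ≤
        ((Wp w ^ 2 : ℕ) : ℝ) * (((5 : ℕ) : ℝ) * (2 ^ (2 * D0) * Real.log X ^ (B * (2 * D0)))) := by
            gcongr
        _ = _ := by
            push_cast
            ring
    have q3 : (((K + 1) ^ D0 : ℕ) : ℝ) * ((Wp w ^ 2 : ℕ) : ℝ) ≤
        (2 ^ D0 * Wp w ^ 2) * Real.log X ^ (B * (2 * D0)) := by
      have q4 : Real.log X ^ (B * D0) ≤ Real.log X ^ (B * (2 * D0)) := by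
        apply pow_le_pow_right₀ hlX
        apply Nat.mul_le_mul_left
        omega
      calc (((K + 1) ^ D0 : ℕ) : ℝ) * ((Wp w ^ 2 : ℕ) : ℝ) ≤
          (2 ^ D0 * Real.log X ^ (B * D0)) * ((Wp w ^ 2 : ℕ) : ℝ) := by gcongr
        _ ≤ (2 ^ D0 * Real.log X ^ (B * (2 * D0))) * ((Wp w ^ 2 : ℕ) : ℝ) := by gcongr
        _ = _ := by
            push_cast
            ring
    rw [add_mul]
    linarith
  have hsz : ∀ n0 < Wp w, ∀ j ∈ Icc 1 K, ∀ m ∈ Ioc (Z / Wp w - 1) (Z / Wp w - 1 + (L / Wp w + 2)),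
      ((FC3 a b c (Wp w) n0 j m : ℕ) : ℝ) ≤ (X : ℝ) ^ S := by
    intro n0 hn0 j hj m hm
    have q1 := FC3_size h w K n0 Z L X hn0 hZL (by omega) j hj m hm
    have q2 : ((FC3 a b c (Wp w) n0 j m : ℕ) : ℝ) ≤
        ((3 * (K + 1) ^ D0 * (3 * X) ^ 2 : ℕ) : ℝ) := by exact_mod_cast q1
    refine q2.trans ?_
    rw [Nat.cast_mul, Nat.cast_mul]
    calc ((3 : ℕ) : ℝ) * (((K + 1) ^ D0 : ℕ) : ℝ) * (((3 * X) ^ 2 : ℕ) : ℝ) ≤
        ((3 : ℕ) : ℝ) * (2 ^ D0 * Real.log X ^ (B * D0)) * (((3 * X) ^ 2 : ℕ) : ℝ) := by gcongr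
      _ = (3 * 2 ^ D0 * 9 * Real.log X ^ (B * D0)) * (X : ℝ) ^ 2 := by
          push_cast
          ring
      _ ≤ (X : ℝ) ^ (S - 2) * (X : ℝ) ^ 2 := mul_le_mul_of_nonneg_right f8 (by positivity)
      _ = (X : ℝ) ^ S := by
          rw [← Real.rpow_natCast (X : ℝ) 2, ← Real.rpow_add hX0]
          congr 1
          push_cast
          ring
  have hB1' : (1 : ℝ) + k ≤ B1 := by
    rw [hB1]
    push_cast
    have q1 := Nat.le_ceil κ
    have q2 : (0 : ℝ) ≤ B := Nat.cast_nonneg _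
    linarith
  have hB1K : (K : ℝ) ≤ Real.log X ^ B1 :=
    hK2.trans (pow_le_pow_right₀ hlX (by omega))
  have h1κ : Real.log X ^ (1 + k) ≤ Real.log X ^ B1 := by
    rw [← Real.rpow_natCast]
    exact Real.rpow_le_rpow_of_exponent_le hlX hB1'
  have hkk : Real.log X ^ (1 + κ) = Real.log X ^ (1 + k) * Real.log X ^ k := by
    rw [← Real.rpow_add hlX0]
    congr 1
    rw [hk]
    ring
  have hlkpos : 0 < Real.log X ^ (1 + k) := by positivity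
  have hlk0 : 0 < Real.log X ^ k := by positivity
  have hσδ : 0 < 1 / (σ * δ) := by positivity
  have hκδ : 0 < 4 / (κ0 * δ) := by positivity
  have hσK : Real.log X ^ (1 + k) ≤ σ * (δ * K) := by
    have q1 : 1 / (σ * δ) ≤ Real.log X ^ k := by linarith
    rw [div_le_iff₀ (by positivity)] at q1
    have q2 : Real.log X ^ (1 + k) * Real.log X ^ k ≤ K := by
      rw [← hkk]
      exact hK1
    calc Real.log X ^ (1 + k) = Real.log X ^ (1 + k) * 1 := (mul_one _).symm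
      _ ≤ Real.log X ^ (1 + k) * (Real.log X ^ k * (σ * δ)) := mul_le_mul_of_nonneg_left q1 hlkpos.le
      _ = (Real.log X ^ (1 + k) * Real.log X ^ k) * (σ * δ) := by ring
      _ ≤ K * (σ * δ) := mul_le_mul_of_nonneg_right q2 (by positivity)
      _ = _ := by ring
  have hL' : (X : ℝ) ^ θ' ≤ ((L / Wp w + 2 : ℕ) : ℝ) := by
    have hW0 : (0 : ℝ) < Wp w := by exact_mod_cast hW
    have a1 : (X : ℝ) ^ θ' * Wp w ≤ L := by
      calc (X : ℝ) ^ θ' * Wp w ≤ (X : ℝ) ^ θ' * (X : ℝ) ^ (θ - θ') := mul_le_mul_of_nonneg_left f10 (by positivity)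
        _ = (X : ℝ) ^ θ := by rw [← Real.rpow_add hX0]; congr 1; ring
        _ ≤ L := hXL
    have a2 : (X : ℝ) ^ θ' ≤ (L : ℝ) / Wp w := by
      rw [le_div_iff₀ hW0]
      exact a1
    refine a2.trans ?_
    have a3 := Nat.lt_div_mul_add (a := L) hW
    have a4 : (L : ℝ) < ((L / Wp w : ℕ) : ℝ) * Wp w + Wp w := by exact_mod_cast a3
    rw [div_le_iff₀ hW0]
    push_cast
    linarith
  have hv : (X : ℝ) ^ (θ / 10) ≤ (X : ℝ) ^ ζ :=
    Real.rpow_le_rpow_of_exponent_le hX1 (by linarith)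
  -- the small `n`
  obtain ⟨n1, hn1⟩ : ∃ n1, n1 = (K + 1) ^ D0 + 3 + 2 * Wp w := ⟨_, rfl⟩
  have hn1L : (n1 : ℝ) ≤ ε1 * L := by
    have q1 : (1 : ℝ) ≤ Real.log X ^ (B * D0) := one_le_pow₀ hlX
    have q2 : (n1 : ℝ) ≤ (2 ^ D0 + 3 + 2 * Wp w) * Real.log X ^ (B * D0) := by
      rw [hn1, Nat.cast_add, Nat.cast_add]
      push_cast at p3 ⊢
      have q3 : (0 : ℝ) ≤ Wp w := Nat.cast_nonneg _
      have q4 : 2 * (Wp w : ℝ) ≤ 2 * Wp w * Real.log X ^ (B * D0) := le_mul_of_one_le_right (by positivity) q1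
      rw [add_mul, add_mul]
      linarith
    refine q2.trans ?_
    calc (2 ^ D0 + 3 + 2 * (Wp w : ℝ)) * Real.log X ^ (B * D0) =
        ε1 * ((2 ^ D0 + 3 + 2 * (Wp w : ℝ)) / ε1 * Real.log X ^ (B * D0)) := by
          field_simp
      _ ≤ ε1 * (X : ℝ) ^ θ := mul_le_mul_of_nonneg_left f11 hε10.le
      _ ≤ ε1 * L := mul_le_mul_of_nonneg_left hXL hε10.le
  have hthr : ∀ x : ℝ, 0 ≤ x → x * Real.log X ^ (1 + κ) < K → x * Real.log X ^ (1 + k) < κ0 * (δ * K / 4) := by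
    intro x hx hxK
    rw [hkk] at hxK
    have q1 : 4 / (κ0 * δ) ≤ Real.log X ^ k := by linarith
    rw [div_le_iff₀ (by positivity)] at q1
    have q2 : x * Real.log X ^ (1 + k) * Real.log X ^ k < K := by
      rw [mul_assoc]
      exact hxK
    have q3 : x * Real.log X ^ (1 + k) * 4 ≤ x * Real.log X ^ (1 + k) * (Real.log X ^ k * (κ0 * δ)) :=
      mul_le_mul_of_nonneg_left q1 (by positivity)
    have q4 : x * Real.log X ^ (1 + k) * Real.log X ^ k * (κ0 * δ) < K * (κ0 * δ) :=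
      mul_lt_mul_of_pos_right q2 (by positivity)
    have q5 : x * Real.log X ^ (1 + k) * (Real.log X ^ k * (κ0 * δ)) =
      x * Real.log X ^ (1 + k) * Real.log X ^ k * (κ0 * δ) := by ring
    linarith
  have hfin := all_classesQ3 (a := a) (b := b) (c := c) (G := G) (D0 := D0) Adm w K R Z L n1 ε1
    (κ0 * (δ * K / 4)) ((X : ℝ) ^ (θ / 10)) (Real.log X ^ (1 + k)) hε10 hn1L (by omega) (by omega) hε11 (by
      intro n0 hn0
      obtain ⟨T, hT⟩ : ∃ T, T = (Ioc Z (Z + L)).filter (fun n => Adm n ∧ n % Wp w = n0 ∧ (K + 1) ^ D0 + 3 ≤ n ∧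
        Wp w ≤ n ∧ (cntQ3 a b c G R K n ((X : ℝ) ^ (θ / 10)) : ℝ) * Real.log X ^ (1 + k) < κ0 * (δ * K / 4)) :=
        ⟨_, rfl⟩
      rw [← hT]
      rcases T.eq_empty_or_nonempty with hemp | ⟨n, hn'⟩
      · rw [hemp, card_empty, Nat.cast_zero]
        positivity
      rw [hT, mem_filter] at hn'
      obtain ⟨-, hadm, hnn, -⟩ := hn'
      have hJc : δ * K ≤ (JQ3 a b c G w K n0).card := by
        rw [← JQ3_congr a b c G w K n n0 (by rw [← hnn]; exact (Nat.mod_modEq n _).symm)]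
        exact g2 n hadm
      have q1 := oneCls3 h w K n0 X R (Z / Wp w - 1) (L / Wp w + 2) B1 r W1 y ζ υ S κ0 σ ηM k ε1 δ hw2 hwa
        hwX hyX (f1 _ _ hL') f2 f3 hA2 hdisc hcol hsqy (hsz n0 hn0) hB1K h1κ hκ0 hε10 hδK hJc (g1 y) hσK
      refine le_trans ?_ q1
      have q2 := cls_cardQ3 h w K n0 X R Z L ζ (κ0 * (δ * K / 4)) ((X : ℝ) ^ (θ / 10)) (Real.log X ^ (1 + k))
        hlkpos.le hv
      have q3 : T.card ≤ ((Ioc Z (Z + L)).filter (fun n => n % Wp w = n0 ∧ (K + 1) ^ D0 + 3 ≤ n ∧ Wp w ≤ n ∧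
          (cntQ3 a b c G R K n ((X : ℝ) ^ (θ / 10)) : ℝ) * Real.log X ^ (1 + k) < κ0 * (δ * K / 4))).card := by
        rw [hT]
        apply card_le_card
        intro n hn
        rw [mem_filter] at hn ⊢
        exact ⟨hn.1, hn.2.2⟩
      exact_mod_cast q3.trans q2)
  have hfin2 : (((Ioc Z (Z + L)).filter (fun n => Adm n ∧
      (cntQ3 a b c G R K n ((X : ℝ) ^ (θ / 10)) : ℝ) * Real.log X ^ (1 + κ) < K)).card : ℝ) ≤
      (((Ioc Z (Z + L)).filter (fun n => Adm n ∧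
      (cntQ3 a b c G R K n ((X : ℝ) ^ (θ / 10)) : ℝ) * Real.log X ^ (1 + k) < κ0 * (δ * K / 4))).card : ℝ) := by
    have : ((Ioc Z (Z + L)).filter (fun n => Adm n ∧
      (cntQ3 a b c G R K n ((X : ℝ) ^ (θ / 10)) : ℝ) * Real.log X ^ (1 + κ) < K)).card ≤
      ((Ioc Z (Z + L)).filter (fun n => Adm n ∧
      (cntQ3 a b c G R K n ((X : ℝ) ^ (θ / 10)) : ℝ) * Real.log X ^ (1 + k) < κ0 * (δ * K / 4))).card := by
      apply card_le_card
      intro n hn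
      rw [mem_filter] at hn ⊢
      exact ⟨hn.1, hn.2.1, hthr _ (Nat.cast_nonneg _) hn.2.2⟩
    exact_mod_cast this
  refine hfin2.trans (hfin.trans ?_)
  exact mul_le_mul_of_nonneg_right hε13 (Nat.cast_nonneg _)

end Pool.Agent.L0h41.QN
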