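import Pool.Agent.L0h41.QN.S1
import Pool.Agent.L0h41.QN.M4

set_option autoImplicit false

/-!
# Families of quadratic polynomials with polynomial coefficients: the average hypothesis
-/

namespace Pool.Agent.L0h41.QN

open Finset Filter Polynomial
open Pool.Agent.W123.RP Pool.Agent.H373R2.T7 Pool.Agent.W123.RU Pool.Agent.TH464.PO Pool.Agent.TH464.PW
open Pool.Agent.W23.DC Pool.Agent.Y882 Pool.Agent.Y882.KW Pool.Agent.Y882.SI Pool.Agent.Y882.PX
open Pool.Agent.Y879.AP Pool.Agent.R490.P3b Pool.Agent.R490.LGa Pool.Agent.R490.LGd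
open Pool.Agent.R490.LGe Pool.Agent.R490.GPg Pool.Agent.R490.GPh
open Pool.Agent.L0h41.LW

/-- the values of a polynomial -/
noncomputable def ev (a : ℤ[X]) : ℕ → ℤ := fun j => a.eval (j : ℤ)

/-- the discriminant is not a square -/
def GD (a b c : ℤ[X]) (j : ℕ) : Prop := ¬ IsSquare (ev b j ^ 2 - 4 * ev a j * ev c j)

/-- the values as a polynomial in the parameter -/
noncomputable def Phi (a b c : ℤ[X]) (n : ℕ) : ℤ[X] := C ((n : ℤ) ^ 2) * a + C (n : ℤ) * b + c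

/-- the degree -/
def dx (a b c : ℤ[X]) : ℕ := max a.natDegree (max b.natDegree c.natDegree) + 1

/-- the admissible integers -/
def AdmF (a b c : ℤ[X]) (n : ℕ) : Prop := ∀ p : ℕ, p.Prime → ∃ j : ℕ, ¬ (p : ℤ) ∣ (Phi a b c n).eval (j : ℤ)

/-- the family -/
structure Fam (a b c u v t : ℤ[X]) (N : ℤ) : Prop where
  bez : u * a + v * b + t * c = C N
  N0 : N ≠ 0
  ns : ¬ IsSquare ((b ^ 2 - 4 * a * c).map (Int.castRingHom ℚ))
  nc : 0 < a.natDegree ∨ 0 < b.natDegree ∨ 0 < c.natDegree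

lemma Phi_eval (a b c : ℤ[X]) (n : ℕ) (x : ℤ) :
    (Phi a b c n).eval x = a.eval x * (n : ℤ) ^ 2 + b.eval x * n + c.eval x := by
  unfold Phi
  rw [eval_add, eval_add, eval_mul, eval_mul, eval_C, eval_C]
  ring

lemma Phi_deg (a b c : ℤ[X]) (n : ℕ) : (Phi a b c n).natDegree ≤ dx a b c := by
  unfold Phi dx
  have h1 := natDegree_add_le (C ((n : ℤ) ^ 2) * a + C (n : ℤ) * b) c
  have h2 := natDegree_add_le (C ((n : ℤ) ^ 2) * a) (C (n : ℤ) * b)
  have h3 := natDegree_C_mul_le ((n : ℤ) ^ 2) a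
  have h4 := natDegree_C_mul_le (n : ℤ) b
  omega

lemma FQ3_dvd (a b c : ℤ[X]) (j n p : ℕ) :
    p ∣ FQ3 (ev a) (ev b) (ev c) j n ↔ (p : ℤ) ∣ (Phi a b c n).eval (j : ℤ) := by
  rw [Phi_eval]
  exact DQ_iff (ev a j) (ev b j) (ev c j) p n

/-- the roots -/
lemma card_roots_nat (f : ℤ[X]) (hf : f ≠ 0) (S : Finset ℕ) (hS : ∀ j ∈ S, f.eval (j : ℤ) = 0) :
    S.card ≤ f.natDegree := by
  classical
  refine le_trans ?_ ((Multiset.toFinset_card_le _).trans (card_roots' f))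
  apply card_le_card_of_injOn (fun j : ℕ => (j : ℤ))
  · intro j hj
    rw [mem_coe, Multiset.mem_toFinset, mem_roots hf]
    exact hS j hj
  · intro i _ j _ hij
    have h : (i : ℤ) = (j : ℤ) := hij
    exact_mod_cast h

variable {a b c u v t : ℤ[X]} {N : ℤ}

/-- few proportional members -/
lemma Fam.propCard (H : Fam a b c u v t N) (j : ℕ) (hG : GD a b c j) (S : Finset ℕ)
    (hS : ∀ j' ∈ S, prop3 (ev a) (ev b) (ev c) j j') : S.card ≤ dx a b c := by
  have ha : ev a j ≠ 0 := a_ne _ _ _ hG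
  obtain ⟨P1, hP1⟩ : ∃ P, P = C (ev a j) * b - C (ev b j) * a := ⟨_, rfl⟩
  obtain ⟨P2, hP2⟩ : ∃ P, P = C (ev a j) * c - C (ev c j) * a := ⟨_, rfl⟩
  have d1 : P1.natDegree ≤ dx a b c := by
    have h1 := natDegree_sub_le (C (ev a j) * b) (C (ev b j) * a)
    have h2 := natDegree_C_mul_le (ev a j) b
    have h3 := natDegree_C_mul_le (ev b j) a
    rw [hP1]
    unfold dx
    omega
  have d2 : P2.natDegree ≤ dx a b c := by
    have h1 := natDegree_sub_le (C (ev a j) * c) (C (ev c j) * a)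
    have h2 := natDegree_C_mul_le (ev a j) c
    have h3 := natDegree_C_mul_le (ev c j) a
    rw [hP2]
    unfold dx
    omega
  have hne : P1 ≠ 0 ∨ P2 ≠ 0 := by
    by_contra hcon
    push Not at hcon
    obtain ⟨e1, e2⟩ := hcon
    rw [hP1, sub_eq_zero] at e1
    rw [hP2, sub_eq_zero] at e2
    have h1 : (C (ev a j) * u + C (ev b j) * v + C (ev c j) * t) * a = C (ev a j * N) := by
      rw [C_mul, ← H.bez]
      linear_combination (-v) * e1 + (-t) * e2
    have hN : ev a j * N ≠ 0 := mul_ne_zero ha H.N0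
    have hna : a.natDegree = 0 := by
      have h2 := congrArg natDegree h1
      have h3 : C (ev a j * N) ≠ 0 := fun h => hN (C_eq_zero.1 h)
      rw [← h1] at h3
      rw [natDegree_C, natDegree_mul (left_ne_zero_of_mul h3) (right_ne_zero_of_mul h3)] at h2
      omega
    have hb : ∀ (q : ℤ[X]) (s : ℤ), C (ev a j) * q = C s * a → q.natDegree = 0 := by
      intro q s h
      by_cases hq : q = 0
      · rw [hq, natDegree_zero]
      have h2 := congrArg natDegree h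
      rw [natDegree_mul (fun h => ha (C_eq_zero.1 h)) hq, natDegree_C, zero_add] at h2
      have h3 := natDegree_C_mul_le s a
      omega
    have nb := hb b _ e1
    have ncc := hb c _ e2
    rcases H.nc with h | h | h <;> omega
  rcases hne with h | h
  · refine (card_roots_nat P1 h S ?_).trans d1
    intro j' hj'
    have h1 := (hS j' hj').1
    rw [hP1, eval_sub, eval_mul, eval_mul, eval_C, eval_C]
    unfold ev at h1 ⊢
    linarith
  · refine (card_roots_nat P2 h S ?_).trans d2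
    intro j' hj'
    have h1 := (hS j' hj').2
    rw [hP2, eval_sub, eval_mul, eval_mul, eval_C, eval_C]
    unfold ev at h1 ⊢
    linarith

lemma GD_iff (a b c : ℤ[X]) (j : ℕ) : GD a b c j ↔ ¬ IsSquare ((b ^ 2 - 4 * a * c).eval (j : ℤ)) := by
  unfold GD ev
  have e : (b ^ 2 - 4 * a * c).eval (j : ℤ) = b.eval (j : ℤ) ^ 2 - 4 * a.eval (j : ℤ) * c.eval (j : ℤ) := by
    simp
  rw [e]

open Classical in
lemma Fam.sq (H : Fam a b c u v t N) (δ : ℝ) (hδ : 0 < δ) : ∃ K0 : ℕ, ∀ K : ℕ, K0 ≤ K →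
    (((Icc 1 K).filter (fun j : ℕ => ¬ GD a b c j)).card : ℝ) ≤ δ * K := by
  obtain ⟨K0, h⟩ := sq_density _ H.ns δ hδ
  refine ⟨K0, fun K hK => ?_⟩
  refine le_trans (le_of_eq ?_) (h K hK)
  congr 1
  apply congrArg card
  apply filter_congr
  intro j _
  rw [GD_iff, not_not]

lemma Fam.exG (H : Fam a b c u v t N) : ∃ j, GD a b c j := by
  classical
  obtain ⟨K0, h⟩ := H.sq (1 / 2) (by norm_num)
  by_contra hcon
  push Not at hcon
  have h1 := h (K0 + 1) (by omega)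
  rw [filter_true_of_mem (fun j _ => hcon j), Nat.card_Icc, Nat.add_sub_cancel] at h1
  have : (0 : ℝ) < ((K0 + 1 : ℕ) : ℝ) := by positivity
  linarith

/-- not all the values are divisible by a large prime -/
lemma Fam.phi_ne (H : Fam a b c u v t N) : ∃ w0 : ℕ, N.natAbs ≤ w0 ∧ ∀ p : ℕ, p.Prime → w0 < p → ∀ n : ℕ,
    (Phi a b c n).map (Int.castRingHom (ZMod p)) ≠ 0 := by
  obtain ⟨x1, h1⟩ := H.exG
  obtain ⟨x2, h2⟩ : ∃ x2, ¬ prop3 (ev a) (ev b) (ev c) x1 x2 := by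
    by_contra hcon
    push Not at hcon
    have := H.propCard x1 h1 (range (dx a b c + 1)) (fun j _ => hcon j)
    rw [card_range] at this
    omega
  have h3 := R3_ne (ev a) (ev b) (ev c) x1 x2 h1 h2
  refine ⟨N.natAbs + (R3 (ev a) (ev b) (ev c) x1 x2).natAbs, by omega, ?_⟩
  intro p hp hwp n
  by_cases h4 : (p : ℤ) ∣ (Phi a b c n).eval (x1 : ℤ)
  · by_cases h5 : (p : ℤ) ∣ (Phi a b c n).eval (x2 : ℤ)
    · exfalso
      have h6 := common_R3 (ev a) (ev b) (ev c) x1 x2 n p ((FQ3_dvd a b c x1 n p).2 h4)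
        ((FQ3_dvd a b c x2 n p).2 h5)
      have h7 := Nat.le_of_dvd (Int.natAbs_pos.2 h3) (Int.natCast_dvd.1 h6)
      omega
    · exact Pool.Agent.L0h41.PE.map_ne _ p hp _ h5
  · exact Pool.Agent.L0h41.PE.map_ne _ p hp _ h4

lemma Fam.dat (H : Fam a b c u v t N) (w0 : ℕ) (hw0 : N.natAbs ≤ w0) : ∃ D0 : ℕ,
    DatQ3 (ev a) (ev b) (ev c) (GD a b c) D0 (dx a b c) w0 := by
  obtain ⟨Da, ha⟩ := size_poly a
  obtain ⟨Db, hb⟩ := size_poly b
  obtain ⟨Dc, hc⟩ := size_poly c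
  refine ⟨Da + Db + Dc, ?_, ?_, ?_, ?_, ?_, ?_⟩
  · intro j hj
    exact (ha j hj).trans (Nat.pow_le_pow_right (by omega) (by omega))
  · intro j hj
    exact (hb j hj).trans (Nat.pow_le_pow_right (by omega) (by omega))
  · intro j hj
    exact (hc j hj).trans (Nat.pow_le_pow_right (by omega) (by omega))
  · intro j _ hG
    exact hG
  · rintro j _ p hp hwp ⟨h1, h2, h3⟩
    have h4 := congrArg (eval (j : ℤ)) H.bez
    rw [eval_add, eval_add, eval_mul, eval_mul, eval_mul, eval_C] at h4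
    have h5 : (p : ℤ) ∣ N := by
      rw [← h4]
      exact dvd_add (dvd_add (h1.mul_left _) (h2.mul_left _)) (h3.mul_left _)
    have h6 := Nat.le_of_dvd (Int.natAbs_pos.2 H.N0) (Int.natCast_dvd.1 h5)
    omega
  · intro K j _ _ hG S hS
    exact H.propCard j hG S (fun j' hj' => (hS j' hj').2.2.2)

open Classical in
/-- the arguments in prescribed classes -/
lemma cnt_genQ (Q : ℕ → ℕ → Prop) (hper : ∀ p n, Q p n ↔ Q p (n % p)) (K D : ℕ) (T : Finset ℕ)
    (hT : ∀ p ∈ T, p.Prime ∧ ((range p).filter (fun r : ℕ => Q p r)).card ≤ D) :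
    (((Icc 1 K).filter (fun j : ℕ => ∀ p ∈ T, Q p j)).card : ℝ) ≤
      (D : ℝ) ^ T.card * (K / (∏ p ∈ T, (p : ℝ)) + 1) := by
  have h3 := count_sys Q K T (fun p hp => (hT p hp).1) 1 le_rfl
    (fun p hp hd => (hT p hp).1.one_lt.ne' (Nat.dvd_one.1 hd)) 0
  have e1 : (Icc 1 K).filter (fun n => n ≡ 0 [MOD 1] ∧ ∀ p ∈ T, Q p (n % p)) =
      (Icc 1 K).filter (fun j : ℕ => ∀ p ∈ T, Q p j) := by
    apply filter_congr
    intro n _
    constructor
    · rintro ⟨_, h⟩ p hp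
      exact (hper p n).2 (h p hp)
    · intro h
      exact ⟨Nat.modEq_one, fun p hp => (hper p n).1 (h p hp)⟩
  rw [e1, Nat.cast_one, div_one] at h3
  have hν : ∀ p ∈ T, (((range p).filter (fun r : ℕ => Q p r)).card : ℝ) ≤ D := by
    intro p hp
    exact_mod_cast (hT p hp).2
  have h4 : ∏ p ∈ T, (((range p).filter (fun r : ℕ => Q p r)).card : ℝ) ≤ (D : ℝ) ^ T.card := by
    rw [← prod_const]
    exact Finset.prod_le_prod (fun _ _ => Nat.cast_nonneg _) hν
  have h5 : ∏ p ∈ T, ((((range p).filter (fun r : ℕ => Q p r)).card : ℝ) / p) ≤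
      (D : ℝ) ^ T.card / ∏ p ∈ T, (p : ℝ) := by
    rw [prod_div_distrib]
    exact div_le_div_of_nonneg_right h4 (prod_nonneg fun _ _ => Nat.cast_nonneg _)
  have h6 := (abs_le.1 h3).2
  have h7 : (K : ℝ) * ∏ p ∈ T, ((((range p).filter (fun r : ℕ => Q p r)).card : ℝ) / p) ≤
      K * ((D : ℝ) ^ T.card / ∏ p ∈ T, (p : ℝ)) := mul_le_mul_of_nonneg_left h5 (Nat.cast_nonneg _)
  have e : (D : ℝ) ^ T.card * (K / (∏ p ∈ T, (p : ℝ)) + 1) =
      K * ((D : ℝ) ^ T.card / ∏ p ∈ T, (p : ℝ)) + (D : ℝ) ^ T.card := by ring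
  rw [e]
  linarith

lemma perJ (a b c : ℤ[X]) (n p j : ℕ) : p ∣ FQ3 (ev a) (ev b) (ev c) j n ↔
    p ∣ FQ3 (ev a) (ev b) (ev c) (j % p) n := by
  rw [FQ3_dvd, FQ3_dvd]
  exact Pool.Agent.W123.RU.Poly.per1 (Phi a b c n) p j

open Classical in
/-- the classes with a common zero -/
lemma Fam.ev_card (w0 D0 : ℕ) (hd : DatQ3 (ev a) (ev b) (ev c) (GD a b c) D0 (dx a b c) w0)
    (hne : ∀ p : ℕ, p.Prime → w0 < p → ∀ n : ℕ, (Phi a b c n).map (Int.castRingHom (ZMod p)) ≠ 0)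
    (j : ℕ) (hj : 1 ≤ j) (p : ℕ) (hp : p.Prime) (hp2 : 2 < p) (hwp : w0 < p) :
    ((range p).filter (fun r : ℕ => Ev3 (ev a) (ev b) (ev c) j r p)).card ≤ 2 * dx a b c := by
  have h1 : (range p).filter (fun r : ℕ => Ev3 (ev a) (ev b) (ev c) j r p) ⊆
      ((range p).filter (fun m => p ∣ FQ3 (ev a) (ev b) (ev c) j m)).biUnion
        (fun m => (range p).filter (fun r : ℕ => (p : ℤ) ∣ (Phi a b c m).eval (r : ℤ))) := by
    intro r hr
    rw [mem_filter] at hr
    obtain ⟨hr1, n, h2, h3⟩ := hr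
    have hper : ∀ i, p ∣ FQ3 (ev a) (ev b) (ev c) i n → p ∣ FQ3 (ev a) (ev b) (ev c) i (n % p) := by
      intro i hi
      exact (perF (ev a i) (ev b i) (ev c i) p n (n % p) (Nat.mod_modEq n p).symm).1 hi
    rw [mem_biUnion]
    refine ⟨n % p, ?_, ?_⟩
    · rw [mem_filter, mem_range]
      exact ⟨Nat.mod_lt _ hp.pos, hper j h2⟩
    · rw [mem_filter]
      exact ⟨hr1, (FQ3_dvd a b c r (n % p) p).1 (hper r h3)⟩
  refine (card_le_card h1).trans ?_
  refine (card_biUnion_le_card_mul _ _ (dx a b c) ?_).trans ?_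
  · intro m _
    exact (Pool.Agent.L0h41.PE.roots_le _ p hp (hne p hp hwp m)).trans (Phi_deg a b c m)
  · apply Nat.mul_le_mul_right
    have h2 := nuB_leq (ev a j) (ev b j) (ev c j) p hp (by omega) (hd.cont j hj p hp hwp)
    have h3 := (jac_le (ev b j ^ 2 - 4 * ev a j * ev c j) p).1
    have h4 : (nuB (DQ (Fq (ev a j) (ev b j) (ev c j))) p : ℝ) ≤ 2 := by linarith
    have h5 : nuB (DQ (Fq (ev a j) (ev b j) (ev c j))) p ≤ 2 := by exact_mod_cast h4
    unfold nuB at h5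
    rw [card_inst _ _ _ _]
    exact h5

end Pool.Agent.L0h41.QN
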