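import Pool.Agent.L0h41.QN.M2
import Pool.Agent.Y862.SQ.Main1

set_option autoImplicit false

/-!
# Almost primes just above squares: the family `n² + h`
-/

namespace Pool.Agent.L0h41.QN

open Finset Filter
open Pool.Agent.W123.RP Pool.Agent.H373R2.T7 Pool.Agent.W123.RU Pool.Agent.TH464.PO Pool.Agent.TH464.PW
open Pool.Agent.W23.DC Pool.Agent.Y882 Pool.Agent.Y882.KW Pool.Agent.Y882.SI Pool.Agent.Y882.PX
open Pool.Agent.Y879.AP
open Pool.Agent.L0h41.LW
open Pool.Agent.Y862.SQ (VH rH V1 t_AVG)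

/-- the values `n² + h` -/
def Fh (h : ℕ) : ℕ → ℕ := Fq 1 0 h

lemma Fh_eq (h n : ℕ) : Fh h n = n ^ 2 + h := by
  unfold Fh Fq
  have e : (1 : ℤ) * (n : ℤ) ^ 2 + 0 * n + h = ((n ^ 2 + h : ℕ) : ℤ) := by
    push_cast
    ring
  rw [e, Int.natAbs_natCast]

lemma prV (y : ℕ) : Pool.Agent.Y862.SQ.pr y = pz y := (pz_eq y).symm

lemma Vq_one (h y : ℕ) : Vq (DQ (Fh h)) y = VH {h} y := by
  classical
  unfold Vq VH
  rw [prV]
  apply prod_congr rfl
  intro p _
  have e : nuB (DQ (Fh h)) p = rH {h} p := by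
    unfold nuB rH
    rw [card_filter, card_filter]
    apply sum_congr rfl
    intro r _
    have : DQ (Fh h) p r ↔ ∃ h' ∈ ({h} : Finset ℕ), p ∣ r ^ 2 + h' := by
      unfold DQ
      rw [Fh_eq]
      simp
    by_cases h1 : DQ (Fh h) p r
    · rw [if_pos h1, if_pos (this.1 h1)]
    · rw [if_neg h1, if_neg (fun h2 => h1 (this.2 h2))]
  rw [e]

lemma Vq_two (h h' y : ℕ) : Vq (QPP (Fh h) (Fh h')) y = VH {h, h'} y := by
  classical
  unfold Vq VH
  rw [prV]
  apply prod_congr rfl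
  intro p _
  have e : nuB (QPP (Fh h) (Fh h')) p = rH {h, h'} p := by
    unfold nuB rH
    rw [card_filter, card_filter]
    apply sum_congr rfl
    intro r _
    have : QPP (Fh h) (Fh h') p r ↔ ∃ h'' ∈ ({h, h'} : Finset ℕ), p ∣ r ^ 2 + h'' := by
      unfold QPP DQ
      rw [Fh_eq, Fh_eq]
      simp
    by_cases h1 : QPP (Fh h) (Fh h') p r
    · rw [if_pos h1, if_pos (this.1 h1)]
    · rw [if_neg h1, if_neg (fun h2 => h1 (this.2 h2))]
  rw [e]

lemma V1_eq (y : ℕ) : V1 y = Vz y := by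
  unfold V1 Vz
  rw [prV]

/-- the discriminants -/
lemma disc_h (h : ℕ) (hh : 1 ≤ h) : ¬ IsSquare ((0 : ℤ) ^ 2 - 4 * 1 * (h : ℤ)) := by
  rintro ⟨s, hs⟩
  have h1 : 0 ≤ s * s := mul_self_nonneg s
  have h2 : (1 : ℤ) ≤ h := by exact_mod_cast hh
  omega

/-- equality -/
def eqB (h h' : ℕ) : Prop := h = h'

open Classical in
/-- the moments -/
lemma avgSq (η : ℝ) (hη : 0 < η) : ∃ w T0 : ℕ, ∀ T : ℕ, T0 ≤ T → ∀ y : ℕ, w ≤ y →
    (1 - η) * (T * Vz y) ≤ V1G Fh (fun _ => 1) (Icc 1 T) y ∧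
    V1G Fh (fun _ => 1) (Icc 1 T) y ≤ (1 + η) * (T * Vz y) ∧
    V2G Fh (fun _ => 1) (Icc 1 T) eqB y ≤ (1 + η) * (T * Vz y) ^ 2 := by
  obtain ⟨w1, T1, h1⟩ := t_AVG 0 η hη
  obtain ⟨w2, T2, h2⟩ := t_AVG 1 η hη
  refine ⟨w1 + w2, T1 + T2, ?_⟩
  intro T hT y hy
  have g1 := h1 T (by omega) y (by omega)
  have g2 := h2 T (by omega) y (by omega)
  rw [V1_eq] at g1 g2
  have e1 : ∑ H ∈ powersetCard (0 + 1) (Icc 1 T), VH H y = V1G Fh (fun _ => 1) (Icc 1 T) y := by
    rw [zero_add, powersetCard_one, sum_map]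
    unfold V1G
    apply sum_congr rfl
    intro h _
    rw [Vq_one, one_mul]
    rfl
  rw [e1] at g1
  simp only [zero_add, pow_one, Nat.factorial_one, Nat.cast_one, div_one] at g1
  have g3 := abs_le.1 g1
  refine ⟨by linarith [g3.1], by linarith [g3.2], ?_⟩
  have e2 : (((1 + 1).factorial : ℕ) : ℝ) = 2 := by norm_num [Nat.factorial]
  rw [e2] at g2
  have g4 := (abs_le.1 g2).2
  have hVH : ∀ H : Finset ℕ, 0 ≤ VH H y := by
    intro H
    unfold VH
    apply prod_nonneg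
    intro p hp
    have hpp := (mem_pz.1 (by rw [← prV]; exact hp : p ∈ pz y)).2
    have hp0 : (0 : ℝ) < p := by exact_mod_cast hpp.pos
    have h3 : rH H p ≤ p := by
      unfold rH
      exact (card_filter_le _ _).trans (card_range p).le
    have h4 : (rH H p : ℝ) / p ≤ 1 := by
      rw [div_le_one hp0]
      exact_mod_cast h3
    linarith
  have h5 := Pool.Agent.R490.P3d.pairs (fun H => VH H y) hVH T
  have e3 : V2G Fh (fun _ => 1) (Icc 1 T) eqB y =
      ∑ h ∈ Icc 1 T, ∑ h' ∈ Icc 1 T, (if h = h' then 0 else VH {h, h'} y) := by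
    unfold V2G
    apply sum_congr rfl
    intro h _
    apply sum_congr rfl
    intro h' _
    by_cases hh : h = h'
    · rw [if_pos (show eqB h h' from hh), if_pos hh]
    · rw [if_neg (show ¬ eqB h h' from hh), if_neg hh, Vq_two, one_mul, one_mul]
  rw [e3]
  refine h5.trans ?_
  have g5 : ∑ H ∈ powersetCard (1 + 1) (Icc 1 T), VH H y ≤ (1 + η) * (((T : ℝ) * Vz y) ^ (1 + 1) / 2) := by
    linarith
  have e4 : (1 + η) * ((T : ℝ) * Vz y) ^ 2 = 2 * ((1 + η) * (((T : ℝ) * Vz y) ^ (1 + 1) / 2)) := by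
    norm_num
    ring
  rw [e4]
  exact mul_le_mul_of_nonneg_left g5 (by norm_num)

open Classical in
/-- the number of the almost primes just above a square -/
noncomputable def Nsq (n k T : ℕ) (v : ℝ) : ℕ :=
  ((Ioc (n ^ 2) (n ^ 2 + T)).filter (fun m => m.primeFactorsList.length ≤ k ∧
    ∀ p : ℕ, p.Prime → p ∣ m → v ≤ (p : ℝ))).card

open Classical in
lemma GoodG_le (X R n T : ℕ) (ζ v : ℝ) (hv : v ≤ (X : ℝ) ^ ζ) :
    (GoodG Fh (Icc 1 T) X R n ζ).card ≤ Nsq n R T v := by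
  unfold GoodG Nsq
  apply card_le_card_of_injOn (fun h => n ^ 2 + h)
  · intro h hh
    rw [mem_coe, mem_filter, mem_Icc, Fh_eq] at hh
    show n ^ 2 + h ∈ _
    rw [mem_coe, mem_filter, mem_Ioc]
    refine ⟨⟨by omega, by omega⟩, hh.2.1, ?_⟩
    intro p hp hd
    exact hv.trans (hh.2.2 p hp hd)
  · intro a _ b _ hab
    simp only at hab
    omega

set_option maxHeartbeats 4000000 in
open Classical in
/-- **Almost primes in the windows `(n², n² + T]` for almost all `n`.** -/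
theorem mainSq (θ ε : ℝ) (R : ℕ) (hθ : 0 < θ) (hθ1 : θ ≤ 1) (hR : 1 / 8 + 25 / (6 * θ) < R) (hε : 0 < ε) :
    ∃ κ Λ : ℝ, 0 < κ ∧ 0 < Λ ∧ ∀ B : ℕ, ∀ᶠ X : ℕ in atTop, ∀ Z L T : ℕ, (X : ℝ) ^ θ ≤ L → Z + L ≤ X →
      Λ * Real.log X ≤ T → (T : ℝ) ≤ Real.log X ^ B →
      (((Ioc Z (Z + L)).filter (fun n => (Nsq n R T ((X : ℝ) ^ (θ / 10)) : ℝ) < κ * (T / Real.log X))).card : ℝ) ≤
        ε * L := by
  obtain ⟨r, ζ, υ, S, κ0, σ, ηM, hr2, -, hζ, hυ, hS, hκ0, hσ, hηM, hmain⟩ :=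
    mainR 2 1 2 (by norm_num) (by norm_num) θ ε R 2 hθ hθ1 (by
      refine lt_of_le_of_lt (le_of_eq ?_) hR
      push_cast
      field_simp
      ring) hε
  have hr0 : (0 : ℝ) < r := by exact_mod_cast (by omega : 0 < r)
  have hS2 : (2 : ℝ) < S := by exact_mod_cast hS
  obtain ⟨cz, Cz, hcz, hCz, hVz⟩ := Vz_bounds
  obtain ⟨η, hη⟩ : ∃ η, η = min ε 1 / 2800 := ⟨_, rfl⟩
  have hm : 0 < min ε 1 := lt_min hε one_pos
  have hm1 : min ε 1 ≤ 1 := min_le_right _ _
  have hη0 : 0 < η := by rw [hη]; positivity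
  have hη1 : η ≤ 1 / 100 := by rw [hη]; linarith
  obtain ⟨w, T0, havg⟩ := avgSq η hη0
  refine ⟨κ0 * cz / 8, 2 / (σ * cz) + 1, by positivity, by positivity, ?_⟩
  intro B
  obtain ⟨B1, hB1⟩ : ∃ B1, B1 = B + 2 := ⟨_, rfl⟩
  obtain ⟨W1, hW1⟩ : ∃ W1, W1 = B + 1 := ⟨_, rfl⟩
  have tl : Tendsto (fun X : ℕ => Real.log (X : ℝ)) atTop atTop :=
    Real.tendsto_log_atTop.comp tendsto_natCast_atTop_atTop
  have tp : ∀ e : ℝ, 0 < e → Tendsto (fun X : ℕ => (X : ℝ) ^ e) atTop atTop := fun e he =>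
    (tendsto_rpow_atTop he).comp tendsto_natCast_atTop_atTop
  have e1 := hmain B1
  have e2 := merU W1 (1 / (r : ℝ)) υ ηM (by positivity) hυ hηM
  have e4 := tl.eventually_ge_atTop ((T0 : ℝ) + 4 + 2 / cz)
  have e5 := (tp (1 / (r : ℝ)) (by positivity)).eventually_ge_atTop ((w : ℝ) + 5)
  have e6 := logpow_rpow (B + 1) 9 (1 / (r : ℝ)) (by positivity) (by positivity)
  have e8 := logpow_rpow (B + 1) 1 (S - 2) (by norm_num) (by linarith)
  filter_upwards [e1, e2, e4, e5, e6, e8, eventually_ge_atTop 3] with X f1 f2 f4 f5 f6 f8 f12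
  clear e1 e2 e4 e5 e6 e8
  intro Z L T hXL hZL hT1 hT2
  obtain ⟨y, hy⟩ : ∃ y, y = ⌊(X : ℝ) ^ (1 / (r : ℝ))⌋₊ := ⟨_, rfl⟩
  rw [← hy] at f1
  have hX0 : (0 : ℝ) < X := by exact_mod_cast (by omega : 0 < X)
  have hX1 : (1 : ℝ) ≤ X := by exact_mod_cast (by omega : 1 ≤ X)
  have hcz2 : 0 < 2 / cz := by positivity
  have hT00 : (0 : ℝ) ≤ T0 := Nat.cast_nonneg _
  have hlX : 4 ≤ Real.log X := by linarith
  have hlX0 : 0 < Real.log X := by linarith
  have hlX1 : 1 ≤ Real.log X := by linarith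
  have hσcz : 0 < 2 / (σ * cz) := by positivity
  have hTl : Real.log X ≤ T := by nlinarith
  have hTT0 : T0 ≤ T := by
    have : (T0 : ℝ) ≤ T := by linarith
    exact_mod_cast this
  have hTpos : (0 : ℝ) < T := by linarith
  have hyX : y ≤ X := by
    rw [hy]
    apply Nat.floor_le_of_le
    calc (X : ℝ) ^ (1 / (r : ℝ)) ≤ (X : ℝ) ^ (1 : ℝ) := by
          apply Real.rpow_le_rpow_of_exponent_le hX1
          rw [div_le_one hr0]
          exact_mod_cast (by omega : 1 ≤ r)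
      _ = X := Real.rpow_one _
  have hwy : w + 5 ≤ y := by
    rw [hy]
    apply Nat.le_floor
    push_cast
    exact f5
  -- the density
  have hVy := (hVz y (by omega)).1
  have hyr : (1 : ℝ) < y := by exact_mod_cast (by omega : 1 < y)
  have hly : 0 < Real.log y := Real.log_pos hyr
  have hlyX : Real.log y ≤ Real.log X := Real.log_le_log (by linarith) (by exact_mod_cast hyX)
  have hVlow : cz / Real.log X ≤ Vz y := by
    refine le_trans ?_ hVy
    exact div_le_div_of_nonneg_left hcz.le hly hlyX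
  obtain ⟨h1, h1', h2⟩ := havg T hTT0 y (by omega)
  have hTV : T * (cz / Real.log X) ≤ T * Vz y := mul_le_mul_of_nonneg_left hVlow hTpos.le
  have hTVpos : 0 < T * (cz / Real.log X) := by positivity
  have hVG : T * (cz / Real.log X) / 2 ≤ V1G Fh (fun _ => 1) (Icc 1 T) y := by
    have : (1 / 2 : ℝ) * (T * Vz y) ≤ (1 - η) * (T * Vz y) :=
      mul_le_mul_of_nonneg_right (by linarith) (by linarith)
    linarith
  have hVG0 : 0 < V1G Fh (fun _ => 1) (Icc 1 T) y := by linarith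
  have hσV : 1 ≤ σ * V1G Fh (fun _ => 1) (Icc 1 T) y := by
    have q1 : 2 / (σ * cz) * Real.log X ≤ T := by nlinarith
    have q2 : 2 / (σ * cz) * Real.log X = 2 * Real.log X / (σ * cz) := by ring
    rw [q2, div_le_iff₀ (by positivity)] at q1
    have q3 : σ * (T * (cz / Real.log X) / 2) = T * (σ * cz) / (2 * Real.log X) := by
      field_simp
    have q4 : 1 ≤ σ * (T * (cz / Real.log X) / 2) := by
      rw [q3, le_div_iff₀ (by positivity)]
      linarith
    exact q4.trans (mul_le_mul_of_nonneg_left hVG hσ.le)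
  -- the sizes
  have hTB : (T : ℝ) ≤ Real.log X ^ B1 := hT2.trans (pow_le_pow_right₀ hlX1 (by omega))
  have hT4 : 4 * (T : ℝ) ≤ Real.log X ^ (B + 1) := by
    rw [pow_succ, mul_comm]
    exact mul_le_mul hT2 hlX (by norm_num) (by positivity)
  have hTy : 1 + 4 * T ≤ y := by
    rw [hy]
    apply Nat.le_floor
    push_cast
    refine le_trans ?_ f6
    have : (1 : ℝ) ≤ Real.log X ^ (B + 1) := one_le_pow₀ hlX1
    linarith
  have hdisc : ∀ h ∈ Icc 1 T, |((((0 : ℤ) ^ 2 - 4 * 1 * (h : ℤ) : ℤ)) : ℝ)| ≤ Real.log X ^ W1 := by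
    intro h hh
    have h3 : (h : ℝ) ≤ T := by exact_mod_cast (mem_Icc.1 hh).2
    have h4 : (0 : ℝ) ≤ h := Nat.cast_nonneg _
    push_cast
    rw [abs_le]
    have h5 : Real.log X ^ W1 = Real.log X ^ (B + 1) := by rw [hW1]
    rw [h5]
    constructor <;> nlinarith
  have key := f1 Z L hXL Fh (fun _ => 1) (Icc 1 T) eqB (by
      refine ⟨?_, fun _ _ => zero_le_one, ?_, ?_, ?_⟩
      · intro h _
        refine ⟨fun p n => perF 1 0 h p n (n % p) (Nat.mod_modEq n p).symm, fun p hp => ?_⟩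
        by_cases hp2 : p = 2
        · rw [hp2]
          have := nuB_le (DQ (Fh h)) 2
          exact this
        · have h3 := nuB_leq 1 0 h p hp hp2 (by
            rintro ⟨h4, -, -⟩
            have h5 : p ∣ 1 := by exact_mod_cast h4
            exact hp.one_lt.ne' (Nat.dvd_one.1 h5))
          have h4 := (jac_le (0 ^ 2 - 4 * 1 * (h : ℤ)) p).1
          have h5 : (nuB (DQ (Fq 1 0 h)) p : ℝ) ≤ 2 := by linarith
          exact_mod_cast h5
      · intro h hh h' hh' hne n p hp hyp hd hd'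
        have hne : ¬ h = h' := hne
        rw [Fh_eq] at hd hd'
        rw [mem_Icc] at hh hh'
        have hd2 : (p : ℤ) ∣ (h : ℤ) - h' := by
          have a1 : (p : ℤ) ∣ ((n ^ 2 + h : ℕ) : ℤ) := by exact_mod_cast hd
          have a2 : (p : ℤ) ∣ ((n ^ 2 + h' : ℕ) : ℤ) := by exact_mod_cast hd'
          have a3 := dvd_sub a1 a2
          have e : ((n ^ 2 + h : ℕ) : ℤ) - ((n ^ 2 + h' : ℕ) : ℤ) = (h : ℤ) - h' := by push_cast; ring
          rwa [e] at a3
        have h3 := Nat.le_of_dvd (Int.natAbs_pos.2 (by omega)) (Int.natCast_dvd.1 hd2)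
        omega
      · intro h _
        exact card_le_one.2 (fun a ha b hb => (mem_filter.1 ha).2.symm.trans (mem_filter.1 hb).2)
      · intro h _
        exact card_le_one.2 (fun a ha b hb => (mem_filter.1 ha).2.trans (mem_filter.1 hb).2.symm)) (by
      intro h hh
      apply f2 1 0 h one_ne_zero _ (disc_h h (mem_Icc.1 hh).1) (hdisc h hh)
      have hw0 : (0 : ℝ) ≤ w := Nat.cast_nonneg _
      have e : (((2 * (1 : ℤ)).natAbs : ℕ) : ℝ) = 2 := by norm_num
      rw [e]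
      linarith) (by
      intro h hh n hn
      rw [Fh_eq]
      rw [mem_Icc] at hh
      rw [mem_Ioc] at hn
      refine ⟨by omega, ?_⟩
      have q1 : (n : ℝ) ≤ X := by exact_mod_cast (by omega : n ≤ X)
      have q2 : (n : ℝ) ^ 2 ≤ (X : ℝ) ^ 2 := pow_le_pow_left₀ (Nat.cast_nonneg _) q1 2
      have q3 : (h : ℝ) ≤ T := by exact_mod_cast hh.2
      have q4 : (T : ℝ) ≤ (X : ℝ) ^ 2 * (Real.log X ^ (B + 1) - 1) := by
        have : (1 : ℝ) ≤ (X : ℝ) ^ 2 := one_le_pow₀ hX1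
        have q5 : (T : ℝ) ≤ Real.log X ^ (B + 1) - 1 := by
          have : 1 ≤ (T : ℝ) := by linarith
          linarith
        nlinarith
      push_cast
      calc (n : ℝ) ^ 2 + h ≤ (X : ℝ) ^ 2 * Real.log X ^ (B + 1) := by linarith
        _ ≤ (X : ℝ) ^ 2 * (X : ℝ) ^ (S - 2) := by
            apply mul_le_mul_of_nonneg_left _ (by positivity)
            linarith
        _ = (X : ℝ) ^ S := by
            rw [← Real.rpow_natCast (X : ℝ) 2, ← Real.rpow_add hX0]
            congr 1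
            push_cast
            ring) (by
      intro h hh p hp hyp
      exact sq_q 1 0 h one_ne_zero (disc_h h (mem_Icc.1 hh).1) p hp (by
        have := (mem_Icc.1 hh).2
        omega) Z L) (by
      rw [Nat.card_Icc, Nat.add_sub_cancel]
      exact hTB) hVG0 (by
      rw [sum_const, nsmul_eq_mul, mul_one, Nat.card_Icc, Nat.add_sub_cancel]
      have q1 : 2 / cz ≤ Real.log X := by linarith
      have q2 : (T : ℝ) ≤ Real.log X ^ 2 * (T * (cz / Real.log X) / 2) := by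
        have e : Real.log X ^ 2 * (T * (cz / Real.log X) / 2) = T * (Real.log X * (cz / 2)) := by
          field_simp
        rw [e]
        apply le_mul_of_one_le_right hTpos.le
        rw [div_le_iff₀ hcz] at q1
        linarith
      have q3 : Real.log X ^ 2 ≤ Real.log X ^ B1 := pow_le_pow_right₀ hlX1 (by omega)
      calc (T : ℝ) ≤ Real.log X ^ 2 * (T * (cz / Real.log X) / 2) := q2
        _ ≤ Real.log X ^ B1 * V1G Fh (fun _ => 1) (Icc 1 T) y := mul_le_mul q3 hVG (by positivity) (by positivity)) (by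
      refine h2.trans ?_
      have q1 : ((1 - η) * (T * Vz y)) ^ 2 ≤ V1G Fh (fun _ => 1) (Icc 1 T) y ^ 2 :=
        pow_le_pow_left₀ (mul_nonneg (by linarith) (by linarith)) h1 2
      have q2 : 1 + η ≤ (1 + min ε 1 / 560) * (1 - η) ^ 2 := by
        have e : min ε 1 / 560 = 5 * η := by rw [hη]; ring
        rw [e]
        nlinarith [hη0, mul_pos hη0 hη0]
      calc (1 + η) * (T * Vz y) ^ 2 ≤ (1 + min ε 1 / 560) * (1 - η) ^ 2 * (T * Vz y) ^ 2 :=
            mul_le_mul_of_nonneg_right q2 (sq_nonneg _)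
        _ = (1 + min ε 1 / 560) * ((1 - η) * (T * Vz y)) ^ 2 := by ring
        _ ≤ _ := mul_le_mul_of_nonneg_left q1 (by positivity)) (by
      have e : S2G Fh (fun _ => 1) (Icc 1 T) y = V1G Fh (fun _ => 1) (Icc 1 T) y := by
        unfold S2G V1G
        apply sum_congr rfl
        intro h _
        rw [one_pow]
      rw [e]
      calc V1G Fh (fun _ => 1) (Icc 1 T) y = 1 * V1G Fh (fun _ => 1) (Icc 1 T) y := (one_mul _).symm
        _ ≤ (σ * V1G Fh (fun _ => 1) (Icc 1 T) y) * V1G Fh (fun _ => 1) (Icc 1 T) y :=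
            mul_le_mul_of_nonneg_right hσV hVG0.le
        _ = _ := by ring)
  refine le_trans ?_ key
  have hh : ((Ioc Z (Z + L)).filter (fun n =>
      (Nsq n R T ((X : ℝ) ^ (θ / 10)) : ℝ) < κ0 * cz / 8 * (T / Real.log X))).card ≤
      (BadG Fh (fun _ => 1) (Icc 1 T) X R Z L ζ (κ0 * (V1G Fh (fun _ => 1) (Icc 1 T) y / 4))).card := by
    unfold BadG
    apply card_le_card
    intro n hn
    rw [mem_filter] at hn ⊢
    refine ⟨hn.1, ?_⟩
    rw [sum_const, nsmul_eq_mul, mul_one]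
    have q1 : ((GoodG Fh (Icc 1 T) X R n ζ).card : ℝ) ≤ Nsq n R T ((X : ℝ) ^ (θ / 10)) := by
      exact_mod_cast GoodG_le X R n T ζ _ (Real.rpow_le_rpow_of_exponent_le hX1 (by linarith))
    refine lt_of_le_of_lt q1 (lt_of_lt_of_le hn.2 ?_)
    have q2 := mul_le_mul_of_nonneg_left hVG hκ0.le
    have e : κ0 * cz / 8 * (T / Real.log X) = κ0 * (T * (cz / Real.log X) / 2) / 4 := by
      field_simp
      ring
    rw [e]
    linarith
  exact_mod_cast hh

end Pool.Agent.L0h41.QN
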