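import Pool.Agent.L0h41.LW.C

set_option autoImplicit false

/-!
# Families of sequences: sifted pairs with divisibility conditions
-/

namespace Pool.Agent.L0h41.QN

open Finset Filter
open Pool.Agent.W123.RP Pool.Agent.H373R2.T7 Pool.Agent.W123.RU Pool.Agent.TH464.PO Pool.Agent.TH464.PW
open Pool.Agent.Y879.AP
open Pool.Agent.R490.P3c (lam)
open Pool.Agent.L0h41.LW

/-- the condition of two sequences -/
def QPP (F F' : ℕ → ℕ) (p m : ℕ) : Prop := DQ F p m ∨ DQ F' p m

lemma nuB_QPP_le (F F' : ℕ → ℕ) (p : ℕ) : nuB (QPP F F') p ≤ nuB (DQ F) p + nuB (DQ F') p := by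
  classical
  unfold nuB
  refine le_trans ?_ (card_union_le _ _)
  apply card_le_card
  intro m hm
  rw [mem_filter] at hm
  rw [mem_union, mem_filter, mem_filter]
  rcases hm.2 with h | h
  · exact Or.inl ⟨hm.1, h⟩
  · exact Or.inr ⟨hm.1, h⟩

lemma perB_QPP (F F' : ℕ → ℕ) (c : ℕ) (hF : PerB (DQ F) c) (hF' : PerB (DQ F') c) :
    PerB (QPP F F') (2 * c) := by
  refine ⟨fun p n => ?_, fun p hp => ?_⟩
  · unfold QPP
    rw [hF.per p n, hF'.per p n]
  · have h1 := nuB_QPP_le F F' p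
    have h2 := hF.few p hp
    have h3 := hF'.few p hp
    omega

lemma sf_QPP (F F' : ℕ → ℕ) (y m : ℕ) : Sf (QPP F F') y m ↔ Sf (DQ F) y m ∧ Sf (DQ F') y m := by
  unfold Sf QPP
  constructor
  · intro h
    exact ⟨fun p hp hq => h p hp (Or.inl hq), fun p hp hq => h p hp (Or.inr hq)⟩
  · rintro ⟨h1, h2⟩ p hp hq
    rcases hq with hq | hq
    · exact h1 p hp hq
    · exact h2 p hp hq

open Classical in
/-- the counts -/
noncomputable def NG (F F' : ℕ → ℕ) (y Z L : ℕ) (U U' : Finset ℕ) : ℝ :=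
  (((Ioc Z (Z + L)).filter (fun n : ℕ => Sf (QPP F F') y n ∧
        (∏ p ∈ U, p ∣ F n) ∧ (∏ p ∈ U', p ∣ F' n))).card : ℝ)

/-- the count of pairs -/
theorem cnt_pairG (c : ℕ) (hc : 1 ≤ c) : ∃ C0 x0 : ℕ, 1 ≤ C0 ∧ ∀ b : ℕ, C0 ≤ b →
    ∀ x y : ℕ, x0 ≤ y → y ^ (16 * (C0 * b)) ≤ x →
    ∀ F F' : ℕ → ℕ, PerB (DQ F) c → PerB (DQ F') c → ∀ Z L : ℕ, ∀ U U' : Finset ℕ,
      (∀ p ∈ U, p.Prime ∧ y < p) → (∀ p ∈ U', p.Prime ∧ y < p) → Disjoint U U' →
    |NG F F' y Z L U U' - (L : ℝ) * (wt F U * wt F' U') * Vq (QPP F F') y| ≤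
      (1 / 2) ^ b * ((L : ℝ) * (wt F U * wt F' U') * Vq (QPP F F') y) +
        (rr F U * rr F' U') * √(x : ℝ) := by
  classical
  obtain ⟨C0, x0, hC0, H⟩ := cnt_cls (2 * c) (by omega)
  refine ⟨C0, x0, hC0, ?_⟩
  intro b hb x y hy hyx F F' hF hF' Z L U U' hU hU' hd
  have hper := perB_QPP F F' c hF hF'
  have key := H b hb x y hy hyx (QPP F F') hper Z L
    (fun p n => if p ∈ U then DQ F p n else DQ F' p n) (by
      intro p n
      split_ifs
      · exact hF.per p n
      · exact hF'.per p n) (U ∪ U') (by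
      intro p hp
      rcases mem_union.1 hp with h1 | h1
      · exact hU p h1
      · exact hU' p h1) 1 0 le_rfl (fun p hp hd => (mem_pz.1 hp).2.one_lt.ne' (Nat.dvd_one.1 hd))
      (fun p hp hd => by
        have hpp : p.Prime := by
          rcases mem_union.1 hp with h1 | h1
          · exact (hU p h1).1
          · exact (hU' p h1).1
        exact hpp.one_lt.ne' (Nat.dvd_one.1 hd))
  rw [Nat.cast_one, div_one, prod_union hd, prod_union hd] at key
  have n1 : ∀ p ∈ U, nuB (fun p n => if p ∈ U then DQ F p n else DQ F' p n) p = nuB (DQ F) p := by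
    intro p hp
    unfold nuB
    apply card_iff
    intro r _
    show (if p ∈ U then DQ F p r else DQ F' p r) ↔ DQ F p r
    rw [if_pos hp]
  have n2 : ∀ p ∈ U', nuB (fun p n => if p ∈ U then DQ F p n else DQ F' p n) p = nuB (DQ F') p := by
    intro p hp
    unfold nuB
    apply card_iff
    intro r _
    show (if p ∈ U then DQ F p r else DQ F' p r) ↔ DQ F' p r
    rw [if_neg (fun h1 => disjoint_left.1 hd h1 hp)]
  have e1 : ∏ p ∈ U, ((nuB (fun p n => if p ∈ U then DQ F p n else DQ F' p n) p : ℝ) / p) = wt F U :=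
    prod_congr rfl fun p hp => by rw [n1 p hp]
  have e2 : ∏ p ∈ U', ((nuB (fun p n => if p ∈ U then DQ F p n else DQ F' p n) p : ℝ) / p) = wt F' U' :=
    prod_congr rfl fun p hp => by rw [n2 p hp]
  have e3 : ∏ p ∈ U, (nuB (fun p n => if p ∈ U then DQ F p n else DQ F' p n) p : ℝ) = rr F U :=
    prod_congr rfl fun p hp => by rw [n1 p hp]
  have e4 : ∏ p ∈ U', (nuB (fun p n => if p ∈ U then DQ F p n else DQ F' p n) p : ℝ) = rr F' U' :=
    prod_congr rfl fun p hp => by rw [n2 p hp]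
  rw [e1, e2, e3, e4] at key
  have e5 : (Ioc Z (Z + L)).filter (fun n : ℕ => Sf (QPP F F') y n ∧
        (∏ p ∈ U, p ∣ F n) ∧ (∏ p ∈ U', p ∣ F' n)) =
      (Ioc Z (Z + L)).filter (fun n : ℕ => n ≡ 0 [MOD 1] ∧ Sf (QPP F F') y n ∧
        ∀ p ∈ U ∪ U', if p ∈ U then DQ F p n else DQ F' p n) := by
    apply Finset.filter_congr
    intro n _
    rw [dvd_iff U (fun p hp => (hU p hp).1), dvd_iff U' (fun p hp => (hU' p hp).1)]
    constructor
    · rintro ⟨h1, h2, h3⟩
      refine ⟨Nat.modEq_one, h1, ?_⟩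
      intro p hp
      by_cases hpU : p ∈ U
      · rw [if_pos hpU]
        exact h2 p hpU
      · rw [if_neg hpU]
        exact h3 p ((mem_union.1 hp).resolve_left hpU)
    · rintro ⟨_, h1, h2⟩
      refine ⟨h1, ?_, ?_⟩
      · intro p hp
        have := h2 p (mem_union_left _ hp)
        rw [if_pos hp] at this
        exact this
      · intro p hp
        have := h2 p (mem_union_right _ hp)
        rw [if_neg (fun h1 => disjoint_left.1 hd h1 hp)] at this
        exact this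
  unfold NG
  rw [e5]
  convert key

/-- the weight of a value -/
noncomputable def xG (F : ℕ → ℕ) (P : Finset ℕ) (a : Finset ℕ → ℝ) (y n : ℕ) : ℝ :=
  rh F y n * lam P a (F n)

lemma sum_xG (F F' : ℕ → ℕ) (P : Finset ℕ) (a a' : Finset ℕ → ℝ) (y Z L : ℕ) :
    ∑ n ∈ Ioc Z (Z + L), xG F P a y n * xG F' P a' y n =
      ∑ U ∈ P.powerset, ∑ U' ∈ P.powerset, a U * a' U' * NG F F' y Z L U U' := by
  classical
  have h1 : ∀ n, xG F P a y n * xG F' P a' y n = ∑ U ∈ P.powerset, ∑ U' ∈ P.powerset,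
      a U * a' U' * (if Sf (QPP F F') y n ∧
        (∏ p ∈ U, p ∣ F n) ∧ (∏ p ∈ U', p ∣ F' n) then 1 else 0) := by
    intro n
    unfold xG lam rh
    rw [show ∀ u v s t : ℝ, u * v * (s * t) = (u * s) * (v * t) by intros; ring, sum_mul_sum, mul_sum]
    apply sum_congr rfl
    intro U _
    rw [mul_sum]
    apply sum_congr rfl
    intro U' _
    have h0 := sf_QPP F F' y n
    by_cases c1 : Sf (DQ F) y n <;> by_cases c2 : Sf (DQ F') y n <;>
      by_cases c3 : (∏ p ∈ U, p ∣ F n) <;> by_cases c4 : (∏ p ∈ U', p ∣ F' n) <;>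
      simp [h0, c1, c2, c3, c4]
  rw [sum_congr rfl (fun n _ => h1 n), sum_comm]
  apply sum_congr rfl
  intro U _
  rw [sum_comm]
  apply sum_congr rfl
  intro U' _
  rw [← mul_sum]
  congr 1
  unfold NG
  rw [card_filter]
  push_cast
  rfl

/-- the pairs with a common prime -/
lemma commonG (F F' : ℕ → ℕ) (c : ℕ) (hF' : PerB (DQ F') c) (P : Finset ℕ) (y : ℕ) (hy : 1 ≤ y)
    (hP : ∀ p ∈ P, p.Prime ∧ y < p) :
    ∑ U ∈ P.powerset, ∑ U' ∈ P.powerset, (if Disjoint U U' then 0 else wt F U * wt F' U') ≤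
      Pi1 F P * Pi1 F' P * (c * (∑ p ∈ P, gp F p) / y) := by
  classical
  have hy0 : (0 : ℝ) < y := by exact_mod_cast hy
  have h1 : ∀ U ∈ P.powerset, ∀ U' ∈ P.powerset, (if Disjoint U U' then 0 else wt F U * wt F' U') ≤
      ∑ p ∈ P, (if p ∈ U then wt F U else 0) * (if p ∈ U' then wt F' U' else 0) := by
    intro U hU U' _
    have w1 := wt_nonneg F U
    have w2 := wt_nonneg F' U'
    have hnn : ∀ p ∈ P, 0 ≤ (if p ∈ U then wt F U else 0) * (if p ∈ U' then wt F' U' else 0) := by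
      intro p _
      split_ifs <;> positivity
    by_cases hd : Disjoint U U'
    · rw [if_pos hd]
      exact sum_nonneg hnn
    · rw [if_neg hd]
      rw [not_disjoint_iff] at hd
      obtain ⟨p, hp, hp'⟩ := hd
      have h2 := single_le_sum hnn (mem_powerset.1 hU hp)
      rw [if_pos hp, if_pos hp'] at h2
      exact h2
  have h2 : ∑ U ∈ P.powerset, ∑ U' ∈ P.powerset, (if Disjoint U U' then 0 else wt F U * wt F' U') ≤
      ∑ U ∈ P.powerset, ∑ U' ∈ P.powerset,
        ∑ p ∈ P, (if p ∈ U then wt F U else 0) * (if p ∈ U' then wt F' U' else 0) :=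
    sum_le_sum fun U hU => sum_le_sum fun U' hU' => h1 U hU U' hU'
  have h3 : ∑ U ∈ P.powerset, ∑ U' ∈ P.powerset,
        ∑ p ∈ P, (if p ∈ U then wt F U else 0) * (if p ∈ U' then wt F' U' else 0) =
      ∑ p ∈ P, (∑ U ∈ P.powerset, (if p ∈ U then wt F U else 0)) *
        (∑ U ∈ P.powerset, (if p ∈ U then wt F' U else 0)) := by
    have e1 : ∀ U ∈ P.powerset, ∑ U' ∈ P.powerset,
        ∑ p ∈ P, (if p ∈ U then wt F U else 0) * (if p ∈ U' then wt F' U' else 0) =
        ∑ p ∈ P, ∑ U' ∈ P.powerset, (if p ∈ U then wt F U else 0) * (if p ∈ U' then wt F' U' else 0) :=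
      fun U _ => sum_comm
    rw [sum_congr rfl e1, sum_comm]
    apply sum_congr rfl
    intro p _
    rw [sum_mul_sum]
  have h4 : ∀ p ∈ P, (∑ U ∈ P.powerset, (if p ∈ U then wt F U else 0)) *
        (∑ U ∈ P.powerset, (if p ∈ U then wt F' U else 0)) ≤
      Pi1 F P * Pi1 F' P * (gp F p * (c / y)) := by
    intro p hp
    have hp0 : (0 : ℝ) < p := by exact_mod_cast (hP p hp).1.pos
    have hyp : (y : ℝ) ≤ p := by exact_mod_cast (hP p hp).2.le
    have g1 := sum_mem F P p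
    have g1' := sum_mem F' P p
    have g0 : ∀ G : ℕ → ℕ, 0 ≤ ∑ U ∈ P.powerset, (if p ∈ U then wt G U else 0) := by
      intro G
      apply sum_nonneg
      intro U _
      have := wt_nonneg G U
      split_ifs <;> linarith
    have g2 : gp F' p ≤ c / y := by
      unfold gp
      apply div_le_div₀ (Nat.cast_nonneg _) (by exact_mod_cast hF'.few p (hP p hp).1) hy0 hyp
    have p1 := Pi1_nonneg F P
    have p2 := Pi1_nonneg F' P
    have q1 := gp_nonneg F p
    calc _ ≤ (gp F p * Pi1 F P) * (gp F' p * Pi1 F' P) :=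
          mul_le_mul g1 g1' (g0 F') (by positivity)
      _ = Pi1 F P * Pi1 F' P * (gp F p * gp F' p) := by ring
      _ ≤ Pi1 F P * Pi1 F' P * (gp F p * (c / y)) := by
          apply mul_le_mul_of_nonneg_left _ (by positivity)
          exact mul_le_mul_of_nonneg_left g2 q1
  calc _ ≤ _ := h2
    _ = _ := h3
    _ ≤ ∑ p ∈ P, Pi1 F P * Pi1 F' P * (gp F p * (c / y)) := sum_le_sum h4
    _ = _ := by
        rw [← mul_sum, ← sum_mul]
        ring

lemma Vqpp_nonneg (F F' : ℕ → ℕ) (y : ℕ) : 0 ≤ Vq (QPP F F') y := Vq_nonneg _ _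

set_option maxHeartbeats 4000000 in
/-- **The off-diagonal terms.** -/
theorem offG (c : ℕ) (hc : 1 ≤ c) : ∃ C0 x0 : ℕ, 1 ≤ C0 ∧ ∀ b : ℕ, C0 ≤ b →
    ∀ x y : ℕ, x0 ≤ y → 1 ≤ y → y ^ (16 * (C0 * b)) ≤ x → ∀ F F' : ℕ → ℕ, PerB (DQ F) c → PerB (DQ F') c →
    ∀ (Z L R0 : ℕ) (P : Finset ℕ) (a a' : Finset ℕ → ℝ) (A B1 B2 : ℝ) (D : ℕ),
      (∀ n : ℕ, ∀ p : ℕ, p.Prime → y < p → p ∣ F n → p ∣ F' n → False) →
      (∀ p ∈ P, p.Prime ∧ y < p) → (∀ U, |a U| ≤ A) → (∀ U, |a' U| ≤ A) →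
      (∀ U ⊆ P, a U ≠ 0 → ∏ p ∈ U, p ≤ D) → (∀ U ⊆ P, a' U ≠ 0 → ∏ p ∈ U, p ≤ D) → D ≤ y ^ R0 →
      ∑ U ∈ P.powerset, a U * wt F U = 0 →
      Pi1 F P ≤ B1 → Pi1 F' P ≤ B1 → ∑ p ∈ P, gp F p ≤ B2 →
      |∑ n ∈ Ioc Z (Z + L), xG F P a y n * xG F' P a' y n| ≤
        Vq (QPP F F') y * (L * (A ^ 2 * (B1 ^ 2 * (c * B2 / y)) +
          (1 / 2) ^ b * (A * B1) ^ 2)) + √(x : ℝ) * (A * ((c : ℝ) ^ R0 * D)) ^ 2 := by
  classical
  obtain ⟨C0, x0, hC0, H⟩ := cnt_pairG c hc
  refine ⟨C0, x0, hC0, ?_⟩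
  intro b hb x y hy hy1 hyx F F' hF hF' Z L R0 P a a' A B1 B2 D hnc hP hA hA' hD hD' hDy hsum hB1 hB1' hB2
  have hA0 : 0 ≤ A := (abs_nonneg _).trans (hA ∅)
  rw [sum_xG]
  obtain ⟨M, hM⟩ : ∃ M : ℝ, M = L * Vq (QPP F F') y := ⟨_, rfl⟩
  have hM0 : 0 ≤ M := by rw [hM]; exact mul_nonneg (Nat.cast_nonneg _) (Vq_nonneg _ _)
  have hrr0 : ∀ (G : ℕ → ℕ) U, 0 ≤ rr G U := fun G U => prod_nonneg fun _ _ => Nat.cast_nonneg _
  have hP1 := Pi1_nonneg F P
  have hP1' := Pi1_nonneg F' P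
  have hy0 : (0 : ℝ) < y := by exact_mod_cast hy1
  have hsg0 : 0 ≤ ∑ p ∈ P, gp F p := sum_nonneg fun p _ => gp_nonneg F p
  have hN : ∀ U ∈ P.powerset, ∀ U' ∈ P.powerset,
      |NG F F' y Z L U U' - M * (if Disjoint U U' then wt F U * wt F' U' else 0)| ≤
        (1 / 2) ^ b * (M * (wt F U * wt F' U')) + (rr F U * rr F' U') * √(x : ℝ) := by
    intro U hU U' hU'
    have w1 := wt_nonneg F U
    have w2 := wt_nonneg F' U'
    have w3 := hrr0 F U
    have w4 := hrr0 F' U'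
    by_cases hd : Disjoint U U'
    · rw [if_pos hd]
      have h1 := H b hb x y hy hyx F F' hF hF' Z L U U'
        (fun p hp => hP p (mem_powerset.1 hU hp))
        (fun p hp => hP p (mem_powerset.1 hU' hp)) hd
      have e1 : (L : ℝ) * (wt F U * wt F' U') * Vq (QPP F F') y =
          M * (wt F U * wt F' U') := by
        rw [hM]
        ring
      rw [e1] at h1
      exact h1
    · rw [if_neg hd, mul_zero, sub_zero]
      have h0 : NG F F' y Z L U U' = 0 := by
        unfold NG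
        rw [Nat.cast_eq_zero, card_eq_zero, filter_eq_empty_iff]
        rintro n _ ⟨_, h2, h3⟩
        rw [not_disjoint_iff] at hd
        obtain ⟨p, hp, hp'⟩ := hd
        have h4 := hP p (mem_powerset.1 hU hp)
        exact hnc n p h4.1 h4.2
          ((dvd_prod_of_mem (fun p => p) hp).trans h2) ((dvd_prod_of_mem (fun p => p) hp').trans h3)
      rw [h0, abs_zero]
      positivity
  -- the main term
  have hmain : |∑ U ∈ P.powerset, ∑ U' ∈ P.powerset, a U * a' U' *
      (M * (if Disjoint U U' then wt F U * wt F' U' else 0))| ≤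
      M * (A ^ 2 * (B1 ^ 2 * (c * B2 / y))) := by
    have e1 : ∑ U ∈ P.powerset, ∑ U' ∈ P.powerset, a U * a' U' *
        (M * (if Disjoint U U' then wt F U * wt F' U' else 0)) =
        M * ((∑ U ∈ P.powerset, a U * wt F U) * (∑ U' ∈ P.powerset, a' U' * wt F' U')) -
        M * ∑ U ∈ P.powerset, ∑ U' ∈ P.powerset, a U * a' U' *
          (if Disjoint U U' then 0 else wt F U * wt F' U') := by
      rw [sum_mul_sum, mul_sum, mul_sum, ← sum_sub_distrib]
      apply sum_congr rfl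
      intro U _
      rw [mul_sum, mul_sum, ← sum_sub_distrib]
      apply sum_congr rfl
      intro U' _
      split_ifs <;> ring
    rw [e1, hsum, zero_mul, mul_zero, zero_sub, abs_neg, abs_mul, abs_of_nonneg hM0]
    apply mul_le_mul_of_nonneg_left _ hM0
    have h2 : |∑ U ∈ P.powerset, ∑ U' ∈ P.powerset, a U * a' U' *
          (if Disjoint U U' then 0 else wt F U * wt F' U')| ≤
        ∑ U ∈ P.powerset, ∑ U' ∈ P.powerset, A ^ 2 * (if Disjoint U U' then 0 else wt F U * wt F' U') := by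
      refine (abs_sum_le_sum_abs _ _).trans (sum_le_sum fun U hU => ?_)
      refine (abs_sum_le_sum_abs _ _).trans (sum_le_sum fun U' hU' => ?_)
      have w1 := wt_nonneg F U
      have w2 := wt_nonneg F' U'
      rw [abs_mul]
      have h3 : |a U * a' U'| ≤ A ^ 2 := by
        rw [abs_mul, sq]
        exact mul_le_mul (hA U) (hA' U') (abs_nonneg _) hA0
      have h4 : 0 ≤ (if Disjoint U U' then 0 else wt F U * wt F' U') := by
        split_ifs <;> positivity
      rw [abs_of_nonneg h4]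
      exact mul_le_mul_of_nonneg_right h3 h4
    refine h2.trans ?_
    simp only [← mul_sum]
    apply mul_le_mul_of_nonneg_left _ (sq_nonneg A)
    refine (commonG F F' c hF' P y hy1 hP).trans ?_
    have g1 : Pi1 F P * Pi1 F' P ≤ B1 ^ 2 := by
      rw [sq]
      exact mul_le_mul hB1 hB1' hP1' (hP1.trans hB1)
    have g2 : c * (∑ p ∈ P, gp F p) / y ≤ c * B2 / y := by gcongr
    exact mul_le_mul g1 g2 (by positivity) (sq_nonneg _)
  -- the error
  have herr : |∑ U ∈ P.powerset, ∑ U' ∈ P.powerset, a U * a' U' *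
      (NG F F' y Z L U U' - M * (if Disjoint U U' then wt F U * wt F' U' else 0))| ≤
      (1 / 2) ^ b * M * (A * B1) ^ 2 + √(x : ℝ) * (A * ((c : ℝ) ^ R0 * D)) ^ 2 := by
    have h2 : |∑ U ∈ P.powerset, ∑ U' ∈ P.powerset, a U * a' U' *
        (NG F F' y Z L U U' - M * (if Disjoint U U' then wt F U * wt F' U' else 0))| ≤
        ∑ U ∈ P.powerset, ∑ U' ∈ P.powerset, ((1 / 2) ^ b * M * ((A * wt F U) * (A * wt F' U')) +
          √(x : ℝ) * ((|a U| * rr F U) * (|a' U'| * rr F' U'))) := by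
      refine (abs_sum_le_sum_abs _ _).trans (sum_le_sum fun U hU => ?_)
      refine (abs_sum_le_sum_abs _ _).trans (sum_le_sum fun U' hU' => ?_)
      have w1 := wt_nonneg F U
      have w2 := wt_nonneg F' U'
      rw [abs_mul, abs_mul]
      have h3 : |a U| * |a' U'| ≤ A * A := mul_le_mul (hA U) (hA' U') (abs_nonneg _) hA0
      calc |a U| * |a' U'| * |NG F F' y Z L U U' - M * (if Disjoint U U' then wt F U * wt F' U' else 0)| ≤
          |a U| * |a' U'| * ((1 / 2) ^ b * (M * (wt F U * wt F' U')) + (rr F U * rr F' U') * √(x : ℝ)) :=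
            mul_le_mul_of_nonneg_left (hN U hU U' hU') (by positivity)
        _ = |a U| * |a' U'| * ((1 / 2) ^ b * (M * (wt F U * wt F' U'))) +
            √(x : ℝ) * ((|a U| * rr F U) * (|a' U'| * rr F' U')) := by ring
        _ ≤ A * A * ((1 / 2) ^ b * (M * (wt F U * wt F' U'))) +
            √(x : ℝ) * ((|a U| * rr F U) * (|a' U'| * rr F' U')) := by
            apply add_le_add _ le_rfl
            exact mul_le_mul_of_nonneg_right h3 (by positivity)
        _ = _ := by ring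
    refine h2.trans ?_
    have e2 : ∑ U ∈ P.powerset, ∑ U' ∈ P.powerset, ((1 / 2) ^ b * M * ((A * wt F U) * (A * wt F' U')) +
          √(x : ℝ) * ((|a U| * rr F U) * (|a' U'| * rr F' U'))) =
        (1 / 2) ^ b * M * ((∑ U ∈ P.powerset, A * wt F U) * (∑ U ∈ P.powerset, A * wt F' U)) +
          √(x : ℝ) * ((∑ U ∈ P.powerset, |a U| * rr F U) * (∑ U ∈ P.powerset, |a' U| * rr F' U)) := by
      rw [sum_mul_sum, sum_mul_sum, mul_sum, mul_sum, ← sum_add_distrib]
      apply sum_congr rfl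
      intro U _
      rw [mul_sum, mul_sum, ← sum_add_distrib]
    rw [e2, ← mul_sum, ← mul_sum]
    apply add_le_add
    · apply mul_le_mul_of_nonneg_left _ (by positivity)
      rw [sq]
      have hB10 : 0 ≤ B1 := hP1.trans hB1
      apply mul_le_mul _ _ (by positivity) (by positivity)
      · exact mul_le_mul_of_nonneg_left hB1 hA0
      · exact mul_le_mul_of_nonneg_left hB1' hA0
    · apply mul_le_mul_of_nonneg_left _ (Real.sqrt_nonneg _)
      rw [sq]
      apply mul_le_mul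
      · exact sum_abs F c hc hF P y R0 hy1 hP a A D hA hD hDy
      · exact sum_abs F' c hc hF' P y R0 hy1 hP a' A D hA' hD' hDy
      · exact sum_nonneg fun U _ => mul_nonneg (abs_nonneg _) (hrr0 F' U)
      · positivity
  have e3 : ∑ U ∈ P.powerset, ∑ U' ∈ P.powerset, a U * a' U' * NG F F' y Z L U U' =
      ∑ U ∈ P.powerset, ∑ U' ∈ P.powerset, a U * a' U' *
      (M * (if Disjoint U U' then wt F U * wt F' U' else 0)) +
      ∑ U ∈ P.powerset, ∑ U' ∈ P.powerset, a U * a' U' *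
      (NG F F' y Z L U U' - M * (if Disjoint U U' then wt F U * wt F' U' else 0)) := by
    rw [← sum_add_distrib]
    apply sum_congr rfl
    intro U _
    rw [← sum_add_distrib]
    apply sum_congr rfl
    intro U' _
    ring
  rw [e3]
  refine (abs_add_le _ _).trans ?_
  calc _ ≤ M * (A ^ 2 * (B1 ^ 2 * (c * B2 / y))) +
        ((1 / 2) ^ b * M * (A * B1) ^ 2 + √(x : ℝ) * (A * ((c : ℝ) ^ R0 * D)) ^ 2) :=
        add_le_add hmain herr
    _ = _ := by rw [hM]; ring

end Pool.Agent.L0h41.QN
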