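import Pool.Agent.L0h41.QN.A

set_option autoImplicit false

/-!
# Families of sequences: the second moment and the variance with weights
-/

namespace Pool.Agent.L0h41.QN

open Finset Filter
open Pool.Agent.W123.RP Pool.Agent.H373R2.T7 Pool.Agent.W123.RU Pool.Agent.TH464.PO Pool.Agent.TH464.PW
open Pool.Agent.Y879.AP
open Pool.Agent.R490.P3c (lam)
open Pool.Agent.L0h41.LW

/-- the total weight -/
noncomputable def XG (F : ℕ → ℕ → ℕ) (α : ℕ → ℝ) (J : Finset ℕ) (P : Finset ℕ) (a : ℕ → Finset ℕ → ℝ)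
    (y n : ℕ) : ℝ := ∑ j ∈ J, α j * xG (F j) P (a j) y n

/-- the weighted number of the sifted values -/
noncomputable def WG (F : ℕ → ℕ → ℕ) (α : ℕ → ℝ) (J : Finset ℕ) (y n : ℕ) : ℝ :=
  ∑ j ∈ J, α j * rh (F j) y n

/-- the mean -/
noncomputable def V1G (F : ℕ → ℕ → ℕ) (α : ℕ → ℝ) (J : Finset ℕ) (y : ℕ) : ℝ :=
  ∑ j ∈ J, α j * Vq (DQ (F j)) y

/-- the diagonal -/
noncomputable def S2G (F : ℕ → ℕ → ℕ) (α : ℕ → ℝ) (J : Finset ℕ) (y : ℕ) : ℝ :=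
  ∑ j ∈ J, α j ^ 2 * Vq (DQ (F j)) y

open Classical in
/-- the sum of the pair densities -/
noncomputable def V2G (F : ℕ → ℕ → ℕ) (α : ℕ → ℝ) (J : Finset ℕ) (bad : ℕ → ℕ → Prop) (y : ℕ) : ℝ :=
  ∑ j ∈ J, ∑ j' ∈ J, (if bad j j' then 0 else α j * α j' * Vq (QPP (F j) (F j')) y)

open Classical in
/-- the hypotheses on a family -/
structure FamG (F : ℕ → ℕ → ℕ) (α : ℕ → ℝ) (J : Finset ℕ) (bad : ℕ → ℕ → Prop) (c d y : ℕ) : Prop where
  per : ∀ j ∈ J, PerB (DQ (F j)) c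
  α0 : ∀ j ∈ J, 0 ≤ α j
  col : ∀ j ∈ J, ∀ j' ∈ J, ¬ bad j j' → ∀ n p : ℕ, p.Prime → y < p → p ∣ F j n → p ∣ F j' n → False
  b1 : ∀ j ∈ J, (J.filter (fun j' => bad j j')).card ≤ d
  b2 : ∀ j' ∈ J, (J.filter (fun j => bad j j')).card ≤ d

lemma rh_sq (F : ℕ → ℕ) (y m : ℕ) : rh F y m * rh F y m = rh F y m := by
  unfold rh
  split_ifs <;> simp

lemma rh_nonneg (F : ℕ → ℕ) (y m : ℕ) : 0 ≤ rh F y m := by
  unfold rh
  split_ifs <;> norm_num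

lemma rh_le (F : ℕ → ℕ) (y m : ℕ) : rh F y m ≤ 1 := by
  unfold rh
  split_ifs <;> norm_num

open Classical in
/-- splitting a double sum -/
lemma split_bad {F : ℕ → ℕ → ℕ} {α : ℕ → ℝ} {J : Finset ℕ} {bad : ℕ → ℕ → Prop} {c d y : ℕ}
    (h : FamG F α J bad c d y) (M : ℕ → ℕ → ℝ) (q : ℕ → ℝ) (g : ℕ → ℕ → ℝ) (hq : ∀ j ∈ J, 0 ≤ q j)
    (hb : ∀ j ∈ J, ∀ j' ∈ J, bad j j' → M j j' ≤ (q j + q j') / 2)
    (hg : ∀ j ∈ J, ∀ j' ∈ J, ¬ bad j j' → M j j' ≤ g j j') :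
    ∑ j ∈ J, ∑ j' ∈ J, M j j' ≤ d * ∑ j ∈ J, q j + ∑ j ∈ J, ∑ j' ∈ J, (if bad j j' then 0 else g j j') := by
  have h1 : ∑ j ∈ J, ∑ j' ∈ J, M j j' ≤ ∑ j ∈ J, ∑ j' ∈ J, ((if bad j j' then q j / 2 else 0) +
      (if bad j j' then q j' / 2 else 0) + (if bad j j' then 0 else g j j')) := by
    apply sum_le_sum
    intro j hj
    apply sum_le_sum
    intro j' hj'
    by_cases hbd : bad j j'
    · rw [if_pos hbd, if_pos hbd, if_pos hbd]
      linarith [hb j hj j' hj' hbd]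
    · rw [if_neg hbd, if_neg hbd, if_neg hbd]
      linarith [hg j hj j' hj' hbd]
  refine h1.trans ?_
  simp only [sum_add_distrib]
  have h2 : ∑ j ∈ J, ∑ j' ∈ J, (if bad j j' then q j / 2 else 0) ≤ d * ∑ j ∈ J, q j / 2 := by
    rw [mul_sum]
    apply sum_le_sum
    intro j hj
    rw [← sum_filter, sum_const, nsmul_eq_mul]
    apply mul_le_mul_of_nonneg_right _ (by linarith [hq j hj])
    exact_mod_cast h.b1 j hj
  have h3 : ∑ j ∈ J, ∑ j' ∈ J, (if bad j j' then q j' / 2 else 0) ≤ d * ∑ j ∈ J, q j / 2 := by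
    rw [sum_comm, mul_sum]
    apply sum_le_sum
    intro j hj
    rw [← sum_filter, sum_const, nsmul_eq_mul]
    apply mul_le_mul_of_nonneg_right _ (by linarith [hq j hj])
    exact_mod_cast h.b2 j hj
  have h4 : (d : ℝ) * ∑ j ∈ J, q j / 2 + d * ∑ j ∈ J, q j / 2 = d * ∑ j ∈ J, q j := by
    rw [← sum_div]
    ring
  linarith

lemma sum_sq_swap (J : Finset ℕ) (α : ℕ → ℝ) (f : ℕ → ℕ → ℝ) (S : Finset ℕ) :
    ∑ n ∈ S, (∑ j ∈ J, α j * f j n) ^ 2 = ∑ j ∈ J, ∑ j' ∈ J, α j * α j' * ∑ n ∈ S, f j n * f j' n := by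
  have e1 : ∀ n, (∑ j ∈ J, α j * f j n) ^ 2 = ∑ j ∈ J, ∑ j' ∈ J, α j * α j' * (f j n * f j' n) := by
    intro n
    rw [sq, sum_mul_sum]
    apply sum_congr rfl
    intro j _
    apply sum_congr rfl
    intro j' _
    ring
  rw [sum_congr rfl (fun n _ => e1 n), sum_comm]
  apply sum_congr rfl
  intro j _
  rw [sum_comm]
  apply sum_congr rfl
  intro j' _
  rw [mul_sum]

set_option maxHeartbeats 4000000 in
open Classical in
/-- **The second moment.** -/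
theorem secondG (c : ℕ) (hc : 1 ≤ c) : ∃ C0 x0 : ℕ, 1 ≤ C0 ∧ ∀ b : ℕ, C0 ≤ b →
    ∀ x y : ℕ, x0 ≤ y → 1 ≤ y → y ^ (16 * (C0 * b)) ≤ x →
    ∀ (F : ℕ → ℕ → ℕ) (α : ℕ → ℝ) (J : Finset ℕ) (bad : ℕ → ℕ → Prop) (d : ℕ), FamG F α J bad c d y →
    ∀ (Z L R0 : ℕ) (P : Finset ℕ) (a : ℕ → Finset ℕ → ℝ) (A B1 B2 : ℝ) (D : ℕ),
      (∀ p ∈ P, p.Prime ∧ y < p) → (∀ j ∈ J, ∀ U, |a j U| ≤ A) → 0 ≤ A →
      (∀ j ∈ J, ∀ U ⊆ P, a j U ≠ 0 → ∏ p ∈ U, p ≤ D) → D ≤ y ^ R0 →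
      (∀ j ∈ J, ∑ U ∈ P.powerset, a j U * wt (F j) U = 0) →
      (∀ j ∈ J, Pi1 (F j) P ≤ B1) → (∀ j ∈ J, ∑ p ∈ P, gp (F j) p ≤ B2) →
      (∀ j ∈ J, ∀ m ∈ Ioc Z (Z + L), 1 ≤ F j m ∧ F j m ≤ y ^ R0) →
      ∑ n ∈ Ioc Z (Z + L), XG F α J P a y n ^ 2 ≤
        (A * 2 ^ R0) ^ 2 * (d * ∑ j ∈ J, α j ^ 2 * ∑ n ∈ Ioc Z (Z + L), rh (F j) y n) +
        V2G F α J bad y * (L * (A ^ 2 * (B1 ^ 2 * (c * B2 / y)) + (1 / 2) ^ b * (A * B1) ^ 2)) +
        (∑ j ∈ J, α j) ^ 2 * (√(x : ℝ) * (A * ((c : ℝ) ^ R0 * D)) ^ 2) := by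
  obtain ⟨C0, x0, hC0, H⟩ := offG c hc
  refine ⟨C0, x0, hC0, ?_⟩
  intro b hb x y hy hy1 hyx F α J bad d hF Z L R0 P a A B1 B2 D hP hA hA0 hD hDy hsum hB1 hB2 hsz
  obtain ⟨e, he⟩ : ∃ e : ℝ, e = L * (A ^ 2 * (B1 ^ 2 * (c * B2 / y)) + (1 / 2) ^ b * (A * B1) ^ 2) := ⟨_, rfl⟩
  obtain ⟨s, hs⟩ : ∃ s : ℝ, s = √(x : ℝ) * (A * ((c : ℝ) ^ R0 * D)) ^ 2 := ⟨_, rfl⟩
  have hs0 : 0 ≤ s := by rw [hs]; positivity
  rw [← he, ← hs]
  unfold XG
  rw [sum_sq_swap]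
  have hdiag : ∀ j ∈ J, ∑ n ∈ Ioc Z (Z + L), xG (F j) P (a j) y n ^ 2 ≤
      (A * 2 ^ R0) ^ 2 * ∑ n ∈ Ioc Z (Z + L), rh (F j) y n := by
    intro j hj
    rw [mul_sum]
    apply sum_le_sum
    intro m hm
    have h3 := Pool.Agent.R490.P3d.lam_le P (a j) A y R0 (F j m) hP (hA j hj) (hsz j hj m hm).1 (hsz j hj m hm).2
    have h4 : lam P (a j) (F j m) ^ 2 ≤ (A * 2 ^ R0) ^ 2 := by
      rw [← sq_abs]
      exact pow_le_pow_left₀ (abs_nonneg _) h3 2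
    unfold xG
    calc (rh (F j) y m * lam P (a j) (F j m)) ^ 2 =
        lam P (a j) (F j m) ^ 2 * (rh (F j) y m * rh (F j) y m) := by ring
      _ = lam P (a j) (F j m) ^ 2 * rh (F j) y m := by rw [rh_sq]
      _ ≤ _ := mul_le_mul_of_nonneg_right h4 (rh_nonneg _ _ _)
  have key := split_bad hF (fun j j' => α j * α j' * ∑ n ∈ Ioc Z (Z + L), xG (F j) P (a j) y n *
      xG (F j') P (a j') y n)
    (fun j => (A * 2 ^ R0) ^ 2 * (α j ^ 2 * ∑ n ∈ Ioc Z (Z + L), rh (F j) y n))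
    (fun j j' => α j * α j' * (Vq (QPP (F j) (F j')) y * e + s)) (by
      intro j _
      have : 0 ≤ ∑ n ∈ Ioc Z (Z + L), rh (F j) y n := sum_nonneg fun n _ => rh_nonneg _ _ _
      positivity) (by
      intro j hj j' hj' _
      show α j * α j' * ∑ n ∈ Ioc Z (Z + L), xG (F j) P (a j) y n * xG (F j') P (a j') y n ≤ _
      have a1 := hF.α0 j hj
      have a2 := hF.α0 j' hj'
      have h1 : α j * α j' * ∑ n ∈ Ioc Z (Z + L), xG (F j) P (a j) y n * xG (F j') P (a j') y n ≤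
          (α j ^ 2 * ∑ n ∈ Ioc Z (Z + L), xG (F j) P (a j) y n ^ 2 +
            α j' ^ 2 * ∑ n ∈ Ioc Z (Z + L), xG (F j') P (a j') y n ^ 2) / 2 := by
        rw [mul_sum, mul_sum, mul_sum, ← sum_add_distrib, sum_div]
        apply sum_le_sum
        intro n _
        nlinarith [sq_nonneg (α j * xG (F j) P (a j) y n - α j' * xG (F j') P (a j') y n)]
      refine h1.trans ?_
      have h2 := mul_le_mul_of_nonneg_left (hdiag j hj) (sq_nonneg (α j))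
      have h3 := mul_le_mul_of_nonneg_left (hdiag j' hj') (sq_nonneg (α j'))
      linarith) (by
      intro j hj j' hj' hnb
      show α j * α j' * ∑ n ∈ Ioc Z (Z + L), xG (F j) P (a j) y n * xG (F j') P (a j') y n ≤ _
      have a1 := hF.α0 j hj
      have a2 := hF.α0 j' hj'
      apply mul_le_mul_of_nonneg_left _ (by positivity)
      have h1 := H b hb x y hy hy1 hyx (F j) (F j') (hF.per j hj) (hF.per j' hj') Z L R0 P (a j) (a j') A B1 B2 D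
        (hF.col j hj j' hj' hnb) hP (hA j hj) (hA j' hj') (hD j hj) (hD j' hj') hDy (hsum j hj) (hB1 j hj)
        (hB1 j' hj') (hB2 j hj)
      rw [← he, ← hs] at h1
      exact (le_abs_self _).trans h1)
  refine key.trans ?_
  have e1 : ∑ j ∈ J, (A * 2 ^ R0) ^ 2 * (α j ^ 2 * ∑ n ∈ Ioc Z (Z + L), rh (F j) y n) =
      (A * 2 ^ R0) ^ 2 * ∑ j ∈ J, α j ^ 2 * ∑ n ∈ Ioc Z (Z + L), rh (F j) y n := by rw [mul_sum]
  have e2 : ∑ j ∈ J, ∑ j' ∈ J, (if bad j j' then 0 else α j * α j' * (Vq (QPP (F j) (F j')) y * e + s)) ≤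
      V2G F α J bad y * e + (∑ j ∈ J, α j) ^ 2 * s := by
    unfold V2G
    have e3 : (∑ j ∈ J, α j) ^ 2 * s = ∑ j ∈ J, ∑ j' ∈ J, α j * α j' * s := by
      rw [sq, sum_mul_sum, sum_mul]
      apply sum_congr rfl
      intro j _
      rw [sum_mul]
    rw [e3, sum_mul, ← sum_add_distrib]
    apply sum_le_sum
    intro j hj
    rw [sum_mul, ← sum_add_distrib]
    apply sum_le_sum
    intro j' hj'
    have a1 := hF.α0 j hj
    have a2 := hF.α0 j' hj'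
    split_ifs
    · rw [zero_mul, zero_add]
      positivity
    · rw [mul_add, mul_assoc (α j * α j')]
  rw [e1]
  have e4 : (d : ℝ) * ((A * 2 ^ R0) ^ 2 * ∑ j ∈ J, α j ^ 2 * ∑ n ∈ Ioc Z (Z + L), rh (F j) y n) =
      (A * 2 ^ R0) ^ 2 * (d * ∑ j ∈ J, α j ^ 2 * ∑ n ∈ Ioc Z (Z + L), rh (F j) y n) := by ring
  rw [e4]
  linarith

lemma NG_empty (F F' : ℕ → ℕ) (y Z L : ℕ) :
    NG F F' y Z L ∅ ∅ = ∑ m ∈ Ioc Z (Z + L), rh F y m * rh F' y m := by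
  classical
  unfold NG rh
  rw [card_filter]
  push_cast
  apply sum_congr rfl
  intro m _
  have h0 := sf_QPP F F' y m
  by_cases c1 : Sf (DQ F) y m <;> by_cases c2 : Sf (DQ F') y m <;> simp [h0, c1, c2]

lemma QPP_self (F : ℕ → ℕ) : QPP F F = DQ F := by
  funext p m
  unfold QPP
  simp

lemma wt_empty (F : ℕ → ℕ) : wt F ∅ = 1 := by
  unfold wt
  simp

lemma rr_empty (F : ℕ → ℕ) : rr F ∅ = 1 := by
  unfold rr
  simp

/-- the counts of pairs and of single values -/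
theorem countG (c : ℕ) (hc : 1 ≤ c) : ∃ C0 x0 : ℕ, 1 ≤ C0 ∧ ∀ b : ℕ, C0 ≤ b →
    ∀ x y : ℕ, x0 ≤ y → y ^ (16 * (C0 * b)) ≤ x →
    ∀ (F : ℕ → ℕ → ℕ) (J : Finset ℕ), (∀ j ∈ J, PerB (DQ (F j)) c) → ∀ (Z L : ℕ), ∀ j ∈ J, ∀ j' ∈ J,
      |∑ m ∈ Ioc Z (Z + L), rh (F j) y m * rh (F j') y m - (L : ℝ) * Vq (QPP (F j) (F j')) y| ≤
        (1 / 2) ^ b * ((L : ℝ) * Vq (QPP (F j) (F j')) y) + √(x : ℝ) := by
  obtain ⟨C0, x0, hC0, H⟩ := cnt_pairG c hc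
  refine ⟨C0, x0, hC0, ?_⟩
  intro b hb x y hy hyx F J hF Z L j hj j' hj'
  have h1 := H b hb x y hy hyx (F j) (F j') (hF j hj) (hF j' hj') Z L ∅ ∅ (by simp) (by simp)
    (disjoint_empty_left _)
  rw [NG_empty, wt_empty, wt_empty, rr_empty, rr_empty, mul_one, mul_one, one_mul] at h1
  exact h1

/-- the counts of single values -/
lemma single (F : ℕ → ℕ → ℕ) (J : Finset ℕ) (y Z L : ℕ) (h s : ℝ)
    (H : ∀ j ∈ J, ∀ j' ∈ J,
      |∑ m ∈ Ioc Z (Z + L), rh (F j) y m * rh (F j') y m - (L : ℝ) * Vq (QPP (F j) (F j')) y| ≤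
        h * ((L : ℝ) * Vq (QPP (F j) (F j')) y) + s) (j : ℕ) (hj : j ∈ J) :
    |∑ m ∈ Ioc Z (Z + L), rh (F j) y m - L * Vq (DQ (F j)) y| ≤ h * (L * Vq (DQ (F j)) y) + s := by
  have h1 := H j hj j hj
  rw [QPP_self] at h1
  have e1 : ∑ m ∈ Ioc Z (Z + L), rh (F j) y m * rh (F j) y m = ∑ m ∈ Ioc Z (Z + L), rh (F j) y m :=
    sum_congr rfl fun m _ => rh_sq (F j) y m
  rw [e1] at h1
  exact h1

/-- the diagonal terms -/
lemma diagG (F : ℕ → ℕ → ℕ) (α : ℕ → ℝ) (J : Finset ℕ) (y Z L : ℕ) (h s : ℝ) (hs : 0 ≤ s) (hh : h ≤ 1)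
    (h0 : ∀ j ∈ J, 0 ≤ α j)
    (H : ∀ j ∈ J, ∀ j' ∈ J,
      |∑ m ∈ Ioc Z (Z + L), rh (F j) y m * rh (F j') y m - (L : ℝ) * Vq (QPP (F j) (F j')) y| ≤
        h * ((L : ℝ) * Vq (QPP (F j) (F j')) y) + s) :
    ∑ j ∈ J, α j ^ 2 * ∑ n ∈ Ioc Z (Z + L), rh (F j) y n ≤ 2 * L * S2G F α J y + (∑ j ∈ J, α j) ^ 2 * s := by
  have h1 : ∀ j ∈ J, α j ^ 2 * ∑ n ∈ Ioc Z (Z + L), rh (F j) y n ≤
      2 * L * (α j ^ 2 * Vq (DQ (F j)) y) + α j ^ 2 * s := by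
    intro j hj
    have h2 := (abs_le.1 (single F J y Z L h s H j hj)).2
    have h3 := Vq_nonneg (DQ (F j)) y
    have h4 : h * (L * Vq (DQ (F j)) y) ≤ 1 * (L * Vq (DQ (F j)) y) :=
      mul_le_mul_of_nonneg_right hh (by positivity)
    have h5 : ∑ n ∈ Ioc Z (Z + L), rh (F j) y n ≤ 2 * (L * Vq (DQ (F j)) y) + s := by linarith
    calc α j ^ 2 * ∑ n ∈ Ioc Z (Z + L), rh (F j) y n ≤ α j ^ 2 * (2 * (L * Vq (DQ (F j)) y) + s) :=
          mul_le_mul_of_nonneg_left h5 (sq_nonneg _)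
      _ = _ := by ring
  refine (sum_le_sum h1).trans ?_
  rw [sum_add_distrib, ← mul_sum, ← sum_mul]
  apply add_le_add (le_of_eq rfl)
  apply mul_le_mul_of_nonneg_right _ hs
  rw [sq, sum_mul]
  apply sum_le_sum
  intro j hj
  rw [sq]
  exact mul_le_mul_of_nonneg_left (single_le_sum h0 hj) (h0 j hj)

lemma Vq_le (Q : ℕ → ℕ → Prop) (y : ℕ) : Vq Q y ≤ 1 := Vq_le_one _ _

open Classical in
/-- the variance -/
theorem varG {F : ℕ → ℕ → ℕ} {α : ℕ → ℝ} {J : Finset ℕ} {bad : ℕ → ℕ → Prop} {c d y : ℕ}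
    (hF : FamG F α J bad c d y) (Z L : ℕ) (h s η x : ℝ) (hs : 0 ≤ s) (hh0 : 0 ≤ h) (hh : h ≤ η)
    (hη1 : η ≤ 1) (hx : x = V1G F α J y) (hx0 : 0 ≤ x)
    (H : ∀ j ∈ J, ∀ j' ∈ J,
      |∑ m ∈ Ioc Z (Z + L), rh (F j) y m * rh (F j') y m - (L : ℝ) * Vq (QPP (F j) (F j')) y| ≤
        h * ((L : ℝ) * Vq (QPP (F j) (F j')) y) + s)
    (H2 : V2G F α J bad y ≤ (1 + η) * x ^ 2) :
    ∑ m ∈ Ioc Z (Z + L), (WG F α J y m - x) ^ 2 ≤ 5 * η * (L * x ^ 2) + 2 * d * (L * S2G F α J y) +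
      (3 + d) * ((∑ j ∈ J, α j) ^ 2 * s) := by
  have hL0 : (0 : ℝ) ≤ L := Nat.cast_nonneg _
  obtain ⟨Sα, hSα⟩ : ∃ Sα, Sα = ∑ j ∈ J, α j := ⟨_, rfl⟩
  have hSα0 : 0 ≤ Sα := by rw [hSα]; exact sum_nonneg hF.α0
  have hxS : x ≤ Sα := by
    rw [hx, hSα]
    unfold V1G
    apply sum_le_sum
    intro j hj
    exact mul_le_of_le_one_right (hF.α0 j hj) (Vq_le _ _)
  -- the first moment
  have f1 : (1 - h) * (L * x) - Sα * s ≤ ∑ m ∈ Ioc Z (Z + L), WG F α J y m := by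
    unfold WG
    rw [sum_comm, hx, hSα]
    unfold V1G
    rw [mul_sum, mul_sum, sum_mul, ← sum_sub_distrib]
    apply sum_le_sum
    intro j hj
    rw [← mul_sum]
    have h2 := (abs_le.1 (single F J y Z L h s H j hj)).1
    have h3 := hF.α0 j hj
    have h4 : (1 - h) * (L * Vq (DQ (F j)) y) - s ≤ ∑ m ∈ Ioc Z (Z + L), rh (F j) y m := by linarith
    calc (1 - h) * (L * (α j * Vq (DQ (F j)) y)) - α j * s = α j * ((1 - h) * (L * Vq (DQ (F j)) y) - s) := by ring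
      _ ≤ _ := mul_le_mul_of_nonneg_left h4 h3
  -- the second moment
  have f2 : ∑ m ∈ Ioc Z (Z + L), WG F α J y m ^ 2 ≤
      d * (2 * L * S2G F α J y + Sα ^ 2 * s) + (1 + h) * (L * V2G F α J bad y) + Sα ^ 2 * s := by
    unfold WG
    rw [sum_sq_swap]
    have key := split_bad hF (fun j j' => α j * α j' * ∑ n ∈ Ioc Z (Z + L), rh (F j) y n * rh (F j') y n)
      (fun j => α j ^ 2 * ∑ n ∈ Ioc Z (Z + L), rh (F j) y n)
      (fun j j' => α j * α j' * (Vq (QPP (F j) (F j')) y * ((1 + h) * L) + s)) (by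
        intro j _
        have : 0 ≤ ∑ n ∈ Ioc Z (Z + L), rh (F j) y n := sum_nonneg fun n _ => rh_nonneg _ _ _
        positivity) (by
        intro j hj j' hj' _
        show α j * α j' * ∑ n ∈ Ioc Z (Z + L), rh (F j) y n * rh (F j') y n ≤ _
        have a1 := hF.α0 j hj
        have a2 := hF.α0 j' hj'
        have h1 : α j * α j' * ∑ n ∈ Ioc Z (Z + L), rh (F j) y n * rh (F j') y n ≤
            (α j ^ 2 * ∑ n ∈ Ioc Z (Z + L), rh (F j) y n * rh (F j) y n +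
              α j' ^ 2 * ∑ n ∈ Ioc Z (Z + L), rh (F j') y n * rh (F j') y n) / 2 := by
          rw [mul_sum, mul_sum, mul_sum, ← sum_add_distrib, sum_div]
          apply sum_le_sum
          intro n _
          nlinarith [sq_nonneg (α j * rh (F j) y n - α j' * rh (F j') y n)]
        refine h1.trans (le_of_eq ?_)
        simp only [rh_sq]) (by
        intro j hj j' hj' hnb
        show α j * α j' * ∑ n ∈ Ioc Z (Z + L), rh (F j) y n * rh (F j') y n ≤ _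
        have a1 := hF.α0 j hj
        have a2 := hF.α0 j' hj'
        apply mul_le_mul_of_nonneg_left _ (by positivity)
        have h1 := (abs_le.1 (H j hj j' hj')).2
        have e : Vq (QPP (F j) (F j')) y * ((1 + h) * L) = L * Vq (QPP (F j) (F j')) y +
          h * (L * Vq (QPP (F j) (F j')) y) := by ring
        linarith)
    refine key.trans ?_
    have g1 := diagG F α J y Z L h s hs (hh.trans hη1) hF.α0 H
    rw [← hSα] at g1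
    have g2 : ∑ j ∈ J, ∑ j' ∈ J, (if bad j j' then 0 else α j * α j' *
        (Vq (QPP (F j) (F j')) y * ((1 + h) * L) + s)) ≤ (1 + h) * (L * V2G F α J bad y) + Sα ^ 2 * s := by
      have e0 : (1 + h) * (L * V2G F α J bad y) = V2G F α J bad y * ((1 + h) * L) := by ring
      rw [e0]
      unfold V2G
      have e3 : Sα ^ 2 * s = ∑ j ∈ J, ∑ j' ∈ J, α j * α j' * s := by
        rw [hSα, sq, sum_mul_sum, sum_mul]
        apply sum_congr rfl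
        intro j _
        rw [sum_mul]
      rw [e3, sum_mul, ← sum_add_distrib]
      apply sum_le_sum
      intro j hj
      rw [sum_mul, ← sum_add_distrib]
      apply sum_le_sum
      intro j' hj'
      have a1 := hF.α0 j hj
      have a2 := hF.α0 j' hj'
      split_ifs
      · rw [zero_mul, zero_add]
        positivity
      · rw [mul_add, mul_assoc (α j * α j')]
    have g3 := mul_le_mul_of_nonneg_left g1 (Nat.cast_nonneg d : (0 : ℝ) ≤ d)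
    linarith
  obtain ⟨A1, hA1⟩ : ∃ A1, A1 = ∑ m ∈ Ioc Z (Z + L), WG F α J y m := ⟨_, rfl⟩
  have e1 : ∑ m ∈ Ioc Z (Z + L), (WG F α J y m - x) ^ 2 =
      ∑ m ∈ Ioc Z (Z + L), WG F α J y m ^ 2 - 2 * x * A1 + L * x ^ 2 := by
    have e2 : ∀ m, (WG F α J y m - x) ^ 2 = WG F α J y m ^ 2 - 2 * x * WG F α J y m + x ^ 2 := by
      intro m
      ring
    simp only [e2]
    rw [sum_add_distrib, sum_sub_distrib, ← mul_sum, sum_const, nsmul_eq_mul, Nat.card_Ioc, hA1]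
    congr 2
    have : Z + L - Z = L := by omega
    rw [this]
  rw [e1, ← hSα]
  rw [← hA1] at f1
  obtain ⟨S2, hS2⟩ : ∃ S2, S2 = S2G F α J y := ⟨_, rfl⟩
  rw [← hS2] at f2 ⊢
  have g1 : (1 + h) * (L * V2G F α J bad y) ≤ (1 + 3 * η) * (L * x ^ 2) := by
    have a1 : L * V2G F α J bad y ≤ L * ((1 + η) * x ^ 2) := mul_le_mul_of_nonneg_left H2 hL0
    have a2 : (1 + h) * (L * V2G F α J bad y) ≤ (1 + h) * (L * ((1 + η) * x ^ 2)) :=
      mul_le_mul_of_nonneg_left a1 (by linarith)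
    refine a2.trans ?_
    have a3 : (1 + h) * ((L : ℝ) * ((1 + η) * x ^ 2)) = ((1 + h) * (1 + η)) * (L * x ^ 2) := by ring
    rw [a3]
    apply mul_le_mul_of_nonneg_right _ (by positivity)
    nlinarith
  have g2 : 2 * x * ((1 - h) * (L * x) - Sα * s) ≤ 2 * x * A1 := mul_le_mul_of_nonneg_left f1 (by linarith)
  have g3 : x * (Sα * s) ≤ Sα * (Sα * s) := mul_le_mul_of_nonneg_right hxS (by positivity)
  have g4 : h * (L * x ^ 2) ≤ η * (L * x ^ 2) := mul_le_mul_of_nonneg_right hh (by positivity)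
  have e5 : 2 * x * ((1 - h) * (L * x) - Sα * s) =
    2 * (L * x ^ 2) - 2 * (h * (L * x ^ 2)) - 2 * (x * (Sα * s)) := by ring
  rw [e5] at g2
  have e6 : Sα * (Sα * s) = Sα ^ 2 * s := by ring
  rw [e6] at g3
  have e7 : (d : ℝ) * (2 * L * S2 + Sα ^ 2 * s) = 2 * d * (L * S2) + d * (Sα ^ 2 * s) := by ring
  rw [e7] at f2
  have e8 : (1 + 3 * η) * (L * x ^ 2) = L * x ^ 2 + 3 * (η * (L * x ^ 2)) := by ring
  rw [e8] at g1
  have e9 : 5 * η * (L * x ^ 2) = 5 * (η * (L * x ^ 2)) := by ring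
  have e10 : (3 + (d : ℝ)) * (Sα ^ 2 * s) = 3 * (Sα ^ 2 * s) + d * (Sα ^ 2 * s) := by ring
  rw [e9, e10]
  linarith

end Pool.Agent.L0h41.QN
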