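import Pool.Agent.L0h41.QN.B
import Pool.Agent.L0h41.LW.D
import Pool.Agent.R490.LFc

set_option autoImplicit false

/-!
# Families of sequences: the detection of almost primes and the exceptional integers
-/

namespace Pool.Agent.L0h41.QN

open Finset Filter
open Pool.Agent.W123.RP Pool.Agent.H373R2.T7 Pool.Agent.W123.RU Pool.Agent.TH464.PO Pool.Agent.TH464.PW
open Pool.Agent.Y879.AP
open Pool.Agent.R490.P3c (lam)
open Pool.Agent.R490.P3g (cheb WB_le_one)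
open Pool.Agent.R490.P3h (sqrt_xx)
open Pool.Agent.R490.P3i (est_r1 est_r2)
open Pool.Agent.R490.P3l (exists_cst)
open Pool.Agent.R490.Mean (y_ge pow_le)
open Pool.Agent.W23.DC Pool.Agent.Y882 Pool.Agent.Y882.KW
open Pool.Agent.L0h41.LW

open Classical in
/-- the members with an almost prime value at `m` -/
noncomputable def GoodG (F : ℕ → ℕ → ℕ) (J : Finset ℕ) (X R m : ℕ) (ζ : ℝ) : Finset ℕ :=
  J.filter (fun j => (F j m).primeFactorsList.length ≤ R ∧ ∀ p : ℕ, p.Prime → p ∣ F j m → (X : ℝ) ^ ζ ≤ p)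

open Classical in
/-- the exceptional `m` -/
noncomputable def BadG (F : ℕ → ℕ → ℕ) (α : ℕ → ℝ) (J : Finset ℕ) (X R Z L : ℕ) (ζ t : ℝ) : Finset ℕ :=
  (Ioc Z (Z + L)).filter (fun m => ∑ j ∈ GoodG F J X R m ζ, α j < t)

open Classical in
/-- few `m` have a value divisible by the square of a medium prime -/
theorem sqG (F : ℕ → ℕ → ℕ) (J : Finset ℕ) (c X y Z L : ℕ) (ζ υ : ℝ) (hX : 2 ≤ X) (h4 : 4 ≤ (X : ℝ) ^ ζ)
    (hL : (X : ℝ) ^ (2 * υ) ≤ L)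
    (hsq : ∀ j ∈ J, ∀ p : ℕ, p.Prime → y < p →
      (((Ioc Z (Z + L)).filter (fun m => p ^ 2 ∣ F j m)).card : ℝ) ≤ c * ((L : ℝ) / (p : ℝ) ^ 2 + 1)) :
    (((Ioc Z (Z + L)).filter (fun m => ∃ j ∈ J, ∃ p ∈ pr X ζ υ, y < p ∧ p ^ 2 ∣ F j m)).card : ℝ) ≤
      J.card * (4 * (c * L) / (X : ℝ) ^ ζ) := by
  have hq0 : (0 : ℝ) < X := by exact_mod_cast (by omega : 0 < X)
  have h1 : (((Ioc Z (Z + L)).filter (fun m => ∃ j ∈ J, ∃ p ∈ pr X ζ υ, y < p ∧ p ^ 2 ∣ F j m)).card : ℝ) ≤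
      ∑ j ∈ J, ∑ p ∈ pr X ζ υ,
        (((Ioc Z (Z + L)).filter (fun m => y < p ∧ p ^ 2 ∣ F j m)).card : ℝ) := by
    have h2 : (Ioc Z (Z + L)).filter (fun m => ∃ j ∈ J, ∃ p ∈ pr X ζ υ, y < p ∧ p ^ 2 ∣ F j m) ⊆
        J.biUnion (fun j => (pr X ζ υ).biUnion (fun p =>
          (Ioc Z (Z + L)).filter (fun m => y < p ∧ p ^ 2 ∣ F j m))) := by
      intro n hn
      rw [mem_filter] at hn
      obtain ⟨hn, j, hj, p, hp, hd⟩ := hn
      rw [mem_biUnion]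
      refine ⟨j, hj, ?_⟩
      rw [mem_biUnion]
      exact ⟨p, hp, mem_filter.2 ⟨hn, hd⟩⟩
    have h3 := (card_le_card h2).trans card_biUnion_le
    have h4 : ∑ j ∈ J, ((pr X ζ υ).biUnion (fun p =>
          (Ioc Z (Z + L)).filter (fun m => y < p ∧ p ^ 2 ∣ F j m))).card ≤
        ∑ j ∈ J, ∑ p ∈ pr X ζ υ, ((Ioc Z (Z + L)).filter (fun m => y < p ∧ p ^ 2 ∣ F j m)).card :=
      sum_le_sum fun h _ => card_biUnion_le
    exact_mod_cast h3.trans h4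
  refine h1.trans ?_
  have h5 : ∀ j ∈ J, ∑ p ∈ pr X ζ υ,
      (((Ioc Z (Z + L)).filter (fun m => y < p ∧ p ^ 2 ∣ F j m)).card : ℝ) ≤
      4 * (c * L) / (X : ℝ) ^ ζ := by
    intro j hj
    have h6 : ∀ p ∈ pr X ζ υ, (((Ioc Z (Z + L)).filter (fun m => y < p ∧ p ^ 2 ∣ F j m)).card : ℝ) ≤
        2 * (c * L) * ((p : ℝ) ^ 2)⁻¹ := by
      intro p hp
      have hpp := (mem_pr.1 hp).2.1
      have hp0 : (0 : ℝ) < p := by exact_mod_cast hpp.pos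
      by_cases hyp : y < p
      · have e1 : (Ioc Z (Z + L)).filter (fun m => y < p ∧ p ^ 2 ∣ F j m) =
            (Ioc Z (Z + L)).filter (fun m => p ^ 2 ∣ F j m) := by
          apply filter_congr
          intro m _
          exact ⟨fun h => h.2, fun h => ⟨hyp, h⟩⟩
        rw [e1]
        have e2 := hsq j hj p hpp hyp
        have e4 : (p : ℝ) ^ 2 ≤ L := by
          refine le_trans ?_ hL
          have e5 := (Pool.Agent.Y882.tt_lt X p υ hX hpp.pos).1 (mem_pr.1 hp).2.2.2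
          calc (p : ℝ) ^ 2 ≤ ((X : ℝ) ^ υ) ^ 2 := pow_le_pow_left₀ hp0.le e5.le 2
            _ = (X : ℝ) ^ (2 * υ) := by
                rw [← Real.rpow_natCast, ← Real.rpow_mul hq0.le]
                congr 1
                push_cast
                ring
        have e5 : 1 ≤ (L : ℝ) / (p : ℝ) ^ 2 := by
          rw [le_div_iff₀ (by positivity), one_mul]
          exact e4
        calc _ ≤ c * ((L : ℝ) / (p : ℝ) ^ 2 + 1) := e2
          _ ≤ c * ((L : ℝ) / (p : ℝ) ^ 2 + (L : ℝ) / (p : ℝ) ^ 2) := by gcongr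
          _ = _ := by rw [div_eq_mul_inv]; ring
      · have e1 : (Ioc Z (Z + L)).filter (fun m => y < p ∧ p ^ 2 ∣ F j m) = ∅ := by
          rw [filter_eq_empty_iff]
          rintro m _ ⟨h, _⟩
          exact hyp h
        rw [e1, card_empty, Nat.cast_zero]
        positivity
    refine (sum_le_sum h6).trans ?_
    rw [← mul_sum]
    have h11 := Pool.Agent.R490.LFc.inv_sq X ζ υ hX h4
    calc 2 * (c * (L : ℝ)) * ∑ p ∈ pr X ζ υ, ((p : ℝ) ^ 2)⁻¹ ≤ 2 * (c * L) * (2 / (X : ℝ) ^ ζ) :=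
          mul_le_mul_of_nonneg_left h11 (by positivity)
      _ = _ := by ring
  refine (sum_le_card_nsmul _ _ _ h5).trans ?_
  rw [nsmul_eq_mul]

open Classical in
/-- the exceptional `m` are in one of three sets -/
theorem bad_subG (F : ℕ → ℕ → ℕ) (α : ℕ → ℝ) (J : Finset ℕ) (hα : ∀ j ∈ J, 0 ≤ α j) (X : ℕ) (hX : 2 ≤ X)
    (r R y Z L : ℕ) (hy : y = ⌊(X : ℝ) ^ (1 / (r : ℝ))⌋₊)
    (ζ υ lm S : ℝ) (hζυ : ζ ≤ υ) (hυ0 : 0 < υ)
    (hυ1 : υ ≤ 1) (hlam : 0 < lm) (hr : 1 / lm + S / υ ≤ R + 1) (c : Finset ℕ → ℝ) (κ : ℕ → ℝ) (κ0 x : ℝ)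
    (hκ0 : 0 < κ0) (hκ : ∀ j ∈ J, κ0 ≤ κ j)
    (hc : ∀ N : ℕ, VV (pr X (1 / (r : ℝ)) υ) c (fun p => if p ∣ N then 1 else 0) ≤
      WB X (1 / (r : ℝ)) ζ υ lm (lm / υ) N)
    (hS : ∀ j ∈ J, ∀ m ∈ Ioc Z (Z + L), 1 ≤ F j m ∧ ((F j m : ℕ) : ℝ) ≤ (X : ℝ) ^ S) :
    BadG F α J X R Z L ζ (κ0 * (x / 4)) ⊆
      (Ioc Z (Z + L)).filter (fun m => ∃ j ∈ J, ∃ p ∈ pr X ζ υ, y < p ∧ p ^ 2 ∣ F j m) ∪
      ((Ioc Z (Z + L)).filter (fun m => WG F α J y m ≤ x / 2) ∪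
       (Ioc Z (Z + L)).filter (fun m => κ0 * (x / 4) ≤ |XG F α J (PP X y (1 / (r : ℝ)) υ)
         (fun j U => c U - if U = ∅ then κ j else 0) y m|)) := by
  intro m hm
  unfold BadG at hm
  rw [mem_filter] at hm
  obtain ⟨hn1, hbad⟩ := hm
  rw [mem_union, mem_union]
  by_cases hsq : ∃ j ∈ J, ∃ p ∈ pr X ζ υ, y < p ∧ p ^ 2 ∣ F j m
  · left
    exact mem_filter.2 ⟨hn1, hsq⟩
  right
  by_cases hW : WG F α J y m ≤ x / 2
  · left
    exact mem_filter.2 ⟨hn1, hW⟩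
  right
  rw [mem_filter]
  refine ⟨hn1, ?_⟩
  push Not at hW
  obtain ⟨P, hP⟩ : ∃ P, P = PP X y (1 / (r : ℝ)) υ := ⟨_, rfl⟩
  rw [← hP]
  have hlam2 : ∀ (k : ℝ) (n : ℕ), lam P (fun U => c U - if U = ∅ then k else 0) n = lam P c n - k := by
    intro k n
    unfold lam
    have e1 : ∀ U ∈ P.powerset, (c U - if U = ∅ then k else 0) * (if (∏ p ∈ U, p) ∣ n then (1 : ℝ) else 0) =
        c U * (if (∏ p ∈ U, p) ∣ n then (1 : ℝ) else 0) - (if U = ∅ then k else 0) := by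
      intro U _
      by_cases h : U = ∅
      · subst h
        simp
      · rw [if_neg h, sub_zero, sub_zero]
    rw [sum_congr rfl e1, sum_sub_distrib, sum_ite_eq', if_pos (empty_mem_powerset P)]
  have hkey : ∀ j ∈ J, α j * xG (F j) P (fun U => c U - if U = ∅ then κ j else 0) y m ≤
      (if (F j m).primeFactorsList.length ≤ R ∧
        ∀ p : ℕ, p.Prime → p ∣ F j m → (X : ℝ) ^ ζ ≤ p then α j else 0) +
      -κ0 * (α j * rh (F j) y m) := by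
    intro j hj
    have hαj := hα j hj
    have hκj := hκ j hj
    unfold xG
    rw [hlam2]
    by_cases hr1 : Sf (DQ (F j)) y m
    · have e1 : rh (F j) y m = 1 := by unfold rh; rw [if_pos hr1]
      rw [e1, one_mul, mul_one]
      have hNy : ∀ p : ℕ, p.Prime → p ≤ y → ¬ p ∣ F j m := by
        intro p hp hpy hd
        exact hr1 p (mem_pz.2 ⟨hpy, hp⟩) hd
      have h3 : lam P c (F j m) ≤ 1 := by
        have h4 := hc (F j m)
        rw [VV_ind X y _ _ c _ hNy, ← hP] at h4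
        refine h4.trans (WB_le_one X _ ζ υ lm (lm / υ) (by positivity) ?_ _)
        rw [div_mul_cancel₀ _ hυ0.ne']
      by_cases hpos : 0 < lam P c (F j m)
      · have hdet : (F j m).primeFactorsList.length ≤ R ∧
            ∀ p : ℕ, p.Prime → p ∣ F j m → (X : ℝ) ^ ζ ≤ p := by
          have hSj := hS j hj m hn1
          apply detect X hX r R ζ υ lm S hζυ hυ0 hυ1 hlam hr c (F j m) (by omega) hSj.2
          · exact hc _
          · rw [← hy]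
            exact hNy
          · rw [← hy, ← hP]
            exact hpos
          · intro p hp hd
            refine hsq ⟨j, hj, p, hp, ?_, hd⟩
            by_contra hle
            exact hNy p (mem_pr.1 hp).2.1 (not_lt.1 hle) ((Dvd.intro_left (p ^ 1) (by ring)).trans hd)
        rw [if_pos hdet]
        have : α j * (lam P c (F j m) - κ j) ≤ α j * (1 - κ0) := mul_le_mul_of_nonneg_left (by linarith) hαj
        linarith
      · push Not at hpos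
        have h5 : (0 : ℝ) ≤ (if (F j m).primeFactorsList.length ≤ R ∧
            ∀ p : ℕ, p.Prime → p ∣ F j m → (X : ℝ) ^ ζ ≤ p then α j else 0) := by
          split_ifs
          · exact hαj
          · exact le_rfl
        have : α j * (lam P c (F j m) - κ j) ≤ α j * (-κ0) := mul_le_mul_of_nonneg_left (by linarith) hαj
        linarith
    · have e1 : rh (F j) y m = 0 := by unfold rh; rw [if_neg hr1]
      rw [e1, zero_mul, mul_zero, mul_zero, add_zero]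
      split_ifs
      · exact hαj
      · exact le_rfl
  have h1 : XG F α J P (fun j U => c U - if U = ∅ then κ j else 0) y m ≤
      (∑ j ∈ GoodG F J X R m ζ, α j) + -κ0 * WG F α J y m := by
    unfold XG
    refine (sum_le_sum hkey).trans ?_
    rw [sum_add_distrib, ← mul_sum]
    unfold WG
    apply add_le_add _ le_rfl
    unfold GoodG
    rw [sum_filter]
  have h2 : κ0 * (x / 2) ≤ κ0 * WG F α J y m := mul_le_mul_of_nonneg_left hW.le hκ0.le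
  rw [le_abs]
  right
  linarith

open Classical in
/-- the count of the exceptional `m` -/
theorem count_badG (F : ℕ → ℕ → ℕ) (α : ℕ → ℝ) (J : Finset ℕ) (hα : ∀ j ∈ J, 0 ≤ α j) (X : ℕ) (hX : 2 ≤ X)
    (r R y Z L : ℕ) (hy : y = ⌊(X : ℝ) ^ (1 / (r : ℝ))⌋₊)
    (ζ υ lm S : ℝ) (hζυ : ζ ≤ υ) (hυ0 : 0 < υ)
    (hυ1 : υ ≤ 1) (hlam : 0 < lm) (hr : 1 / lm + S / υ ≤ R + 1) (c : Finset ℕ → ℝ) (κ : ℕ → ℝ) (κ0 x : ℝ)
    (hκ0 : 0 < κ0) (hκ : ∀ j ∈ J, κ0 ≤ κ j) (hx : 0 < x)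
    (hc : ∀ N : ℕ, VV (pr X (1 / (r : ℝ)) υ) c (fun p => if p ∣ N then 1 else 0) ≤
      WB X (1 / (r : ℝ)) ζ υ lm (lm / υ) N)
    (hS : ∀ j ∈ J, ∀ m ∈ Ioc Z (Z + L), 1 ≤ F j m ∧ ((F j m : ℕ) : ℝ) ≤ (X : ℝ) ^ S)
    (s1 v2 v3 : ℝ)
    (h1 : (((Ioc Z (Z + L)).filter (fun m => ∃ j ∈ J, ∃ p ∈ pr X ζ υ, y < p ∧
      p ^ 2 ∣ F j m)).card : ℝ) ≤ s1)
    (h2 : ∑ m ∈ Ioc Z (Z + L), (WG F α J y m - x) ^ 2 ≤ v2)
    (h3 : ∑ m ∈ Ioc Z (Z + L), XG F α J (PP X y (1 / (r : ℝ)) υ)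
         (fun j U => c U - if U = ∅ then κ j else 0) y m ^ 2 ≤ v3) :
    ((BadG F α J X R Z L ζ (κ0 * (x / 4))).card : ℝ) ≤ s1 + (v2 / (x / 2) ^ 2 + v3 / (κ0 * (x / 4)) ^ 2) := by
  have hsub := bad_subG F α J hα X hX r R y Z L hy ζ υ lm S hζυ hυ0 hυ1 hlam hr c κ κ0 x hκ0 hκ hc hS
  obtain ⟨a, ha⟩ : ∃ a : ℕ → Finset ℕ → ℝ, a = fun j U => c U - if U = ∅ then κ j else 0 := ⟨_, rfl⟩
  obtain ⟨P, hP⟩ : ∃ P, P = PP X y (1 / (r : ℝ)) υ := ⟨_, rfl⟩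
  rw [← hP, ← ha] at hsub h3
  have hcard : ((BadG F α J X R Z L ζ (κ0 * (x / 4))).card : ℝ) ≤
      (((Ioc Z (Z + L)).filter (fun m => ∃ j ∈ J, ∃ p ∈ pr X ζ υ, y < p ∧ p ^ 2 ∣ F j m)).card : ℝ) +
      ((((Ioc Z (Z + L)).filter (fun m => WG F α J y m ≤ x / 2)).card : ℝ) +
       (((Ioc Z (Z + L)).filter (fun m => κ0 * (x / 4) ≤ |XG F α J P a y m|)).card : ℝ)) := by
    have a1 := (card_le_card hsub).trans ((card_union_le _ _).trans (Nat.add_le_add_left (card_union_le _ _) _))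
    exact_mod_cast a1
  refine hcard.trans ?_
  apply add_le_add h1
  apply add_le_add
  · have a1 := cheb (Ioc Z (Z + L)) (fun m => WG F α J y m - x) ((x / 2) ^ 2) (by positivity)
      (fun m => WG F α J y m ≤ x / 2) (by
        intro m _ hn
        show (x / 2) ^ 2 ≤ (WG F α J y m - x) ^ 2
        have : x / 2 ≤ x - WG F α J y m := by linarith
        calc (x / 2) ^ 2 ≤ (x - WG F α J y m) ^ 2 := pow_le_pow_left₀ (by positivity) this 2
          _ = _ := by ring)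
    refine a1.trans ?_
    exact div_le_div_of_nonneg_right h2 (by positivity)
  · have a1 := cheb (Ioc Z (Z + L)) (fun m => XG F α J P a y m) ((κ0 * (x / 4)) ^ 2) (by positivity)
      (fun m => κ0 * (x / 4) ≤ |XG F α J P a y m|) (by
        intro m _ hn
        show (κ0 * (x / 4)) ^ 2 ≤ XG F α J P a y m ^ 2
        rw [← sq_abs (XG F α J P a y m)]
        exact pow_le_pow_left₀ (by positivity) hn 2)
    refine a1.trans ?_
    exact div_le_div_of_nonneg_right h3 (by positivity)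

/-- the final estimate -/
lemma fin_algG (B s1 v2 v3 L x κ0 ε η AR d S2 T s e s2 V2 σ : ℝ) (hL : 0 < L) (hx : 0 < x) (hκ0 : 0 < κ0)
    (hε : 0 < ε) (hAR : 0 ≤ AR) (hd : 0 ≤ d) (he : 0 ≤ e)
    (hB : B ≤ s1 + (v2 / (x / 2) ^ 2 + v3 / (κ0 * (x / 4)) ^ 2))
    (hs1 : s1 ≤ ε / 20 * L)
    (hv2 : v2 = 5 * η * (L * x ^ 2) + 2 * d * (L * S2) + (3 + d) * (T ^ 2 * s))
    (hv3 : v3 ≤ AR * (d * (2 * L * S2 + T ^ 2 * s)) + V2 * (L * e) + T ^ 2 * s2)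
    (hη : η = ε / 560) (hS2 : S2 ≤ σ * x ^ 2) (hσ1 : 8 * d * σ ≤ ε / 20)
    (hσ2 : 32 * (AR * d * σ) ≤ κ0 ^ 2 * (ε / 20)) (hV2 : V2 ≤ 2 * x ^ 2)
    (hTs : 4 * (3 + d) * (T ^ 2 * s) ≤ ε / 20 * L * x ^ 2)
    (hTs2 : 16 * (AR * d * (T ^ 2 * s)) ≤ κ0 ^ 2 * (ε / 20) * L * x ^ 2)
    (hTs3 : 16 * (T ^ 2 * s2) ≤ κ0 ^ 2 * (ε / 20) * L * x ^ 2)
    (he2 : 32 * e / κ0 ^ 2 ≤ ε / 10) : B ≤ ε * L := by
  have hx2 : 0 < x ^ 2 := by positivity
  have hκ2 : 0 < κ0 ^ 2 := by positivity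
  have a1 : v2 / (x / 2) ^ 2 ≤ ε / 5 * L := by
    rw [div_le_iff₀ (by positivity), hv2, hη]
    have b1 : d * (L * S2) ≤ d * (L * (σ * x ^ 2)) := by gcongr
    have b2 : 8 * d * σ * (L * x ^ 2) ≤ ε / 20 * (L * x ^ 2) := mul_le_mul_of_nonneg_right hσ1 (by positivity)
    have b3 : 0 < L * x ^ 2 := by positivity
    have b4 : 0 < ε * (L * x ^ 2) := by positivity
    nlinarith
  have a2 : v3 / (κ0 * (x / 4)) ^ 2 ≤ 3 * ε / 5 * L := by
    rw [div_le_iff₀ (by positivity)]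
    have c0 : 0 ≤ AR * d := by positivity
    have c1 : AR * d * (2 * L * S2) ≤ AR * d * (2 * L * (σ * x ^ 2)) := by gcongr
    have c2 : 32 * (AR * d * σ) * (L * x ^ 2) ≤ κ0 ^ 2 * (ε / 20) * (L * x ^ 2) :=
      mul_le_mul_of_nonneg_right hσ2 (by positivity)
    have c3 : V2 * (L * e) ≤ 2 * x ^ 2 * (L * e) := mul_le_mul_of_nonneg_right hV2 (by positivity)
    have c4 : 32 * e ≤ κ0 ^ 2 * (ε / 10) := by
      rw [div_le_iff₀ hκ2] at he2
      linarith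
    have c5 : 32 * e * (L * x ^ 2) ≤ κ0 ^ 2 * (ε / 10) * (L * x ^ 2) :=
      mul_le_mul_of_nonneg_right c4 (by positivity)
    have e1 : 3 * ε / 5 * L * (κ0 * (x / 4)) ^ 2 = 3 / 80 * (κ0 ^ 2 * ε * (L * x ^ 2)) := by ring
    have e2 : AR * (d * (2 * L * S2 + T ^ 2 * s)) = AR * d * (2 * L * S2) + AR * d * (T ^ 2 * s) := by ring
    rw [e1]
    rw [e2] at hv3
    have e3 : κ0 ^ 2 * (ε / 20) * (L * x ^ 2) = 1 / 20 * (κ0 ^ 2 * ε * (L * x ^ 2)) := by ring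
    have e4 : κ0 ^ 2 * (ε / 10) * (L * x ^ 2) = 1 / 10 * (κ0 ^ 2 * ε * (L * x ^ 2)) := by ring
    have e5 : κ0 ^ 2 * (ε / 20) * L * x ^ 2 = 1 / 20 * (κ0 ^ 2 * ε * (L * x ^ 2)) := by ring
    rw [e3] at c2
    rw [e4] at c5
    rw [e5] at hTs2 hTs3
    have e6 : 16 * (AR * d * (2 * L * (σ * x ^ 2))) = 32 * (AR * d * σ) * (L * x ^ 2) := by ring
    have e7 : 16 * (2 * x ^ 2 * (L * e)) = 32 * e * (L * x ^ 2) := by ring
    have e8 : 0 < κ0 ^ 2 * ε * (L * x ^ 2) := by positivity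
    nlinarith
  have a3 : 0 < ε * L := by positivity
  linarith

end Pool.Agent.L0h41.QN
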