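import Pool.Agent.L0h41.QN.C

set_option autoImplicit false

/-!
# Families of sequences: the main theorem
-/

namespace Pool.Agent.L0h41.QN

open Finset Filter
open Pool.Agent.W123.RP Pool.Agent.H373R2.T7 Pool.Agent.W123.RU Pool.Agent.TH464.PO Pool.Agent.TH464.PW
open Pool.Agent.Y879.AP
open Pool.Agent.R490.P3c (lam)
open Pool.Agent.R490.P3h (sqrt_xx)
open Pool.Agent.R490.P3i (est_r1 est_r2)
open Pool.Agent.R490.P3l (exists_cst)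
open Pool.Agent.R490.Mean (y_ge pow_le)
open Pool.Agent.W23.DC Pool.Agent.Y882 Pool.Agent.Y882.KW
open Pool.Agent.L0h41.LW

/-- the densities above `y` are regular -/
theorem merF (c r : ℕ) (hr : 2 ≤ r) (υ η : ℝ) (hη : 0 < η) : ∀ᶠ X : ℕ in atTop,
    ∀ F : ℕ → ℕ, PerB (DQ F) c → Mer (pr X (1 / (r : ℝ)) υ) (tt X) (gp F) (1 / (r : ℝ)) υ (η / 2) →
    Mer (pr X (1 / (r : ℝ)) υ) (tt X) (gg F ⌊(X : ℝ) ^ (1 / (r : ℝ))⌋₊) (1 / (r : ℝ)) υ η := by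
  classical
  have hrr : (2 : ℝ) ≤ r := by exact_mod_cast hr
  obtain ⟨M, hM⟩ := exists_nat_ge (2 * c / η)
  filter_upwards [eventually_ge_atTop 2, Pool.Agent.R490.Mean.y_ge r hr (max M 4)] with X h2 h3
  intro F hF h1
  obtain ⟨y, hy⟩ : ∃ y, y = ⌊(X : ℝ) ^ (1 / (r : ℝ))⌋₊ := ⟨_, rfl⟩
  rw [← hy] at h3 ⊢
  have hy4 : 4 ≤ y := (le_max_right _ _).trans h3
  have hyM : M ≤ y := (le_max_left _ _).trans h3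
  have hyr : (4 : ℝ) ≤ y := by exact_mod_cast hy4
  intro a b ha hab hb
  have key := h1 a b ha hab hb
  obtain ⟨S, hS⟩ : ∃ S, S = (pr X (1 / (r : ℝ)) υ).filter (fun p => a ≤ tt X p ∧ tt X p < b) := ⟨_, rfl⟩
  rw [← hS] at key ⊢
  have hSp : ∀ p ∈ S, p.Prime ∧ y ≤ p := by
    intro p hp
    rw [hS, mem_filter, mem_pr] at hp
    refine ⟨hp.1.2.1, ?_⟩
    rw [hy]
    apply Pool.Agent.R490.P3f.y_real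
    exact (le_tt_iff h2 hp.1.2.1.pos _).1 hp.1.2.2.1
  have hlow : ∑ p ∈ S, gg F y p ≤ ∑ p ∈ S, gp F p := by
    apply sum_le_sum
    intro p _
    unfold gg
    split_ifs
    · exact le_rfl
    · exact gp_nonneg F p
  have hup : ∑ p ∈ S, gp F p ≤ ∑ p ∈ S, gg F y p + η / 2 := by
    have h5 : ∀ p ∈ S, gp F p ≤ gg F y p + (if p = y then (c : ℝ) / y else 0) := by
      intro p hp
      obtain ⟨g1, g2⟩ := hSp p hp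
      rcases Nat.lt_or_eq_of_le g2 with h | h
      · rw [if_neg (by omega), add_zero]
        unfold gg
        rw [if_pos h]
      · rw [if_pos h.symm]
        have g3 := gg_nonneg F y p
        have g4 : gp F p ≤ (c : ℝ) / y := by
          unfold gp
          rw [h]
          exact div_le_div_of_nonneg_right (by exact_mod_cast hF.few p g1) (by positivity)
        linarith
    refine (sum_le_sum h5).trans ?_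
    rw [sum_add_distrib]
    apply add_le_add le_rfl
    rw [sum_ite_eq']
    have h6 : (c : ℝ) / y ≤ η / 2 := by
      have g2 : 2 * c / η ≤ y := hM.trans (by exact_mod_cast hyM)
      rw [div_le_iff₀ hη] at g2
      rw [div_le_div_iff₀ (by linarith) (by norm_num)]
      linarith
    split_ifs
    · exact h6
    · positivity
  rw [abs_le] at key ⊢
  constructor <;> linarith

/-- the error terms -/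
lemma err_le (s qg lq E B L x T : ℝ) (hs0 : 0 ≤ s) (hs : s ≤ qg) (hT0 : 0 ≤ T)
    (hT : T ≤ B * x) (hx : 0 < x) (hE : 0 < E) (hlq : E * B ^ 2 ≤ qg) (hL : qg * qg ≤ L) (_ : 0 ≤ B)
    (_ : lq = lq) :
    E * (T ^ 2 * s) ≤ L * x ^ 2 := by
  have a1 : T ^ 2 ≤ B ^ 2 * x ^ 2 := by
    rw [← mul_pow]
    exact pow_le_pow_left₀ hT0 hT 2
  have hqg : 0 ≤ qg := hs0.trans hs
  calc E * (T ^ 2 * s) ≤ E * ((B ^ 2 * x ^ 2) * qg) := by gcongr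
    _ = (E * B ^ 2) * qg * x ^ 2 := by ring
    _ ≤ qg * qg * x ^ 2 := by gcongr
    _ ≤ L * x ^ 2 := by gcongr

set_option maxHeartbeats 4000000 in
open Classical in
/-- one scale -/
theorem oneXG {g : ℕ} {θ τ ζ υ lm ε f0 c1 A κ0 x1 η γ : ℝ} {C0 G0 m r R0 : ℕ}
    (h : Cst g θ τ ζ υ lm ε f0 c1 A κ0 x1 η γ C0 G0 m r R0) (F : ℕ → ℕ → ℕ) (α : ℕ → ℝ) (J : Finset ℕ)
    (bad : ℕ → ℕ → Prop) (c d : ℕ) (X y : ℕ) (hF : FamG F α J bad c d y) (hc1 : 1 ≤ c)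
    (S : ℝ) (R : ℕ) (hr : 1 / lm + S / υ ≤ R + 1)
    (Z L : ℕ) (hX : 2 ≤ X) (hy : y = ⌊(X : ℝ) ^ (1 / (r : ℝ))⌋₊) (hy1 : 1 ≤ y)
    (hXL : (X : ℝ) ^ θ ≤ L)
    (cL : Finset ℕ → ℝ) (hb1 : ∀ U, |cL U| ≤ 1 + lm)
    (hb2 : ∀ U ⊆ pr X (1 / (r : ℝ)) υ, cL U ≠ 0 → ((∏ p ∈ U, p : ℕ) : ℝ) ≤ (X : ℝ) ^ τ)
    (hb3 : ∀ N : ℕ, VV (pr X (1 / (r : ℝ)) υ) cL (fun p => if p ∣ N then 1 else 0) ≤
      WB X (1 / (r : ℝ)) ζ υ lm (lm / υ) N)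
    (hMer1 : ∀ j ∈ J, Mer (pr X (1 / (r : ℝ)) υ) (tt X) (gg (F j) y) (1 / (r : ℝ)) υ 1)
    (hb4 : ∀ j ∈ J, 1 / (r : ℝ) * f0 ≤ VV (pr X (1 / (r : ℝ)) υ) cL (gg (F j) y))
    (hS : ∀ j ∈ J, ∀ n ∈ Ioc Z (Z + L), 1 ≤ F j n ∧ ((F j n : ℕ) : ℝ) ≤ (X : ℝ) ^ S)
    (hsq : ∀ j ∈ J, ∀ p : ℕ, p.Prime → y < p →
      (((Ioc Z (Z + L)).filter (fun n => p ^ 2 ∣ F j n)).card : ℝ) ≤ c * ((L : ℝ) / (p : ℝ) ^ 2 + 1))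
    (x σ B : ℝ) (hx0 : 0 < x) (hxd : x = V1G F α J y) (hB0 : 0 ≤ B) (hαB : ∑ j ∈ J, α j ≤ B * x)
    (hJB : (J.card : ℝ) ≤ B)
    (hV2 : V2G F α J bad y ≤ (1 + η) * x ^ 2) (hS2 : S2G F α J y ≤ σ * x ^ 2)
    (hσ1 : 8 * d * σ ≤ ε / 20) (hσ2 : 32 * ((A * 2 ^ R0) ^ 2 * d * σ) ≤ κ0 ^ 2 * (ε / 20))
    (hhalf : (1 / 2 : ℝ) ^ m ≤ η)
    (Hcnt : ∀ j ∈ J, ∀ j' ∈ J,
      |∑ n ∈ Ioc Z (Z + L), rh (F j) y n * rh (F j') y n - (L : ℝ) * Vq (QPP (F j) (F j')) y| ≤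
        (1 / 2) ^ m * ((L : ℝ) * Vq (QPP (F j) (F j')) y) + √((y ^ (16 * (C0 * m)) : ℕ) : ℝ))
    (Hsec : ∀ (P : Finset ℕ) (a : ℕ → Finset ℕ → ℝ) (B1 B2 : ℝ),
      (∀ p ∈ P, p.Prime ∧ y < p) → (∀ j ∈ J, ∀ U, |a j U| ≤ A) →
      (∀ j ∈ J, ∀ U ⊆ P, a j U ≠ 0 → ∏ p ∈ U, p ≤ ⌊(X : ℝ) ^ τ⌋₊) →
      (∀ j ∈ J, ∑ U ∈ P.powerset, a j U * wt (F j) U = 0) →
      (∀ j ∈ J, Pi1 (F j) P ≤ B1) → (∀ j ∈ J, ∑ p ∈ P, gp (F j) p ≤ B2) →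
      ∑ n ∈ Ioc Z (Z + L), XG F α J P a y n ^ 2 ≤
        (A * 2 ^ R0) ^ 2 * (d * ∑ j ∈ J, α j ^ 2 * ∑ n ∈ Ioc Z (Z + L), rh (F j) y n) +
        V2G F α J bad y * (L * (A ^ 2 * (B1 ^ 2 * (c * B2 / y)) + (1 / 2) ^ m * (A * B1) ^ 2)) +
        (∑ j ∈ J, α j) ^ 2 * (√((y ^ (16 * (C0 * m)) : ℕ) : ℝ) *
          (A * ((c : ℝ) ^ R0 * (⌊(X : ℝ) ^ τ⌋₊ : ℕ))) ^ 2))
    (Yb : ℝ) (hYb : 640 * A ^ 2 * (9 * (r : ℝ) ^ 3) / (κ0 ^ 2 * ε) ≤ Yb) (hYy : Yb * c ≤ y)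
    (hE1 : 80 * (3 + d) / ε * B ^ 2 ≤ (X : ℝ) ^ (γ / 2))
    (hE2 : (320 * ((A * 2 ^ R0) ^ 2 * d) / (κ0 ^ 2 * ε) + 1) * B ^ 2 ≤ (X : ℝ) ^ (γ / 2))
    (hE3 : (320 * (A * (c : ℝ) ^ R0) ^ 2 / (κ0 ^ 2 * ε) + 1) * B ^ 2 ≤ (X : ℝ) ^ (γ / 2))
    (hE4 : 80 * c / ε * B ≤ (X : ℝ) ^ ζ) (h4ζ : 4 ≤ (X : ℝ) ^ ζ) :
    ((BadG F α J X R Z L ζ (κ0 * (x / 4))).card : ℝ) ≤ ε * L := by
  obtain ⟨hA0, hκ00, hx11, hr0, hc10, hγ0, -, -⟩ := h.pos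
  have hε := h.Fε
  have hX1 : (1 : ℝ) ≤ X := by exact_mod_cast (by omega : 1 ≤ X)
  have hX0 : (0 : ℝ) < X := by linarith
  have hL0 : (0 : ℝ) < L := lt_of_lt_of_le (by positivity) hXL
  have hτ0 : 0 < τ := by linarith [h.h2, h.Fζ]
  have hυ0 : 0 < υ := by linarith [h.hζυ, h.Fζ]
  have hυ1 : υ ≤ 1 := by linarith [h.hυτ, h.hτθ, h.hθ1]
  have hrυ : 1 / (r : ℝ) ≤ υ := h.Frζ.trans h.hζυ
  have hc0 : (0 : ℝ) < c := by exact_mod_cast hc1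
  have hwts : ∀ j ∈ J, ∃ κ : ℝ, f0 / r ≤ κ ∧
      (∀ U, |cL U - (if U = ∅ then κ else 0)| ≤ c1 * (1 + 3 * r)) ∧
      (∀ U ⊆ PP X y (1 / (r : ℝ)) υ, cL U - (if U = ∅ then κ else 0) ≠ 0 →
        ∏ p ∈ U, p ≤ ⌊(X : ℝ) ^ τ⌋₊) ∧
      ∑ U ∈ (PP X y (1 / (r : ℝ)) υ).powerset, (cL U - (if U = ∅ then κ else 0)) * wt (F j) U = 0 :=
    fun j hj => weights (F j) X r y hX h.Fr2 τ υ lm f0 c1 hτ0 hυ1 hrυ h.Fc1 h.Flm (hMer1 j hj) cL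
      hb1 hb2 (hb4 j hj)
  choose! κ hκlow haA haD hasum using hwts
  rw [← h.Fκ0] at hκlow
  rw [← h.FA] at haA
  have hsP := fun j (hj : j ∈ J) => sumP (F j) X y r h.Fr2 υ hυ1 hrυ (hMer1 j hj)
  obtain ⟨a, ha⟩ : ∃ a : ℕ → Finset ℕ → ℝ, a = fun j U => cL U - if U = ∅ then κ j else 0 := ⟨_, rfl⟩
  obtain ⟨P, hP⟩ : ∃ P, P = PP X y (1 / (r : ℝ)) υ := ⟨_, rfl⟩
  rw [← hP] at hsP haD hasum
  have haA' : ∀ j ∈ J, ∀ U, |a j U| ≤ A := by rw [ha]; exact haA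
  have haD' : ∀ j ∈ J, ∀ U ⊆ P, a j U ≠ 0 → ∏ p ∈ U, p ≤ ⌊(X : ℝ) ^ τ⌋₊ := by rw [ha]; exact haD
  have hasum' : ∀ j ∈ J, ∑ U ∈ P.powerset, a j U * wt (F j) U = 0 := by rw [ha]; exact hasum
  have hPp : ∀ p ∈ P, p.Prime ∧ y < p := by
    intro p hp
    rw [hP] at hp
    exact PP_mem hp
  have hsec := Hsec P a (3 * r) r hPp haA' haD' hasum' (fun j hj => (hsP j hj).2) (fun j hj => (hsP j hj).1)
  obtain ⟨e, he⟩ : ∃ e : ℝ, e = A ^ 2 * ((3 * (r : ℝ)) ^ 2 * (c * r / y)) + (1 / 2) ^ m * (A * (3 * r)) ^ 2 :=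
    ⟨_, rfl⟩
  have hyr0 : (0 : ℝ) < y := by exact_mod_cast hy1
  have he0 : 0 ≤ e := by rw [he]; positivity
  obtain ⟨s, hs⟩ : ∃ s : ℝ, s = √((y ^ (16 * (C0 * m)) : ℕ) : ℝ) := ⟨_, rfl⟩
  have hs0 : 0 ≤ s := by rw [hs]; exact Real.sqrt_nonneg _
  obtain ⟨T, hT⟩ : ∃ T : ℝ, T = ∑ j ∈ J, α j := ⟨_, rfl⟩
  have hT0 : 0 ≤ T := by rw [hT]; exact sum_nonneg hF.α0
  rw [← hT] at hαB
  rw [← he, ← hs, ← hT] at hsec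
  rw [← hs] at Hcnt
  have hη0 : 0 ≤ η := by rw [h.Fη]; positivity
  have hη1 : η ≤ 1 := by rw [h.Fη]; linarith [h.Fε1]
  have hvar := varG hF Z L ((1 / 2) ^ m) s η x hs0 (by positivity) hhalf hη1 hxd hx0.le Hcnt hV2
  rw [← hT] at hvar
  have hdg := diagG F α J y Z L ((1 / 2) ^ m) s hs0 (hhalf.trans hη1) hF.α0 Hcnt
  rw [← hT] at hdg
  have hLυ : (X : ℝ) ^ (2 * υ) ≤ L := by
    refine le_trans ?_ hXL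
    exact Real.rpow_le_rpow_of_exponent_le hX1 (by linarith [h.hυτ, h.hτθ])
  have hsqc := sqG F J c X y Z L ζ υ hX h4ζ hLυ hsq
  have hsec' := hsec
  rw [hP, ha] at hsec'
  have hcount := count_badG F α J hF.α0 X hX r R y Z L hy ζ υ lm S h.hζυ hυ0 hυ1 h.Flm hr cL κ κ0 x
    hκ00 hκlow hx0 hb3 hS _ _ _ hsqc hvar hsec'
  have hsqrt := sqrt_xx X r C0 m G0 γ (by omega) hγ0 h.Fr h.Fm1 h.FG1 h.FG2
  rw [← hy, ← hs] at hsqrt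
  have hDq : ((⌊(X : ℝ) ^ τ⌋₊ : ℕ) : ℝ) ^ 2 ≤ (X : ℝ) ^ (2 * τ) := by
    calc ((⌊(X : ℝ) ^ τ⌋₊ : ℕ) : ℝ) ^ 2 ≤ ((X : ℝ) ^ τ) ^ 2 :=
          pow_le_pow_left₀ (Nat.cast_nonneg _) (Nat.floor_le (by positivity)) 2
      _ = (X : ℝ) ^ (2 * τ) := by
          rw [← Real.rpow_natCast, ← Real.rpow_mul hX0.le]
          congr 1
          push_cast
          ring
  have hqq : (X : ℝ) ^ (γ / 2) * (X : ℝ) ^ (2 * τ) * (X : ℝ) ^ (γ / 2) ≤ L := by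
    refine le_trans (le_of_eq ?_) hXL
    rw [← Real.rpow_add hX0, ← Real.rpow_add hX0]
    congr 1
    rw [h.Fγ]
    ring
  have hq1 : (1 : ℝ) ≤ (X : ℝ) ^ (2 * τ) := Real.one_le_rpow hX1 (by linarith)
  have hqγ : (0 : ℝ) < (X : ℝ) ^ (γ / 2) := by positivity
  have hqq1 : (X : ℝ) ^ (γ / 2) * (X : ℝ) ^ (γ / 2) ≤ L := by
    refine le_trans ?_ hqq
    have := mul_le_mul_of_nonneg_left hq1 hqγ.le
    calc (X : ℝ) ^ (γ / 2) * (X : ℝ) ^ (γ / 2) = (X : ℝ) ^ (γ / 2) * 1 * (X : ℝ) ^ (γ / 2) := by ring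
      _ ≤ _ := mul_le_mul_of_nonneg_right this hqγ.le
  have f3 := est_r1 A (3 * r) r (y / c) r κ0 ε Yb (by positivity) le_rfl hr0.le le_rfl (by positivity) hr0
    hκ00 hε hYb (by rw [le_div_iff₀ hc0]; exact hYy)
  have f4 := est_r2 c1 A (3 * r) r κ0 f0 G0 ε m hc10 h.FA (by positivity) le_rfl (by exact_mod_cast h.Fr2) h.Ff0
    h.Fκ0 (by rw [h.Fr]; push_cast; ring) h.Fm
  have f5 : 32 * e / κ0 ^ 2 ≤ ε / 10 := by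
    have b3 : 32 * e / κ0 ^ 2 = 32 * (A ^ 2 * ((3 * (r : ℝ)) ^ 2 * (r / (y / c)))) / κ0 ^ 2 +
        32 * ((1 / 2) ^ m * (A * (3 * r)) ^ 2) / κ0 ^ 2 := by
      rw [he, div_div_eq_mul_div, mul_comm (c : ℝ)]
      ring
    rw [b3]
    linarith
  have fT1 : 4 * (3 + (d : ℝ)) * (T ^ 2 * s) ≤ ε / 20 * L * x ^ 2 := by
    have a1 := err_le s ((X : ℝ) ^ (γ / 2)) 0 (80 * (3 + d) / ε) B L x T hs0 hsqrt hT0 hαB hx0 (by positivity)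
      hE1 hqq1 hB0 rfl
    have e1 : 80 * (3 + (d : ℝ)) / ε * (T ^ 2 * s) = (4 * (3 + d) * (T ^ 2 * s)) / (ε / 20) := by
      field_simp
      ring
    rw [e1, div_le_iff₀ (by positivity)] at a1
    linarith
  have fT2 : 16 * ((A * 2 ^ R0) ^ 2 * d * (T ^ 2 * s)) ≤ κ0 ^ 2 * (ε / 20) * L * x ^ 2 := by
    have a1 := err_le s ((X : ℝ) ^ (γ / 2)) 0 (320 * ((A * 2 ^ R0) ^ 2 * d) / (κ0 ^ 2 * ε) + 1) B L x T hs0 hsqrt hT0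
      hαB hx0 (by positivity) hE2 hqq1 hB0 rfl
    have a2 : 320 * ((A * 2 ^ R0) ^ 2 * d) / (κ0 ^ 2 * ε) * (T ^ 2 * s) ≤ L * x ^ 2 := by
      refine le_trans ?_ a1
      apply mul_le_mul_of_nonneg_right _ (by positivity)
      linarith
    have e1 : 320 * ((A * 2 ^ R0) ^ 2 * d) / (κ0 ^ 2 * ε) * (T ^ 2 * s) =
      (16 * ((A * 2 ^ R0) ^ 2 * d * (T ^ 2 * s))) / (κ0 ^ 2 * (ε / 20)) := by
      field_simp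
      ring
    rw [e1, div_le_iff₀ (by positivity)] at a2
    linarith
  have fT3 : 16 * (T ^ 2 * (s * (A * ((c : ℝ) ^ R0 * (⌊(X : ℝ) ^ τ⌋₊ : ℕ))) ^ 2)) ≤
      κ0 ^ 2 * (ε / 20) * L * x ^ 2 := by
    obtain ⟨D2, hD2⟩ : ∃ D2 : ℝ, D2 = ((⌊(X : ℝ) ^ τ⌋₊ : ℕ) : ℝ) ^ 2 := ⟨_, rfl⟩
    have hT2 : T ^ 2 ≤ B ^ 2 * x ^ 2 := by
      rw [← mul_pow]
      exact pow_le_pow_left₀ hT0 hαB 2
    have hD0 : 0 ≤ D2 := by rw [hD2]; positivity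
    rw [← hD2] at hDq
    have e1 : T ^ 2 * (s * (A * ((c : ℝ) ^ R0 * (⌊(X : ℝ) ^ τ⌋₊ : ℕ))) ^ 2) =
      (A * (c : ℝ) ^ R0) ^ 2 * (T ^ 2 * s * D2) := by
      rw [hD2]
      ring
    rw [e1]
    have a1 : T ^ 2 * s * D2 ≤ (B ^ 2 * x ^ 2) * (X : ℝ) ^ (γ / 2) * (X : ℝ) ^ (2 * τ) := by
      gcongr
    have a2 : 320 * (A * (c : ℝ) ^ R0) ^ 2 / (κ0 ^ 2 * ε) * B ^ 2 ≤ (X : ℝ) ^ (γ / 2) := by
      refine le_trans ?_ hE3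
      apply mul_le_mul_of_nonneg_right _ (sq_nonneg _)
      linarith
    have a3 : 320 * (A * (c : ℝ) ^ R0) ^ 2 * B ^ 2 ≤ κ0 ^ 2 * ε * (X : ℝ) ^ (γ / 2) := by
      rw [div_mul_eq_mul_div, div_le_iff₀ (by positivity)] at a2
      linarith
    calc 16 * ((A * (c : ℝ) ^ R0) ^ 2 * (T ^ 2 * s * D2)) ≤
        16 * ((A * (c : ℝ) ^ R0) ^ 2 * ((B ^ 2 * x ^ 2) * (X : ℝ) ^ (γ / 2) * (X : ℝ) ^ (2 * τ))) := by gcongr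
      _ = (320 * (A * (c : ℝ) ^ R0) ^ 2 * B ^ 2) * ((X : ℝ) ^ (γ / 2) * (X : ℝ) ^ (2 * τ)) * x ^ 2 / 20 := by ring
      _ ≤ (κ0 ^ 2 * ε * (X : ℝ) ^ (γ / 2)) * ((X : ℝ) ^ (γ / 2) * (X : ℝ) ^ (2 * τ)) * x ^ 2 / 20 := by gcongr
      _ = κ0 ^ 2 * (ε / 20) * ((X : ℝ) ^ (γ / 2) * (X : ℝ) ^ (2 * τ) * (X : ℝ) ^ (γ / 2)) * x ^ 2 := by ring
      _ ≤ κ0 ^ 2 * (ε / 20) * L * x ^ 2 := by gcongr
  have fs : (J.card : ℝ) * (4 * (c * L) / (X : ℝ) ^ ζ) ≤ ε / 20 * L := by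
    have hXζ : 0 < (X : ℝ) ^ ζ := by positivity
    rw [mul_div_assoc', div_le_iff₀ hXζ]
    have a1 : 80 * (c : ℝ) * B ≤ ε * (X : ℝ) ^ ζ := by
      rw [div_mul_eq_mul_div, div_le_iff₀ hε] at hE4
      linarith
    calc (J.card : ℝ) * (4 * (c * L)) ≤ B * (4 * (c * L)) := by gcongr
      _ = (80 * c * B) * L / 20 := by ring
      _ ≤ (ε * (X : ℝ) ^ ζ) * L / 20 := by gcongr
      _ = _ := by ring
  refine fin_algG _ _ _ _ (L : ℝ) x κ0 ε η ((A * 2 ^ R0) ^ 2) d (S2G F α J y) T s e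
    (s * (A * ((c : ℝ) ^ R0 * (⌊(X : ℝ) ^ τ⌋₊ : ℕ))) ^ 2) (V2G F α J bad y) σ hL0 hx0 hκ00 hε (sq_nonneg _)
    (Nat.cast_nonneg _) he0 hcount fs rfl ?_ h.Fη hS2 hσ1 hσ2 ?_ fT1 fT2 fT3 f5
  · have : (A * 2 ^ R0) ^ 2 * (d * ∑ j ∈ J, α j ^ 2 * ∑ n ∈ Ioc Z (Z + L), rh (F j) y n) ≤
        (A * 2 ^ R0) ^ 2 * (d * (2 * L * S2G F α J y + T ^ 2 * s)) := by gcongr
    linarith
  · refine hV2.trans ?_
    apply mul_le_mul_of_nonneg_right (by linarith) (sq_nonneg _)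

end Pool.Agent.L0h41.QN
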