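import Pool.Agent.L0h41.LW.E
import Pool.Agent.R490.LGa

set_option autoImplicit false

/-!
# Uniform statements for the densities of quadratic polynomials
-/

namespace Pool.Agent.L0h41.QN

open Finset Filter
open Pool.Agent.W123.RP Pool.Agent.H373R2.T7 Pool.Agent.W123.RU Pool.Agent.TH464.PO Pool.Agent.TH464.PW
open Pool.Agent.W23.DC Pool.Agent.Y882 Pool.Agent.Y882.KW Pool.Agent.Y882.SI Pool.Agent.Y882.PX
open Pool.Agent.L0h41.LW
open Pool.Agent.H300R2.EC (Sd)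
open Pool.Agent.W378.DC.TMP

/-- the sums of the characters over long intervals, uniformly -/
theorem dyadU (V W : ℕ) : ∃ P0 : ℕ, 3 ≤ P0 ∧ ∀ D : ℤ, ¬ IsSquare D → ∀ k P Q : ℕ, P0 ≤ P → P ≤ Q →
    Q ≤ 2 ^ k * P → 4 * |(D : ℝ)| ≤ Real.log P ^ W → |Sd D P Q| ≤ k / Real.log P ^ V := by
  obtain ⟨P1, h1⟩ := Pool.Agent.H364R2.EC.sw_tail V W
  refine ⟨max P1 3, le_max_right _ _, ?_⟩
  intro D hD k
  induction k with
  | zero =>
    intro P Q hP hPQ hQ _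
    rw [pow_zero, one_mul] at hQ
    have : P = Q := by omega
    subst this
    unfold Sd
    simp
  | succ k ih =>
    intro P Q hP hPQ hQ h3
    have hP1 : P1 ≤ P := (le_max_left _ _).trans hP
    have hP3 : 3 ≤ P := (le_max_right _ _).trans hP
    have hP3r : (3 : ℝ) ≤ P := by exact_mod_cast hP3
    have hl : 0 < Real.log P := Real.log_pos (by linarith)
    rcases le_or_gt Q (2 * P) with h | h
    · refine (h1 P hP1 Q hPQ h D hD h3).trans ?_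
      push_cast
      apply div_le_div_of_nonneg_right _ (by positivity)
      have : (0 : ℝ) ≤ k := Nat.cast_nonneg _
      linarith
    · have h4 := h1 P hP1 (2 * P) (by omega) le_rfl D hD h3
      have h6 : Real.log P ≤ Real.log ((2 * P : ℕ) : ℝ) := by
        apply Real.log_le_log (by linarith)
        push_cast
        linarith
      have h5 := ih (2 * P) Q (by omega) h.le (by
        calc Q ≤ 2 ^ (k + 1) * P := hQ
          _ = 2 ^ k * (2 * P) := by ring) (h3.trans (pow_le_pow_left₀ hl.le h6 W))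
      rw [Sd_split D P (2 * P) Q (by omega) h.le]
      calc |Sd D P (2 * P) + Sd D (2 * P) Q| ≤ |Sd D P (2 * P)| + |Sd D (2 * P) Q| := abs_add_le _ _
        _ ≤ 1 / Real.log P ^ V + k / Real.log ((2 * P : ℕ) : ℝ) ^ V := add_le_add h4 h5
        _ ≤ 1 / Real.log P ^ V + k / Real.log P ^ V := by gcongr
        _ = _ := by
            push_cast
            ring

lemma clog_le (Y : ℕ) (h3 : 3 ≤ Y) (h6 : 3 ≤ Real.log Y) : (Nat.clog 2 Y : ℝ) ≤ 3 * Real.log Y := by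
  have h1 : 2 ^ (Nat.clog 2 Y - 1) < Y :=
    Nat.pow_pred_clog_lt_self (by norm_num) (by omega)
  have h2 : ((Nat.clog 2 Y - 1 : ℕ) : ℝ) * Real.log 2 ≤ Real.log Y := by
    rw [← Real.log_pow]
    apply Real.log_le_log (by positivity)
    exact_mod_cast h1.le
  have h3 : (Nat.clog 2 Y : ℝ) ≤ ((Nat.clog 2 Y - 1 : ℕ) : ℝ) + 1 := by
    have : Nat.clog 2 Y ≤ (Nat.clog 2 Y - 1) + 1 := by omega
    exact_mod_cast this
  have h4 : 0.69 < Real.log 2 := by linarith [Real.log_two_gt_d9]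
  have h5 : ((Nat.clog 2 Y - 1 : ℕ) : ℝ) * 0.69 ≤ ((Nat.clog 2 Y - 1 : ℕ) : ℝ) * Real.log 2 :=
    mul_le_mul_of_nonneg_left h4.le (Nat.cast_nonneg _)
  linarith

/-- the densities of the quadratic polynomials are regular, uniformly -/
theorem merU (W : ℕ) (ε₁ υ η : ℝ) (hε : 0 < ε₁) (hυ : υ ≤ 1) (hη : 0 < η) : ∀ᶠ Y : ℕ in atTop,
    ∀ A B C : ℤ, A ≠ 0 → ((2 * A).natAbs : ℝ) + 1 ≤ (Y : ℝ) ^ ε₁ → ¬ IsSquare (B ^ 2 - 4 * A * C) →
      |((B ^ 2 - 4 * A * C : ℤ) : ℝ)| ≤ Real.log Y ^ W →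
      Mer (pr Y ε₁ υ) (tt Y) (gp (Fq A B C)) ε₁ υ η := by
  classical
  obtain ⟨N1, hN1⟩ := Pool.Agent.W378.DC.MP ε₁ (η / 3) hε (by linarith)
  obtain ⟨P0, hP02, hP0⟩ := dyadU 2 (W + 1)
  have ev1 : ∀ᶠ Y : ℕ in atTop, (max (P0 : ℝ) (3 / η)) + 3 ≤ (Y : ℝ) ^ ε₁ :=
    ((tendsto_rpow_atTop hε).comp tendsto_natCast_atTop_atTop).eventually_ge_atTop _
  have ev2 : ∀ᶠ Y : ℕ in atTop, 36 / (ε₁ ^ 2 * η) + 3 ≤ Real.log Y :=
    (Real.tendsto_log_atTop.comp tendsto_natCast_atTop_atTop).eventually_ge_atTop _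
  have ev2' : ∀ᶠ Y : ℕ in atTop, 4 / (ε₁ / 2) ^ (W + 1) ≤ Real.log Y :=
    (Real.tendsto_log_atTop.comp tendsto_natCast_atTop_atTop).eventually_ge_atTop _
  have ev3 : ∀ᶠ Y : ℕ in atTop, 2 ≤ (Y : ℝ) ^ (ε₁ / 2) :=
    ((tendsto_rpow_atTop (by linarith)).comp tendsto_natCast_atTop_atTop).eventually_ge_atTop _
  filter_upwards [ev1, ev2, ev2', ev3, eventually_ge_atTop 3, eventually_ge_atTop N1] with
    Y e1 e2 e2' e3 e4 hYN1
  intro A' B' C' hA hA2 hsq hdisc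
  obtain ⟨D, hDd⟩ : ∃ D, D = B' ^ 2 - 4 * A' * C' := ⟨_, rfl⟩
  have hYr : (3 : ℝ) ≤ Y := by exact_mod_cast e4
  have hY0 : (0 : ℝ) < Y := by linarith
  have hY1r : (1 : ℝ) < Y := by linarith
  intro u v hu huv hv
  have hv1 : v ≤ 1 := hv.trans hυ
  have hset : (pr Y ε₁ υ).filter (fun p => u ≤ tt Y p ∧ tt Y p < v) = pr Y u v := by
    ext p
    unfold pr
    rw [mem_filter, mem_filter, mem_filter]
    constructor
    · rintro ⟨⟨h1, h2, h3, h4⟩, h5, h6⟩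
      exact ⟨h1, h2, h5, h6⟩
    · rintro ⟨h1, h2, h5, h6⟩
      exact ⟨⟨h1, h2, hu.trans h5, h6.trans_le hv⟩, h5, h6⟩
  rw [hset]
  have m1 := hN1 Y hYN1 u v hu huv hv1
  have hmono : (Y : ℝ) ^ u ≤ (Y : ℝ) ^ v := Real.rpow_le_rpow_of_exponent_le hY1r.le huv
  have hu' : (Y : ℝ) ^ ε₁ ≤ (Y : ℝ) ^ u := Real.rpow_le_rpow_of_exponent_le hY1r.le hu
  rw [pr_eq (by omega) hv1] at m1 ⊢
  have hYv : (Y : ℝ) ^ v ≤ Y := by
    calc (Y : ℝ) ^ v ≤ (Y : ℝ) ^ (1 : ℝ) := Real.rpow_le_rpow_of_exponent_le hY1r.le hv1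
      _ = Y := Real.rpow_one _
  have hAB : ⌈(Y : ℝ) ^ u⌉₊ - 1 ≤ ⌈(Y : ℝ) ^ v⌉₊ - 1 := Nat.sub_le_sub_right (Nat.ceil_mono hmono) 1
  have hBY : ⌈(Y : ℝ) ^ v⌉₊ - 1 ≤ Y := by
    have : ⌈(Y : ℝ) ^ v⌉₊ ≤ Y := Nat.ceil_le.2 hYv
    omega
  have hAl : (Y : ℝ) ^ ε₁ - 1 ≤ ((⌈(Y : ℝ) ^ u⌉₊ - 1 : ℕ) : ℝ) := by
    have h1 := Nat.le_ceil ((Y : ℝ) ^ u)
    have h2 : 1 ≤ ⌈(Y : ℝ) ^ u⌉₊ := Nat.ceil_pos.2 (by positivity)
    rw [Nat.cast_sub h2]
    push_cast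
    linarith
  have hmemA : ∀ p : ℕ, ⌈(Y : ℝ) ^ u⌉₊ - 1 < p → (Y : ℝ) ^ ε₁ ≤ p := by
    intro p hp
    have h1 : ⌈(Y : ℝ) ^ u⌉₊ ≤ p := by omega
    exact hu'.trans (Nat.ceil_le.1 h1)
  set A := ⌈(Y : ℝ) ^ u⌉₊ - 1 with hAA
  set B := ⌈(Y : ℝ) ^ v⌉₊ - 1 with hB
  have hAmax : max (P0 : ℝ) (3 / η) + 2 ≤ A := by linarith
  have hAP : P0 ≤ A := by
    have : (P0 : ℝ) ≤ A := by linarith [le_max_left (P0 : ℝ) (3 / η)]
    exact_mod_cast this
  have hAη : 3 / η ≤ A := by linarith [le_max_right (P0 : ℝ) (3 / η)]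
  have hA2' : 3 ≤ A := hP02.trans hAP
  have hA2r : (3 : ℝ) ≤ A := by exact_mod_cast hA2'
  have m2 := shift_prime (A := A) (B := B) (by omega) hAB
  rw [Finset.sum_sub_distrib] at m2
  have hne2 : ∀ p ∈ (Ioc A B).filter Nat.Prime, p ≠ 2 := by
    intro p hp
    rw [mem_filter, mem_Ioc] at hp
    omega
  have hsum : ∑ p ∈ (Ioc A B).filter Nat.Prime, gp (Fq A' B' C') p =
      ∑ p ∈ (Ioc A B).filter Nat.Prime, 1 / (p : ℝ) + Sd D A B := by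
    have h1 : (Ioc A B).filter (fun p : ℕ => p.Prime ∧ p ≠ 2) = (Ioc A B).filter Nat.Prime := by
      apply filter_congr
      intro p hp
      rw [mem_Ioc] at hp
      constructor
      · exact fun h => h.1
      · exact fun h => ⟨h, by omega⟩
    unfold Sd
    rw [h1, ← sum_add_distrib]
    apply sum_congr rfl
    intro p hp
    have hpp := (mem_filter.1 hp).2
    have h2 := ro_quad (-(B' ^ 2 - 4 * A' * C')) p hpp (hne2 p hp)
    have hpd : ¬ (p : ℤ) ∣ 2 * A' := by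
      intro hd
      have h4 : p ∣ (2 * A').natAbs := Int.natCast_dvd.1 hd
      have h5 := Nat.le_of_dvd (Int.natAbs_pos.2 (mul_ne_zero (by norm_num) hA)) h4
      have h6 : (p : ℝ) ≤ ((2 * A').natAbs : ℝ) := by exact_mod_cast h5
      have h7 := hmemA p (mem_Ioc.1 (mem_filter.1 hp).1).1
      linarith
    rw [neg_neg] at h2
    unfold gp
    rw [nuB_quad A' B' C' p hpp hpd]
    have h3 : (ro (QF (-(B' ^ 2 - 4 * A' * C'))) 0 p : ℝ) = 1 + (jacobiSym (B' ^ 2 - 4 * A' * C') p : ℝ) := by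
      exact_mod_cast h2
    rw [h3, hDd]
    ring
  rw [hsum]
  -- dyadic
  have hk : B ≤ 2 ^ (Nat.clog 2 Y) * A := by
    calc B ≤ Y := hBY
      _ ≤ 2 ^ (Nat.clog 2 Y) := Nat.le_pow_clog (by norm_num) Y
      _ ≤ 2 ^ (Nat.clog 2 Y) * A := Nat.le_mul_of_pos_right _ (by omega)
  have hlY : 0 < Real.log Y := Real.log_pos hY1r
  have hlogA : ε₁ / 2 * Real.log Y ≤ Real.log A := by
    rw [← Real.log_rpow hY0]
    apply Real.log_le_log (by positivity)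
    have h1 : (Y : ℝ) ^ ε₁ = (Y : ℝ) ^ (ε₁ / 2) * (Y : ℝ) ^ (ε₁ / 2) := by
      rw [← Real.rpow_add hY0]
      congr 1
      ring
    nlinarith
  have hlA : 0 < Real.log A := lt_of_lt_of_le (by positivity) hlogA
  have hD4 : 4 * |(D : ℝ)| ≤ Real.log A ^ (W + 1) := by
    have a1 : (ε₁ / 2 * Real.log Y) ^ (W + 1) ≤ Real.log A ^ (W + 1) :=
      pow_le_pow_left₀ (by positivity) hlogA _
    refine le_trans ?_ a1
    rw [hDd]
    have a2 : 4 ≤ Real.log Y * (ε₁ / 2) ^ (W + 1) := by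
      rw [div_le_iff₀ (by positivity)] at e2'
      exact e2'
    calc 4 * |((B' ^ 2 - 4 * A' * C' : ℤ) : ℝ)| ≤ 4 * Real.log Y ^ W := by linarith
      _ ≤ (Real.log Y * (ε₁ / 2) ^ (W + 1)) * Real.log Y ^ W :=
          mul_le_mul_of_nonneg_right a2 (by positivity)
      _ = _ := by ring
  have m3 := hP0 D (by rw [hDd]; exact hsq) (Nat.clog 2 Y) A B hAP hAB hk hD4
  have hclog : (Nat.clog 2 Y : ℝ) ≤ 3 * Real.log Y := clog_le Y e4 (by
    have : 0 < 36 / (ε₁ ^ 2 * η) := by positivity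
    linarith)
  have m4 : |Sd D A B| ≤ η / 3 := by
    refine m3.trans ?_
    rw [div_le_iff₀ (by positivity)]
    have h1 : (ε₁ / 2 * Real.log Y) ^ 2 ≤ Real.log A ^ 2 :=
      pow_le_pow_left₀ (by positivity) hlogA 2
    have h2 : 36 / (ε₁ ^ 2 * η) ≤ Real.log Y := by linarith
    rw [div_le_iff₀ (by positivity)] at h2
    calc (Nat.clog 2 Y : ℝ) ≤ 3 * Real.log Y := hclog
      _ = 36 * Real.log Y / 12 := by ring
      _ ≤ (Real.log Y * (ε₁ ^ 2 * η)) * Real.log Y / 12 := by gcongr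
      _ = η / 3 * (ε₁ / 2 * Real.log Y) ^ 2 := by ring
      _ ≤ _ := by gcongr
  have m5 : 1 / (A : ℝ) ≤ η / 3 := by
    rw [div_le_iff₀ (by linarith)]
    rw [div_le_iff₀ hη] at hAη
    linarith
  obtain ⟨a1, a2⟩ := abs_le.1 m1
  obtain ⟨a3, a4⟩ := abs_le.1 m4
  rw [abs_le]
  constructor <;> linarith [m2.1, m2.2]

end Pool.Agent.L0h41.QN
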