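import Pool.Agent.L0h41.QN.G
import Pool.Agent.Helper256.KM.Mertens

set_option autoImplicit false

/-!
# Uniform lower bounds for the densities of quadratic polynomials
-/

namespace Pool.Agent.L0h41.QN

open Finset Filter
open Pool.Agent.W123.RP Pool.Agent.H373R2.T7 Pool.Agent.W123.RU Pool.Agent.TH464.PO Pool.Agent.TH464.PW
open Pool.Agent.W23.DC Pool.Agent.Y882 Pool.Agent.Y882.KW Pool.Agent.Y882.SI Pool.Agent.Y882.PX
open Pool.Agent.L0h41.LW
open Pool.Agent.H300R2.EC (Sd)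

lemma pz_eq (y : ℕ) : pz y = (Icc 1 y).filter Nat.Prime := by
  ext p
  rw [mem_pz, mem_filter, mem_Icc]
  constructor
  · rintro ⟨h1, h2⟩
    exact ⟨⟨h2.one_lt.le, h1⟩, h2⟩
  · rintro ⟨⟨_, h1⟩, h2⟩
    exact ⟨h1, h2⟩

lemma sum_sq_pz (y : ℕ) : ∑ p ∈ pz y, (1 / (p : ℝ) ^ 2) ≤ 2 := by
  calc ∑ p ∈ pz y, (1 / (p : ℝ) ^ 2) ≤ ∑ p ∈ Icc 1 (y + 1), (1 / (p : ℝ) ^ 2) := by
        apply sum_le_sum_of_subset_of_nonneg
        · intro p hp
          rw [mem_pz] at hp
          rw [mem_Icc]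
          exact ⟨hp.2.one_lt.le, by omega⟩
        · intro p _ _
          positivity
    _ ≤ 2 := by
        have h4 : ∀ n : ℕ, 1 ≤ n → ∑ p ∈ Icc 1 n, (1 / (p : ℝ) ^ 2) ≤ 2 - 1 / (n : ℝ) := by
          intro n hn
          induction n, hn using Nat.le_induction with
          | base => norm_num
          | succ n hn ih =>
            rw [sum_Icc_succ_top (by omega)]
            have hn0 : (0 : ℝ) < n := by exact_mod_cast hn
            have h5 : 1 / (((n + 1 : ℕ) : ℝ)) ^ 2 ≤ 1 / (n : ℝ) - 1 / ((n + 1 : ℕ) : ℝ) := by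
              push_cast
              rw [div_sub_div _ _ hn0.ne' (by positivity),
                div_le_div_iff₀ (by positivity) (by positivity)]
              nlinarith
            linarith
        have h5 := h4 (y + 1) (by omega)
        have : (0 : ℝ) < 1 / ((y + 1 : ℕ) : ℝ) := by positivity
        linarith

lemma exp_low {x : ℝ} (hx0 : 0 ≤ x) (hx : x ≤ 2 / 3) : Real.exp (-x - 3 * x ^ 2) ≤ 1 - x := by
  have h1x : 0 < 1 - x := by linarith
  rw [← Real.le_log_iff_exp_le h1x]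
  have h3 := Real.one_sub_inv_le_log_of_pos h1x
  refine le_trans ?_ h3
  have h4 : 1 - (1 - x)⁻¹ = - (x / (1 - x)) := by
    field_simp
    ring
  rw [h4]
  have h5 : x / (1 - x) ≤ x + 3 * x ^ 2 := by
    rw [div_le_iff₀ h1x]
    nlinarith [mul_nonneg (mul_nonneg hx0 hx0) (show 0 ≤ 2 - 3 * x by linarith)]
  linarith

open Classical in
/-- the number of the roots -/
lemma nuB_jac (A B C : ℤ) (p : ℕ) (hp : p.Prime) (h2 : p ≠ 2) (hpd : ¬ (p : ℤ) ∣ 2 * A) :
    (nuB (DQ (Fq A B C)) p : ℝ) = 1 + (jacobiSym (B ^ 2 - 4 * A * C) p : ℝ) := by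
  have h3 := ro_quad (-(B ^ 2 - 4 * A * C)) p hp h2
  rw [neg_neg] at h3
  rw [nuB_quad A B C p hp hpd]
  exact_mod_cast h3

lemma jac_le (D : ℤ) (p : ℕ) : (jacobiSym D p : ℝ) ≤ 1 ∧ -1 ≤ (jacobiSym D p : ℝ) := by
  rcases jacobiSym.trichotomy D p with h | h | h <;> rw [h] <;> norm_num

/-- the density from below -/
theorem vq_base (A B C : ℤ) (w y z : ℕ) (hw : 2 ≤ w) (hz : w ≤ z)
    (h0 : ∀ p : ℕ, p.Prime → p ≤ w → nuB (DQ (Fq A B C)) p = 0)
    (hA : ∀ p : ℕ, p.Prime → w < p → ¬ (p : ℤ) ∣ 2 * A) :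
    Real.exp (-(∑ p ∈ pz y, 1 / (p : ℝ)) - (∑ p ∈ pz z, 1 / (p : ℝ)) - |Sd (B ^ 2 - 4 * A * C) z (max z y)| - 24) ≤
      Vq (DQ (Fq A B C)) y := by
  obtain ⟨D, hD⟩ : ∃ D, D = B ^ 2 - 4 * A * C := ⟨_, rfl⟩
  rw [← hD]
  have hb : ∀ p ∈ pz y, Real.exp (-((nuB (DQ (Fq A B C)) p : ℝ) / p) - 12 * (1 / (p : ℝ) ^ 2)) ≤
      1 - (nuB (DQ (Fq A B C)) p : ℝ) / p := by
    intro p hp
    have hpp := (mem_pz.1 hp).2
    have hp0 : (0 : ℝ) < p := by exact_mod_cast hpp.pos
    by_cases hpw : p ≤ w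
    · rw [h0 p hpp hpw]
      simp only [Nat.cast_zero, zero_div, neg_zero, sub_zero, zero_sub]
      rw [Real.exp_le_one_iff]
      have : 0 ≤ 1 / (p : ℝ) ^ 2 := by positivity
      linarith
    · have hp3 : (3 : ℝ) ≤ p := by exact_mod_cast (by omega : 3 ≤ p)
      have h2 : (nuB (DQ (Fq A B C)) p : ℝ) ≤ 2 := by
        rw [nuB_jac A B C p hpp (by omega) (hA p hpp (by omega))]
        linarith [(jac_le (B ^ 2 - 4 * A * C) p).1]
      have hν0 : (0 : ℝ) ≤ nuB (DQ (Fq A B C)) p := Nat.cast_nonneg _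
      have hx0 : 0 ≤ (nuB (DQ (Fq A B C)) p : ℝ) / p := by positivity
      have hx : (nuB (DQ (Fq A B C)) p : ℝ) / p ≤ 2 / 3 := by
        rw [div_le_iff₀ hp0]
        linarith
      refine le_trans ?_ (exp_low hx0 hx)
      apply Real.exp_le_exp.2
      have hx2 : ((nuB (DQ (Fq A B C)) p : ℝ) / p) ^ 2 ≤ 4 * (1 / (p : ℝ) ^ 2) := by
        rw [div_pow, mul_one_div]
        apply div_le_div_of_nonneg_right _ (by positivity)
        nlinarith
      linarith
  have hsum : ∑ p ∈ pz y, (nuB (DQ (Fq A B C)) p : ℝ) / p ≤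
      (∑ p ∈ pz y, 1 / (p : ℝ)) + (∑ p ∈ pz z, 1 / (p : ℝ)) + |Sd D z (max z y)| := by
    have h1 : ∀ p ∈ pz y, (nuB (DQ (Fq A B C)) p : ℝ) / p ≤
        1 / (p : ℝ) + ((if p ≤ z then 1 / (p : ℝ) else 0) + (if z < p then (jacobiSym D p : ℝ) / p else 0)) := by
      intro p hp
      have hpp := (mem_pz.1 hp).2
      have hp0 : (0 : ℝ) < p := by exact_mod_cast hpp.pos
      by_cases hpz : p ≤ z
      · rw [if_pos hpz, if_neg (by omega), add_zero, ← add_div]
        apply div_le_div_of_nonneg_right _ hp0.le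
        by_cases hpw : p ≤ w
        · rw [h0 p hpp hpw]
          norm_num
        · rw [nuB_jac A B C p hpp (by omega) (hA p hpp (by omega))]
          linarith [(jac_le (B ^ 2 - 4 * A * C) p).1]
      · rw [if_neg hpz, if_pos (by omega), zero_add, ← add_div,
          nuB_jac A B C p hpp (by omega) (hA p hpp (by omega)), hD]
    refine (sum_le_sum h1).trans ?_
    rw [sum_add_distrib, sum_add_distrib, add_assoc]
    apply add_le_add le_rfl
    apply add_le_add
    · rw [← sum_filter]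
      apply sum_le_sum_of_subset_of_nonneg
      · intro p hp
        rw [mem_filter, mem_pz] at hp
        exact mem_pz.2 ⟨hp.2, hp.1.2⟩
      · intro p _ _
        positivity
    · rw [← sum_filter]
      refine le_trans (le_of_eq ?_) (le_abs_self _)
      unfold Sd
      apply sum_congr
      · ext p
        simp only [mem_filter, mem_Ioc, mem_pz]
        constructor
        · rintro ⟨⟨a1, a2⟩, a3⟩
          exact ⟨⟨a3, a1.trans (le_max_right _ _)⟩, a2, by omega⟩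
        · rintro ⟨⟨a1, a2⟩, a3, a4⟩
          refine ⟨⟨?_, a3⟩, a1⟩
          rcases le_total z y with h | h
          · rwa [max_eq_right h] at a2
          · rw [max_eq_left h] at a2
            omega
      · intro p _
        rfl
  unfold Vq
  calc Real.exp (-(∑ p ∈ pz y, 1 / (p : ℝ)) - (∑ p ∈ pz z, 1 / (p : ℝ)) - |Sd D z (max z y)| - 24)
      ≤ Real.exp (∑ p ∈ pz y, (-((nuB (DQ (Fq A B C)) p : ℝ) / p) - 12 * (1 / (p : ℝ) ^ 2))) := by
        apply Real.exp_le_exp.2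
        rw [sum_sub_distrib, sum_neg_distrib, ← mul_sum]
        have := sum_sq_pz y
        linarith
    _ = ∏ p ∈ pz y, Real.exp (-((nuB (DQ (Fq A B C)) p : ℝ) / p) - 12 * (1 / (p : ℝ) ^ 2)) := Real.exp_sum _ _
    _ ≤ _ := Finset.prod_le_prod (fun _ _ => (Real.exp_pos _).le) hb

/-- the density from below, uniformly -/
theorem vq_lowU (W : ℕ) (κ : ℝ) (hκ : 0 < κ) : ∀ᶠ X : ℕ in atTop, ∀ (A B C : ℤ) (w y : ℕ), 2 ≤ w →
    (w : ℝ) ≤ Real.log X → y ≤ X →
    (∀ p : ℕ, p.Prime → p ≤ w → nuB (DQ (Fq A B C)) p = 0) → (∀ p : ℕ, p.Prime → w < p → ¬ (p : ℤ) ∣ 2 * A) →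
    ¬ IsSquare (B ^ 2 - 4 * A * C) → |((B ^ 2 - 4 * A * C : ℤ) : ℝ)| ≤ Real.log X ^ W →
    1 / Real.log X ^ (1 + κ) ≤ Vq (DQ (Fq A B C)) y := by
  obtain ⟨k, hk⟩ : ∃ k, k = κ / 2 := ⟨_, rfl⟩
  have hk0 : 0 < k := by rw [hk]; positivity
  obtain ⟨V, hV⟩ := exists_nat_ge (2 / k)
  obtain ⟨W', hW'⟩ := exists_nat_ge ((W + 1) / k)
  obtain ⟨P0, hP3, hP0⟩ := dyadU V W'
  obtain ⟨Cm, hCm⟩ := Pool.Agent.Helper256.KM.mertens_inv
  have tl : Tendsto (fun X : ℕ => Real.log (X : ℝ)) atTop atTop :=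
    Real.tendsto_log_atTop.comp tendsto_natCast_atTop_atTop
  have tl2 : Tendsto (fun X : ℕ => Real.log (Real.log (X : ℝ))) atTop atTop := Real.tendsto_log_atTop.comp tl
  have tk : Tendsto (fun X : ℕ => Real.log (X : ℝ) ^ k) atTop atTop := (tendsto_rpow_atTop hk0).comp tl
  have te : Tendsto (fun X : ℕ => Real.exp (Real.log (X : ℝ) ^ k)) atTop atTop := Real.tendsto_exp_atTop.comp tk
  -- `exp (log X ^ k) ≥ log X`
  have ev4 : ∀ᶠ X : ℕ in atTop, Real.log (Real.log (X : ℝ)) ≤ Real.log (X : ℝ) ^ k := by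
    have h1 := (isLittleO_log_rpow_atTop hk0).bound one_pos
    have h2 := tl.eventually h1
    filter_upwards [h2, tl2.eventually_ge_atTop 0, tl.eventually_ge_atTop 1] with X h3 h4 h5
    rw [one_mul, Real.norm_of_nonneg h4, Real.norm_of_nonneg (by positivity)] at h3
    exact h3
  filter_upwards [tl.eventually_ge_atTop 8, tl2.eventually_ge_atTop ((2 * |Cm| + 26) / k),
    tk.eventually_ge_atTop 1, te.eventually_ge_atTop (P0 : ℝ), ev4, eventually_ge_atTop 3] with X e1 e2 e3 e5 e4 e6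
  intro A B C w y hw hwX hyX h0 hA hsq hdisc
  obtain ⟨z, hz⟩ : ∃ z : ℕ, z = ⌈Real.exp (Real.log (X : ℝ) ^ k)⌉₊ := ⟨_, rfl⟩
  have hlX0 : 0 < Real.log X := by linarith
  have hze : Real.exp (Real.log (X : ℝ) ^ k) ≤ z := by rw [hz]; exact Nat.le_ceil _
  have hzP : P0 ≤ z := by exact_mod_cast e5.trans hze
  have hz3 : 3 ≤ z := hP3.trans hzP
  have hz3r : (3 : ℝ) ≤ z := by exact_mod_cast hz3
  have hlz : Real.log (X : ℝ) ^ k ≤ Real.log z := by
    rw [Real.le_log_iff_exp_le (by linarith)]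
    exact hze
  have hlz0 : 0 < Real.log z := by linarith
  have hzu : (z : ℝ) ≤ 2 * Real.exp (Real.log (X : ℝ) ^ k) := by
    have h1 : (z : ℝ) < Real.exp (Real.log (X : ℝ) ^ k) + 1 := by
      rw [hz]
      exact Nat.ceil_lt_add_one (Real.exp_pos _).le
    have h2 : 1 ≤ Real.exp (Real.log (X : ℝ) ^ k) := Real.one_le_exp (by linarith)
    linarith
  have hlzu : Real.log z ≤ 2 * Real.log (X : ℝ) ^ k := by
    have h1 : Real.log z ≤ Real.log (2 * Real.exp (Real.log (X : ℝ) ^ k)) := Real.log_le_log (by linarith) hzu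
    rw [Real.log_mul (by norm_num) (Real.exp_pos _).ne', Real.log_exp] at h1
    have := Real.log_two_lt_d9
    linarith
  have hllz : Real.log (Real.log z) ≤ k * Real.log (Real.log X) + 1 := by
    have h1 : Real.log (Real.log z) ≤ Real.log (2 * Real.log (X : ℝ) ^ k) := Real.log_le_log hlz0 hlzu
    rw [Real.log_mul (by norm_num) (by positivity), Real.log_rpow hlX0] at h1
    have := Real.log_two_lt_d9
    linarith
  have hwz : w ≤ z := by
    have h1 : Real.log X ≤ Real.exp (Real.log (X : ℝ) ^ k) := by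
      rw [← Real.log_le_iff_le_exp hlX0]
      exact e4
    exact_mod_cast hwX.trans (h1.trans hze)
  refine le_trans ?_ (vq_base A B C w y z hw hwz h0 hA)
  obtain ⟨D, hD⟩ : ∃ D, D = B ^ 2 - 4 * A * C := ⟨_, rfl⟩
  rw [← hD] at hsq hdisc ⊢
  have hkV : 2 ≤ k * V := by
    rw [div_le_iff₀ hk0] at hV
    linarith
  have hkW : (W : ℝ) + 1 ≤ k * W' := by
    rw [div_le_iff₀ hk0] at hW'
    linarith
  have hlX1 : 1 ≤ Real.log X := by linarith
  have hpV : Real.log X ^ 2 ≤ Real.log z ^ V := by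
    calc Real.log X ^ 2 = Real.log X ^ ((2 : ℕ) : ℝ) := (Real.rpow_natCast _ _).symm
      _ ≤ Real.log X ^ (k * V) := Real.rpow_le_rpow_of_exponent_le hlX1 (by exact_mod_cast hkV)
      _ = (Real.log X ^ k) ^ V := by rw [Real.rpow_mul hlX0.le, Real.rpow_natCast]
      _ ≤ Real.log z ^ V := pow_le_pow_left₀ (by positivity) hlz V
  have hpW : Real.log X ^ (W + 1) ≤ Real.log z ^ W' := by
    calc Real.log X ^ (W + 1) = Real.log X ^ ((W + 1 : ℕ) : ℝ) := (Real.rpow_natCast _ _).symm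
      _ ≤ Real.log X ^ (k * W') := Real.rpow_le_rpow_of_exponent_le hlX1 (by push_cast; exact hkW)
      _ = (Real.log X ^ k) ^ W' := by rw [Real.rpow_mul hlX0.le, Real.rpow_natCast]
      _ ≤ Real.log z ^ W' := pow_le_pow_left₀ (by positivity) hlz W'
  have hSd : |Sd D z (max z y)| ≤ 1 := by
    rcases le_total z y with h | h
    · rw [max_eq_right h]
      have h1 := hP0 D hsq (Nat.clog 2 X) z y hzP h (by
        calc y ≤ X := hyX
          _ ≤ 2 ^ (Nat.clog 2 X) := Nat.le_pow_clog (by norm_num) X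
          _ ≤ 2 ^ (Nat.clog 2 X) * z := Nat.le_mul_of_pos_right _ (by omega)) (by
        refine le_trans ?_ hpW
        calc 4 * |(D : ℝ)| ≤ 4 * Real.log X ^ W := by linarith
          _ ≤ Real.log X * Real.log X ^ W := mul_le_mul_of_nonneg_right (by linarith) (by positivity)
          _ = _ := by ring)
      refine h1.trans ?_
      rw [div_le_one (by positivity)]
      have h2 := clog_le X (by omega) (by linarith)
      nlinarith
    · rw [max_eq_left h]
      unfold Sd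
      simp
  have hM1 : ∑ p ∈ pz y, 1 / (p : ℝ) ≤ Real.log (Real.log X) + |Cm| := by
    have h1 := (abs_le.1 (hCm X e6)).2
    rw [← pz_eq] at h1
    have h2 : ∑ p ∈ pz y, 1 / (p : ℝ) ≤ ∑ p ∈ pz X, 1 / (p : ℝ) := by
      apply sum_le_sum_of_subset_of_nonneg
      · intro p hp
        rw [mem_pz] at hp ⊢
        exact ⟨hp.1.trans hyX, hp.2⟩
      · intro p _ _
        positivity
    have := le_abs_self Cm
    linarith
  have hM2 : ∑ p ∈ pz z, 1 / (p : ℝ) ≤ Real.log (Real.log z) + |Cm| := by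
    have h1 := (abs_le.1 (hCm z hz3)).2
    rw [← pz_eq] at h1
    have := le_abs_self Cm
    linarith
  have e2' : 2 * |Cm| + 26 ≤ k * Real.log (Real.log X) := by
    rw [div_le_iff₀ hk0] at e2
    linarith
  calc 1 / Real.log X ^ (1 + κ) = Real.exp (-((1 + κ) * Real.log (Real.log X))) := by
        rw [Real.rpow_def_of_pos hlX0, Real.exp_neg, one_div, mul_comm]
    _ ≤ _ := by
        apply Real.exp_le_exp.2
        have hκ2 : κ = 2 * k := by rw [hk]; ring
        rw [hκ2]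
        linarith

end Pool.Agent.L0h41.QN
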