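import Pool.Agent.L0h41.QN.G2
import Pool.Agent.L0h41.QN.H

set_option autoImplicit false

/-!
# Families of quadratic polynomials with a common leading coefficient: one class
-/

namespace Pool.Agent.L0h41.QN

open Finset Filter
open Pool.Agent.W123.RP Pool.Agent.H373R2.T7 Pool.Agent.W123.RU Pool.Agent.TH464.PO Pool.Agent.TH464.PW
open Pool.Agent.W23.DC Pool.Agent.Y882 Pool.Agent.Y882.KW Pool.Agent.Y882.SI Pool.Agent.Y882.PX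
open Pool.Agent.Y879.AP
open Pool.Agent.L0h41.LW
open Pool.Agent.R490.LGb (Wp Wp_pos dvd_Wp not_dvd_Wp)

/-- the members of the family -/
def FQ (a : ℤ) (b c : ℕ → ℤ) (j : ℕ) : ℕ → ℕ := Fq a (b j) (c j)

/-- the members in a class -/
def FC (a : ℤ) (b c : ℕ → ℤ) (W n0 j : ℕ) : ℕ → ℕ :=
  Fq (a * (W : ℤ) ^ 2) (W * (2 * a * n0 + b j)) (a * (n0 : ℤ) ^ 2 + b j * n0 + c j)

lemma FC_eq (a : ℤ) (b c : ℕ → ℤ) (W n0 j m : ℕ) : FC a b c W n0 j m = FQ a b c j (n0 + W * m) := by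
  unfold FC FQ Fq
  congr 1
  push_cast
  ring

lemma FC_disc (a : ℤ) (b c : ℕ → ℤ) (W n0 j : ℕ) :
    ((W : ℤ) * (2 * a * n0 + b j)) ^ 2 - 4 * (a * (W : ℤ) ^ 2) * (a * (n0 : ℤ) ^ 2 + b j * n0 + c j) =
      (W : ℤ) ^ 2 * (b j ^ 2 - 4 * a * c j) := by ring

lemma nsq_mul (W D : ℤ) (hW : W ≠ 0) (hD : ¬ IsSquare D) : ¬ IsSquare (W ^ 2 * D) := by
  rintro ⟨e, he⟩
  have h1 : W ^ 2 ∣ e ^ 2 := ⟨D, by rw [sq e, ← he]⟩
  have h2 : W ∣ e := (Int.pow_dvd_pow_iff (by norm_num)).1 h1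
  obtain ⟨f, rfl⟩ := h2
  apply hD
  refine ⟨f, ?_⟩
  have h3 : W ^ 2 * D = W ^ 2 * (f * f) := by rw [he]; ring
  exact mul_left_cancel₀ (pow_ne_zero 2 hW) h3

/-- the resultant -/
def Rq (a : ℤ) (b c : ℕ → ℤ) (j j' : ℕ) : ℤ :=
  a * (c j' - c j) ^ 2 - b j * (b j' - b j) * (c j' - c j) + c j * (b j' - b j) ^ 2

lemma common_Rq (a : ℤ) (b c : ℕ → ℤ) (j j' n p : ℕ) (h : p ∣ FQ a b c j n) (h' : p ∣ FQ a b c j' n) :
    (p : ℤ) ∣ Rq a b c j j' := by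
  have e1 : (p : ℤ) ∣ a * (n : ℤ) ^ 2 + b j * n + c j := (DQ_iff a (b j) (c j) p n).1 h
  have e2 : (p : ℤ) ∣ a * (n : ℤ) ^ 2 + b j' * n + c j' := (DQ_iff a (b j') (c j') p n).1 h'
  obtain ⟨u, hu⟩ := e1
  obtain ⟨v, hv⟩ := e2
  refine ⟨(b j' - b j) ^ 2 * u - (v - u) * (a * ((b j' - b j) * n - (c j' - c j)) + b j * (b j' - b j)), ?_⟩
  unfold Rq
  linear_combination ((b j' - b j) ^ 2 + (a * ((b j' - b j) * n - (c j' - c j)) + b j * (b j' - b j))) * hu -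
    (a * ((b j' - b j) * n - (c j' - c j)) + b j * (b j' - b j)) * hv

/-- equal members -/
def same (b c : ℕ → ℤ) (j j' : ℕ) : Prop := b j = b j' ∧ c j = c j'

lemma Rq_ne (a : ℤ) (b c : ℕ → ℤ) (j j' : ℕ) (ha : a ≠ 0) (hd : ¬ IsSquare (b j ^ 2 - 4 * a * c j))
    (hs : ¬ same b c j j') : Rq a b c j j' ≠ 0 := by
  intro h
  obtain ⟨β, hβ⟩ : ∃ β, β = b j' - b j := ⟨_, rfl⟩
  obtain ⟨γ, hγ⟩ : ∃ γ, γ = c j' - c j := ⟨_, rfl⟩
  unfold Rq at h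
  rw [← hβ, ← hγ] at h
  by_cases hb0 : β = 0
  · rw [hb0] at h
    have h1 : a * γ ^ 2 = 0 := by linarith
    have h2 : γ = 0 := by
      rcases mul_eq_zero.1 h1 with h3 | h3
      · exact absurd h3 ha
      · exact pow_eq_zero_iff (by norm_num) |>.1 h3
    exact hs ⟨by linarith, by linarith⟩
  · apply nsq_mul β (b j ^ 2 - 4 * a * c j) hb0 hd
    refine ⟨2 * a * γ - b j * β, ?_⟩
    linear_combination (-4 * a) * h

/-- the data of a family -/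
structure DatQ (a : ℤ) (b c : ℕ → ℤ) (G : ℕ → Prop) (D0 d : ℕ) : Prop where
  a0 : a ≠ 0
  szb : ∀ j, 1 ≤ j → (b j).natAbs ≤ (j + 1) ^ D0
  szc : ∀ j, 1 ≤ j → (c j).natAbs ≤ (j + 1) ^ D0
  disc : ∀ j, 1 ≤ j → G j → ¬ IsSquare (b j ^ 2 - 4 * a * c j)
  mult : ∀ K j, 1 ≤ j → j ≤ K → G j → ∀ S : Finset ℕ, (∀ j' ∈ S, 1 ≤ j' ∧ j' ≤ K ∧ G j' ∧ same b c j j') →
    S.card ≤ d

variable {a : ℤ} {b c : ℕ → ℤ} {G : ℕ → Prop} {D0 d : ℕ}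

lemma DatQ.szb' (h : DatQ a b c G D0 d) {K j : ℕ} (hj : j ∈ Icc 1 K) : (b j).natAbs ≤ (K + 1) ^ D0 :=
  (h.szb j (mem_Icc.1 hj).1).trans (Nat.pow_le_pow_left (by have := (mem_Icc.1 hj).2; omega) _)

lemma DatQ.szc' (h : DatQ a b c G D0 d) {K j : ℕ} (hj : j ∈ Icc 1 K) : (c j).natAbs ≤ (K + 1) ^ D0 :=
  (h.szc j (mem_Icc.1 hj).1).trans (Nat.pow_le_pow_left (by have := (mem_Icc.1 hj).2; omega) _)

lemma Rq_le (h : DatQ a b c G D0 d) {K j j' : ℕ} (hj : j ∈ Icc 1 K) (hj' : j' ∈ Icc 1 K) :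
    (Rq a b c j j').natAbs ≤ (4 * a.natAbs + 8) * (K + 1) ^ (3 * D0) := by
  have h1 := h.szb' hj
  have h2 := h.szb' hj'
  have h3 := h.szc' hj
  have h4 := h.szc' hj'
  obtain ⟨M, hM⟩ : ∃ M, M = (K + 1) ^ D0 := ⟨_, rfl⟩
  have hM1 : 1 ≤ M := by rw [hM]; exact Nat.one_le_pow _ _ (by omega)
  have hM3 : (K + 1) ^ (3 * D0) = M ^ 3 := by rw [hM, ← pow_mul, mul_comm]
  rw [hM3]
  rw [← hM] at h1 h2 h3 h4
  have hβ : (b j' - b j).natAbs ≤ 2 * M := by have := Int.natAbs_sub_le (b j') (b j); omega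
  have hγ : (c j' - c j).natAbs ≤ 2 * M := by have := Int.natAbs_sub_le (c j') (c j); omega
  unfold Rq
  refine (Int.natAbs_add_le _ _).trans ?_
  have g1 := Int.natAbs_sub_le (a * (c j' - c j) ^ 2) (b j * (b j' - b j) * (c j' - c j))
  rw [Int.natAbs_mul, Int.natAbs_pow, Int.natAbs_mul, Int.natAbs_mul] at g1
  rw [Int.natAbs_mul (c j), Int.natAbs_pow]
  have g2 : a.natAbs * (c j' - c j).natAbs ^ 2 ≤ a.natAbs * (2 * M) ^ 2 :=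
    Nat.mul_le_mul_left _ (Nat.pow_le_pow_left hγ 2)
  have g3 : (b j).natAbs * (b j' - b j).natAbs * (c j' - c j).natAbs ≤ M * (2 * M) * (2 * M) :=
    Nat.mul_le_mul (Nat.mul_le_mul h1 hβ) hγ
  have g4 : (c j).natAbs * (b j' - b j).natAbs ^ 2 ≤ M * (2 * M) ^ 2 :=
    Nat.mul_le_mul h3 (Nat.pow_le_pow_left hβ 2)
  have g5 : a.natAbs * (2 * M) ^ 2 ≤ 4 * a.natAbs * M ^ 3 := by
    have : M ^ 2 ≤ M ^ 3 := Nat.pow_le_pow_right hM1 (by norm_num)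
    calc a.natAbs * (2 * M) ^ 2 = 4 * a.natAbs * M ^ 2 := by ring
      _ ≤ 4 * a.natAbs * M ^ 3 := Nat.mul_le_mul_left _ this
  have e : (4 * a.natAbs + 8) * M ^ 3 = 4 * a.natAbs * M ^ 3 + M * (2 * M) * (2 * M) + M * (2 * M) ^ 2 := by ring
  rw [e]
  omega

/-- a common prime divisor -/
def Ev2 (a : ℤ) (b c : ℕ → ℤ) (j j' p : ℕ) : Prop := ∃ n : ℕ, p ∣ FQ a b c j n ∧ p ∣ FQ a b c j' n

lemma Ev2_le (h : DatQ a b c G D0 d) {K j j' : ℕ} (hj : j ∈ Icc 1 K) (hj' : j' ∈ Icc 1 K) (hG : G j)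
    (hs : ¬ same b c j j') (p : ℕ) (hE : Ev2 a b c j j' p) : p ≤ (4 * a.natAbs + 8) * (K + 1) ^ (3 * D0) := by
  obtain ⟨n, h1, h2⟩ := hE
  have h3 : p ∣ (Rq a b c j j').natAbs := Int.natCast_dvd.1 (common_Rq a b c j j' n p h1 h2)
  have h4 := Rq_ne a b c j j' h.a0 (h.disc j (mem_Icc.1 hj).1 hG) hs
  exact (Nat.le_of_dvd (Int.natAbs_pos.2 h4) h3).trans (Rq_le h hj hj')

open Classical in
/-- the members without a small fixed divisor -/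
noncomputable def JQ (a : ℤ) (b c : ℕ → ℤ) (G : ℕ → Prop) (w K n : ℕ) : Finset ℕ :=
  (Icc 1 K).filter (fun j => G j ∧ ∀ p : ℕ, p.Prime → p ≤ w → ¬ p ∣ FQ a b c j n)

lemma perF (a b c : ℤ) (p n n' : ℕ) (h : n ≡ n' [MOD p]) : p ∣ Fq a b c n ↔ p ∣ Fq a b c n' := by
  have h1 := DQ_iff a b c p n
  have h2 := DQ_iff a b c p n'
  unfold DQ at h1 h2
  rw [h1, h2]
  have h3 : (n : ℤ) ≡ n' [ZMOD p] := Int.natCast_modEq_iff.2 h
  have h4 : a * (n : ℤ) ^ 2 + b * n + c ≡ a * (n' : ℤ) ^ 2 + b * n' + c [ZMOD p] :=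
    (((h3.pow 2).mul_left a).add (h3.mul_left b)).add_right c
  exact h4.dvd_iff

lemma JQ_congr (a : ℤ) (b c : ℕ → ℤ) (G : ℕ → Prop) (w K n n' : ℕ) (h : n ≡ n' [MOD Wp w]) :
    JQ a b c G w K n = JQ a b c G w K n' := by
  classical
  unfold JQ
  apply filter_congr
  intro j _
  apply and_congr_right
  intro _
  apply forall_congr'
  intro p
  apply imp_congr_right
  intro hp
  apply imp_congr_right
  intro hw
  apply not_congr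
  exact perF _ _ _ p n n' (h.of_dvd (dvd_Wp hp hw))

open Classical in
/-- the excess of a pair -/
noncomputable def exQ (a : ℤ) (b c : ℕ → ℤ) (G : ℕ → Prop) (w y j j' : ℕ) : ℝ :=
  if same b c j j' ∨ ¬ G j ∨ ¬ G j' then 0 else tE w y (Ev2 a b c j j') ^ 3 - 1

lemma exQ_nonneg (a : ℤ) (b c : ℕ → ℤ) (G : ℕ → Prop) (w y j j' : ℕ) : 0 ≤ exQ a b c G w y j j' := by
  unfold exQ
  split_ifs
  · exact le_rfl
  · have := one_le_pow₀ (one_le_tE w y (Ev2 a b c j j')) (n := 3)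
    linarith

/-! ### The local conditions in a class -/

lemma nuB_zero (F : ℕ → ℕ) (p : ℕ) (h : ∀ m, ¬ p ∣ F m) : nuB (DQ F) p = 0 := by
  classical
  unfold nuB
  rw [card_eq_zero, filter_eq_empty_iff]
  intro m _
  exact h m

lemma cls_zero (w K n0 j : ℕ) (hj : j ∈ JQ a b c G w K n0) (p : ℕ) (hp : p.Prime) (hpw : p ≤ w) :
    nuB (DQ (FC a b c (Wp w) n0 j)) p = 0 := by
  classical
  apply nuB_zero
  intro m hd
  rw [FC_eq] at hd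
  have h1 : n0 + Wp w * m ≡ n0 [MOD p] := by
    have h2 : Wp w * m ≡ 0 [MOD p] := Nat.modEq_zero_iff_dvd.2 ((dvd_Wp hp hpw).mul_right m)
    simpa using h2.add_left n0
  have h3 := (perF a (b j) (c j) p _ _ h1).1 hd
  exact (mem_filter.1 hj).2.2 p hp hpw h3

lemma cls_lead (a : ℤ) (w : ℕ) (ha : a ≠ 0) (hwa : (2 * a).natAbs ≤ w) (p : ℕ) (hp : p.Prime) (hpw : w < p) :
    ¬ (p : ℤ) ∣ 2 * (a * (Wp w : ℤ) ^ 2) := by
  intro hd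
  have e : 2 * (a * (Wp w : ℤ) ^ 2) = (2 * a) * (Wp w : ℤ) ^ 2 := by ring
  rw [e] at hd
  have hpZ := Nat.prime_iff_prime_int.1 hp
  rcases hpZ.dvd_or_dvd hd with h | h
  · have h1 : p ∣ (2 * a).natAbs := Int.natCast_dvd.1 h
    have h2 := Nat.le_of_dvd (Int.natAbs_pos.2 (mul_ne_zero (by norm_num) ha)) h1
    omega
  · have h1 : (p : ℤ) ∣ (Wp w : ℤ) := hpZ.dvd_of_dvd_pow h
    exact not_dvd_Wp (w := w) hp hpw (by exact_mod_cast h1)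

lemma cls_two (a : ℤ) (b c : ℕ → ℤ) (w n0 j : ℕ) (ha : a ≠ 0) (hw : 2 ≤ w) (hwa : (2 * a).natAbs ≤ w) (p : ℕ)
    (hp : p.Prime) (hpw : w < p) : nuB (DQ (FC a b c (Wp w) n0 j)) p ≤ 2 := by
  unfold FC
  have h := nuB_jac (a * (Wp w : ℤ) ^ 2) (Wp w * (2 * a * n0 + b j)) (a * (n0 : ℤ) ^ 2 + b j * n0 + c j) p hp
    (by omega) (cls_lead a w ha hwa p hp hpw)
  have h2 := (jac_le ((↑(Wp w) * (2 * a * ↑n0 + b j)) ^ 2 - 4 * (a * ↑(Wp w) ^ 2) * (a * ↑n0 ^ 2 + b j * ↑n0 + c j)) p).1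
  have h3 : (nuB (DQ (Fq (a * (Wp w : ℤ) ^ 2) (Wp w * (2 * a * n0 + b j)) (a * (n0 : ℤ) ^ 2 + b j * n0 + c j))) p : ℝ)
      ≤ 2 := by
    rw [h]
    linarith
  exact_mod_cast h3

lemma cls_per (w K n0 j : ℕ) (ha : a ≠ 0) (hw : 2 ≤ w) (hwa : (2 * a).natAbs ≤ w)
    (hj : j ∈ JQ a b c G w K n0) : PerB (DQ (FC a b c (Wp w) n0 j)) 2 := by
  refine ⟨fun p n => ?_, fun p hp => ?_⟩
  · exact perF _ _ _ p n (n % p) (Nat.mod_modEq n p).symm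
  · by_cases hpw : p ≤ w
    · rw [cls_zero w K n0 j hj p hp hpw]
      omega
    · exact cls_two a b c w n0 j ha hw hwa p hp (by omega)

end Pool.Agent.L0h41.QN
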