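import Pool.Agent.L0h41.QN.J

set_option autoImplicit false

/-!
# Families of quadratic polynomials with a common leading coefficient: all classes
-/

namespace Pool.Agent.L0h41.QN

open Finset Filter
open Pool.Agent.W123.RP Pool.Agent.H373R2.T7 Pool.Agent.W123.RU Pool.Agent.TH464.PO Pool.Agent.TH464.PW
open Pool.Agent.W23.DC Pool.Agent.Y882 Pool.Agent.Y882.KW Pool.Agent.Y882.SI Pool.Agent.Y882.PX
open Pool.Agent.Y879.AP
open Pool.Agent.L0h41.LW
open Pool.Agent.R490.LGb (Wp Wp_pos dvd_Wp not_dvd_Wp)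

variable {a : ℤ} {b c : ℕ → ℤ} {G : ℕ → Prop} {D0 d : ℕ}

open Classical in
/-- the number of the almost primes -/
noncomputable def cntQ (a : ℤ) (b c : ℕ → ℤ) (G : ℕ → Prop) (R K n : ℕ) (v : ℝ) : ℕ :=
  ((Icc 1 K).filter (fun j => G j ∧ 2 ≤ FQ a b c j n ∧ (FQ a b c j n).primeFactorsList.length ≤ R ∧
    ∀ p : ℕ, p.Prime → p ∣ FQ a b c j n → v ≤ p)).card

/-- large values -/
lemma big (h : DatQ a b c G D0 d) (K j n : ℕ) (hj : j ∈ Icc 1 K) (hn : (K + 1) ^ D0 + 3 ≤ n) :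
    2 ≤ FQ a b c j n := by
  have h1 := h.szb' hj
  have h3 := h.szc' hj
  obtain ⟨M, hM⟩ : ∃ M, M = (K + 1) ^ D0 := ⟨_, rfl⟩
  rw [← hM] at h1 h3 hn
  unfold FQ Fq
  have ha : 1 ≤ a.natAbs := Int.natAbs_pos.2 h.a0
  have g1 : (a * (n : ℤ) ^ 2).natAbs ≤ (a * (n : ℤ) ^ 2 + b j * n + c j).natAbs + ((b j).natAbs * n + (c j).natAbs) := by
    have e : a * (n : ℤ) ^ 2 = (a * (n : ℤ) ^ 2 + b j * n + c j) - (b j * n + c j) := by ring
    have g2 := Int.natAbs_sub_le (a * (n : ℤ) ^ 2 + b j * n + c j) (b j * n + c j)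
    rw [← e] at g2
    have g3 := Int.natAbs_add_le (b j * n) (c j)
    rw [Int.natAbs_mul, Int.natAbs_natCast] at g3
    omega
  rw [Int.natAbs_mul, Int.natAbs_pow, Int.natAbs_natCast] at g1
  have g4 : n ^ 2 ≤ a.natAbs * n ^ 2 := Nat.le_mul_of_pos_left _ ha
  have g5 : (b j).natAbs * n ≤ M * n := Nat.mul_le_mul_right _ h1
  have g6 : M * n + 3 * n ≤ n ^ 2 := by nlinarith
  omega

open Classical in
/-- the exceptional `n` of a class -/
lemma cls_cardQ (h : DatQ a b c G D0 d) (w K n0 X R Z L : ℕ) (ζ t v l : ℝ) (hl : 0 ≤ l)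
    (hv : v ≤ (X : ℝ) ^ ζ) :
    ((Ioc Z (Z + L)).filter (fun n => n % Wp w = n0 ∧ (K + 1) ^ D0 + 3 ≤ n ∧ Wp w ≤ n ∧
      (cntQ a b c G R K n v : ℝ) * l < t)).card ≤
      ((Ioc (Z / Wp w - 1) (Z / Wp w - 1 + (L / Wp w + 2))).filter (fun m =>
        ((GC a b c G w K n0 X R m ζ).card : ℝ) * l < t)).card := by
  have hW := Wp_pos w
  apply card_le_card_of_injOn (fun n => n / Wp w)
  · intro n hn
    rw [mem_coe, mem_filter, mem_Ioc] at hn
    obtain ⟨⟨h1, h2⟩, h3, h4, h5, h6⟩ := hn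
    have hnm : n = n0 + Wp w * (n / Wp w) := by
      have := Nat.mod_add_div n (Wp w)
      omega
    beta_reduce
    rw [mem_coe, mem_filter, mem_Ioc]
    have hm1 : 1 ≤ n / Wp w := Nat.div_pos h5 hW
    have hm2 : Z / Wp w ≤ n / Wp w := Nat.div_le_div_right h1.le
    have hm3 : n / Wp w ≤ Z / Wp w + L / Wp w + 1 := by
      have g1 : n / Wp w ≤ (Z + L) / Wp w := Nat.div_le_div_right h2
      have g2 : (Z + L) / Wp w < Z / Wp w + L / Wp w + 1 + 1 := by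
        rw [Nat.div_lt_iff_lt_mul hW]
        have h8 : Z = Wp w * (Z / Wp w) + Z % Wp w := (Nat.div_add_mod _ _).symm
        have h9 : L = Wp w * (L / Wp w) + L % Wp w := (Nat.div_add_mod _ _).symm
        have h10 := Nat.mod_lt Z hW
        have h11 := Nat.mod_lt L hW
        have e : (Z / Wp w + L / Wp w + 1 + 1) * Wp w = Wp w * (Z / Wp w) + Wp w * (L / Wp w) + Wp w + Wp w := by
          ring
        rw [e]
        omega
      omega
    refine ⟨⟨by omega, by omega⟩, ?_⟩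
    refine lt_of_le_of_lt ?_ h6
    apply mul_le_mul_of_nonneg_right _ hl
    have h7 : (GC a b c G w K n0 X R (n / Wp w) ζ).card ≤ cntQ a b c G R K n v := by
      unfold GC cntQ
      apply card_le_card
      intro j hj
      rw [mem_filter] at hj ⊢
      obtain ⟨g1, g2, g3⟩ := hj
      have g4 := mem_filter.1 g1
      rw [FC_eq, ← hnm] at g2
      refine ⟨g4.1, g4.2.1, big h K j n g4.1 h4, g2, ?_⟩
      intro p hp hd
      apply hv.trans
      apply g3 p hp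
      rw [FC_eq, ← hnm]
      exact hd
    exact_mod_cast h7
  · intro n hn n' hn' hab
    rw [mem_coe, mem_filter] at hn hn'
    simp only at hab
    have e1 := Nat.mod_add_div n (Wp w)
    have e2 := Nat.mod_add_div n' (Wp w)
    rw [hn.2.1, hab] at e1
    rw [hn'.2.1] at e2
    omega

open Classical in
/-- the sum over the classes -/
lemma all_classesQ (Adm : ℕ → Prop) (w K R Z L n1 : ℕ) (ε t v l : ℝ) (hε : 0 < ε)
    (hn1 : (n1 : ℝ) ≤ ε * L) (hn1K : (K + 1) ^ D0 + 3 ≤ n1) (hn1W : 2 * Wp w ≤ n1) (hε1 : ε ≤ 1)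
    (h : ∀ n0 < Wp w, (((Ioc Z (Z + L)).filter (fun n => Adm n ∧ n % Wp w = n0 ∧ (K + 1) ^ D0 + 3 ≤ n ∧ Wp w ≤ n ∧
      (cntQ a b c G R K n v : ℝ) * l < t)).card : ℝ) ≤ ε * ((L / Wp w + 2 : ℕ) : ℝ)) :
    (((Ioc Z (Z + L)).filter (fun n => Adm n ∧ (cntQ a b c G R K n v : ℝ) * l < t)).card : ℝ) ≤ 3 * ε * L := by
  have hW := Wp_pos w
  have hsub : (Ioc Z (Z + L)).filter (fun n => Adm n ∧ (cntQ a b c G R K n v : ℝ) * l < t) ⊆
      Ioc 0 n1 ∪ (range (Wp w)).biUnion (fun n0 => (Ioc Z (Z + L)).filter (fun n =>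
        Adm n ∧ n % Wp w = n0 ∧ (K + 1) ^ D0 + 3 ≤ n ∧ Wp w ≤ n ∧ (cntQ a b c G R K n v : ℝ) * l < t)) := by
    intro n hn
    rw [mem_filter, mem_Ioc] at hn
    obtain ⟨⟨h1, h2⟩, h3, h4⟩ := hn
    rw [mem_union]
    by_cases hc : n ≤ n1
    · left
      rw [mem_Ioc]
      omega
    · right
      rw [mem_biUnion]
      refine ⟨n % Wp w, mem_range.2 (Nat.mod_lt n hW), ?_⟩
      rw [mem_filter, mem_Ioc]
      exact ⟨⟨h1, h2⟩, h3, rfl, by omega, by omega, h4⟩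
  have h1 : (((Ioc Z (Z + L)).filter (fun n => Adm n ∧ (cntQ a b c G R K n v : ℝ) * l < t)).card : ℝ) ≤
      n1 + ∑ n0 ∈ range (Wp w), ε * ((L / Wp w + 2 : ℕ) : ℝ) := by
    have a1 := (card_le_card hsub).trans ((card_union_le _ _).trans (Nat.add_le_add_left card_biUnion_le _))
    rw [Nat.card_Ioc, Nat.sub_zero] at a1
    have a2 : (((Ioc Z (Z + L)).filter (fun n => Adm n ∧ (cntQ a b c G R K n v : ℝ) * l < t)).card : ℝ) ≤
        n1 + ∑ n0 ∈ range (Wp w), (((Ioc Z (Z + L)).filter (fun n =>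
        Adm n ∧ n % Wp w = n0 ∧ (K + 1) ^ D0 + 3 ≤ n ∧ Wp w ≤ n ∧ (cntQ a b c G R K n v : ℝ) * l < t)).card : ℝ) := by
      exact_mod_cast a1
    refine a2.trans ?_
    apply add_le_add le_rfl
    exact sum_le_sum fun a ha => h a (mem_range.1 ha)
  rw [sum_const, card_range, nsmul_eq_mul] at h1
  have h2 : (Wp w : ℝ) * ((L / Wp w + 2 : ℕ) : ℝ) ≤ L + 2 * Wp w := by
    have : Wp w * (L / Wp w + 2) ≤ L + 2 * Wp w := by
      have := Nat.mul_div_le L (Wp w)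
      rw [mul_add]
      omega
    exact_mod_cast this
  have h3 : 2 * (Wp w : ℝ) ≤ n1 := by exact_mod_cast hn1W
  have hL0 : (0 : ℝ) ≤ L := Nat.cast_nonneg _
  have h4 : ε * (L : ℝ) ≤ L := mul_le_of_le_one_left hL0 hε1
  have h5 : (Wp w : ℝ) * (ε * ((L / Wp w + 2 : ℕ) : ℝ)) ≤ ε * (L + L) := by
    have e : (Wp w : ℝ) * (ε * ((L / Wp w + 2 : ℕ) : ℝ)) = ε * ((Wp w : ℝ) * ((L / Wp w + 2 : ℕ) : ℝ)) := by ring
    rw [e]
    apply mul_le_mul_of_nonneg_left _ hε.le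
    linarith
  linarith

end Pool.Agent.L0h41.QN
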