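import Pool.Agent.L0h41.QN.K2

set_option autoImplicit false

/-!
# Families of quadratic polynomials: the resultants, the local conditions
-/

namespace Pool.Agent.L0h41.QN

open Finset Filter
open Pool.Agent.W123.RP Pool.Agent.H373R2.T7 Pool.Agent.W123.RU Pool.Agent.TH464.PO Pool.Agent.TH464.PW
open Pool.Agent.W23.DC Pool.Agent.Y882 Pool.Agent.Y882.KW Pool.Agent.Y882.SI Pool.Agent.Y882.PX
open Pool.Agent.Y879.AP
open Pool.Agent.L0h41.LW
open Pool.Agent.H300R2.EC (Sd)
open Pool.Agent.R490.LGb (Wp Wp_pos dvd_Wp not_dvd_Wp)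

/-! ### The number of the roots -/

/-- the number of the roots of a quadratic polynomial without content -/
theorem nuB_leq (A B C : ℤ) (p : ℕ) (hp : p.Prime) (h2 : p ≠ 2)
    (hc : ¬ ((p : ℤ) ∣ A ∧ (p : ℤ) ∣ B ∧ (p : ℤ) ∣ C)) :
    (nuB (DQ (Fq A B C)) p : ℝ) ≤ 1 + (jacobiSym (B ^ 2 - 4 * A * C) p : ℝ) := by
  classical
  have hpZ := Nat.prime_iff_prime_int.1 hp
  by_cases hpA : (p : ℤ) ∣ A
  · by_cases hpB : (p : ℤ) ∣ B
    · have hpC : ¬ (p : ℤ) ∣ C := fun h => hc ⟨hpA, hpB, h⟩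
      have h0 : nuB (DQ (Fq A B C)) p = 0 := by
        apply nuB_zero
        intro m hd
        have h1 : (p : ℤ) ∣ A * (m : ℤ) ^ 2 + B * m + C := (DQ_iff A B C p m).1 hd
        have h3 : (p : ℤ) ∣ A * (m : ℤ) ^ 2 + B * m := dvd_add (hpA.mul_right _) (hpB.mul_right _)
        exact hpC ((dvd_add_right h3).1 h1)
      rw [h0]
      have := (jac_le (B ^ 2 - 4 * A * C) p).2
      push_cast
      linarith
    · -- linear modulo `p`
      have h1 : nuB (DQ (Fq A B C)) p ≤ 1 := by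
        unfold nuB
        rw [card_le_one]
        intro r hr s hs
        rw [mem_filter, mem_range, DQ_iff] at hr hs
        have h3 : (p : ℤ) ∣ ((r : ℤ) - s) * (A * (r + s) + B) := by
          have h4 := dvd_sub hr.2 hs.2
          have e : A * (r : ℤ) ^ 2 + B * r + C - (A * (s : ℤ) ^ 2 + B * s + C) = ((r : ℤ) - s) * (A * (r + s) + B) := by
            ring
          rwa [e] at h4
        rcases hpZ.dvd_or_dvd h3 with h4 | h4
        · have h5 : (s : ℤ) ≡ r [ZMOD p] := Int.modEq_iff_dvd.2 h4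
          have h6 : s ≡ r [MOD p] := Int.natCast_modEq_iff.1 h5
          have h7 := Nat.ModEq.eq_of_lt_of_lt h6 hs.1 hr.1
          exact h7.symm
        · exfalso
          exact hpB ((dvd_add_right (hpA.mul_right _)).1 h4)
      have h3 : jacobiSym (B ^ 2 - 4 * A * C) p = 1 := by
        have h4 : B ^ 2 - 4 * A * C ≡ B ^ 2 [ZMOD p] := by
          rw [Int.modEq_iff_dvd]
          have e : B ^ 2 - (B ^ 2 - 4 * A * C) = A * (4 * C) := by ring
          rw [e]
          exact hpA.mul_right _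
        rw [jacobiSym.mod_left' h4]
        apply jacobiSym.sq_one'
        rw [Int.gcd_comm]
        apply Int.isCoprime_iff_gcd_eq_one.1
        exact (Prime.coprime_iff_not_dvd hpZ).2 hpB
      rw [h3]
      have h4 : (nuB (DQ (Fq A B C)) p : ℝ) ≤ 1 := by exact_mod_cast h1
      push_cast
      linarith
  · rw [nuB_jac A B C p hp h2]
    intro h3
    rcases hpZ.dvd_or_dvd h3 with h4 | h4
    · have h5 : p ∣ 2 := by exact_mod_cast h4
      exact h2 ((Nat.prime_dvd_prime_iff_eq hp Nat.prime_two).1 h5)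
    · exact hpA h4

/-- the density from below -/
theorem vq_base3 (A B C : ℤ) (w y z : ℕ) (hw : 2 ≤ w) (hz : w ≤ z)
    (h0 : ∀ p : ℕ, p.Prime → p ≤ w → nuB (DQ (Fq A B C)) p = 0)
    (hA : ∀ p : ℕ, p.Prime → w < p → (nuB (DQ (Fq A B C)) p : ℝ) ≤ 1 + (jacobiSym (B ^ 2 - 4 * A * C) p : ℝ)) :
    Real.exp (-(∑ p ∈ pz y, 1 / (p : ℝ)) - (∑ p ∈ pz z, 1 / (p : ℝ)) - |Sd (B ^ 2 - 4 * A * C) z (max z y)| - 24) ≤
      Vq (DQ (Fq A B C)) y := by
  obtain ⟨D, hD⟩ : ∃ D, D = B ^ 2 - 4 * A * C := ⟨_, rfl⟩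
  rw [← hD] at hA ⊢
  have hb : ∀ p ∈ pz y, Real.exp (-((nuB (DQ (Fq A B C)) p : ℝ) / p) - 12 * (1 / (p : ℝ) ^ 2)) ≤
      1 - (nuB (DQ (Fq A B C)) p : ℝ) / p := by
    intro p hp
    have hpp := (mem_pz.1 hp).2
    have hp0 : (0 : ℝ) < p := by exact_mod_cast hpp.pos
    by_cases hpw : p ≤ w
    · rw [h0 p hpp hpw]
      simp only [Nat.cast_zero, zero_div, neg_zero, sub_zero, zero_sub]
      rw [Real.exp_le_one_iff]
      have : 0 ≤ 1 / (p : ℝ) ^ 2 := by positivity
      linarith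
    · have hp3 : (3 : ℝ) ≤ p := by exact_mod_cast (by omega : 3 ≤ p)
      have h2 : (nuB (DQ (Fq A B C)) p : ℝ) ≤ 2 := by
        have := hA p hpp (by omega)
        linarith [(jac_le D p).1]
      have hν0 : (0 : ℝ) ≤ nuB (DQ (Fq A B C)) p := Nat.cast_nonneg _
      have hx0 : 0 ≤ (nuB (DQ (Fq A B C)) p : ℝ) / p := by positivity
      have hx : (nuB (DQ (Fq A B C)) p : ℝ) / p ≤ 2 / 3 := by
        rw [div_le_iff₀ hp0]
        linarith
      refine le_trans ?_ (exp_low hx0 hx)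
      apply Real.exp_le_exp.2
      have hx2 : ((nuB (DQ (Fq A B C)) p : ℝ) / p) ^ 2 ≤ 4 * (1 / (p : ℝ) ^ 2) := by
        rw [div_pow, mul_one_div]
        apply div_le_div_of_nonneg_right _ (by positivity)
        nlinarith
      linarith
  have hsum : ∑ p ∈ pz y, (nuB (DQ (Fq A B C)) p : ℝ) / p ≤
      (∑ p ∈ pz y, 1 / (p : ℝ)) + (∑ p ∈ pz z, 1 / (p : ℝ)) + |Sd D z (max z y)| := by
    have h1 : ∀ p ∈ pz y, (nuB (DQ (Fq A B C)) p : ℝ) / p ≤
        1 / (p : ℝ) + ((if p ≤ z then 1 / (p : ℝ) else 0) + (if z < p then (jacobiSym D p : ℝ) / p else 0)) := by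
      intro p hp
      have hpp := (mem_pz.1 hp).2
      have hp0 : (0 : ℝ) < p := by exact_mod_cast hpp.pos
      by_cases hpz : p ≤ z
      · rw [if_pos hpz, if_neg (by omega), add_zero, ← add_div]
        apply div_le_div_of_nonneg_right _ hp0.le
        by_cases hpw : p ≤ w
        · rw [h0 p hpp hpw]
          norm_num
        · have := hA p hpp (by omega)
          linarith [(jac_le D p).1]
      · rw [if_neg hpz, if_pos (by omega), zero_add, ← add_div]
        exact div_le_div_of_nonneg_right (hA p hpp (by omega)) hp0.le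
    refine (sum_le_sum h1).trans ?_
    rw [sum_add_distrib, sum_add_distrib, add_assoc]
    apply add_le_add le_rfl
    apply add_le_add
    · rw [← sum_filter]
      apply sum_le_sum_of_subset_of_nonneg
      · intro p hp
        rw [mem_filter, mem_pz] at hp
        exact mem_pz.2 ⟨hp.2, hp.1.2⟩
      · intro p _ _
        positivity
    · rw [← sum_filter]
      refine le_trans (le_of_eq ?_) (le_abs_self _)
      unfold Sd
      apply sum_congr
      · ext p
        simp only [mem_filter, mem_Ioc, mem_pz]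
        constructor
        · rintro ⟨⟨a1, a2⟩, a3⟩
          exact ⟨⟨a3, a1.trans (le_max_right _ _)⟩, a2, by omega⟩
        · rintro ⟨⟨a1, a2⟩, a3, a4⟩
          refine ⟨⟨?_, a3⟩, a1⟩
          rcases le_total z y with h | h
          · rwa [max_eq_right h] at a2
          · rw [max_eq_left h] at a2
            omega
      · intro p _
        rfl
  unfold Vq
  calc Real.exp (-(∑ p ∈ pz y, 1 / (p : ℝ)) - (∑ p ∈ pz z, 1 / (p : ℝ)) - |Sd D z (max z y)| - 24)
      ≤ Real.exp (∑ p ∈ pz y, (-((nuB (DQ (Fq A B C)) p : ℝ) / p) - 12 * (1 / (p : ℝ) ^ 2))) := by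
        apply Real.exp_le_exp.2
        rw [sum_sub_distrib, sum_neg_distrib, ← mul_sum]
        have := sum_sq_pz y
        linarith
    _ = ∏ p ∈ pz y, Real.exp (-((nuB (DQ (Fq A B C)) p : ℝ) / p) - 12 * (1 / (p : ℝ) ^ 2)) := Real.exp_sum _ _
    _ ≤ _ := Finset.prod_le_prod (fun _ _ => (Real.exp_pos _).le) hb

/-- the density from below, uniformly -/
theorem vq_lowU3 (W : ℕ) (κ : ℝ) (hκ : 0 < κ) : ∀ᶠ X : ℕ in atTop, ∀ (A B C : ℤ) (w y : ℕ), 2 ≤ w →
    (w : ℝ) ≤ Real.log X → y ≤ X →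
    (∀ p : ℕ, p.Prime → p ≤ w → nuB (DQ (Fq A B C)) p = 0) →
    (∀ p : ℕ, p.Prime → w < p → (nuB (DQ (Fq A B C)) p : ℝ) ≤ 1 + (jacobiSym (B ^ 2 - 4 * A * C) p : ℝ)) →
    ¬ IsSquare (B ^ 2 - 4 * A * C) → |((B ^ 2 - 4 * A * C : ℤ) : ℝ)| ≤ Real.log X ^ W →
    1 / Real.log X ^ (1 + κ) ≤ Vq (DQ (Fq A B C)) y := by
  obtain ⟨k, hk⟩ : ∃ k, k = κ / 2 := ⟨_, rfl⟩
  have hk0 : 0 < k := by rw [hk]; positivity
  obtain ⟨V, hV⟩ := exists_nat_ge (2 / k)
  obtain ⟨W', hW'⟩ := exists_nat_ge ((W + 1) / k)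
  obtain ⟨P0, hP3, hP0⟩ := dyadU V W'
  obtain ⟨Cm, hCm⟩ := Pool.Agent.Helper256.KM.mertens_inv
  have tl : Tendsto (fun X : ℕ => Real.log (X : ℝ)) atTop atTop :=
    Real.tendsto_log_atTop.comp tendsto_natCast_atTop_atTop
  have tl2 : Tendsto (fun X : ℕ => Real.log (Real.log (X : ℝ))) atTop atTop := Real.tendsto_log_atTop.comp tl
  have tk : Tendsto (fun X : ℕ => Real.log (X : ℝ) ^ k) atTop atTop := (tendsto_rpow_atTop hk0).comp tl
  have te : Tendsto (fun X : ℕ => Real.exp (Real.log (X : ℝ) ^ k)) atTop atTop := Real.tendsto_exp_atTop.comp tk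
  -- `exp (log X ^ k) ≥ log X`
  have ev4 : ∀ᶠ X : ℕ in atTop, Real.log (Real.log (X : ℝ)) ≤ Real.log (X : ℝ) ^ k := by
    have h1 := (isLittleO_log_rpow_atTop hk0).bound one_pos
    have h2 := tl.eventually h1
    filter_upwards [h2, tl2.eventually_ge_atTop 0, tl.eventually_ge_atTop 1] with X h3 h4 h5
    rw [one_mul, Real.norm_of_nonneg h4, Real.norm_of_nonneg (by positivity)] at h3
    exact h3
  filter_upwards [tl.eventually_ge_atTop 8, tl2.eventually_ge_atTop ((2 * |Cm| + 26) / k),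
    tk.eventually_ge_atTop 1, te.eventually_ge_atTop (P0 : ℝ), ev4, eventually_ge_atTop 3] with X e1 e2 e3 e5 e4 e6
  intro A B C w y hw hwX hyX h0 hA hsq hdisc
  obtain ⟨z, hz⟩ : ∃ z : ℕ, z = ⌈Real.exp (Real.log (X : ℝ) ^ k)⌉₊ := ⟨_, rfl⟩
  have hlX0 : 0 < Real.log X := by linarith
  have hze : Real.exp (Real.log (X : ℝ) ^ k) ≤ z := by rw [hz]; exact Nat.le_ceil _
  have hzP : P0 ≤ z := by exact_mod_cast e5.trans hze
  have hz3 : 3 ≤ z := hP3.trans hzP
  have hz3r : (3 : ℝ) ≤ z := by exact_mod_cast hz3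
  have hlz : Real.log (X : ℝ) ^ k ≤ Real.log z := by
    rw [Real.le_log_iff_exp_le (by linarith)]
    exact hze
  have hlz0 : 0 < Real.log z := by linarith
  have hzu : (z : ℝ) ≤ 2 * Real.exp (Real.log (X : ℝ) ^ k) := by
    have h1 : (z : ℝ) < Real.exp (Real.log (X : ℝ) ^ k) + 1 := by
      rw [hz]
      exact Nat.ceil_lt_add_one (Real.exp_pos _).le
    have h2 : 1 ≤ Real.exp (Real.log (X : ℝ) ^ k) := Real.one_le_exp (by linarith)
    linarith
  have hlzu : Real.log z ≤ 2 * Real.log (X : ℝ) ^ k := by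
    have h1 : Real.log z ≤ Real.log (2 * Real.exp (Real.log (X : ℝ) ^ k)) := Real.log_le_log (by linarith) hzu
    rw [Real.log_mul (by norm_num) (Real.exp_pos _).ne', Real.log_exp] at h1
    have := Real.log_two_lt_d9
    linarith
  have hllz : Real.log (Real.log z) ≤ k * Real.log (Real.log X) + 1 := by
    have h1 : Real.log (Real.log z) ≤ Real.log (2 * Real.log (X : ℝ) ^ k) := Real.log_le_log hlz0 hlzu
    rw [Real.log_mul (by norm_num) (by positivity), Real.log_rpow hlX0] at h1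
    have := Real.log_two_lt_d9
    linarith
  have hwz : w ≤ z := by
    have h1 : Real.log X ≤ Real.exp (Real.log (X : ℝ) ^ k) := by
      rw [← Real.log_le_iff_le_exp hlX0]
      exact e4
    exact_mod_cast hwX.trans (h1.trans hze)
  refine le_trans ?_ (vq_base3 A B C w y z hw hwz h0 hA)
  obtain ⟨D, hD⟩ : ∃ D, D = B ^ 2 - 4 * A * C := ⟨_, rfl⟩
  rw [← hD] at hsq hdisc ⊢
  have hkV : 2 ≤ k * V := by
    rw [div_le_iff₀ hk0] at hV
    linarith
  have hkW : (W : ℝ) + 1 ≤ k * W' := by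
    rw [div_le_iff₀ hk0] at hW'
    linarith
  have hlX1 : 1 ≤ Real.log X := by linarith
  have hpV : Real.log X ^ 2 ≤ Real.log z ^ V := by
    calc Real.log X ^ 2 = Real.log X ^ ((2 : ℕ) : ℝ) := (Real.rpow_natCast _ _).symm
      _ ≤ Real.log X ^ (k * V) := Real.rpow_le_rpow_of_exponent_le hlX1 (by exact_mod_cast hkV)
      _ = (Real.log X ^ k) ^ V := by rw [Real.rpow_mul hlX0.le, Real.rpow_natCast]
      _ ≤ Real.log z ^ V := pow_le_pow_left₀ (by positivity) hlz V
  have hpW : Real.log X ^ (W + 1) ≤ Real.log z ^ W' := by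
    calc Real.log X ^ (W + 1) = Real.log X ^ ((W + 1 : ℕ) : ℝ) := (Real.rpow_natCast _ _).symm
      _ ≤ Real.log X ^ (k * W') := Real.rpow_le_rpow_of_exponent_le hlX1 (by push_cast; exact hkW)
      _ = (Real.log X ^ k) ^ W' := by rw [Real.rpow_mul hlX0.le, Real.rpow_natCast]
      _ ≤ Real.log z ^ W' := pow_le_pow_left₀ (by positivity) hlz W'
  have hSd : |Sd D z (max z y)| ≤ 1 := by
    rcases le_total z y with h | h
    · rw [max_eq_right h]
      have h1 := hP0 D hsq (Nat.clog 2 X) z y hzP h (by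
        calc y ≤ X := hyX
          _ ≤ 2 ^ (Nat.clog 2 X) := Nat.le_pow_clog (by norm_num) X
          _ ≤ 2 ^ (Nat.clog 2 X) * z := Nat.le_mul_of_pos_right _ (by omega)) (by
        refine le_trans ?_ hpW
        calc 4 * |(D : ℝ)| ≤ 4 * Real.log X ^ W := by linarith
          _ ≤ Real.log X * Real.log X ^ W := mul_le_mul_of_nonneg_right (by linarith) (by positivity)
          _ = _ := by ring)
      refine h1.trans ?_
      rw [div_le_one (by positivity)]
      have h2 := clog_le X (by omega) (by linarith)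
      nlinarith
    · rw [max_eq_left h]
      unfold Sd
      simp
  have hM1 : ∑ p ∈ pz y, 1 / (p : ℝ) ≤ Real.log (Real.log X) + |Cm| := by
    have h1 := (abs_le.1 (hCm X e6)).2
    rw [← pz_eq] at h1
    have h2 : ∑ p ∈ pz y, 1 / (p : ℝ) ≤ ∑ p ∈ pz X, 1 / (p : ℝ) := by
      apply sum_le_sum_of_subset_of_nonneg
      · intro p hp
        rw [mem_pz] at hp ⊢
        exact ⟨hp.1.trans hyX, hp.2⟩
      · intro p _ _
        positivity
    have := le_abs_self Cm
    linarith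
  have hM2 : ∑ p ∈ pz z, 1 / (p : ℝ) ≤ Real.log (Real.log z) + |Cm| := by
    have h1 := (abs_le.1 (hCm z hz3)).2
    rw [← pz_eq] at h1
    have := le_abs_self Cm
    linarith
  have e2' : 2 * |Cm| + 26 ≤ k * Real.log (Real.log X) := by
    rw [div_le_iff₀ hk0] at e2
    linarith
  calc 1 / Real.log X ^ (1 + κ) = Real.exp (-((1 + κ) * Real.log (Real.log X))) := by
        rw [Real.rpow_def_of_pos hlX0, Real.exp_neg, one_div, mul_comm]
    _ ≤ _ := by
        apply Real.exp_le_exp.2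
        have hκ2 : κ = 2 * k := by rw [hk]; ring
        rw [hκ2]
        linarith

end Pool.Agent.L0h41.QN
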