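import Pool.Agent.L0h41.QN.M1

set_option autoImplicit false

/-!
# Families of quadratic polynomials: the resultants, the local conditions
-/

namespace Pool.Agent.L0h41.QN

open Finset Filter
open Pool.Agent.W123.RP Pool.Agent.H373R2.T7 Pool.Agent.W123.RU Pool.Agent.TH464.PO Pool.Agent.TH464.PW
open Pool.Agent.W23.DC Pool.Agent.Y882 Pool.Agent.Y882.KW Pool.Agent.Y882.SI Pool.Agent.Y882.PX
open Pool.Agent.Y879.AP
open Pool.Agent.L0h41.LW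
open Pool.Agent.R490.LGb (Wp Wp_pos dvd_Wp not_dvd_Wp)

/-- the members of the family -/
def FQ3 (a b c : ℕ → ℤ) (j : ℕ) : ℕ → ℕ := Fq (a j) (b j) (c j)

/-- the members in a class -/
def FC3 (a b c : ℕ → ℤ) (W n0 j : ℕ) : ℕ → ℕ :=
  Fq (a j * (W : ℤ) ^ 2) (W * (2 * a j * n0 + b j)) (a j * (n0 : ℤ) ^ 2 + b j * n0 + c j)

lemma FC3_eq (a b c : ℕ → ℤ) (W n0 j m : ℕ) : FC3 a b c W n0 j m = FQ3 a b c j (n0 + W * m) := by
  unfold FC3 FQ3 Fq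
  congr 1
  push_cast
  ring

lemma FC3_disc (a b c : ℕ → ℤ) (W n0 j : ℕ) :
    ((W : ℤ) * (2 * a j * n0 + b j)) ^ 2 - 4 * (a j * (W : ℤ) ^ 2) * (a j * (n0 : ℤ) ^ 2 + b j * n0 + c j) =
      (W : ℤ) ^ 2 * (b j ^ 2 - 4 * a j * c j) := by ring

/-- the resultant -/
def R3 (a b c : ℕ → ℤ) (j j' : ℕ) : ℤ :=
  (a j * c j' - a j' * c j) ^ 2 - (a j * b j' - a j' * b j) * (b j * c j' - b j' * c j)

lemma common_R3 (a b c : ℕ → ℤ) (j j' n p : ℕ) (h : p ∣ FQ3 a b c j n) (h' : p ∣ FQ3 a b c j' n) :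
    (p : ℤ) ∣ R3 a b c j j' := by
  have e1 : (p : ℤ) ∣ a j * (n : ℤ) ^ 2 + b j * n + c j := (DQ_iff (a j) (b j) (c j) p n).1 h
  have e2 : (p : ℤ) ∣ a j' * (n : ℤ) ^ 2 + b j' * n + c j' := (DQ_iff (a j') (b j') (c j') p n).1 h'
  have e : R3 a b c j j' =
      (a j' * (n : ℤ) ^ 2 + b j' * n + c j') * (a j * (a j * (a j' * (n : ℤ) ^ 2 + b j' * n + c j') -
        a j' * (a j * (n : ℤ) ^ 2 + b j * n + c j)) - 2 * (a j * b j' - a j' * b j) * n * a j -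
          (a j * b j' - a j' * b j) * b j) +
      (a j * (n : ℤ) ^ 2 + b j * n + c j) * (-a j' * (a j * (a j' * (n : ℤ) ^ 2 + b j' * n + c j') -
        a j' * (a j * (n : ℤ) ^ 2 + b j * n + c j)) + 2 * (a j * b j' - a j' * b j) * n * a j' +
          (a j * b j' - a j' * b j) * b j') := by
    unfold R3
    ring
  rw [e]
  exact dvd_add (e2.mul_right _) (e1.mul_right _)

/-- proportional members -/
def prop3 (a b c : ℕ → ℤ) (j j' : ℕ) : Prop := a j * b j' = a j' * b j ∧ a j * c j' = a j' * c j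

lemma a_ne (A B C : ℤ) (hd : ¬ IsSquare (B ^ 2 - 4 * A * C)) : A ≠ 0 := by
  rintro rfl
  apply hd
  exact ⟨B, by ring⟩

lemma R3_ne (a b c : ℕ → ℤ) (j j' : ℕ) (hd : ¬ IsSquare (b j ^ 2 - 4 * a j * c j))
    (hs : ¬ prop3 a b c j j') : R3 a b c j j' ≠ 0 := by
  intro h
  obtain ⟨β, hβ⟩ : ∃ β, β = a j * b j' - a j' * b j := ⟨_, rfl⟩
  obtain ⟨γ, hγ⟩ : ∃ γ, γ = a j * c j' - a j' * c j := ⟨_, rfl⟩
  obtain ⟨δ, hδ⟩ : ∃ δ, δ = b j * c j' - b j' * c j := ⟨_, rfl⟩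
  have hid : a j * δ - b j * γ + c j * β = 0 := by
    rw [hβ, hγ, hδ]
    ring
  unfold R3 at h
  rw [← hβ, ← hγ, ← hδ] at h
  by_cases hb0 : β = 0
  · rw [hb0] at h
    have h1 : γ ^ 2 = 0 := by linarith
    have h2 : γ = 0 := pow_eq_zero_iff (by norm_num) |>.1 h1
    exact hs ⟨by linarith, by linarith⟩
  · apply nsq_mul β (b j ^ 2 - 4 * a j * c j) hb0 hd
    refine ⟨2 * a j * γ - b j * β, ?_⟩
    linear_combination (-4 * a j ^ 2) * h - (4 * a j * β) * hid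

/-- the data of a family -/
structure DatQ3 (a b c : ℕ → ℤ) (G : ℕ → Prop) (D0 d w0 : ℕ) : Prop where
  sza : ∀ j, 1 ≤ j → (a j).natAbs ≤ (j + 1) ^ D0
  szb : ∀ j, 1 ≤ j → (b j).natAbs ≤ (j + 1) ^ D0
  szc : ∀ j, 1 ≤ j → (c j).natAbs ≤ (j + 1) ^ D0
  disc : ∀ j, 1 ≤ j → G j → ¬ IsSquare (b j ^ 2 - 4 * a j * c j)
  cont : ∀ j, 1 ≤ j → ∀ p : ℕ, p.Prime → w0 < p → ¬ ((p : ℤ) ∣ a j ∧ (p : ℤ) ∣ b j ∧ (p : ℤ) ∣ c j)
  mult : ∀ K j, 1 ≤ j → j ≤ K → G j → ∀ S : Finset ℕ, (∀ j' ∈ S, 1 ≤ j' ∧ j' ≤ K ∧ G j' ∧ prop3 a b c j j') →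
    S.card ≤ d

variable {a b c : ℕ → ℤ} {G : ℕ → Prop} {D0 d w0 : ℕ}

lemma DatQ3.sza' (h : DatQ3 a b c G D0 d w0) {K j : ℕ} (hj : j ∈ Icc 1 K) : (a j).natAbs ≤ (K + 1) ^ D0 :=
  (h.sza j (mem_Icc.1 hj).1).trans (Nat.pow_le_pow_left (by have := (mem_Icc.1 hj).2; omega) _)

lemma DatQ3.szb' (h : DatQ3 a b c G D0 d w0) {K j : ℕ} (hj : j ∈ Icc 1 K) : (b j).natAbs ≤ (K + 1) ^ D0 :=
  (h.szb j (mem_Icc.1 hj).1).trans (Nat.pow_le_pow_left (by have := (mem_Icc.1 hj).2; omega) _)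

lemma DatQ3.szc' (h : DatQ3 a b c G D0 d w0) {K j : ℕ} (hj : j ∈ Icc 1 K) : (c j).natAbs ≤ (K + 1) ^ D0 :=
  (h.szc j (mem_Icc.1 hj).1).trans (Nat.pow_le_pow_left (by have := (mem_Icc.1 hj).2; omega) _)

lemma cross_le (x y z t : ℤ) (M : ℕ) (hx : x.natAbs ≤ M) (hy : y.natAbs ≤ M) (hz : z.natAbs ≤ M)
    (ht : t.natAbs ≤ M) : (x * y - z * t).natAbs ≤ 2 * M ^ 2 := by
  refine (Int.natAbs_sub_le _ _).trans ?_
  rw [Int.natAbs_mul, Int.natAbs_mul]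
  have h1 := Nat.mul_le_mul hx hy
  have h2 := Nat.mul_le_mul hz ht
  have e : 2 * M ^ 2 = M * M + M * M := by ring
  omega

lemma R3_le (h : DatQ3 a b c G D0 d w0) {K j j' : ℕ} (hj : j ∈ Icc 1 K) (hj' : j' ∈ Icc 1 K) :
    (R3 a b c j j').natAbs ≤ 8 * (K + 1) ^ (4 * D0) := by
  have h1 := h.sza' hj
  have h2 := h.sza' hj'
  have h3 := h.szb' hj
  have h4 := h.szb' hj'
  have h5 := h.szc' hj
  have h6 := h.szc' hj'
  obtain ⟨M, hM⟩ : ∃ M, M = (K + 1) ^ D0 := ⟨_, rfl⟩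
  have hM4 : (K + 1) ^ (4 * D0) = M ^ 4 := by rw [hM, ← pow_mul, mul_comm]
  rw [hM4]
  rw [← hM] at h1 h2 h3 h4 h5 h6
  unfold R3
  refine (Int.natAbs_sub_le _ _).trans ?_
  rw [Int.natAbs_pow, Int.natAbs_mul (a j * b j' - a j' * b j)]
  have g1 := cross_le (a j) (c j') (a j') (c j) M h1 h6 h2 h5
  have g2 := cross_le (a j) (b j') (a j') (b j) M h1 h4 h2 h3
  have g3 := cross_le (b j) (c j') (b j') (c j) M h3 h6 h4 h5
  have g4 := Nat.pow_le_pow_left g1 2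
  have g5 := Nat.mul_le_mul g2 g3
  have e : 8 * M ^ 4 = (2 * M ^ 2) ^ 2 + 2 * M ^ 2 * (2 * M ^ 2) := by ring
  rw [e]
  omega

/-- a common prime divisor -/
def Ev3 (a b c : ℕ → ℤ) (j j' p : ℕ) : Prop := ∃ n : ℕ, p ∣ FQ3 a b c j n ∧ p ∣ FQ3 a b c j' n

lemma Ev3_le (h : DatQ3 a b c G D0 d w0) {K j j' : ℕ} (hj : j ∈ Icc 1 K) (hj' : j' ∈ Icc 1 K) (hG : G j)
    (hs : ¬ prop3 a b c j j') (p : ℕ) (hE : Ev3 a b c j j' p) : p ≤ 8 * (K + 1) ^ (4 * D0) := by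
  obtain ⟨n, h1, h2⟩ := hE
  have h3 : p ∣ (R3 a b c j j').natAbs := Int.natCast_dvd.1 (common_R3 a b c j j' n p h1 h2)
  have h4 := R3_ne a b c j j' (h.disc j (mem_Icc.1 hj).1 hG) hs
  exact (Nat.le_of_dvd (Int.natAbs_pos.2 h4) h3).trans (R3_le h hj hj')

open Classical in
/-- the members without a small fixed divisor -/
noncomputable def JQ3 (a b c : ℕ → ℤ) (G : ℕ → Prop) (w K n : ℕ) : Finset ℕ :=
  (Icc 1 K).filter (fun j => G j ∧ ∀ p : ℕ, p.Prime → p ≤ w → ¬ p ∣ FQ3 a b c j n)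

lemma JQ3_congr (a b c : ℕ → ℤ) (G : ℕ → Prop) (w K n n' : ℕ) (h : n ≡ n' [MOD Wp w]) :
    JQ3 a b c G w K n = JQ3 a b c G w K n' := by
  classical
  unfold JQ3
  apply filter_congr
  intro j _
  apply and_congr_right
  intro _
  apply forall_congr'
  intro p
  apply imp_congr_right
  intro hp
  apply imp_congr_right
  intro hw
  apply not_congr
  exact perF _ _ _ p n n' (h.of_dvd (dvd_Wp hp hw))

open Classical in
/-- the excess of a pair -/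
noncomputable def exQ3 (a b c : ℕ → ℤ) (G : ℕ → Prop) (w y j j' : ℕ) : ℝ :=
  if prop3 a b c j j' ∨ ¬ G j ∨ ¬ G j' then 0 else tE w y (Ev3 a b c j j') ^ 3 - 1

lemma exQ3_nonneg (a b c : ℕ → ℤ) (G : ℕ → Prop) (w y j j' : ℕ) : 0 ≤ exQ3 a b c G w y j j' := by
  unfold exQ3
  split_ifs
  · exact le_rfl
  · have := one_le_pow₀ (one_le_tE w y (Ev3 a b c j j')) (n := 3)
    linarith

/-! ### The local conditions in a class -/

lemma cls_zero3 (w K n0 j : ℕ) (hj : j ∈ JQ3 a b c G w K n0) (p : ℕ) (hp : p.Prime) (hpw : p ≤ w) :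
    nuB (DQ (FC3 a b c (Wp w) n0 j)) p = 0 := by
  classical
  apply nuB_zero
  intro m hd
  rw [FC3_eq] at hd
  have h1 : n0 + Wp w * m ≡ n0 [MOD p] := by
    have h2 : Wp w * m ≡ 0 [MOD p] := Nat.modEq_zero_iff_dvd.2 ((dvd_Wp hp hpw).mul_right m)
    simpa using h2.add_left n0
  have h3 := (perF (a j) (b j) (c j) p _ _ h1).1 hd
  exact (mem_filter.1 hj).2.2 p hp hpw h3

lemma cls_cont3 (h : DatQ3 a b c G D0 d w0) (w n0 j : ℕ) (hj : 1 ≤ j) (hw0 : w0 ≤ w) (p : ℕ) (hp : p.Prime)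
    (hpw : w < p) : ¬ ((p : ℤ) ∣ a j * (Wp w : ℤ) ^ 2 ∧ (p : ℤ) ∣ Wp w * (2 * a j * n0 + b j) ∧
      (p : ℤ) ∣ a j * (n0 : ℤ) ^ 2 + b j * n0 + c j) := by
  rintro ⟨h1, h2, h3⟩
  have hpZ := Nat.prime_iff_prime_int.1 hp
  have hW : ¬ (p : ℤ) ∣ (Wp w : ℤ) := by
    intro h4
    exact not_dvd_Wp (w := w) hp hpw (by exact_mod_cast h4)
  have ha : (p : ℤ) ∣ a j := by
    rcases hpZ.dvd_or_dvd h1 with h4 | h4
    · exact h4
    · exact absurd (hpZ.dvd_of_dvd_pow h4) hW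
  have hb : (p : ℤ) ∣ b j := by
    rcases hpZ.dvd_or_dvd h2 with h4 | h4
    · exact absurd h4 hW
    · have h5 : (p : ℤ) ∣ 2 * a j * n0 := (ha.mul_left 2).mul_right _
      exact (dvd_add_right h5).1 h4
  have hc : (p : ℤ) ∣ c j := by
    have h5 : (p : ℤ) ∣ a j * (n0 : ℤ) ^ 2 + b j * n0 := dvd_add (ha.mul_right _) (hb.mul_right _)
    exact (dvd_add_right h5).1 h3
  exact h.cont j hj p hp (by omega) ⟨ha, hb, hc⟩

lemma cls_leq3 (h : DatQ3 a b c G D0 d w0) (w n0 j : ℕ) (hj : 1 ≤ j) (hw : 2 ≤ w) (hw0 : w0 ≤ w) (p : ℕ)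
    (hp : p.Prime) (hpw : w < p) : (nuB (DQ (FC3 a b c (Wp w) n0 j)) p : ℝ) ≤
      1 + (jacobiSym (((Wp w : ℤ) * (2 * a j * n0 + b j)) ^ 2 -
        4 * (a j * (Wp w : ℤ) ^ 2) * (a j * (n0 : ℤ) ^ 2 + b j * n0 + c j)) p : ℝ) := by
  unfold FC3
  exact nuB_leq _ _ _ p hp (by omega) (cls_cont3 h w n0 j hj hw0 p hp hpw)

lemma cls_two3 (h : DatQ3 a b c G D0 d w0) (w n0 j : ℕ) (hj : 1 ≤ j) (hw : 2 ≤ w) (hw0 : w0 ≤ w) (p : ℕ)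
    (hp : p.Prime) (hpw : w < p) : nuB (DQ (FC3 a b c (Wp w) n0 j)) p ≤ 2 := by
  have h1 := cls_leq3 h w n0 j hj hw hw0 p hp hpw
  have h2 := (jac_le (((Wp w : ℤ) * (2 * a j * n0 + b j)) ^ 2 -
        4 * (a j * (Wp w : ℤ) ^ 2) * (a j * (n0 : ℤ) ^ 2 + b j * n0 + c j)) p).1
  have h3 : (nuB (DQ (FC3 a b c (Wp w) n0 j)) p : ℝ) ≤ 2 := by linarith
  exact_mod_cast h3

lemma cls_per3 (h : DatQ3 a b c G D0 d w0) (w K n0 j : ℕ) (hw : 2 ≤ w) (hw0 : w0 ≤ w)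
    (hj : j ∈ JQ3 a b c G w K n0) : PerB (DQ (FC3 a b c (Wp w) n0 j)) 2 := by
  classical
  refine ⟨fun p n => ?_, fun p hp => ?_⟩
  · exact perF _ _ _ p n (n % p) (Nat.mod_modEq n p).symm
  · by_cases hpw : p ≤ w
    · rw [cls_zero3 w K n0 j hj p hp hpw]
      omega
    · exact cls_two3 h w n0 j (mem_Icc.1 (mem_filter.1 hj).1).1 hw hw0 p hp (by omega)

lemma disc_le3 (h : DatQ3 a b c G D0 d w0) {K j : ℕ} (hj : j ∈ Icc 1 K) :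
    (b j ^ 2 - 4 * a j * c j).natAbs ≤ 5 * (K + 1) ^ (2 * D0) := by
  have h1 := h.sza' hj
  have h2 := h.szb' hj
  have h3 := h.szc' hj
  obtain ⟨M, hM⟩ : ∃ M, M = (K + 1) ^ D0 := ⟨_, rfl⟩
  have hM2 : (K + 1) ^ (2 * D0) = M ^ 2 := by rw [hM, ← pow_mul, mul_comm]
  rw [hM2]
  rw [← hM] at h1 h2 h3
  have g1 := Int.natAbs_sub_le (b j ^ 2) (4 * a j * c j)
  rw [Int.natAbs_pow, Int.natAbs_mul, Int.natAbs_mul] at g1
  have g2 : (b j).natAbs ^ 2 ≤ M ^ 2 := Nat.pow_le_pow_left h2 2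
  have g3 : Int.natAbs 4 * (a j).natAbs * (c j).natAbs ≤ 4 * M * M :=
    Nat.mul_le_mul (Nat.mul_le_mul_left _ h1) h3
  have e : 5 * M ^ 2 = M ^ 2 + 4 * M * M := by ring
  rw [e]
  omega

end Pool.Agent.L0h41.QN
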