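import Pool.Agent.L0h41.QN.M2

set_option autoImplicit false

/-!
# Families of quadratic polynomials: one class
-/

namespace Pool.Agent.L0h41.QN

open Finset Filter
open Pool.Agent.W123.RP Pool.Agent.H373R2.T7 Pool.Agent.W123.RU Pool.Agent.TH464.PO Pool.Agent.TH464.PW
open Pool.Agent.W23.DC Pool.Agent.Y882 Pool.Agent.Y882.KW Pool.Agent.Y882.SI Pool.Agent.Y882.PX
open Pool.Agent.Y879.AP
open Pool.Agent.L0h41.LW
open Pool.Agent.R490.LGb (Wp Wp_pos dvd_Wp not_dvd_Wp)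

variable {a b c : ℕ → ℤ} {G : ℕ → Prop} {D0 d w0 : ℕ}

open Classical in
/-- the members with an almost prime value -/
noncomputable def GC3 (a b c : ℕ → ℤ) (G : ℕ → Prop) (w K n0 X R m : ℕ) (ζ : ℝ) : Finset ℕ :=
  (JQ3 a b c G w K n0).filter (fun j => (FC3 a b c (Wp w) n0 j m).primeFactorsList.length ≤ R ∧
    ∀ p : ℕ, p.Prime → p ∣ FC3 a b c (Wp w) n0 j m → (X : ℝ) ^ ζ ≤ p)

set_option maxHeartbeats 4000000 in
open Classical in
/-- one class -/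
theorem oneCls3 (h : DatQ3 a b c G D0 d w0) (w K n0 X R Z L B r W1 y : ℕ) (ζ υ S κ0 σ ηM κ ε δ : ℝ)
    (hw : 2 ≤ w) (hw0 : w0 ≤ w)
    (hwX : (w : ℝ) ≤ Real.log X) (hyX : y ≤ X)
    (hmain : ∀ (F : ℕ → ℕ → ℕ) (α : ℕ → ℝ) (J : Finset ℕ) (bad : ℕ → ℕ → Prop),
        FamG F α J bad 2 d y →
        (∀ j ∈ J, Mer (pr X (1 / (r : ℝ)) υ) (tt X) (gp (F j)) (1 / (r : ℝ)) υ ηM) →
        (∀ j ∈ J, ∀ n ∈ Ioc Z (Z + L), 1 ≤ F j n ∧ ((F j n : ℕ) : ℝ) ≤ (X : ℝ) ^ S) →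
        (∀ j ∈ J, ∀ p : ℕ, p.Prime → y < p →
          (((Ioc Z (Z + L)).filter (fun n => p ^ 2 ∣ F j n)).card : ℝ) ≤
            (2 : ℕ) * ((L : ℝ) / (p : ℝ) ^ 2 + 1)) →
        (J.card : ℝ) ≤ Real.log X ^ B →
        0 < V1G F α J y →
        ∑ j ∈ J, α j ≤ Real.log X ^ B * V1G F α J y →
        V2G F α J bad y ≤ (1 + min ε 1 / 560) * V1G F α J y ^ 2 →
        S2G F α J y ≤ σ * V1G F α J y ^ 2 →
        ((BadG F α J X R Z L ζ (κ0 * (V1G F α J y / 4))).card : ℝ) ≤ ε * L)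
    (hmer : ∀ A B C : ℤ, A ≠ 0 → ((2 * A).natAbs : ℝ) + 1 ≤ (X : ℝ) ^ (1 / (r : ℝ)) →
      ¬ IsSquare (B ^ 2 - 4 * A * C) → |((B ^ 2 - 4 * A * C : ℤ) : ℝ)| ≤ Real.log X ^ W1 →
      Mer (pr X (1 / (r : ℝ)) υ) (tt X) (gp (Fq A B C)) (1 / (r : ℝ)) υ ηM)
    (hlow : ∀ (A B C : ℤ) (w y : ℕ), 2 ≤ w → (w : ℝ) ≤ Real.log X → y ≤ X →
      (∀ p : ℕ, p.Prime → p ≤ w → nuB (DQ (Fq A B C)) p = 0) →
      (∀ p : ℕ, p.Prime → w < p → (nuB (DQ (Fq A B C)) p : ℝ) ≤ 1 + (jacobiSym (B ^ 2 - 4 * A * C) p : ℝ)) →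
      ¬ IsSquare (B ^ 2 - 4 * A * C) → |((B ^ 2 - 4 * A * C : ℤ) : ℝ)| ≤ Real.log X ^ W1 →
      1 / Real.log X ^ (1 + κ) ≤ Vq (DQ (Fq A B C)) y)
    (hA2 : ((2 * ((K + 1) ^ D0 * Wp w ^ 2) : ℕ) : ℝ) + 1 ≤ (X : ℝ) ^ (1 / (r : ℝ)))
    (hdisc : ((Wp w ^ 2 * (5 * (K + 1) ^ (2 * D0)) : ℕ) : ℝ) ≤ Real.log X ^ W1)
    (hcol : 8 * (K + 1) ^ (4 * D0) ≤ y)
    (hsqy : (K + 1) ^ D0 * Wp w ^ 2 + Wp w ^ 2 * (5 * (K + 1) ^ (2 * D0)) ≤ y)
    (hsz : ∀ j ∈ Icc 1 K, ∀ m ∈ Ioc Z (Z + L), ((FC3 a b c (Wp w) n0 j m : ℕ) : ℝ) ≤ (X : ℝ) ^ S)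
    (hK : (K : ℝ) ≤ Real.log X ^ B) (h1κ : Real.log X ^ (1 + κ) ≤ Real.log X ^ B) (hκ0 : 0 < κ0) (hε : 0 < ε)
    (hδK : 0 < δ * K) (hJ : δ * K ≤ (JQ3 a b c G w K n0).card)
    (hexc : ∑ j ∈ Icc 1 K, ∑ j' ∈ Icc 1 K, exQ3 a b c G w y j j' ≤ min ε 1 / 560 * (δ * K) ^ 2)
    (hσK : Real.log X ^ (1 + κ) ≤ σ * (δ * K)) :
    (((Ioc Z (Z + L)).filter (fun m =>
      ((GC3 a b c G w K n0 X R m ζ).card : ℝ) * Real.log X ^ (1 + κ) < κ0 * (δ * K / 4))).card : ℝ) ≤ ε * L := by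
  obtain ⟨J, hJd⟩ : ∃ J, J = JQ3 a b c G w K n0 := ⟨_, rfl⟩
  obtain ⟨F, hFd⟩ : ∃ F, F = FC3 a b c (Wp w) n0 := ⟨_, rfl⟩
  obtain ⟨α, hα⟩ : ∃ α : ℕ → ℝ, α = fun j => (Vq (DQ (F j)) y)⁻¹ := ⟨_, rfl⟩
  have hsub : J ⊆ Icc 1 K := by rw [hJd]; exact filter_subset _ _
  have hG : ∀ j ∈ J, G j := by
    intro j hj
    rw [hJd] at hj
    exact (mem_filter.1 hj).2.1
  have hW := Wp_pos w
  have hWZ : ((Wp w : ℕ) : ℤ) ≠ 0 := by exact_mod_cast (by omega : Wp w ≠ 0)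
  have haW : ∀ j ∈ J, a j * (Wp w : ℤ) ^ 2 ≠ 0 := fun j hj =>
    mul_ne_zero (a_ne _ _ _ (h.disc j (mem_Icc.1 (hsub hj)).1 (hG j hj))) (pow_ne_zero 2 hWZ)
  have haWn : ∀ j ∈ J, (a j * (Wp w : ℤ) ^ 2).natAbs ≤ (K + 1) ^ D0 * Wp w ^ 2 := by
    intro j hj
    rw [Int.natAbs_mul, Int.natAbs_pow, Int.natAbs_natCast]
    exact Nat.mul_le_mul_right _ (h.sza' (hsub hj))
  have hlX1 : 1 ≤ Real.log X := by
    have : (2 : ℝ) ≤ w := by exact_mod_cast hw
    linarith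
  have hlX0 : 0 < Real.log X := by linarith
  have hns : ∀ j ∈ J, ¬ IsSquare (((Wp w : ℤ) * (2 * a j * n0 + b j)) ^ 2 -
      4 * (a j * (Wp w : ℤ) ^ 2) * (a j * (n0 : ℤ) ^ 2 + b j * n0 + c j)) := by
    intro j hj
    rw [FC3_disc]
    exact nsq_mul _ _ hWZ (h.disc j (mem_Icc.1 (hsub hj)).1 (hG j hj))
  have hdn : ∀ j ∈ J, (((Wp w : ℤ) * (2 * a j * n0 + b j)) ^ 2 -
      4 * (a j * (Wp w : ℤ) ^ 2) * (a j * (n0 : ℤ) ^ 2 + b j * n0 + c j)).natAbs ≤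
      Wp w ^ 2 * (5 * (K + 1) ^ (2 * D0)) := by
    intro j hj
    rw [FC3_disc, Int.natAbs_mul, Int.natAbs_pow, Int.natAbs_natCast]
    exact Nat.mul_le_mul_left _ (disc_le3 h (hsub hj))
  have hdl : ∀ j ∈ J, |((((Wp w : ℤ) * (2 * a j * n0 + b j)) ^ 2 -
      4 * (a j * (Wp w : ℤ) ^ 2) * (a j * (n0 : ℤ) ^ 2 + b j * n0 + c j) : ℤ) : ℝ)| ≤ Real.log X ^ W1 := by
    intro j hj
    exact (nab_real _ _ (hdn j hj)).trans hdisc
  have hVlow : ∀ j ∈ J, 1 / Real.log X ^ (1 + κ) ≤ Vq (DQ (F j)) y := by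
    intro j hj
    rw [hFd]
    exact hlow _ _ _ w y hw hwX hyX (fun p hp hpw => cls_zero3 w K n0 j (by rw [← hJd]; exact hj) p hp hpw)
      (fun p hp hpw => cls_leq3 h w n0 j (mem_Icc.1 (hsub hj)).1 hw hw0 p hp hpw) (hns j hj) (hdl j hj)
  have hV0 : ∀ j ∈ J, 0 < Vq (DQ (F j)) y := by
    intro j hj
    exact lt_of_lt_of_le (by positivity) (hVlow j hj)
  have hα0 : ∀ j ∈ J, 0 < α j := by
    intro j hj
    rw [hα]
    exact inv_pos.2 (hV0 j hj)
  have hαle : ∀ j ∈ J, α j ≤ Real.log X ^ (1 + κ) := by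
    intro j hj
    rw [hα]
    have h1 := hVlow j hj
    show (Vq (DQ (F j)) y)⁻¹ ≤ _
    rw [inv_le_comm₀ (hV0 j hj) (by positivity), ← one_div]
    exact h1
  have hαV : ∀ j ∈ J, α j * Vq (DQ (F j)) y = 1 := by
    intro j hj
    rw [hα]
    exact inv_mul_cancel₀ (hV0 j hj).ne'
  have hV1 : V1G F α J y = J.card := by
    unfold V1G
    rw [sum_congr rfl hαV, sum_const, nsmul_eq_mul, mul_one]
  have hJc : (J.card : ℝ) ≤ K := by
    have : J.card ≤ (Icc 1 K).card := card_le_card hsub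
    rw [Nat.card_Icc, Nat.add_sub_cancel] at this
    exact_mod_cast this
  have hJ0 : δ * K ≤ (J.card : ℝ) := by rw [hJd]; exact hJ
  have hJpos : (0 : ℝ) < J.card := lt_of_lt_of_le hδK hJ0
  have hfam : FamG F α J (prop3 a b c) 2 d y := by
    refine ⟨?_, fun j hj => (hα0 j hj).le, ?_, ?_, ?_⟩
    · intro j hj
      rw [hFd]
      exact cls_per3 h w K n0 j hw hw0 (by rw [← hJd]; exact hj)
    · intro j hj j' hj' hs n p hp hyp h1 h2
      rw [hFd, FC3_eq] at h1 h2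
      have h3 := Ev3_le h (hsub hj) (hsub hj') (hG j hj) hs p ⟨_, h1, h2⟩
      omega
    · intro j hj
      apply h.mult K j (mem_Icc.1 (hsub hj)).1 (mem_Icc.1 (hsub hj)).2 (hG j hj)
      intro j' hj'
      rw [mem_filter] at hj'
      exact ⟨(mem_Icc.1 (hsub hj'.1)).1, (mem_Icc.1 (hsub hj'.1)).2, hG j' hj'.1, hj'.2⟩
    · intro j hj
      apply h.mult K j (mem_Icc.1 (hsub hj)).1 (mem_Icc.1 (hsub hj)).2 (hG j hj)
      intro j' hj'
      rw [mem_filter] at hj'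
      exact ⟨(mem_Icc.1 (hsub hj'.1)).1, (mem_Icc.1 (hsub hj'.1)).2, hG j' hj'.1, hj'.2.1.symm, hj'.2.2.symm⟩
  have hαsum : ∑ j ∈ J, α j ≤ Real.log X ^ (1 + κ) * J.card := by
    refine (sum_le_sum hαle).trans (le_of_eq ?_)
    rw [sum_const, nsmul_eq_mul, mul_comm]
  have key := hmain F α J (prop3 a b c) hfam (by
      intro j hj
      rw [hFd]
      refine hmer _ _ _ (haW j hj) (le_trans ?_ hA2) (hns j hj) (hdl j hj)
      have h1 : (2 * (a j * (Wp w : ℤ) ^ 2)).natAbs ≤ 2 * ((K + 1) ^ D0 * Wp w ^ 2) := by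
        rw [Int.natAbs_mul]
        exact Nat.mul_le_mul_left _ (haWn j hj)
      have h2 : (((2 * (a j * (Wp w : ℤ) ^ 2)).natAbs : ℕ) : ℝ) ≤ ((2 * ((K + 1) ^ D0 * Wp w ^ 2) : ℕ) : ℝ) := by
        exact_mod_cast h1
      linarith) (by
      intro j hj m hm
      refine ⟨?_, ?_⟩
      · rw [hFd]
        have h1 := quad_ne_zero _ _ _ (hns j hj) (m : ℤ)
        unfold FC3 Fq
        exact Nat.pos_of_ne_zero (Int.natAbs_ne_zero.2 h1)
      · rw [hFd]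
        exact hsz j (hsub hj) m hm) (by
      intro j hj p hp hyp
      rw [hFd]
      unfold FC3
      exact sq_q _ _ _ (haW j hj) (hns j hj) p hp (by
        have h1 := hdn j hj
        have h2 := haWn j hj
        omega) Z L) (hJc.trans hK) (by rw [hV1]; exact hJpos) (by
      rw [hV1]
      exact hαsum.trans (mul_le_mul_of_nonneg_right h1κ hJpos.le)) (by
      rw [hV1]
      have h1 : V2G F α J (prop3 a b c) y ≤ ∑ j ∈ J, ∑ j' ∈ J, (1 + exQ3 a b c G w y j j') := by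
        unfold V2G
        apply sum_le_sum
        intro j hj
        apply sum_le_sum
        intro j' hj'
        split_ifs with hs
        · have := exQ3_nonneg a b c G w y j j'
          linarith
        · have h2 := pair_le (F j) (F j') w y hw (by
            intro p hp hpw
            rw [hFd]
            exact cls_zero3 w K n0 j (by rw [← hJd]; exact hj) p hp hpw) (by
            intro p hp hpw
            rw [hFd]
            exact cls_zero3 w K n0 j' (by rw [← hJd]; exact hj') p hp hpw) (by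
            intro p hp hpw
            rw [hFd]
            exact cls_two3 h w n0 j (mem_Icc.1 (hsub hj)).1 hw hw0 p hp hpw) (by
            intro p hp hpw
            rw [hFd]
            exact cls_two3 h w n0 j' (mem_Icc.1 (hsub hj')).1 hw hw0 p hp hpw) (Ev3 a b c j j') (by
            intro p hp hpw n h1 h2
            rw [hFd, FC3_eq] at h1 h2
            exact ⟨_, h1, h2⟩)
          have h3 : exQ3 a b c G w y j j' = tE w y (Ev3 a b c j j') ^ 3 - 1 := by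
            unfold exQ3
            rw [if_neg]
            rintro (h4 | h4 | h4)
            · exact hs h4
            · exact h4 (hG j hj)
            · exact h4 (hG j' hj')
          rw [h3]
          calc α j * α j' * Vq (QPP (F j) (F j')) y ≤
              α j * α j' * (Vq (DQ (F j)) y * Vq (DQ (F j')) y * tE w y (Ev3 a b c j j') ^ 3) :=
                mul_le_mul_of_nonneg_left h2 (mul_nonneg (hα0 j hj).le (hα0 j' hj').le)
            _ = (α j * Vq (DQ (F j)) y) * (α j' * Vq (DQ (F j')) y) * tE w y (Ev3 a b c j j') ^ 3 := by ring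
            _ = 1 + (tE w y (Ev3 a b c j j') ^ 3 - 1) := by
                rw [hαV j hj, hαV j' hj']
                ring
      refine h1.trans ?_
      simp only [sum_add_distrib, sum_const, nsmul_eq_mul, mul_one]
      have h2 : ∑ j ∈ J, ∑ j' ∈ J, exQ3 a b c G w y j j' ≤
          ∑ j ∈ Icc 1 K, ∑ j' ∈ Icc 1 K, exQ3 a b c G w y j j' := by
        calc _ ≤ ∑ j ∈ J, ∑ j' ∈ Icc 1 K, exQ3 a b c G w y j j' :=
              sum_le_sum fun j _ => sum_le_sum_of_subset_of_nonneg hsub (fun j' _ _ => exQ3_nonneg _ _ _ _ _ _ _ _)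
          _ ≤ _ := sum_le_sum_of_subset_of_nonneg hsub
                (fun j _ _ => sum_nonneg fun j' _ => exQ3_nonneg _ _ _ _ _ _ _ _)
      have h3 : (δ * K) ^ 2 ≤ (J.card : ℝ) ^ 2 := pow_le_pow_left₀ hδK.le hJ0 2
      have hm : 0 < min ε 1 := lt_min hε one_pos
      have h4 : min ε 1 / 560 * (δ * K) ^ 2 ≤ min ε 1 / 560 * (J.card : ℝ) ^ 2 :=
        mul_le_mul_of_nonneg_left h3 (by positivity)
      have e : (J.card : ℝ) * (J.card : ℝ) = (J.card : ℝ) ^ 2 := by ring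
      rw [e]
      linarith) (by
      rw [hV1]
      have h1 : S2G F α J y = ∑ j ∈ J, α j := by
        unfold S2G
        apply sum_congr rfl
        intro j hj
        rw [sq, mul_assoc, hαV j hj, mul_one]
      rw [h1]
      refine hαsum.trans ?_
      have h2 : Real.log X ^ (1 + κ) ≤ σ * J.card := by
        refine hσK.trans ?_
        have hσ0 : 0 ≤ σ := by
          by_contra hneg
          have h3 : σ * (δ * K) < 0 := mul_neg_of_neg_of_pos (by linarith) hδK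
          have h4 : 0 < Real.log X ^ (1 + κ) := by positivity
          linarith
        exact mul_le_mul_of_nonneg_left hJ0 hσ0
      calc Real.log X ^ (1 + κ) * J.card ≤ (σ * J.card) * J.card := mul_le_mul_of_nonneg_right h2 hJpos.le
        _ = _ := by ring)
  refine le_trans ?_ key
  rw [hV1]
  unfold BadG
  have hh : ((Ioc Z (Z + L)).filter (fun m =>
      ((GC3 a b c G w K n0 X R m ζ).card : ℝ) * Real.log X ^ (1 + κ) < κ0 * (δ * K / 4))).card ≤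
      ((Ioc Z (Z + L)).filter (fun m => ∑ j ∈ GoodG F J X R m ζ, α j < κ0 * ((J.card : ℝ) / 4))).card := by
    apply card_le_card
    intro m hm
    rw [mem_filter] at hm ⊢
    refine ⟨hm.1, ?_⟩
    have e : GoodG F J X R m ζ = GC3 a b c G w K n0 X R m ζ := by
      unfold GoodG GC3
      rw [hFd, hJd]
    rw [e]
    have h1 : ∑ j ∈ GC3 a b c G w K n0 X R m ζ, α j ≤ (GC3 a b c G w K n0 X R m ζ).card * Real.log X ^ (1 + κ) := by
      rw [← nsmul_eq_mul, ← sum_const]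
      apply sum_le_sum
      intro j hj
      apply hαle
      unfold GC3 at hj
      rw [hJd]
      exact (mem_filter.1 hj).1
    refine lt_of_le_of_lt h1 (hm.2.trans_le ?_)
    apply mul_le_mul_of_nonneg_left _ hκ0.le
    linarith
  exact_mod_cast hh

end Pool.Agent.L0h41.QN
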