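import Pool.Agent.L0h41.QN.K2
import Pool.Agent.R490.GPd

set_option autoImplicit false

/-!
# Quadratic polynomials minus small primes: the average of the excess
-/

namespace Pool.Agent.L0h41.QN

open Finset Filter
open Pool.Agent.W123.RP Pool.Agent.H373R2.T7 Pool.Agent.W123.RU Pool.Agent.TH464.PO Pool.Agent.TH464.PW
open Pool.Agent.Y879.AP
open Pool.Agent.L0h41.LW
open Pool.Agent.R490.LGa Pool.Agent.R490.GPa Pool.Agent.R490.GPb

lemma tE_le_tw (w y n : ℕ) (E : ℕ → Prop) (h : ∀ p : ℕ, p.Prime → w < p → E p → p ∣ n) :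
    tE w y E ≤ tw w y n := by
  classical
  unfold tE tw
  apply Finset.prod_le_prod
  · intro p hp
    split_ifs
    · exact zero_le_one.trans (one_le_inv' (mem_pz.1 hp).2)
    · exact zero_le_one
  · intro p hp
    have hpp := (mem_pz.1 hp).2
    by_cases h1 : w < p ∧ E p
    · rw [if_pos h1, if_pos ⟨h1.1, h p hpp h1.1 h1.2⟩]
    · rw [if_neg h1]
      split_ifs
      · exact one_le_inv' hpp
      · exact le_rfl

lemma six_inv {p : ℕ} (hp : p.Prime) : ((1 - 1 / (p : ℝ))⁻¹) ^ 6 ≤ 1 + 126 / p := by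
  have h2 : (2 : ℝ) ≤ p := by exact_mod_cast hp.two_le
  have hp0 : (0 : ℝ) < p := by linarith
  have h1 := cube_inv hp
  have h0 : 0 ≤ ((1 - 1 / (p : ℝ))⁻¹) ^ 3 := pow_nonneg (zero_le_one.trans (one_le_inv' hp)) 3
  obtain ⟨z, hz⟩ : ∃ z : ℝ, z = (1 - 1 / (p : ℝ))⁻¹ := ⟨_, rfl⟩
  rw [← hz] at h1 h0 ⊢
  have h3 : z ^ 6 = (z ^ 3) ^ 2 := by ring
  have h4 : (z ^ 3) ^ 2 ≤ (1 + 14 / (p : ℝ)) ^ 2 := pow_le_pow_left₀ h0 h1 2
  have e : 1 + 126 / (p : ℝ) - (1 + 14 / p) ^ 2 = 98 * ((p : ℝ) - 2) / p ^ 2 := by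
    field_simp
    ring
  have h5 : 0 ≤ 98 * ((p : ℝ) - 2) / p ^ 2 := by
    apply div_nonneg _ (by positivity)
    linarith
  rw [h3]
  linarith

open Classical in
/-- the sixth powers on average -/
lemma sum_six (w y K : ℕ) (hw : 126 ≤ w) : ∑ n ∈ Icc 1 K, tw w y n ^ 6 ≤ K * (1 + 252 / (w : ℝ)) := by
  have hw0 : (0 : ℝ) < w := by exact_mod_cast (by omega : 0 < w)
  have h1 : ∀ n, tw w y n ^ 6 ≤ ∑ U ∈ (pz y).powerset,
      ∏ p ∈ U, ((if w < p then 126 / (p : ℝ) else 0) * (if p ∣ n then 1 else 0)) := by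
    intro n
    rw [← prod_one_add]
    unfold tw
    rw [← prod_pow]
    apply Finset.prod_le_prod
    · intro p hp
      have h3 := one_le_inv' (mem_pz.1 hp).2
      split_ifs
      · exact pow_nonneg (by linarith) 6
      · norm_num
    · intro p hp
      have hpp := (mem_pz.1 hp).2
      by_cases h4 : w < p ∧ p ∣ n
      · rw [if_pos h4, if_pos h4.1, if_pos h4.2, mul_one]
        exact six_inv hpp
      · rw [if_neg h4, one_pow]
        have : (0 : ℝ) ≤ (if w < p then 126 / (p : ℝ) else 0) * (if p ∣ n then 1 else 0) := by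
          apply mul_nonneg
          · split_ifs <;> positivity
          · split_ifs <;> norm_num
        linarith
  refine (sum_le_sum fun n _ => h1 n).trans ?_
  rw [sum_comm]
  have h2 : ∀ U ∈ (pz y).powerset, ∑ n ∈ Icc 1 K,
      ∏ p ∈ U, ((if w < p then 126 / (p : ℝ) else 0) * (if p ∣ n then 1 else 0)) ≤
      K * ∏ p ∈ U, (if w < p then 126 / (p : ℝ) ^ 2 else 0) := by
    intro U hU
    rw [mem_powerset] at hU
    have hUp : ∀ p ∈ U, p.Prime := fun p hp => (mem_pz.1 (hU hp)).2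
    have e1 : ∀ n, ∏ p ∈ U, ((if w < p then 126 / (p : ℝ) else 0) * (if p ∣ n then (1 : ℝ) else 0)) =
        (∏ p ∈ U, (if w < p then 126 / (p : ℝ) else 0)) * (if (∏ p ∈ U, p) ∣ n then 1 else 0) := by
      intro n
      rw [prod_mul_distrib, Pool.Agent.Y882.prod_ind]
      congr 1
      have h3 : (∀ p ∈ U, p ∣ n) ↔ (∏ p ∈ U, p) ∣ n := by
        constructor
        · intro h
          exact Finset.prod_primes_dvd n (fun p hp => (hUp p hp).prime) h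
        · intro h p hp
          exact (dvd_prod_of_mem (fun p => p) hp).trans h
      by_cases h4 : ∀ p ∈ U, p ∣ n
      · rw [if_pos h4, if_pos (h3.1 h4)]
      · rw [if_neg h4, if_neg (fun h => h4 (h3.2 h))]
    rw [sum_congr rfl (fun n _ => e1 n), ← mul_sum]
    have h5 : ∑ n ∈ Icc 1 K, (if (∏ p ∈ U, p) ∣ n then (1 : ℝ) else 0) ≤ K * (∏ p ∈ U, (p : ℝ))⁻¹ := by
      rw [← sum_filter, sum_const, nsmul_eq_mul, mul_one]
      have h6 := Nat.Ioc_filter_dvd_card_eq_div K (∏ p ∈ U, p)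
      have h7 : Icc 1 K = Ioc 0 K := by
        ext n
        simp only [mem_Icc, mem_Ioc]
        omega
      rw [h7, h6]
      refine Nat.cast_div_le.trans (le_of_eq ?_)
      push_cast
      rw [div_eq_mul_inv]
    have h8 : (0 : ℝ) ≤ ∏ p ∈ U, (if w < p then 126 / (p : ℝ) else 0) := by
      apply prod_nonneg
      intro p _
      split_ifs <;> positivity
    refine (mul_le_mul_of_nonneg_left h5 h8).trans (le_of_eq ?_)
    rw [← prod_inv_distrib, show ∀ a b c : ℝ, a * (b * c) = b * (a * c) by intros; ring, ← prod_mul_distrib]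
    congr 1
    apply prod_congr rfl
    intro p _
    split_ifs
    · rw [div_mul_eq_mul_div, ← div_eq_mul_inv, div_div, sq]
    · rw [zero_mul]
  refine (sum_le_sum h2).trans ?_
  rw [← mul_sum, ← prod_one_add]
  apply mul_le_mul_of_nonneg_left _ (Nat.cast_nonneg _)
  have h3 : ∏ p ∈ pz y, (1 + (if w < p then 126 / (p : ℝ) ^ 2 else 0)) ≤
      Real.exp (∑ p ∈ pz y, (if w < p then 126 / (p : ℝ) ^ 2 else 0)) := by
    rw [Real.exp_sum]
    apply Finset.prod_le_prod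
    · intro p _
      split_ifs <;> positivity
    · intro p _
      linarith [Real.add_one_le_exp (if w < p then 126 / (p : ℝ) ^ 2 else 0)]
  refine h3.trans ?_
  have h4 : ∑ p ∈ pz y, (if w < p then 126 / (p : ℝ) ^ 2 else 0) ≤ 126 / (w : ℝ) := by
    rw [← sum_filter]
    have h5 : ∑ p ∈ (pz y).filter (fun p => w < p), 126 / (p : ℝ) ^ 2 ≤
        ∑ p ∈ Ioc w (max w y), 126 / (p : ℝ) ^ 2 := by
      apply sum_le_sum_of_subset_of_nonneg
      · intro p hp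
        rw [mem_filter] at hp
        rw [mem_Ioc]
        exact ⟨hp.2, (mem_pz.1 hp.1).1.trans (le_max_right _ _)⟩
      · intro p _ _
        positivity
    refine h5.trans ?_
    have e1 : ∑ p ∈ Ioc w (max w y), 126 / (p : ℝ) ^ 2 = 126 * ∑ p ∈ Ioc w (max w y), ((p : ℝ) ^ 2)⁻¹ := by
      rw [mul_sum]
      rfl
    rw [e1]
    have h9 := sum_Ioc_inv_sq_le_sub (α := ℝ) (k := w) (n := max w y) (by omega) (le_max_left _ _)
    have h10 : (0 : ℝ) ≤ ((max w y : ℕ) : ℝ)⁻¹ := by positivity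
    rw [div_eq_mul_inv]
    linarith
  have h5 : 126 / (w : ℝ) ≤ 1 := by
    rw [div_le_one hw0]
    exact_mod_cast hw
  have h6 : (0 : ℝ) ≤ 126 / w := by positivity
  calc Real.exp (∑ p ∈ pz y, (if w < p then 126 / (p : ℝ) ^ 2 else 0)) ≤ Real.exp (126 / w) :=
        Real.exp_le_exp.2 h4
    _ ≤ 1 + 252 / w := by
        have h7 := Real.abs_exp_sub_one_le (x := 126 / (w : ℝ)) (by rw [abs_of_nonneg h6]; exact h5)
        rw [abs_of_nonneg h6, abs_le] at h7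
        have e : (252 : ℝ) / w = 2 * (126 / w) := by ring
        rw [e]
        linarith [h7.2]

/-- the product of the two averages -/
lemma sum_mixed3 : ∃ C : ℝ, 0 < C ∧ ∀ w Y y P : ℕ, 126 ≤ w →
    ∑ d ∈ Icc 1 P, (tw w Y d ^ 3 - 1) * tw 0 y d ≤ C * (P / √(w : ℝ)) := by
  obtain ⟨c, hc⟩ : ∃ c : ℝ, c = (Vz 14)⁻¹ := ⟨_, rfl⟩
  have hc0 : 0 < c := by
    rw [hc]
    apply inv_pos.2
    unfold Vz
    exact prod_pos fun p hp => (one_sub_pos (mem_pz.1 hp).2).1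
  refine ⟨126 + 3 * c ^ 2, by positivity, ?_⟩
  intro w Y y P hw
  have hw0 : (0 : ℝ) < w := by exact_mod_cast (by omega : 0 < w)
  obtain ⟨s, hs⟩ : ∃ s : ℝ, s = √(w : ℝ) := ⟨_, rfl⟩
  have hs0 : 0 < s := by rw [hs]; exact Real.sqrt_pos.2 hw0
  have hss : s * s = w := by rw [hs]; exact Real.mul_self_sqrt hw0.le
  rw [← hs]
  have h1 : ∀ d, (tw w Y d ^ 3 - 1) * tw 0 y d ≤
      s / 2 * (tw w Y d ^ 6 - 1) + c ^ 2 / (2 * s) * tw 14 y d ^ 3 := by
    intro d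
    obtain ⟨a, ha⟩ : ∃ a, a = tw w Y d ^ 3 := ⟨_, rfl⟩
    obtain ⟨b, hb⟩ : ∃ b, b = tw 14 y d := ⟨_, rfl⟩
    have ha1 : 1 ≤ a := by rw [ha]; exact one_le_pow₀ (one_le_tw _ _ _)
    have hb1 : 1 ≤ b := by rw [hb]; exact one_le_tw _ _ _
    have h2 := tw_zero_le y d
    rw [← hc, ← hb] at h2
    have e6 : tw w Y d ^ 6 = a ^ 2 := by rw [ha]; ring
    rw [e6, ← ha, ← hb]
    have h3 : (a - 1) * tw 0 y d ≤ (a - 1) * (c * b) := mul_le_mul_of_nonneg_left h2 (by linarith)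
    have h4 : (a - 1) * (c * b) ≤ s / 2 * (a - 1) ^ 2 + c ^ 2 / (2 * s) * b ^ 2 := by
      have e : s / 2 * (a - 1) ^ 2 + c ^ 2 / (2 * s) * b ^ 2 - (a - 1) * (c * b) =
          (s * (a - 1) - c * b) ^ 2 / (2 * s) := by
        field_simp
        ring
      have : 0 ≤ (s * (a - 1) - c * b) ^ 2 / (2 * s) := by positivity
      linarith
    have h5 : (a - 1) ^ 2 ≤ a ^ 2 - 1 := by nlinarith
    have h6 : b ^ 2 ≤ b ^ 3 := pow_le_pow_right₀ hb1 (by norm_num)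
    have h7 : s / 2 * (a - 1) ^ 2 ≤ s / 2 * (a ^ 2 - 1) := mul_le_mul_of_nonneg_left h5 (by positivity)
    have h8 : c ^ 2 / (2 * s) * b ^ 2 ≤ c ^ 2 / (2 * s) * b ^ 3 := mul_le_mul_of_nonneg_left h6 (by positivity)
    linarith
  refine (sum_le_sum fun d _ => h1 d).trans ?_
  rw [sum_add_distrib, ← mul_sum, ← mul_sum, sum_sub_distrib]
  have h2 := sum_six w Y P hw
  have h3 := sum_cube 14 y P le_rfl
  have hcard : ∑ _n ∈ Icc 1 P, (1 : ℝ) = P := by
    rw [sum_const, nsmul_eq_mul, Nat.card_Icc, Nat.add_sub_cancel, mul_one]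
  rw [hcard]
  have e0 : (P : ℝ) * (1 + 252 / (w : ℝ)) = P + 252 * P / w := by ring
  rw [e0] at h2
  have h4 : s / 2 * (∑ d ∈ Icc 1 P, tw w Y d ^ 6 - P) ≤ s / 2 * (252 * P / w) :=
    mul_le_mul_of_nonneg_left (by linarith) (by positivity)
  have h5 : c ^ 2 / (2 * s) * ∑ d ∈ Icc 1 P, tw 14 y d ^ 3 ≤ c ^ 2 / (2 * s) * (P * (1 + 28 / ((14 : ℕ) : ℝ))) :=
    mul_le_mul_of_nonneg_left h3 (by positivity)
  have e1 : s / 2 * (252 * (P : ℝ) / w) = 126 * (P / s) := by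
    rw [← hss]
    field_simp
    ring
  have e2 : c ^ 2 / (2 * s) * ((P : ℝ) * (1 + 28 / ((14 : ℕ) : ℝ))) = 3 / 2 * c ^ 2 * (P / s) := by
    push_cast
    field_simp
    ring
  rw [e1] at h4
  rw [e2] at h5
  have h6 : 0 ≤ (P : ℝ) / s := by positivity
  have h7 : 0 ≤ c ^ 2 * ((P : ℝ) / s) := by positivity
  have e3 : (126 + 3 * c ^ 2) * ((P : ℝ) / s) = 126 * (P / s) + 3 * (c ^ 2 * (P / s)) := by ring
  rw [e3]
  linarith

/-- the size of the primes -/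
lemma pn_size : ∃ K0 : ℕ, ∀ K : ℕ, K0 ≤ K → (pn K : ℝ) / Real.log (pn K) ≤ 2 * K := by
  obtain ⟨X0, hX0, h3⟩ := Pool.Agent.H357R2.SI.pnt (1 / 2) (by norm_num)
  refine ⟨X0 + 3, ?_⟩
  intro K hK
  have hPK := pn_ge K (by omega)
  have a1 := (h3 (pn K) (by omega)).1
  have a2 : Nat.primeCounting (pn K) = K := by
    unfold pn
    have : Nat.primeCounting (Nat.nth Nat.Prime (K - 1)) = Nat.count Nat.Prime (Nat.nth Nat.Prime (K - 1) + 1) := rfl
    rw [this, Nat.count_succ, if_pos (Nat.prime_nth_prime _),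
      Nat.count_nth_of_infinite Nat.infinite_setOfPred_prime]
    omega
  rw [a2] at a1
  have e : (1 - 1 / 2) * (pn K : ℝ) / Real.log (pn K) = (pn K / Real.log (pn K)) / 2 := by ring
  rw [e] at a1
  linarith

/-- the differences of the first primes, on average -/
theorem exc3_pn : ∃ (C : ℝ) (K0 : ℕ), 0 < C ∧ ∀ K : ℕ, K0 ≤ K → ∀ w Y : ℕ, 126 ≤ w →
    ∑ j ∈ Icc 1 K, ∑ j' ∈ Icc 1 K, (if j = j' then 0 else tw w Y ((pn j : ℤ) - pn j').natAbs ^ 3 - 1) ≤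
      C * (K : ℝ) ^ 2 / √(w : ℝ) := by
  obtain ⟨C1, P0, hC1, h1⟩ := pairs_le
  obtain ⟨C2, hC2, h2⟩ := sum_mixed3
  obtain ⟨K1, h3⟩ := pn_size
  refine ⟨8 * (C1 * C2), P0 + K1 + 3, by positivity, ?_⟩
  intro K hK w Y hw
  have hK1 : 1 ≤ K := by omega
  obtain ⟨P, hP⟩ : ∃ P, P = pn K := ⟨_, rfl⟩
  have hPK : K ≤ P := by rw [hP]; exact pn_ge K hK1
  obtain ⟨y, hy⟩ := h1 P (by omega)
  have hw0 : (0 : ℝ) < w := by exact_mod_cast (by omega : 0 < w)
  have hs0 : 0 < √(w : ℝ) := Real.sqrt_pos.2 hw0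
  have hP0 : (0 : ℝ) < P := by exact_mod_cast (by omega : 0 < P)
  have hlog : 0 < Real.log P := Real.log_pos (by exact_mod_cast (by omega : 1 < P))
  have hF : ∀ d, 0 ≤ tw w Y d ^ 3 - 1 := fun d => by
    have := one_le_pow₀ (one_le_tw w Y d) (n := 3)
    linarith
  have e1 : ∑ j ∈ Icc 1 K, ∑ j' ∈ Icc 1 K, (if j = j' then 0 else tw w Y ((pn j : ℤ) - pn j').natAbs ^ 3 - 1) =
      ∑ p ∈ Pr P, ∑ p' ∈ Pr P, (if p = p' then 0 else tw w Y ((p : ℤ) - p').natAbs ^ 3 - 1) := by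
    rw [hP, ← sum_pn K hK1 (fun p => ∑ p' ∈ Pr (pn K), (if p = p' then 0 else tw w Y ((p : ℤ) - p').natAbs ^ 3 - 1))]
    apply sum_congr rfl
    intro j hj
    rw [← sum_pn K hK1 (fun p' => (if pn j = p' then 0 else tw w Y ((pn j : ℤ) - p').natAbs ^ 3 - 1))]
    apply sum_congr rfl
    intro j' hj'
    rw [mem_Icc] at hj hj'
    by_cases h : j = j'
    · rw [if_pos h, if_pos (by rw [h])]
    · rw [if_neg h, if_neg (fun h' => h (pn_inj hj.1 hj'.1 h'))]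
  rw [e1]
  refine (sum_pairs (fun d => tw w Y d ^ 3 - 1) hF P).trans ?_
  have h4 : ∑ d ∈ Icc 1 P, (tw w Y d ^ 3 - 1) * (((Pr P).filter (fun p => (p + d).Prime)).card : ℝ) ≤
      C1 * (P / Real.log P ^ 2) * (C2 * (P / √(w : ℝ))) := by
    calc _ ≤ ∑ d ∈ Icc 1 P, C1 * (P / Real.log P ^ 2) * ((tw w Y d ^ 3 - 1) * tw 0 y d) := by
          apply sum_le_sum
          intro d hd
          rw [mem_Icc] at hd
          have := mul_le_mul_of_nonneg_left (hy d hd.1) (hF d)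
          refine this.trans (le_of_eq ?_)
          ring
      _ = C1 * (P / Real.log P ^ 2) * ∑ d ∈ Icc 1 P, (tw w Y d ^ 3 - 1) * tw 0 y d := by rw [mul_sum]
      _ ≤ _ := mul_le_mul_of_nonneg_left (h2 w Y y P hw) (by positivity)
  have h5 : (P : ℝ) / Real.log P ≤ 2 * K := by
    rw [hP]
    exact h3 K (by omega)
  have h6 : (P : ℝ) / Real.log P ^ 2 * (P / √(w : ℝ)) ≤ 4 * (K : ℝ) ^ 2 / √(w : ℝ) := by
    have e : (P : ℝ) / Real.log P ^ 2 * (P / √(w : ℝ)) = (P / Real.log P) ^ 2 / √(w : ℝ) := by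
      rw [div_pow]
      ring
    rw [e]
    apply div_le_div_of_nonneg_right _ hs0.le
    calc ((P : ℝ) / Real.log P) ^ 2 ≤ (2 * K) ^ 2 := pow_le_pow_left₀ (by positivity) h5 2
      _ = 4 * (K : ℝ) ^ 2 := by ring
  have e7 : C1 * (P / Real.log P ^ 2) * (C2 * (P / √(w : ℝ))) =
      C1 * C2 * ((P : ℝ) / Real.log P ^ 2 * (P / √(w : ℝ))) := by ring
  rw [e7] at h4
  have h8 : C1 * C2 * ((P : ℝ) / Real.log P ^ 2 * (P / √(w : ℝ))) ≤ C1 * C2 * (4 * (K : ℝ) ^ 2 / √(w : ℝ)) :=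
    mul_le_mul_of_nonneg_left h6 (by positivity)
  have e9 : 8 * (C1 * C2) * (K : ℝ) ^ 2 / √(w : ℝ) = 2 * (C1 * C2 * (4 * (K : ℝ) ^ 2 / √(w : ℝ))) := by ring
  rw [e9]
  linarith

end Pool.Agent.L0h41.QN
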