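import Pool.Agent.L0h41.QN.P1

set_option autoImplicit false

/-!
# Quadratic polynomials minus small primes
-/

namespace Pool.Agent.L0h41.QN

open Finset Filter
open Pool.Agent.W123.RP Pool.Agent.H373R2.T7 Pool.Agent.W123.RU Pool.Agent.TH464.PO Pool.Agent.TH464.PW
open Pool.Agent.Y879.AP
open Pool.Agent.L0h41.LW
open Pool.Agent.R490.LGa Pool.Agent.R490.GPa Pool.Agent.R490.GPb
open Pool.Agent.R490.LGb (Jn)
open Pool.Agent.R490.GPd (AdmG jn_low)

/-- the constant coefficients -/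
noncomputable def cG (c : ℤ) (j : ℕ) : ℤ := c - pn j

/-- the discriminant is not a square -/
def GG (a b c : ℤ) (j : ℕ) : Prop := ¬ IsSquare (b ^ 2 - 4 * a * cG c j)

lemma nat_pow_ge (x j E : ℕ) (hj : 1 ≤ j) (hx : x ≤ E) : x + 1 ≤ (j + 1) ^ E := by
  have h1 : x < 2 ^ x := Nat.lt_two_pow_self
  have h2 : 2 ^ x ≤ (j + 1) ^ x := Nat.pow_le_pow_left (by omega) _
  have h3 : (j + 1) ^ x ≤ (j + 1) ^ E := Nat.pow_le_pow_right (by omega) hx
  omega

lemma datGold (a b c : ℤ) (ha : a ≠ 0) :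
    DatQ a (fun _ => b) (cG c) (GG a b c) (b.natAbs + c.natAbs + 4) 1 := by
  refine ⟨ha, ?_, ?_, fun j _ hj => hj, ?_⟩
  · intro j hj
    have := nat_pow_ge b.natAbs j (b.natAbs + c.natAbs + 4) hj (by omega)
    omega
  · intro j hj
    unfold cG
    refine (Int.natAbs_sub_le _ _).trans ?_
    rw [Int.natAbs_natCast, pow_add]
    have h1 := nat_pow_ge c.natAbs j (b.natAbs + c.natAbs) hj (by omega)
    have h2 := pn_le j hj
    have h3 : 1 ≤ (j + 1) ^ 4 := Nat.one_le_pow _ _ (by omega)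
    calc c.natAbs + pn j ≤ c.natAbs * (j + 1) ^ 4 + (j + 1) ^ 4 := by
          apply add_le_add _ h2
          exact Nat.le_mul_of_pos_right _ h3
      _ = (c.natAbs + 1) * (j + 1) ^ 4 := by ring
      _ ≤ _ := Nat.mul_le_mul_right _ h1
  · intro K j hj _ _ S hS
    rw [card_le_one]
    have h1 : ∀ i ∈ S, i = j := by
      intro i hi
      obtain ⟨h2, -, -, -, h3⟩ := hS i hi
      unfold cG at h3
      apply pn_inj h2 hj
      have : (pn i : ℤ) = pn j := by linarith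
      exact_mod_cast this
    intro i hi i' hi'
    rw [h1 i hi, h1 i' hi']

lemma exGold (a b c : ℤ) (w K y : ℕ) :
    ∑ j ∈ Icc 1 K, ∑ j' ∈ Icc 1 K, exQ a (fun _ => b) (cG c) (GG a b c) w y j j' ≤
      ∑ j ∈ Icc 1 K, ∑ j' ∈ Icc 1 K, (if j = j' then 0 else tw w y ((pn j : ℤ) - pn j').natAbs ^ 3 - 1) := by
  apply sum_le_sum
  intro j _
  apply sum_le_sum
  intro j' _
  unfold exQ
  by_cases hjj : j = j'
  · rw [if_pos hjj, if_pos (Or.inl (by rw [hjj]; exact ⟨rfl, rfl⟩))]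
  · rw [if_neg hjj]
    have h1 := one_le_pow₀ (one_le_tw w y ((pn j : ℤ) - pn j').natAbs) (n := 3)
    split_ifs
    · linarith
    · have h2 : tE w y (Ev2 a (fun _ => b) (cG c) j j') ≤ tw w y ((pn j : ℤ) - pn j').natAbs := by
        apply tE_le_tw
        rintro p _ _ ⟨n, h3, h4⟩
        have h5 : (p : ℤ) ∣ a * (n : ℤ) ^ 2 + b * n + cG c j := (DQ_iff a b (cG c j) p n).1 h3
        have h6 : (p : ℤ) ∣ a * (n : ℤ) ^ 2 + b * n + cG c j' := (DQ_iff a b (cG c j') p n).1 h4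
        rw [← Int.natCast_dvd]
        have h7 := dvd_sub h6 h5
        have e : a * (n : ℤ) ^ 2 + b * n + cG c j' - (a * (n : ℤ) ^ 2 + b * n + cG c j) = (pn j : ℤ) - pn j' := by
          unfold cG
          ring
        rwa [e] at h7
      have h3 := pow_le_pow_left₀ (zero_le_one.trans (one_le_tE w y (Ev2 a (fun _ => b) (cG c) j j'))) h2 3
      linarith

open Classical in
/-- few square discriminants -/
lemma few_sq (a b c : ℤ) (ha : a ≠ 0) (K : ℕ) (hK : 1 ≤ K) :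
    ((Icc 1 K).filter (fun j => ¬ GG a b c j)).card ≤
      Nat.sqrt ((b ^ 2 - 4 * a * c).natAbs + 4 * a.natAbs * pn K) + 1 := by
  obtain ⟨M, hM⟩ : ∃ M, M = (b ^ 2 - 4 * a * c).natAbs + 4 * a.natAbs * pn K := ⟨_, rfl⟩
  rw [← hM, ← card_range (Nat.sqrt M + 1)]
  have hs : ∀ j, ∃ s : ℕ, ¬ GG a b c j → (s : ℤ) * s = b ^ 2 - 4 * a * cG c j := by
    intro j
    by_cases h : GG a b c j
    · exact ⟨0, fun h' => absurd h h'⟩
    · unfold GG at h
      rw [not_not] at h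
      obtain ⟨s, hs⟩ := h
      refine ⟨s.natAbs, fun _ => ?_⟩
      rw [Int.natAbs_mul_self', hs]
  choose s hs using hs
  apply card_le_card_of_injOn s
  · intro j hj
    rw [mem_coe, mem_filter, mem_Icc] at hj
    rw [mem_coe, mem_range, Nat.lt_succ_iff, Nat.le_sqrt]
    have h1 := hs j hj.2
    have h2 : (s j * s j : ℕ) = (b ^ 2 - 4 * a * cG c j).natAbs := by
      rw [← h1]
      rw [Int.natAbs_mul, Int.natAbs_natCast]
    rw [h2, hM]
    have e : b ^ 2 - 4 * a * cG c j = (b ^ 2 - 4 * a * c) + 4 * a * pn j := by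
      unfold cG
      ring
    rw [e]
    refine (Int.natAbs_add_le _ _).trans ?_
    apply add_le_add le_rfl
    rw [Int.natAbs_mul, Int.natAbs_mul, Int.natAbs_natCast]
    apply Nat.mul_le_mul_left
    exact Nat.nth_monotone Nat.infinite_setOfPred_prime (by omega)
  · intro i hi j hj hij
    rw [mem_coe, mem_filter, mem_Icc] at hi hj
    have h1 := hs i hi.2
    have h2 := hs j hj.2
    rw [hij] at h1
    have h3 : 4 * a * (pn i : ℤ) = 4 * a * pn j := by
      unfold cG at h1 h2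
      linarith
    have h4 : (pn i : ℤ) = pn j := mul_left_cancel₀ (mul_ne_zero (by norm_num) ha) h3
    exact pn_inj hi.1.1 hj.1.1 (by exact_mod_cast h4)

/-- few square discriminants, asymptotically -/
lemma few_sq_ev (a b c : ℤ) (ha : a ≠ 0) (v : ℝ) (hv : 0 < v) : ∃ K0 : ℕ, ∀ K : ℕ, K0 ≤ K →
    ((Nat.sqrt ((b ^ 2 - 4 * a * c).natAbs + 4 * a.natAbs * pn K) + 1 : ℕ) : ℝ) ≤ v * K := by
  obtain ⟨K1, h1⟩ := pn_size
  obtain ⟨u, hu⟩ : ∃ u : ℝ, u = v ^ 2 / 16 := ⟨_, rfl⟩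
  have hu0 : 0 < u := by rw [hu]; positivity
  have ha1 : (1 : ℝ) ≤ a.natAbs := by exact_mod_cast Int.natAbs_pos.2 ha
  have ev1 := logpow_rpow 1 (64 * a.natAbs / u) 1 (by positivity) one_pos
  have tn : Tendsto (fun K : ℕ => (K : ℝ)) atTop atTop := tendsto_natCast_atTop_atTop
  have ev2 := tn.eventually_ge_atTop (max (2 / v) (((b ^ 2 - 4 * a * c).natAbs : ℝ) / u))
  obtain ⟨K2, h2⟩ := eventually_atTop.1 (ev1.and ev2)
  refine ⟨K1 + K2 + 3, ?_⟩
  intro K hK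
  obtain ⟨f1, f2⟩ := h2 K (by omega)
  have f3 := h1 K (by omega)
  have hK3 : (3 : ℝ) ≤ K := by exact_mod_cast (by omega : 3 ≤ K)
  have hK0 : (0 : ℝ) < K := by linarith
  rw [pow_one, Real.rpow_one] at f1
  have g1 : 2 / v ≤ K := (le_max_left _ _).trans f2
  have g2 : ((b ^ 2 - 4 * a * c).natAbs : ℝ) / u ≤ K := (le_max_right _ _).trans f2
  rw [div_le_iff₀ hv] at g1
  rw [div_le_iff₀ hu0] at g2
  have hpK : K ≤ pn K := pn_ge K (by omega)
  have hpKr : (K : ℝ) ≤ pn K := by exact_mod_cast hpK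
  have hlp : 0 < Real.log (pn K) := Real.log_pos (by linarith)
  rw [div_le_iff₀ hlp] at f3
  have hl4 : Real.log (pn K) ≤ 8 * Real.log K := by
    have h3 : (pn K : ℝ) ≤ (K : ℝ) ^ 8 := by
      have h4 := pn_le K (by omega)
      have h5 : (K + 1) ^ 4 ≤ (K ^ 2) ^ 4 := Nat.pow_le_pow_left (by nlinarith) 4
      have h6 : (K ^ 2) ^ 4 = K ^ 8 := by rw [← pow_mul]
      rw [h6] at h5
      exact_mod_cast h4.trans h5
    calc Real.log (pn K) ≤ Real.log ((K : ℝ) ^ 8) := Real.log_le_log (by linarith) h3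
      _ = 8 * Real.log K := by rw [Real.log_pow]; norm_num
  have hpn : (pn K : ℝ) ≤ 16 * K * Real.log K := by
    calc (pn K : ℝ) ≤ 2 * K * Real.log (pn K) := f3
      _ ≤ 2 * K * (8 * Real.log K) := mul_le_mul_of_nonneg_left hl4 (by positivity)
      _ = _ := by ring
  have hM : (((b ^ 2 - 4 * a * c).natAbs + 4 * a.natAbs * pn K : ℕ) : ℝ) ≤ (v / 2 * K) ^ 2 := by
    push_cast
    have h3 : 4 * (a.natAbs : ℝ) * pn K ≤ u * (K : ℝ) ^ 2 := by
      have h4 : 64 * (a.natAbs : ℝ) * Real.log K ≤ K * u := by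
        have e : 64 * (a.natAbs : ℝ) * Real.log K = (64 * a.natAbs / u * Real.log K) * u := by
          field_simp
        rw [e]
        exact mul_le_mul_of_nonneg_right f1 hu0.le
      calc 4 * (a.natAbs : ℝ) * pn K ≤ 4 * (a.natAbs : ℝ) * (16 * K * Real.log K) :=
            mul_le_mul_of_nonneg_left hpn (by positivity)
        _ = K * (64 * (a.natAbs : ℝ) * Real.log K) := by ring
        _ ≤ K * (K * u) := mul_le_mul_of_nonneg_left h4 hK0.le
        _ = _ := by ring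
    have h5 : ((b ^ 2 - 4 * a * c).natAbs : ℝ) ≤ u * (K : ℝ) ^ 2 := by nlinarith
    have e : (v / 2 * (K : ℝ)) ^ 2 = 4 * (u * (K : ℝ) ^ 2) := by
      rw [hu]
      ring
    rw [e]
    have h6 : 0 ≤ u * (K : ℝ) ^ 2 := by positivity
    linarith
  have hsq : ((Nat.sqrt ((b ^ 2 - 4 * a * c).natAbs + 4 * a.natAbs * pn K) : ℕ) : ℝ) ≤ v / 2 * K := by
    have h3 := Nat.sqrt_le' ((b ^ 2 - 4 * a * c).natAbs + 4 * a.natAbs * pn K)
    have h4 : ((Nat.sqrt ((b ^ 2 - 4 * a * c).natAbs + 4 * a.natAbs * pn K) : ℕ) : ℝ) ^ 2 ≤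
        (((b ^ 2 - 4 * a * c).natAbs + 4 * a.natAbs * pn K : ℕ) : ℝ) := by exact_mod_cast h3
    exact abs_le_of_sq_le_sq' (h4.trans hM) (by positivity) |>.2
  rw [Nat.cast_add, Nat.cast_one]
  linarith

/-- the admissible arguments -/
def AdmQ (a b c : ℤ) (n : ℕ) : Prop := 0 ≤ a * (n : ℤ) ^ 2 + b * n + c ∧ (2 : ℤ) ∣ a * (n : ℤ) ^ 2 + b * n + c

open Classical in
lemma jq_low (a b c : ℤ) (ha : a ≠ 0) (w : ℕ) : ∃ K0 : ℕ, ∀ K : ℕ, K0 ≤ K → ∀ n : ℕ, AdmQ a b c n →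
    Vz w / 16 * K ≤ ((JQ a (fun _ => b) (cG c) (GG a b c) w K n).card : ℝ) := by
  have hVz0 : 0 < Vz w := by
    unfold Vz
    exact prod_pos fun p hp => (one_sub_pos (mem_pz.1 hp).2).1
  obtain ⟨K1, h1⟩ := jn_low (-1) w
  obtain ⟨K2, h2⟩ := few_sq_ev a b c ha (Vz w / 16) (by positivity)
  refine ⟨K1 + K2 + 1, ?_⟩
  intro K hK n hn
  obtain ⟨N, hN⟩ : ∃ N : ℕ, (N : ℤ) = a * (n : ℤ) ^ 2 + b * n + c :=
    ⟨(a * (n : ℤ) ^ 2 + b * n + c).toNat, Int.toNat_of_nonneg hn.1⟩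
  have h3 := h1 K (by omega) N (by
    refine ⟨by simp, ?_⟩
    intro h4
    have h5 := hn.2
    rw [← hN] at h5
    omega)
  have h4 := h2 K (by omega)
  have h5 := few_sq a b c ha K (by omega)
  have hsub : Jn (fun _ => 1) (fun j => (-1 : ℤ) * pn j) w K N ⊆
      JQ a (fun _ => b) (cG c) (GG a b c) w K n ∪ (Icc 1 K).filter (fun j => ¬ GG a b c j) := by
    intro j hj
    unfold Jn at hj
    rw [mem_filter] at hj
    rw [mem_union]
    by_cases hG : GG a b c j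
    · left
      unfold JQ
      rw [mem_filter]
      refine ⟨hj.1, hG, ?_⟩
      intro p hp hpw hd
      apply hj.2 p hp hpw
      have h6 : (p : ℤ) ∣ a * (n : ℤ) ^ 2 + b * n + cG c j := (DQ_iff a b (cG c j) p n).1 hd
      have e : ((1 : ℕ) : ℤ) * N + (-1 : ℤ) * pn j = a * (n : ℤ) ^ 2 + b * n + cG c j := by
        rw [hN]
        unfold cG
        push_cast
        ring
      rw [e]
      exact h6
    · right
      rw [mem_filter]
      exact ⟨hj.1, hG⟩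
  have h6 := (card_le_card hsub).trans (card_union_le _ _)
  have h7 : ((Jn (fun _ => 1) (fun j => (-1 : ℤ) * pn j) w K N).card : ℝ) ≤
      ((JQ a (fun _ => b) (cG c) (GG a b c) w K n).card : ℝ) + Vz w / 16 * K := by
    have h8 : ((Jn (fun _ => 1) (fun j => (-1 : ℤ) * pn j) w K N).card : ℝ) ≤
        ((JQ a (fun _ => b) (cG c) (GG a b c) w K n).card : ℝ) +
          (((Icc 1 K).filter (fun j => ¬ GG a b c j)).card : ℝ) := by exact_mod_cast h6
    have h9 : (((Icc 1 K).filter (fun j => ¬ GG a b c j)).card : ℝ) ≤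
        ((Nat.sqrt ((b ^ 2 - 4 * a * c).natAbs + 4 * a.natAbs * pn K) + 1 : ℕ) : ℝ) := by exact_mod_cast h5
    linarith
  linarith

set_option maxHeartbeats 1000000 in
open Classical in
/-- **Almost all even values of a quadratic polynomial are `P_R + p` with a tiny prime `p`.** -/
theorem mainGold (a b c : ℤ) (ha : a ≠ 0) (θ ε κ : ℝ) (R B : ℕ) (hθ : 0 < θ) (hθ1 : θ ≤ 1)
    (hR : 1 / 8 + 25 / (6 * θ) < R) (hκ : 0 < κ) (hε : 0 < ε) :
    ∀ᶠ X : ℕ in atTop, ∀ Z L K : ℕ, (X : ℝ) ^ θ ≤ L → Z + L ≤ X → Real.log X ^ (1 + κ) ≤ K →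
      (K : ℝ) ≤ Real.log X ^ B →
      (((Ioc Z (Z + L)).filter (fun n => AdmQ a b c n ∧
        (cntQ a (fun _ => b) (cG c) (GG a b c) R K n ((X : ℝ) ^ (θ / 10)) : ℝ) * Real.log X ^ (1 + κ) < K)).card : ℝ)
        ≤ ε * L := by
  refine mainQ (datGold a b c ha) (AdmQ a b c) ?_ θ ε κ R B hθ hθ1 hR hκ hε
  intro η hη
  obtain ⟨C, K1, hC, hex⟩ := exc3_pn
  obtain ⟨cz, C', hcz, hC', hV⟩ := Vz_bounds
  have ev := logpow_rpow 2 (256 * C / (η * cz ^ 2)) (1 / 2) (by positivity) (by norm_num)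
  obtain ⟨w, hw1, hw2⟩ := (ev.and (eventually_ge_atTop ((2 * a).natAbs + 126))).exists
  have hw0 : (0 : ℝ) < w := by exact_mod_cast (by omega : 0 < w)
  have hlw : 0 < Real.log w := Real.log_pos (by exact_mod_cast (by omega : 1 < w))
  have hVz : cz / Real.log w ≤ Vz w := (hV w (by omega)).1
  have hVz0 : 0 < Vz w := lt_of_lt_of_le (by positivity) hVz
  obtain ⟨K2, hlow⟩ := jq_low a b c ha w
  refine ⟨w, K1 + K2, Vz w / 16, by omega, by omega, by positivity, ?_⟩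
  intro K hK
  constructor
  · intro y
    refine (exGold a b c w K y).trans ((hex K (by omega) w y (by omega)).trans ?_)
    have hs0 : 0 < √(w : ℝ) := Real.sqrt_pos.2 hw0
    rw [← Real.sqrt_eq_rpow] at hw1
    have a1 : (cz / Real.log w) ^ 2 ≤ Vz w ^ 2 := pow_le_pow_left₀ (by positivity) hVz 2
    have a2 : C / √(w : ℝ) ≤ η * (Vz w / 16) ^ 2 := by
      rw [div_le_iff₀ hs0]
      rw [div_mul_eq_mul_div, div_le_iff₀ (by positivity)] at hw1
      have a3 : cz ^ 2 ≤ Vz w ^ 2 * Real.log w ^ 2 := by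
        rw [div_pow, div_le_iff₀ (by positivity)] at a1
        exact a1
      have a4 : 256 * C * Real.log w ^ 2 ≤ √(w : ℝ) * (η * (Vz w ^ 2 * Real.log w ^ 2)) := by
        refine hw1.trans ?_
        apply mul_le_mul_of_nonneg_left _ hs0.le
        exact mul_le_mul_of_nonneg_left a3 hη.le
      have a5 : √(w : ℝ) * (η * (Vz w ^ 2 * Real.log w ^ 2)) =
          256 * (η * (Vz w / 16) ^ 2 * √(w : ℝ)) * Real.log w ^ 2 := by ring
      rw [a5] at a4
      have a6 : 0 < Real.log w ^ 2 := by positivity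
      have a7 := le_of_mul_le_mul_right a4 a6
      linarith
    calc C * (K : ℝ) ^ 2 / √(w : ℝ) = C / √(w : ℝ) * (K : ℝ) ^ 2 := by ring
      _ ≤ η * (Vz w / 16) ^ 2 * (K : ℝ) ^ 2 := mul_le_mul_of_nonneg_right a2 (sq_nonneg _)
      _ = η * (Vz w / 16 * K) ^ 2 := by ring
  · intro n hn
    exact hlow K (by omega) n hn

end Pool.Agent.L0h41.QN
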