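import Pool.Agent.N753.LS.Weil
import Pool.Agent.H373R2.T7.Cnt
import Pool.Agent.L0h41.QN.I
import Pool.Agent.L0h41.PE.E

set_option autoImplicit false

/-!
# Square values of polynomials have density zero
-/

namespace Pool.Agent.L0h41.QN

open Finset Polynomial

/-- the square part of a polynomial -/
lemma sq_decomp : ∀ (n : ℕ) (D : ℚ[X]), D.natDegree ≤ n → D ≠ 0 → ∃ q D1 : ℚ[X], D = q ^ 2 * D1 ∧ Squarefree D1 := by
  intro n
  induction n using Nat.strong_induction_on with
  | _ n ih =>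
    intro D hn hD
    by_cases hs : Squarefree D
    · exact ⟨1, D, by ring, hs⟩
    · unfold Squarefree at hs
      push Not at hs
      obtain ⟨x, ⟨E, hE⟩, hx⟩ := hs
      have hx0 : x ≠ 0 := by
        rintro rfl
        apply hD
        rw [hE]
        ring
      have hE0 : E ≠ 0 := by
        rintro rfl
        apply hD
        rw [hE]
        ring
      have hdx : 1 ≤ x.natDegree := by
        by_contra hc
        apply hx
        rw [isUnit_iff_degree_eq_zero, degree_eq_natDegree hx0]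
        have : x.natDegree = 0 := by omega
        rw [this]
        rfl
      have hdeg : D.natDegree = x.natDegree + x.natDegree + E.natDegree := by
        rw [hE, natDegree_mul (mul_ne_zero hx0 hx0) hE0, natDegree_mul hx0 hx0]
      obtain ⟨q, D1, h1, h2⟩ := ih E.natDegree (by omega) E le_rfl hE0
      exact ⟨x * q, D1, by rw [hE, h1]; ring, h2⟩

/-- the decomposition over the integers -/
lemma sq_decompZ (D : ℤ[X]) (hD : D ≠ 0) : ∃ (m : ℤ) (q f : ℤ[X]), m ≠ 0 ∧ q ≠ 0 ∧ C m * D = q ^ 2 * f ∧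
    Squarefree (f.map (Int.castRingHom ℚ)) := by
  have hinj : Function.Injective (Int.castRingHom ℚ) := RingHom.injective_int _
  have hD' : D.map (Int.castRingHom ℚ) ≠ 0 := (Polynomial.map_ne_zero_iff hinj).2 hD
  obtain ⟨q, D1, h1, h2⟩ := sq_decomp _ _ le_rfl hD'
  obtain ⟨k, Q, hk, hQ⟩ := Pool.Agent.L0h41.PE.clear_den q
  obtain ⟨l, F, hl, hF⟩ := Pool.Agent.L0h41.PE.clear_den D1
  have hkq : (k : ℚ) ≠ 0 := by exact_mod_cast hk
  have hlq : (l : ℚ) ≠ 0 := by exact_mod_cast hl
  have hq0 : q ≠ 0 := by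
    rintro rfl
    apply hD'
    rw [h1]
    ring
  refine ⟨k ^ 2 * l, Q, F, mul_ne_zero (pow_ne_zero 2 hk) hl, ?_, ?_, ?_⟩
  · rintro rfl
    rw [Polynomial.map_zero] at hQ
    rcases mul_eq_zero.1 hQ.symm with h | h
    · exact hkq (C_eq_zero.1 h)
    · exact hq0 h
  · apply Polynomial.map_injective (Int.castRingHom ℚ) hinj
    rw [Polynomial.map_mul, Polynomial.map_mul, Polynomial.map_pow, hQ, hF, h1, Polynomial.map_C]
    simp only [eq_intCast, Int.cast_mul, Int.cast_pow, C_mul, C_pow]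
    ring
  · rw [hF]
    have hu : IsUnit (C (l : ℚ)) := isUnit_C.2 (isUnit_iff_ne_zero.2 hlq)
    exact (Associated.squarefree_iff (associated_unit_mul_left D1 (C (l : ℚ)) hu)).2 h2

/-- independence of the decidability instance -/
lemma card_inst {α : Type*} (s : Finset α) (P : α → Prop) (i1 i2 : DecidablePred P) :
    (@Finset.filter α P i1 s).card = (@Finset.filter α P i2 s).card := by
  rw [Subsingleton.elim i1 i2]

open Classical in
/-- few square values modulo large primes -/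
lemma class_bound (F : ℤ[X]) (hF : Squarefree (F.map (Int.castRingHom ℚ))) (hd : 1 ≤ F.natDegree) :
    ∃ P0 : ℕ, ∀ p : ℕ, p.Prime → P0 ≤ p →
      (((range p).filter (fun a : ℕ => ∃ w : ZMod p, ((F.eval (a : ℤ) : ℤ) : ZMod p) = w ^ 2)).card : ℝ) ≤
        2 / 3 * p := by
  obtain ⟨M, hM, HW⟩ := Pool.Agent.N753.LS.weil_two F.natDegree
  have hsep : (F.map (Int.castRingHom ℚ)).Separable := by
    rw [PerfectField.separable_iff_squarefree]
    exact hF
  have hcop : IsCoprime (F.map (Int.castRingHom ℚ)) ((derivative F).map (Int.castRingHom ℚ)) := by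
    rw [← derivative_map]
    exact hsep
  obtain ⟨u, v, N, hbez, hN⟩ := Pool.Agent.L0h41.PE.exists_bez F (derivative F) hcop
  have hF0 : F ≠ 0 := by
    rintro rfl
    simp at hd
  refine ⟨N.natAbs + F.leadingCoeff.natAbs + 3 + ⌈36 * M ^ 2⌉₊, ?_⟩
  intro p hp hpP
  have : Fact p.Prime := ⟨hp⟩
  have hpr : (0 : ℝ) < p := by exact_mod_cast hp.pos
  have hNp : ((N : ℤ) : ZMod p) ≠ 0 := by
    intro h
    have h1 : (p : ℤ) ∣ N := (ZMod.intCast_zmod_eq_zero_iff_dvd N p).1 h
    have h2 := Nat.le_of_dvd (Int.natAbs_pos.2 hN) (Int.natCast_dvd.1 h1)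
    omega
  have hlp : ((F.leadingCoeff : ℤ) : ZMod p) ≠ 0 := by
    intro h
    have h1 : (p : ℤ) ∣ F.leadingCoeff := (ZMod.intCast_zmod_eq_zero_iff_dvd _ p).1 h
    have h2 := Nat.le_of_dvd (Int.natAbs_pos.2 (leadingCoeff_ne_zero.2 hF0)) (Int.natCast_dvd.1 h1)
    omega
  obtain ⟨f, hf⟩ : ∃ f : (ZMod p)[X], f = F.map (Int.castRingHom (ZMod p)) := ⟨_, rfl⟩
  have hdf : f.natDegree = F.natDegree := by
    rw [hf]
    apply natDegree_map_of_leadingCoeff_ne_zero
    rw [eq_intCast]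
    exact hlp
  have hbez' : (u.map (Int.castRingHom (ZMod p))) * f + (v.map (Int.castRingHom (ZMod p))) * derivative f =
      C ((N : ℤ) : ZMod p) := by
    have h := congrArg (Polynomial.map (Int.castRingHom (ZMod p))) hbez
    rw [Polynomial.map_add, Polynomial.map_mul, Polynomial.map_mul, Polynomial.map_C, ← derivative_map, ← hf,
      eq_intCast] at h
    exact h
  have hns : ∀ (c : ZMod p) (h : (ZMod p)[X]), f ≠ C c * h ^ 2 := by
    intro c h hfe
    have h1 : h ∣ C ((N : ℤ) : ZMod p) := by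
      rw [← hbez']
      apply dvd_add
      · apply Dvd.dvd.mul_left
        rw [hfe]
        exact ⟨C c * h, by ring⟩
      · apply Dvd.dvd.mul_left
        rw [hfe, derivative_mul, derivative_C, zero_mul, zero_add, derivative_pow]
        exact ⟨C c * (C ((2 : ℕ) : ZMod p) * derivative h), by simp; ring⟩
    have h2 : h.natDegree = 0 := by
      obtain ⟨g, hg⟩ := h1
      have h3 : C ((N : ℤ) : ZMod p) ≠ 0 := fun h => hNp (C_eq_zero.1 h)
      have h4 : h ≠ 0 := by
        rintro rfl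
        apply h3
        rw [hg, zero_mul]
      have h5 : g ≠ 0 := by
        rintro rfl
        apply h3
        rw [hg, mul_zero]
      have h6 := congrArg natDegree hg
      rw [natDegree_C, natDegree_mul h4 h5] at h6
      omega
    have h3 : f.natDegree = 0 := by
      rw [hfe, eq_C_of_natDegree_eq_zero h2, ← C_pow, ← C_mul, natDegree_C]
    omega
  have hcard : Fintype.card (ZMod p) = p := ZMod.card p
  have hodd : Fintype.card (ZMod p) % 2 = 1 := by
    rw [hcard]
    rcases hp.eq_two_or_odd with h | h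
    · omega
    · exact h
  have hw := HW (ZMod p) f hodd (by omega) (by omega) hns 1 one_ne_zero
  rw [hcard] at hw
  have h1 : ((range p).filter (fun a : ℕ => ∃ w : ZMod p, ((F.eval (a : ℤ) : ℤ) : ZMod p) = w ^ 2)).card ≤
      (univ.filter fun x : ZMod p => f.eval x = 0 ∨ ∃ w : ZMod p, f.eval x = 1 * w ^ 2).card := by
    apply card_le_card_of_injOn (fun a : ℕ => (a : ZMod p))
    · intro a ha
      rw [mem_coe, mem_filter] at ha ⊢
      refine ⟨mem_univ _, Or.inr ?_⟩
      obtain ⟨w, hw⟩ := ha.2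
      refine ⟨w, ?_⟩
      rw [one_mul, ← hw, hf]
      have h4 : eval ((a : ℤ) : ZMod p) (F.map (Int.castRingHom (ZMod p))) =
          ((F.eval (a : ℤ) : ℤ) : ZMod p) := by
        have := eval_map_apply (Int.castRingHom (ZMod p)) (p := F) (a : ℤ)
        simpa using this
      rw [← h4]
      congr 1
      push_cast
      rfl
    · intro a ha b hb hab
      rw [mem_coe, mem_filter, mem_range] at ha hb
      have h1 : (a : ZMod p) = b := hab
      rw [ZMod.natCast_eq_natCast_iff'] at h1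
      rwa [Nat.mod_eq_of_lt ha.1, Nat.mod_eq_of_lt hb.1] at h1
  have h2 : M * √(p : ℝ) ≤ p / 6 := by
    have h3 : 36 * M ^ 2 ≤ p := by
      have h4 := Nat.le_ceil (36 * M ^ 2)
      have h5 : ((⌈36 * M ^ 2⌉₊ : ℕ) : ℝ) ≤ p := by exact_mod_cast (by omega : ⌈36 * M ^ 2⌉₊ ≤ p)
      linarith
    have h4 : 6 * M ≤ √(p : ℝ) := by
      apply Real.le_sqrt_of_sq_le
      have e : (6 * M) ^ 2 = 36 * M ^ 2 := by ring
      rw [e]
      exact h3
    have h5 : √(p : ℝ) * √(p : ℝ) = p := Real.mul_self_sqrt hpr.le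
    have h6 := mul_le_mul_of_nonneg_right h4 (Real.sqrt_nonneg (p : ℝ))
    linarith
  have h3 : (((range p).filter (fun a : ℕ => ∃ w : ZMod p, ((F.eval (a : ℤ) : ℤ) : ZMod p) = w ^ 2)).card : ℝ) ≤
      ((univ.filter fun x : ZMod p => f.eval x = 0 ∨ ∃ w : ZMod p, f.eval x = 1 * w ^ 2).card : ℝ) := by
    exact_mod_cast h1
  have h4 : ((univ.filter fun x : ZMod p => f.eval x = 0 ∨ ∃ w : ZMod p, f.eval x = 1 * w ^ 2).card : ℝ) ≤
      p / 2 + M * √(p : ℝ) := by
    refine le_trans (le_of_eq ?_) hw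
    rw [card_inst _ _ _ _]
  refine le_trans (le_of_eq ?_) (le_trans h3 (h4.trans (by linarith : (p : ℝ) / 2 + M * √(p : ℝ) ≤ 2 / 3 * p)))
  rw [card_inst _ _ _ _]

/-- the roots in an interval -/
lemma roots_card (q : ℤ[X]) (hq : q ≠ 0) (K : ℕ) :
    ((Icc 1 K).filter (fun j : ℕ => q.eval (j : ℤ) = 0)).card ≤ q.natDegree := by
  classical
  refine le_trans ?_ ((Multiset.toFinset_card_le _).trans (card_roots' q))
  apply card_le_card_of_injOn (fun j : ℕ => (j : ℤ))
  · intro j hj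
    rw [mem_coe, mem_filter] at hj
    rw [mem_coe, Multiset.mem_toFinset, mem_roots hq]
    exact hj.2
  · intro i _ j _ hij
    have h : (i : ℤ) = (j : ℤ) := hij
    exact_mod_cast h

open Classical in
/-- **The arguments at which a polynomial, not the square of a polynomial, is a perfect square.** -/
theorem sq_density (D : ℤ[X]) (hns : ¬ IsSquare (D.map (Int.castRingHom ℚ))) (δ : ℝ) (hδ : 0 < δ) :
    ∃ K0 : ℕ, ∀ K : ℕ, K0 ≤ K →
      (((Icc 1 K).filter (fun j : ℕ => IsSquare (D.eval (j : ℤ)))).card : ℝ) ≤ δ * K := by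
  have hD : D ≠ 0 := by
    rintro rfl
    apply hns
    rw [Polynomial.map_zero]
    exact ⟨0, by ring⟩
  obtain ⟨m, q, f, hm, hq, he, hf⟩ := sq_decompZ D hD
  obtain ⟨F, hFd⟩ : ∃ F, F = C m * f := ⟨_, rfl⟩
  have hmq : (m : ℚ) ≠ 0 := by exact_mod_cast hm
  have hFs : Squarefree (F.map (Int.castRingHom ℚ)) := by
    rw [hFd, Polynomial.map_mul, Polynomial.map_C, eq_intCast]
    have hu : IsUnit (C (m : ℚ)) := isUnit_C.2 (isUnit_iff_ne_zero.2 hmq)
    exact (Associated.squarefree_iff (associated_unit_mul_left _ (C (m : ℚ)) hu)).2 hf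
  -- the square values
  have hkey : ∀ j : ℤ, q.eval j ≠ 0 → IsSquare (D.eval j) → IsSquare (F.eval j) := by
    intro j hj hs
    by_contra hF
    apply nsq_mul (q.eval j) (F.eval j) hj hF
    obtain ⟨s, hs⟩ := hs
    have h1 := congrArg (Polynomial.eval j) he
    rw [eval_mul, eval_C, eval_mul, eval_pow, hs] at h1
    refine ⟨m * s, ?_⟩
    rw [hFd, eval_mul, eval_C]
    linear_combination (-m) * h1
  rcases Nat.eq_zero_or_pos F.natDegree with hd | hd
  · -- constant square free part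
    have hnone : ∀ j : ℤ, q.eval j ≠ 0 → ¬ IsSquare (D.eval j) := by
      intro j hj hs
      obtain ⟨s, hs2⟩ := hkey j hj hs
      apply hns
      have hFc : F = C (s * s) := by
        rw [eq_C_of_natDegree_eq_zero hd, eval_C] at hs2
        rw [eq_C_of_natDegree_eq_zero hd, hs2]
      refine ⟨C ((s : ℚ) / m) * q.map (Int.castRingHom ℚ), ?_⟩
      have h1 : C m * (C m * D) = q ^ 2 * F := by
        rw [he, hFd]
        ring
      have h2 := congrArg (Polynomial.map (Int.castRingHom ℚ)) h1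
      rw [hFc, Polynomial.map_mul, Polynomial.map_mul, Polynomial.map_mul, Polynomial.map_pow, Polynomial.map_C,
        Polynomial.map_C, eq_intCast, eq_intCast] at h2
      have h3 : C ((m : ℚ) * m) ≠ 0 := fun h => (mul_ne_zero hmq hmq) (C_eq_zero.1 h)
      apply mul_left_cancel₀ h3
      have e1 : C ((m : ℚ) * m) * D.map (Int.castRingHom ℚ) = C (m : ℚ) * (C (m : ℚ) * D.map (Int.castRingHom ℚ)) := by
        rw [C_mul, mul_assoc]
      rw [e1, h2]
      have e2 : C ((m : ℚ) * m) * (C ((s : ℚ) / m) * q.map (Int.castRingHom ℚ) *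
          (C ((s : ℚ) / m) * q.map (Int.castRingHom ℚ))) =
          C ((m : ℚ) * m * (s / m) * (s / m)) * (q.map (Int.castRingHom ℚ)) ^ 2 := by
        obtain ⟨r, hr⟩ : ∃ r : ℚ, r = (s : ℚ) / m := ⟨_, rfl⟩
        rw [← hr, C_mul (a := (m : ℚ) * m * r) (b := r), C_mul (a := (m : ℚ) * m) (b := r)]
        ring
      rw [e2]
      have e3 : (m : ℚ) * m * (s / m) * (s / m) = s * s := by
        field_simp
      rw [e3]
      push_cast
      ring
    obtain ⟨K0, hK0⟩ := exists_nat_ge (q.natDegree / δ)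
    refine ⟨K0, fun K hK => ?_⟩
    have h1 : ((Icc 1 K).filter (fun j : ℕ => IsSquare (D.eval (j : ℤ)))).card ≤ q.natDegree := by
      refine le_trans (card_le_card ?_) (roots_card q hq K)
      intro j hj
      rw [mem_filter] at hj ⊢
      refine ⟨hj.1, ?_⟩
      by_contra h
      exact hnone j h hj.2
    have h2 : (q.natDegree : ℝ) ≤ δ * K := by
      rw [div_le_iff₀ hδ] at hK0
      have : (K0 : ℝ) ≤ K := by exact_mod_cast hK
      nlinarith
    have h3 : (((Icc 1 K).filter (fun j : ℕ => IsSquare (D.eval (j : ℤ)))).card : ℝ) ≤ q.natDegree := by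
      exact_mod_cast h1
    linarith
  · -- sieve
    obtain ⟨P0, hP0⟩ := class_bound F hFs hd
    obtain ⟨t, ht⟩ := exists_pow_lt_of_lt_one (half_pos hδ) (by norm_num : (2 / 3 : ℝ) < 1)
    have hinf : {p : ℕ | p.Prime ∧ P0 ≤ p}.Infinite := by
      intro hfin
      obtain ⟨B, hB⟩ := hfin.bddAbove
      obtain ⟨p, h1, h2⟩ := Nat.exists_infinite_primes (max (B + 1) P0)
      have := hB (show p ∈ {p : ℕ | p.Prime ∧ P0 ≤ p} from ⟨h2, (le_max_right _ _).trans h1⟩)
      have := (le_max_left (B + 1) P0).trans h1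
      omega
    obtain ⟨T, hT, hTc⟩ := hinf.exists_subset_card_eq t
    have hTp : ∀ p ∈ T, p.Prime ∧ P0 ≤ p := fun p hp => hT hp
    obtain ⟨c0, hc0⟩ : ∃ c0 : ℝ, c0 = ∏ p ∈ T, (((range p).filter (fun a : ℕ =>
      ∃ w : ZMod p, ((F.eval (a : ℤ) : ℤ) : ZMod p) = w ^ 2)).card : ℝ) := ⟨_, rfl⟩
    obtain ⟨K0, hK0⟩ := exists_nat_ge ((q.natDegree + c0) / (δ / 2))
    refine ⟨K0, fun K hK => ?_⟩
    have hKr : (K0 : ℝ) ≤ K := by exact_mod_cast hK
    have h1 := Pool.Agent.H373R2.T7.count_sys (fun p a => ∃ w : ZMod p, ((F.eval (a : ℤ) : ℤ) : ZMod p) = w ^ 2) K T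
      (fun p hp => (hTp p hp).1) 1 le_rfl (fun p hp hd => (hTp p hp).1.one_lt.ne' (Nat.dvd_one.1 hd)) 0
    have h2 := (abs_le.1 h1).2
    have h3 : ∏ p ∈ T, ((((range p).filter (fun a : ℕ =>
        ∃ w : ZMod p, ((F.eval (a : ℤ) : ℤ) : ZMod p) = w ^ 2)).card : ℝ) / p) ≤ (2 / 3) ^ t := by
      rw [← hTc, ← prod_const]
      apply Finset.prod_le_prod
      · intro p _
        positivity
      · intro p hp
        have hp0 : (0 : ℝ) < p := by exact_mod_cast (hTp p hp).1.pos
        rw [div_le_iff₀ hp0]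
        exact hP0 p (hTp p hp).1 (hTp p hp).2
    have h4 : (Icc 1 K).filter (fun j : ℕ => IsSquare (D.eval (j : ℤ))) ⊆
        (Icc 1 K).filter (fun j : ℕ => q.eval (j : ℤ) = 0) ∪
        (Icc 1 K).filter (fun n => n ≡ 0 [MOD 1] ∧
          ∀ p ∈ T, ∃ w : ZMod p, ((F.eval ((n % p : ℕ) : ℤ) : ℤ) : ZMod p) = w ^ 2) := by
      intro j hj
      rw [mem_filter] at hj
      rw [mem_union]
      by_cases hqj : q.eval (j : ℤ) = 0
      · left
        rw [mem_filter]
        exact ⟨hj.1, hqj⟩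
      · right
        rw [mem_filter]
        refine ⟨hj.1, Nat.modEq_one, ?_⟩
        intro p hp
        obtain ⟨s, hs⟩ := hkey j hqj hj.2
        refine ⟨(s : ZMod p), ?_⟩
        have h5 : ((F.eval ((j % p : ℕ) : ℤ) : ℤ) : ZMod p) = ((F.eval (j : ℤ) : ℤ) : ZMod p) := by
          rw [ZMod.intCast_eq_intCast_iff_dvd_sub]
          have h6 := F.sub_dvd_eval_sub (j : ℤ) ((j % p : ℕ) : ℤ)
          refine dvd_trans ?_ h6
          have h7 : (p : ℤ) ∣ (j : ℤ) - ((j % p : ℕ) : ℤ) := by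
            rw [Int.natCast_mod]
            exact Int.dvd_self_sub_emod
          exact h7
        rw [h5, hs]
        push_cast
        ring
    have h5 := (card_le_card h4).trans (card_union_le _ _)
    have h6 := roots_card q hq K
    have h7 : (((Icc 1 K).filter (fun j : ℕ => IsSquare (D.eval (j : ℤ)))).card : ℝ) ≤
        q.natDegree + (((Icc 1 K).filter (fun n => n ≡ 0 [MOD 1] ∧
          ∀ p ∈ T, ∃ w : ZMod p, ((F.eval ((n % p : ℕ) : ℤ) : ℤ) : ZMod p) = w ^ 2)).card : ℝ) := by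
      have : ((Icc 1 K).filter (fun j : ℕ => IsSquare (D.eval (j : ℤ)))).card ≤
        q.natDegree + ((Icc 1 K).filter (fun n => n ≡ 0 [MOD 1] ∧
          ∀ p ∈ T, ∃ w : ZMod p, ((F.eval ((n % p : ℕ) : ℤ) : ℤ) : ZMod p) = w ^ 2)).card := by
        refine h5.trans ?_
        refine Nat.add_le_add_right ?_ _
        rw [card_inst _ _ _ _]
        exact h6
      exact_mod_cast this
    have hK0' : (0 : ℝ) ≤ K := Nat.cast_nonneg _
    have h8 : (K : ℝ) * ∏ p ∈ T, ((((range p).filter (fun a : ℕ =>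
        ∃ w : ZMod p, ((F.eval (a : ℤ) : ℤ) : ZMod p) = w ^ 2)).card : ℝ) / p) ≤ K * (δ / 2) :=
      mul_le_mul_of_nonneg_left (h3.trans ht.le) hK0'
    rw [Nat.cast_one, div_one, ← hc0] at h2
    have h9 : (q.natDegree : ℝ) + c0 ≤ δ / 2 * K := by
      rw [div_le_iff₀ (by positivity)] at hK0
      nlinarith
    have e9 : δ * (K : ℝ) = δ / 2 * K + K * (δ / 2) := by ring
    rw [e9]
    linarith

end Pool.Agent.L0h41.QN
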