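import Pool.Agent.L0h41.QN.S2

set_option autoImplicit false

/-!
# Families of quadratic polynomials with polynomial coefficients: the theorem
-/

namespace Pool.Agent.L0h41.QN

open Finset Filter Polynomial
open Pool.Agent.W123.RP Pool.Agent.H373R2.T7 Pool.Agent.W123.RU Pool.Agent.TH464.PO Pool.Agent.TH464.PW
open Pool.Agent.W23.DC Pool.Agent.Y882 Pool.Agent.Y882.KW Pool.Agent.Y882.SI Pool.Agent.Y882.PX
open Pool.Agent.Y879.AP Pool.Agent.R490.P3b Pool.Agent.R490.LGa Pool.Agent.R490.LGd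
open Pool.Agent.R490.LGe Pool.Agent.R490.GPg Pool.Agent.R490.GPh
open Pool.Agent.L0h41.LW

variable {a b c u v t : ℤ[X]} {N : ℤ}

open Classical in
/-- a row of the excess -/
lemma Fam.row (w0 D0 : ℕ) (hd : DatQ3 (ev a) (ev b) (ev c) (GD a b c) D0 (dx a b c) w0)
    (hne : ∀ p : ℕ, p.Prime → w0 < p → ∀ n : ℕ, (Phi a b c n).map (Int.castRingHom (ZMod p)) ≠ 0)
    (w y K j : ℕ) (hw : 2 ≤ w) (hw0 : w0 ≤ w) (hDw : 14 * (2 * dx a b c) ≤ w) (hj : j ∈ Icc 1 K) :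
    ∑ j' ∈ Icc 1 K, exQ3 (ev a) (ev b) (ev c) (GD a b c) w y j j' ≤
      K * (28 * ((2 * dx a b c : ℕ) : ℝ) / (w : ℝ)) +
        ((Vz (2 * (K + 1) ^ (4 * D0 + 2)))⁻¹) ^ (14 * (2 * dx a b c)) := by
  obtain ⟨D, hD⟩ : ∃ D, D = 2 * dx a b c := ⟨_, rfl⟩
  obtain ⟨M, hM⟩ : ∃ M, M = 2 * (K + 1) ^ (4 * D0 + 2) := ⟨_, rfl⟩
  have hj1 := mem_Icc.1 hj
  rw [← hD, ← hM]
  rw [← hD] at hDw
  have hVM : 0 ≤ ((Vz M)⁻¹) ^ (14 * D) := by
    apply pow_nonneg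
    rw [inv_nonneg]
    unfold Vz
    exact prod_nonneg fun p hp => (one_sub_pos (mem_pz.1 hp).2).1.le
  by_cases hG : GD a b c j
  · obtain ⟨J, hJ⟩ : ∃ J, J = (Icc 1 K).filter (fun j' => ¬ (prop3 (ev a) (ev b) (ev c) j j' ∨ ¬ GD a b c j ∨
      ¬ GD a b c j')) := ⟨_, rfl⟩
    have e1 : ∑ j' ∈ Icc 1 K, exQ3 (ev a) (ev b) (ev c) (GD a b c) w y j j' =
        ∑ j' ∈ J, (tE w y (Ev3 (ev a) (ev b) (ev c) j j') ^ 3 - 1) := by
      rw [hJ, sum_filter]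
      apply sum_congr rfl
      intro j' _
      unfold exQ3
      by_cases h : prop3 (ev a) (ev b) (ev c) j j' ∨ ¬ GD a b c j ∨ ¬ GD a b c j'
      · rw [if_pos h, if_neg (not_not.2 h)]
      · rw [if_neg h, if_pos h]
    rw [e1]
    have h1 := sum_tE w y M K D J (fun j' p => Ev3 (ev a) (ev b) (ev c) j j' p) (by
      intro j' hj' p hp _ hE
      rw [hJ, mem_filter] at hj'
      push Not at hj'
      have h2 := Ev3_le hd hj hj'.1 hG hj'.2.1 p hE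
      refine h2.trans ?_
      rw [hM]
      have h3 : 4 ≤ (K + 1) ^ 2 := by
        have : 2 ≤ K + 1 := by omega
        calc 4 = 2 ^ 2 := by norm_num
          _ ≤ (K + 1) ^ 2 := Nat.pow_le_pow_left this 2
      calc 8 * (K + 1) ^ (4 * D0) = 2 * ((K + 1) ^ (4 * D0) * 4) := by ring
        _ ≤ 2 * ((K + 1) ^ (4 * D0) * (K + 1) ^ 2) := Nat.mul_le_mul_left _ (Nat.mul_le_mul_left _ h3)
        _ = _ := by rw [← pow_add]) (by
      intro T hT
      have h2 := cnt_genQ (fun p r => Ev3 (ev a) (ev b) (ev c) j r p) (by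
        intro p n
        unfold Ev3
        apply exists_congr
        intro m
        rw [perJ a b c m p n]) K D T (by
        intro p hp
        have h3 := mem_Pw.1 (hT hp)
        refine ⟨h3.2.2, ?_⟩
        rw [hD]
        exact Fam.ev_card w0 D0 hd hne j hj1.1 p h3.2.2 (by omega) (by omega))
      refine le_trans ?_ h2
      have h3 : (J.filter (fun j' => ∀ p ∈ T, Ev3 (ev a) (ev b) (ev c) j j' p)).card ≤
          ((Icc 1 K).filter (fun j' => ∀ p ∈ T, Ev3 (ev a) (ev b) (ev c) j j' p)).card := by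
        apply card_le_card
        apply filter_subset_filter
        rw [hJ]
        exact filter_subset _ _
      exact_mod_cast h3)
    refine h1.trans ?_
    have h2 := prod_sq' w M D (by omega) hDw
    have h3 := prod_one' w M D
    have h4 : (K : ℝ) * (∏ p ∈ Pw w M, (1 + 14 * D / (p : ℝ) ^ 2) - 1) ≤ K * (28 * D / (w : ℝ)) :=
      mul_le_mul_of_nonneg_left h2 (Nat.cast_nonneg _)
    linarith
  · have e1 : ∑ j' ∈ Icc 1 K, exQ3 (ev a) (ev b) (ev c) (GD a b c) w y j j' = 0 := by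
      apply sum_eq_zero
      intro j' _
      unfold exQ3
      rw [if_pos (Or.inr (Or.inl hG))]
    rw [e1]
    positivity

/-- the excess on average -/
lemma Fam.exc (w0 D0 : ℕ) (hd : DatQ3 (ev a) (ev b) (ev c) (GD a b c) D0 (dx a b c) w0)
    (hne : ∀ p : ℕ, p.Prime → w0 < p → ∀ n : ℕ, (Phi a b c n).map (Int.castRingHom (ZMod p)) ≠ 0)
    (w : ℕ) (hw : 2 ≤ w) (hw0 : w0 ≤ w) (hDw : 14 * (2 * dx a b c) ≤ w) : ∃ K1 : ℕ, ∀ K : ℕ, K1 ≤ K → ∀ y : ℕ,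
    ∑ j ∈ Icc 1 K, ∑ j' ∈ Icc 1 K, exQ3 (ev a) (ev b) (ev c) (GD a b c) w y j j' ≤
      (28 * ((2 * dx a b c : ℕ) : ℝ) + 1) * (K : ℝ) ^ 2 / w := by
  obtain ⟨K1, h1⟩ := log_ev (4 * D0 + 2) (14 * (2 * dx a b c)) w (by omega)
  refine ⟨K1, fun K hK y => ?_⟩
  have h2 := h1 K hK
  have h3 : ∀ j ∈ Icc 1 K, ∑ j' ∈ Icc 1 K, exQ3 (ev a) (ev b) (ev c) (GD a b c) w y j j' ≤
      K * ((28 * ((2 * dx a b c : ℕ) : ℝ) + 1) / (w : ℝ)) := by
    intro j hj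
    have h4 := Fam.row w0 D0 hd hne w y K j hw hw0 hDw hj
    have e : (K : ℝ) * ((28 * ((2 * dx a b c : ℕ) : ℝ) + 1) / (w : ℝ)) =
        K * (28 * ((2 * dx a b c : ℕ) : ℝ) / (w : ℝ)) + K / (w : ℝ) := by ring
    rw [e]
    linarith
  refine (sum_le_sum h3).trans (le_of_eq ?_)
  rw [sum_const, nsmul_eq_mul, Nat.card_Icc, Nat.add_sub_cancel]
  ring

/-- the local conditions for an admissible `n` -/
lemma Fam.perN (n : ℕ) (hn : AdmF a b c n) :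
    PerB (fun p j => (p : ℤ) ∣ (Phi a b c n).eval (j : ℤ)) (dx a b c) := by
  classical
  refine ⟨fun p j => Pool.Agent.W123.RU.Poly.per1 (Phi a b c n) p j, fun p hp => ?_⟩
  obtain ⟨j, hj⟩ := hn p hp
  have h1 := Pool.Agent.L0h41.PE.roots_le (Phi a b c n) p hp (Pool.Agent.L0h41.PE.map_ne _ p hp (j : ℤ) hj)
  unfold nuB
  rw [card_inst _ _ _ _]
  exact h1.trans (Phi_deg a b c n)

lemma Fam.admN (n : ℕ) (hn : AdmF a b c n) (p : ℕ) (hp : p.Prime) :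
    nuB (fun p j => (p : ℤ) ∣ (Phi a b c n).eval (j : ℤ)) p < p := by
  obtain ⟨j, hj⟩ := hn p hp
  apply nuB_lt _ p (j % p) (Nat.mod_lt _ hp.pos)
  intro h
  exact hj ((Pool.Agent.W123.RU.Poly.per1 (Phi a b c n) p j).2 h)

/-- the average hypothesis -/
theorem Fam.avg (H : Fam a b c u v t N) (w0 D0 : ℕ)
    (hd : DatQ3 (ev a) (ev b) (ev c) (GD a b c) D0 (dx a b c) w0)
    (hne : ∀ p : ℕ, p.Prime → w0 < p → ∀ n : ℕ, (Phi a b c n).map (Int.castRingHom (ZMod p)) ≠ 0)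
    (η : ℝ) (hη : 0 < η) : ∃ (w K0 : ℕ) (δ : ℝ), 2 ≤ w ∧ w0 ≤ w ∧ 0 < δ ∧ ∀ K : ℕ, K0 ≤ K →
      (∀ y : ℕ, ∑ j ∈ Icc 1 K, ∑ j' ∈ Icc 1 K, exQ3 (ev a) (ev b) (ev c) (GD a b c) w y j j' ≤
        η * (δ * K) ^ 2) ∧
      (∀ n : ℕ, AdmF a b c n → δ * K ≤ (JQ3 (ev a) (ev b) (ev c) (GD a b c) w K n).card) := by
  classical
  obtain ⟨c0, hc0⟩ : ∃ c0, c0 = dx a b c := ⟨_, rfl⟩
  have hc01 : 1 ≤ c0 := by rw [hc0]; unfold dx; omega
  obtain ⟨Cx, hCx⟩ : ∃ Cx : ℝ, Cx = 28 * ((2 * dx a b c : ℕ) : ℝ) + 1 := ⟨_, rfl⟩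
  have hCx0 : 0 < Cx := by rw [hCx]; positivity
  obtain ⟨x0, Hc⟩ := cnt_low c0 hc01
  obtain ⟨κ, hκ, hlow⟩ := vq_low c0
  obtain ⟨cz, C, hcz, hC, hV⟩ := Vz_bounds
  have ev0 := logpow_rpow (2 * c0) (Cx * 64 / (η * κ ^ 2 * cz ^ (2 * c0))) 1 (by positivity) one_pos
  obtain ⟨w, hw1, hw2⟩ := (ev0.and (eventually_ge_atTop (x0 + w0 + 14 * (2 * dx a b c) + 14))).exists
  have hwr : (0 : ℝ) < w := by exact_mod_cast (by omega : 0 < w)
  have hlw : 0 < Real.log w := Real.log_pos (by exact_mod_cast (by omega : 1 < w))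
  have hVz : cz / Real.log w ≤ Vz w := (hV w (by omega)).1
  have hVz0 : 0 < Vz w := lt_of_lt_of_le (by positivity) hVz
  obtain ⟨v, hv⟩ : ∃ v : ℝ, v = κ * Vz w ^ c0 := ⟨_, rfl⟩
  have hv0 : 0 < v := by rw [hv]; positivity
  obtain ⟨K0, hK0⟩ := Hc w (by omega) v hv0
  obtain ⟨K1, hK1⟩ := Fam.exc w0 D0 hd hne w (by omega) (by omega) (by omega)
  obtain ⟨K2, hK2⟩ := H.sq (v / 8) (by positivity)
  refine ⟨w, K0 + K1 + K2, v / 8, by omega, by omega, by positivity, ?_⟩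
  intro K hK
  constructor
  · intro y
    refine (hK1 K (by omega) y).trans ?_
    rw [← hCx]
    have a1 : (cz / Real.log w) ^ c0 ≤ Vz w ^ c0 := pow_le_pow_left₀ (by positivity) hVz c0
    have a2 : κ * (cz / Real.log w) ^ c0 ≤ v := by
      rw [hv]
      exact mul_le_mul_of_nonneg_left a1 hκ.le
    have a3 : (κ * (cz / Real.log w) ^ c0) ^ 2 ≤ v ^ 2 := pow_le_pow_left₀ (by positivity) a2 2
    have a4 : (κ * (cz / Real.log w) ^ c0) ^ 2 = κ ^ 2 * cz ^ (2 * c0) / Real.log w ^ (2 * c0) := by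
      rw [mul_pow, ← pow_mul, div_pow, mul_comm c0 2]
      ring
    rw [a4] at a3
    rw [Real.rpow_one] at hw1
    have a5 : Cx / w ≤ η * (v / 8) ^ 2 := by
      have b1 : Cx * 64 * Real.log w ^ (2 * c0) ≤ w * (η * κ ^ 2 * cz ^ (2 * c0)) := by
        rw [div_mul_eq_mul_div, div_le_iff₀ (by positivity)] at hw1
        exact hw1
      have b2 : Cx * 64 / w ≤ η * (κ ^ 2 * cz ^ (2 * c0) / Real.log w ^ (2 * c0)) := by
        rw [div_le_iff₀ hwr]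
        have e : η * (κ ^ 2 * cz ^ (2 * c0) / Real.log w ^ (2 * c0)) * w =
          w * (η * κ ^ 2 * cz ^ (2 * c0)) / Real.log w ^ (2 * c0) := by ring
        rw [e, le_div_iff₀ (by positivity)]
        exact b1
      have b3 := b2.trans (mul_le_mul_of_nonneg_left a3 hη.le)
      have b5 : Cx * 64 / w = 64 * (Cx / w) := by ring
      rw [b5] at b3
      nlinarith
    calc Cx * (K : ℝ) ^ 2 / w = Cx / w * (K : ℝ) ^ 2 := by ring
      _ ≤ η * (v / 8) ^ 2 * (K : ℝ) ^ 2 := mul_le_mul_of_nonneg_right a5 (sq_nonneg _)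
      _ = η * (v / 8 * K) ^ 2 := by ring
  · intro n hn
    have h1 := hK0 K (by omega) (fun p j => (p : ℤ) ∣ (Phi a b c n).eval (j : ℤ))
      (by rw [hc0]; exact Fam.perN n hn)
      (by rw [hv]; exact hlow _ (by rw [hc0]; exact Fam.perN n hn) (Fam.admN n hn) w)
    have h2 := hK2 K (by omega)
    have h3 : ((Ioc 0 K).filter (fun j => Sf (fun p j => (p : ℤ) ∣ (Phi a b c n).eval (j : ℤ)) w j)).card ≤
        (JQ3 (ev a) (ev b) (ev c) (GD a b c) w K n).card + ((Icc 1 K).filter (fun j : ℕ => ¬ GD a b c j)).card := by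
      refine le_trans (card_le_card ?_) (card_union_le _ _)
      intro j hj
      rw [mem_filter, mem_Ioc] at hj
      rw [mem_union]
      by_cases hG : GD a b c j
      · left
        unfold JQ3
        rw [mem_filter, mem_Icc]
        refine ⟨by omega, hG, ?_⟩
        intro p hp hpw hd2
        exact hj.2 p (mem_pz.2 ⟨hpw, hp⟩) ((FQ3_dvd a b c j n p).1 hd2)
      · right
        rw [mem_filter, mem_Icc]
        exact ⟨by omega, hG⟩
    have h4 : (((Ioc 0 K).filter (fun j => Sf (fun p j => (p : ℤ) ∣ (Phi a b c n).eval (j : ℤ)) w j)).card : ℝ) ≤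
        (JQ3 (ev a) (ev b) (ev c) (GD a b c) w K n).card +
          (((Icc 1 K).filter (fun j : ℕ => ¬ GD a b c j)).card : ℝ) := by exact_mod_cast h3
    linarith

open Classical in
/-- **Almost primes at small arguments for almost all members.** -/
theorem Fam.main (H : Fam a b c u v t N) (θ ε κ : ℝ) (R B : ℕ) (hθ : 0 < θ) (hθ1 : θ ≤ 1)
    (hR : 1 / 8 + 25 / (6 * θ) < R) (hκ : 0 < κ) (hε : 0 < ε) :
    ∀ᶠ X : ℕ in atTop, ∀ Z L K : ℕ, (X : ℝ) ^ θ ≤ L → Z + L ≤ X →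
      Real.log X ^ (1 + κ) ≤ K → (K : ℝ) ≤ Real.log X ^ B →
      (((Ioc Z (Z + L)).filter (fun n => AdmF a b c n ∧
        (cntQ3 (ev a) (ev b) (ev c) (GD a b c) R K n ((X : ℝ) ^ (θ / 10)) : ℝ) * Real.log X ^ (1 + κ) < K)).card : ℝ) ≤
          ε * L := by
  obtain ⟨w0, hw0, hne⟩ := H.phi_ne
  obtain ⟨D0, hd⟩ := H.dat w0 hw0
  exact mainQ3 hd (AdmF a b c) (fun η hη => H.avg w0 D0 hd hne η hη) θ ε κ R B hθ hθ1 hR hκ hε

end Pool.Agent.L0h41.QN
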