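import Pool.Agent.L0h41.QN.S3

set_option autoImplicit false

/-!
# Irreducible polynomials of degree two in `y` along `x + y = n`
-/

namespace Pool.Agent.L0h41.QN

open Finset Filter Polynomial
open scoped Polynomial.Bivariate

/-- a Bezout identity for three polynomials -/
lemma bez3 (A g h : ℤ[X]) (hrel : ∀ d : ℚ[X], d ∣ A.map (Int.castRingHom ℚ) → d ∣ g.map (Int.castRingHom ℚ) →
    d ∣ h.map (Int.castRingHom ℚ) → IsUnit d) :
    ∃ (u v t : ℤ[X]) (N : ℤ), u * A + v * g + t * h = C N ∧ N ≠ 0 := by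
  obtain ⟨A', hA'⟩ : ∃ A', A' = A.map (Int.castRingHom ℚ) := ⟨_, rfl⟩
  obtain ⟨g', hg'⟩ : ∃ g', g' = g.map (Int.castRingHom ℚ) := ⟨_, rfl⟩
  obtain ⟨h', hh'⟩ : ∃ h', h' = h.map (Int.castRingHom ℚ) := ⟨_, rfl⟩
  rw [← hA', ← hg', ← hh'] at hrel
  have hcop : IsCoprime (EuclideanDomain.gcd A' g') h' := by
    apply IsRelPrime.isCoprime
    intro d h1 h2
    exact hrel d (h1.trans (EuclideanDomain.gcd_dvd_left A' g')) (h1.trans (EuclideanDomain.gcd_dvd_right A' g')) h2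
  obtain ⟨r, s, hrs⟩ := hcop
  rw [EuclideanDomain.gcd_eq_gcd_ab] at hrs
  obtain ⟨D1, u1, hD1, hu1⟩ := Pool.Agent.L0h41.PE.clear_den (r * EuclideanDomain.gcdA A' g')
  obtain ⟨D2, v1, hD2, hv1⟩ := Pool.Agent.L0h41.PE.clear_den (r * EuclideanDomain.gcdB A' g')
  obtain ⟨D3, t1, hD3, ht1⟩ := Pool.Agent.L0h41.PE.clear_den s
  refine ⟨C (D2 * D3) * u1, C (D1 * D3) * v1, C (D1 * D2) * t1, D1 * D2 * D3, ?_,
    mul_ne_zero (mul_ne_zero hD1 hD2) hD3⟩
  apply map_injective (Int.castRingHom ℚ) Int.cast_injective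
  have ec : ∀ z : ℤ, Int.castRingHom ℚ z = (z : ℚ) := fun z => rfl
  rw [Polynomial.map_add, Polynomial.map_add, Polynomial.map_mul, Polynomial.map_mul, Polynomial.map_mul,
    Polynomial.map_mul, Polynomial.map_mul, Polynomial.map_mul, map_C, map_C, map_C, map_C, hu1, hv1, ht1,
    ← hA', ← hg', ← hh', ec, ec, ec, ec]
  push_cast
  simp only [C_mul]
  linear_combination (C (D1 : ℚ) * C (D2 : ℚ) * C (D3 : ℚ)) * hrs

/-- the family of a polynomial of degree two -/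
lemma fam_of (A g h : ℤ[X]) (hrel : ∀ d : ℚ[X], d ∣ A.map (Int.castRingHom ℚ) → d ∣ g.map (Int.castRingHom ℚ) →
    d ∣ h.map (Int.castRingHom ℚ) → IsUnit d)
    (hD : ¬ IsSquare ((g ^ 2 - 4 * A * h).map (Int.castRingHom ℚ)))
    (hnc : 0 < A.natDegree ∨ 0 < (g - 2 * X * A).natDegree ∨ 0 < (X ^ 2 * A - X * g + h).natDegree) :
    ∃ (u v t : ℤ[X]) (N : ℤ), Fam A (g - 2 * X * A) (X ^ 2 * A - X * g + h) u v t N := by
  obtain ⟨u, v, t, N, h1, h2⟩ := bez3 A g h hrel
  refine ⟨u + 2 * X * v + X ^ 2 * t, v + X * t, t, N, ?_, h2, ?_, hnc⟩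
  · rw [← h1]
    ring
  · have e : (g - 2 * X * A) ^ 2 - 4 * A * (X ^ 2 * A - X * g + h) = g ^ 2 - 4 * A * h := by ring
    rw [e]
    exact hD

/-- the value of a polynomial of degree two -/
lemma eval_two (f : ℤ[X][Y]) (hdeg : f.natDegree = 2) (x y : ℤ) :
    f.evalEval x y = (f.coeff 2).eval x * y ^ 2 + (f.coeff 1).eval x * y + (f.coeff 0).eval x := by
  unfold evalEval
  rw [eval_eq_sum_range (p := f), hdeg]
  simp [Finset.sum_range_succ]
  ring

/-- the shape of a polynomial of degree two -/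
lemma shape_two {K : Type*} [CommRing K] (F : K[X]) (hdeg : F.natDegree = 2) :
    F = C (F.coeff 2) * X ^ 2 + C (F.coeff 1) * X + C (F.coeff 0) := by
  conv_lhs => rw [F.as_sum_range_C_mul_X_pow, hdeg]
  simp [Finset.sum_range_succ]
  ring

/-- the consequences of irreducibility -/
lemma irr_two (f : ℤ[X][Y]) (hdeg : f.natDegree = 2)
    (hirr : Irreducible (f.map (mapRingHom (Int.castRingHom ℚ)))) :
    (∀ d : ℚ[X], d ∣ (f.coeff 2).map (Int.castRingHom ℚ) → d ∣ (f.coeff 1).map (Int.castRingHom ℚ) →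
      d ∣ (f.coeff 0).map (Int.castRingHom ℚ) → IsUnit d) ∧
    ¬ IsSquare (((f.coeff 1) ^ 2 - 4 * f.coeff 2 * f.coeff 0).map (Int.castRingHom ℚ)) := by
  have hinj : Function.Injective (Int.castRingHom ℚ) := RingHom.injective_int _
  have hinj2 : Function.Injective (mapRingHom (Int.castRingHom ℚ)) := map_injective _ hinj
  obtain ⟨F, hF⟩ : ∃ F, F = f.map (mapRingHom (Int.castRingHom ℚ)) := ⟨_, rfl⟩
  have hFd : F.natDegree = 2 := by rw [hF, natDegree_map_eq_of_injective hinj2, hdeg]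
  have hFs := shape_two F hFd
  have c2 : F.coeff 2 = (f.coeff 2).map (Int.castRingHom ℚ) := by rw [hF, coeff_map]; rfl
  have c1 : F.coeff 1 = (f.coeff 1).map (Int.castRingHom ℚ) := by rw [hF, coeff_map]; rfl
  have c0 : F.coeff 0 = (f.coeff 0).map (Int.castRingHom ℚ) := by rw [hF, coeff_map]; rfl
  have hF0 : F ≠ 0 := by
    intro h
    rw [h, natDegree_zero] at hFd
    omega
  have hA : F.coeff 2 ≠ 0 := by
    have := leadingCoeff_ne_zero.2 hF0
    unfold leadingCoeff at this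
    rwa [hFd] at this
  rw [← hF] at hirr
  constructor
  · intro d h2 h1 h0
    rw [← c2] at h2
    rw [← c1] at h1
    rw [← c0] at h0
    obtain ⟨r2, h2⟩ := h2
    obtain ⟨r1, h1⟩ := h1
    obtain ⟨r0, h0⟩ := h0
    have e : F = C d * (C r2 * X ^ 2 + C r1 * X + C r0) := by
      conv_lhs => rw [hFs, h2, h1, h0]
      simp only [C_mul]
      ring
    rcases hirr.isUnit_or_isUnit e with h | h
    · exact isUnit_C.1 h
    · exfalso
      have h3 := natDegree_eq_zero_of_isUnit h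
      rw [e] at hFd
      have h4 := natDegree_C_mul_le d (C r2 * X ^ 2 + C r1 * X + C r0)
      omega
  · rintro ⟨s, hs⟩
    have hs2 : F.coeff 1 ^ 2 - 4 * F.coeff 2 * F.coeff 0 = s * s := by
      rw [c2, c1, c0, ← hs]
      simp
    have hpr := hirr.prime
    obtain ⟨a2, ha2⟩ : ∃ a2, a2 = F.coeff 2 := ⟨_, rfl⟩
    obtain ⟨a1, ha1⟩ : ∃ a1, a1 = F.coeff 1 := ⟨_, rfl⟩
    obtain ⟨a0, ha0⟩ : ∃ a0, a0 = F.coeff 0 := ⟨_, rfl⟩
    rw [← ha2, ← ha1, ← ha0] at hFs hs2
    rw [← ha2] at hA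
    have hdvd : F ∣ (C (2 * a2) * X + C (a1 - s)) * (C (2 * a2) * X + C (a1 + s)) := by
      refine ⟨C (4 * a2), ?_⟩
      have e := congrArg (C : ℚ[X] → ℚ[X][Y]) hs2
      simp only [C_mul, C_sub, C_pow] at e
      rw [hFs]
      simp only [C_mul, C_sub, C_add]
      have e4 : (C (4 : ℚ[X]) : ℚ[X][Y]) = 4 := rfl
      have e2 : (C (2 : ℚ[X]) : ℚ[X][Y]) = 2 := rfl
      rw [e4] at e ⊢
      rw [e2]
      linear_combination e
    have h2a : (2 : ℚ[X]) * a2 ≠ 0 := mul_ne_zero two_ne_zero hA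
    have hlin : ∀ r : ℚ[X], (C (2 * a2) * X + C r : ℚ[X][Y]).natDegree = 1 := fun r => natDegree_linear h2a
    rcases hpr.dvd_or_dvd hdvd with h | h
    · have h0 : (C (2 * a2) * X + C (a1 - s) : ℚ[X][Y]) ≠ 0 := by
        intro h1
        have := hlin (a1 - s)
        rw [h1, natDegree_zero] at this
        omega
      have h1 := natDegree_le_of_dvd h h0
      rw [hlin, hFd] at h1
      omega
    · have h0 : (C (2 * a2) * X + C (a1 + s) : ℚ[X][Y]) ≠ 0 := by
        intro h1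
        have := hlin (a1 + s)
        rw [h1, natDegree_zero] at this
        omega
      have h1 := natDegree_le_of_dvd h h0
      rw [hlin, hFd] at h1
      omega

end Pool.Agent.L0h41.QN
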